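import Pool.Agent.Ortho.Geo

set_option autoImplicit false

/-!
# Ortho/UTurn: adjacent bricks do not both have a neighbour in the same lateral direction

Suppose `c` is the neighbour of `p` at `(a, s)`, `a' ≠ a`, `i` the neighbour of `p` at `(a', s')` and `j` the neighbour of `c` at `(a', s')`.
Let `a''` be the third axis. By `nb_coord`: the intervals of `i` are those of `p` for `a`, `a''`, and `bd_i a' (!s') = bd_p a' s'`; the
intervals of `j` are those of `c` for `a`, `a''`, `bd_j a' (!s') = bd_c a' s' = bd_p a' s'` (as `a' ≠ a`); the intervals of `c` and `p` agree for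
`a''`, and `bd_c a (!s) = bd_p a s`. Hence `b_i ∩ b_j` contains all points `x` with `x a = bd_p a s`, `x a''` in the common interval and
`x a'` in an interval `[bd_p a' s', bd_p a' s' ± ε]`: two coordinates are not constant on it.
* `i ≠ j`: otherwise `b_i` would have both intervals for `a` (below and above `bd_p a s`), contradiction (`lo_i a = lo_p a`, `hi_i a = hi_p a`
  and `lo_i a = lo_c a`, ..., but `bd_c a (!s) = bd_p a s` and `lo < hi`).
* if `i, j` are adjacent in the tree, then `p, i, j, c` is a cycle of length four in a tree (`p ≠ j`: `j = p` would be a neighbour of `c`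
  at `(a', s')` and at `(a, !s)`, against `nb_face_unique`; similarly `c ≠ i`): contradiction, e.g. the two paths
  `p, i, j` and `p, c, j` (`IsTree.existsUnique_path` or `IsAcyclic.path_unique`).
* otherwise `nonadj i j`: the intersection is not empty, and it is an edge or a vertex: at most one coordinate is not constant: contradiction.
-/

namespace Pool.Agent.Ortho.Orthotree

variable {n : ℕ} (P : Orthotree n)

theorem no_uturn {p c i j : Fin n} {a a' : Fin 3} {s s' : Bool} (h : P.Nb p a s c) (haa : a' ≠ a)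
    (hi : P.Nb p a' s' i) (hj : P.Nb c a' s' j) : False := by
  obtain ⟨h1, h2, h3⟩ := P.nb_coord h
  obtain ⟨i1, i2, -⟩ := P.nb_coord hi
  obtain ⟨j1, j2, -⟩ := P.nb_coord hj
  have hpj : p ≠ j := by
    rintro rfl
    exact haa (P.nb_face_unique hj h3).1
  have hci : i ≠ c := by
    rintro rfl
    exact haa (P.nb_face_unique hi h).1
  obtain ⟨ia, ia'⟩ := i2 a haa.symm
  obtain ⟨ja, ja'⟩ := j2 a haa.symm
  obtain ⟨ca, ca'⟩ := h2 a' haa
  have hlt : ∀ y, y ≠ a → max ((P.b i).lo y) ((P.b j).lo y) < min ((P.b i).hi y) ((P.b j).hi y) := by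
    intro y hy
    have l1 := (P.b i).lt y
    have l2 := (P.b j).lt y
    rw [max_lt_iff, lt_min_iff, lt_min_iff]
    by_cases hy' : y = a'
    · subst hy'
      cases s'
      · simp only [Brick.bd, Bool.not_false, if_true, Bool.false_eq_true, if_false] at i1 j1
        refine ⟨⟨?_, ?_⟩, ?_, ?_⟩ <;> linarith
      · simp only [Brick.bd, Bool.not_true, if_true, Bool.false_eq_true, if_false] at i1 j1
        refine ⟨⟨?_, ?_⟩, ?_, ?_⟩ <;> linarith
    · obtain ⟨k1, k2⟩ := i2 y hy'
      obtain ⟨k3, k4⟩ := j2 y hy'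
      obtain ⟨k5, k6⟩ := h2 y hy
      refine ⟨⟨?_, ?_⟩, ?_, ?_⟩ <;> linarith
  have hle : ∀ y, max ((P.b i).lo y) ((P.b j).lo y) ≤ min ((P.b i).hi y) ((P.b j).hi y) := by
    intro y
    by_cases hy : y = a
    · subst hy
      have l1 := (P.b p).lt y
      have l2 := (P.b c).lt y
      rw [max_le_iff, le_min_iff, le_min_iff]
      cases s
      · simp only [Brick.bd, Bool.not_false, if_true, Bool.false_eq_true, if_false] at h1
        refine ⟨⟨?_, ?_⟩, ?_, ?_⟩ <;> linarith
      · simp only [Brick.bd, Bool.not_true, if_true, Bool.false_eq_true, if_false] at h1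
        refine ⟨⟨?_, ?_⟩, ?_, ?_⟩ <;> linarith
    · exact (hlt y hy).le
  have hij : i ≠ j := by
    rintro rfl
    have l1 := (P.b p).lt a
    have l2 := (P.b c).lt a
    cases s
    · simp only [Brick.bd, Bool.not_false, if_true, Bool.false_eq_true, if_false] at h1
      linarith
    · simp only [Brick.bd, Bool.not_true, if_true, Bool.false_eq_true, if_false] at h1
      linarith
  -- two points of the intersection
  set u : E3 := WithLp.toLp 2 fun y => max ((P.b i).lo y) ((P.b j).lo y) with hu
  set w : E3 := WithLp.toLp 2 fun y => min ((P.b i).hi y) ((P.b j).hi y) with hw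
  have hu' : ∀ y, u y = max ((P.b i).lo y) ((P.b j).lo y) := fun y => rfl
  have hw' : ∀ y, w y = min ((P.b i).hi y) ((P.b j).hi y) := fun y => rfl
  have hum : u ∈ (P.b i).set ∩ (P.b j).set := by
    refine ⟨fun y => ?_, fun y => ?_⟩
    · rw [hu']
      exact ⟨le_max_left _ _, (hle y).trans (min_le_left _ _)⟩
    · rw [hu']
      exact ⟨le_max_right _ _, (hle y).trans (min_le_right _ _)⟩
  have hwm : w ∈ (P.b i).set ∩ (P.b j).set := by
    refine ⟨fun y => ?_, fun y => ?_⟩
    · rw [hw']
      exact ⟨(le_max_left _ _).trans (hle y), min_le_left _ _⟩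
    · rw [hw']
      exact ⟨(le_max_right _ _).trans (hle y), min_le_right _ _⟩
  have hne : ∀ y, y ≠ a → u y ≠ w y := by
    intro y hy
    rw [hu', hw']
    exact (hlt y hy).ne
  -- not both coordinates are constant
  have hcon : ∀ b t b' t', b' ≠ b →
      (∀ x ∈ (P.b i).set ∩ (P.b j).set, x b = (P.b i).bd b t ∧ x b' = (P.b i).bd b' t') → False := by
    intro b t b' t' hb hx
    obtain ⟨u1, u2⟩ := hx u hum
    obtain ⟨w1, w2⟩ := hx w hwm
    by_cases hba : b = a
    · exact hne b' (by rw [← hba]; exact hb) (u2.trans w2.symm)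
    · exact hne b hba (u1.trans w1.symm)
  by_cases hadj : P.T.Adj i j
  · have e1 : (SimpleGraph.Walk.cons hi.1 (SimpleGraph.Walk.cons hadj SimpleGraph.Walk.nil)).IsPath := by
      simp only [SimpleGraph.Walk.cons_isPath_iff, SimpleGraph.Walk.support_cons,
        SimpleGraph.Walk.support_nil, List.mem_cons, List.not_mem_nil, or_false,
        SimpleGraph.Walk.IsPath.nil, true_and, not_or]
      exact ⟨hij, hi.1.ne, hpj⟩
    have e2 : (SimpleGraph.Walk.cons h.1 (SimpleGraph.Walk.cons hj.1 SimpleGraph.Walk.nil)).IsPath := by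
      simp only [SimpleGraph.Walk.cons_isPath_iff, SimpleGraph.Walk.support_cons,
        SimpleGraph.Walk.support_nil, List.mem_cons, List.not_mem_nil, or_false,
        SimpleGraph.Walk.IsPath.nil, true_and, not_or]
      exact ⟨hj.1.ne, h.1.ne, hpj⟩
    have e3 := P.tree.IsAcyclic.path_unique ⟨_, e1⟩ ⟨_, e2⟩
    have e4 := congrArg (fun q : P.T.Path p j => (q : P.T.Walk p j).support) e3
    simp only [SimpleGraph.Walk.support_cons, SimpleGraph.Walk.support_nil, List.cons.injEq,
      true_and, and_true] at e4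
    exact hci e4
  · rcases P.nonadj i j hij hadj with h0 | ⟨k, -, b, t, -, hb⟩
    · rw [h0] at hum
      exact hum
    · rcases hb with ⟨b', t', hb', he⟩ | ⟨b', t', b'', t'', hb', -, -, he⟩
      · refine hcon b t b' t' hb' fun x hx => ?_
        rw [he] at hx
        exact ⟨hx.2.1, hx.2.2⟩
      · refine hcon b t b' t' hb' fun x hx => ?_
        rw [he] at hx
        exact ⟨hx.2.1, hx.2.2.1⟩

end Pool.Agent.Ortho.Orthotree
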