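import Pool.Agent.Ortho.Geo
import Pool.Agent.Ortho.UTurn

set_option autoImplicit false

/-!
# Ortho/VTurn: the vertex constraint (V)

For a brick `k` with neighbours `i`, `j` in perpendicular directions `(a, s)`, `(a', s')`, the bricks `i` and `j` do not both have a
neighbour in the same direction `(a'', s'')`, `a''` the third axis.

Suppose `i'` is the neighbour of `i` and `j'` the neighbour of `j` at `(a'', s'')`. Then `b_i' ∩ b_j'` is a segment parallel to the
axis `a''`: the coordinates `a`, `a'` are constant, equal to `bd_k a s`, `bd_k a' s'`, the coordinate `a''` is not constant. So `i'`, `j'`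
are different and not adjacent, and the segment is an edge of `b_i' ∩ b_m` for a neighbour `m` of `i'`; this neighbour is at the face
`(a, !s)` or at the face `(a', s')` of `i'`. The first case contradicts `no_uturn` (`i` has the neighbour `k` at `(a, !s)`). In the second
case `b_m ∩ b_j'` is a rectangle, so `m`, `j'` are adjacent, and `k, i, i', m, j', j` is a cycle in the tree.
-/

namespace Pool.Agent.Ortho.Orthotree

variable {n : ℕ} (P : Orthotree n)

/-- two bricks whose intersection has two non-degenerate coordinate intervals are adjacent -/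
theorem adj_of_thick {i j : Fin n} (hij : i ≠ j) (a : Fin 3)
    (hle : ∀ y, max ((P.b i).lo y) ((P.b j).lo y) ≤ min ((P.b i).hi y) ((P.b j).hi y))
    (hlt : ∀ y, y ≠ a → max ((P.b i).lo y) ((P.b j).lo y) < min ((P.b i).hi y) ((P.b j).hi y)) :
    P.T.Adj i j := by
  by_contra hadj
  set u : E3 := WithLp.toLp 2 fun y => max ((P.b i).lo y) ((P.b j).lo y) with hu
  set w : E3 := WithLp.toLp 2 fun y => min ((P.b i).hi y) ((P.b j).hi y) with hw
  have hu' : ∀ y, u y = max ((P.b i).lo y) ((P.b j).lo y) := fun y => rfl
  have hw' : ∀ y, w y = min ((P.b i).hi y) ((P.b j).hi y) := fun y => rfl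
  have hum : u ∈ (P.b i).set ∩ (P.b j).set := by
    refine ⟨fun y => ?_, fun y => ?_⟩
    · rw [hu']
      exact ⟨le_max_left _ _, (hle y).trans (min_le_left _ _)⟩
    · rw [hu']
      exact ⟨le_max_right _ _, (hle y).trans (min_le_right _ _)⟩
  have hwm : w ∈ (P.b i).set ∩ (P.b j).set := by
    refine ⟨fun y => ?_, fun y => ?_⟩
    · rw [hw']
      exact ⟨(le_max_left _ _).trans (hle y), min_le_left _ _⟩
    · rw [hw']
      exact ⟨(le_max_right _ _).trans (hle y), min_le_right _ _⟩
  have hne : ∀ y, y ≠ a → u y ≠ w y := by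
    intro y hy
    rw [hu', hw']
    exact (hlt y hy).ne
  have hcon : ∀ b t b' t', b' ≠ b →
      (∀ x ∈ (P.b i).set ∩ (P.b j).set, x b = (P.b i).bd b t ∧ x b' = (P.b i).bd b' t') → False := by
    intro b t b' t' hb hx
    obtain ⟨u1, u2⟩ := hx u hum
    obtain ⟨w1, w2⟩ := hx w hwm
    by_cases hba : b = a
    · exact hne b' (by rw [← hba]; exact hb) (u2.trans w2.symm)
    · exact hne b hba (u1.trans w1.symm)
  rcases P.nonadj i j hij hadj with h0 | ⟨k, -, b, t, -, hb⟩
  · rw [h0] at hum
    exact hum
  · rcases hb with ⟨b', t', hb', he⟩ | ⟨b', t', b'', t'', hb', -, -, he⟩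
    · refine hcon b t b' t' hb' fun x hx => ?_
      rw [he] at hx
      exact ⟨hx.2.1, hx.2.2⟩
    · refine hcon b t b' t' hb' fun x hx => ?_
      rw [he] at hx
      exact ⟨hx.2.1, hx.2.2.1⟩

/-- the vertex constraint (V) -/
theorem no_vturn {k i j i' j' : Fin n} {a a' a'' : Fin 3} {s s' s'' : Bool} (h1 : a' ≠ a)
    (h2 : a'' ≠ a) (h3 : a'' ≠ a') (hi : P.Nb k a s i) (hj : P.Nb k a' s' j)
    (hi' : P.Nb i a'' s'' i') (hj' : P.Nb j a'' s'' j') : False := by
  obtain ⟨i1, i2, i3⟩ := P.nb_coord hi
  obtain ⟨j1, j2, j3⟩ := P.nb_coord hj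
  obtain ⟨p1, p2, p3⟩ := P.nb_coord hi'
  obtain ⟨q1, q2, q3⟩ := P.nb_coord hj'
  -- intervals
  obtain ⟨ia', ia'u⟩ := i2 a' h1
  obtain ⟨ic, icu⟩ := i2 a'' h2
  obtain ⟨ja, jau⟩ := j2 a h1.symm
  obtain ⟨jc, jcu⟩ := j2 a'' h3
  obtain ⟨pa, pau⟩ := p2 a h2.symm
  obtain ⟨pa', pa'u⟩ := p2 a' h3.symm
  obtain ⟨qa, qau⟩ := q2 a h2.symm
  obtain ⟨qa', qa'u⟩ := q2 a' h3.symm
  have lk := fun y => (P.b k).lt y
  have li := fun y => (P.b i).lt y
  have lj := fun y => (P.b j).lt y
  have lp := fun y => (P.b i').lt y
  have lq := fun y => (P.b j').lt y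
  have hall : ∀ y, y = a ∨ y = a' ∨ y = a'' := by
    intro y
    revert h1 h2 h3
    clear hi hj hi' hj' i1 i2 i3 j1 j2 j3 p1 p2 p3 q1 q2 q3 ia' ia'u ic icu ja jau jc jcu pa pau pa' pa'u qa qau qa' qa'u
    revert a a' a'' y
    decide
  -- the coordinate a is constant on the intersection of i' and j'
  have cona : ∀ x ∈ (P.b i').set ∩ (P.b j').set, x a = (P.b k).bd a s := by
    rintro x ⟨hx, hy⟩
    have e1 := hx a
    have e2 := hy a
    have e3 := li a
    cases s
    · simp only [Brick.bd, Bool.not_false, if_true, Bool.false_eq_true, if_false] at i1 ⊢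
      linarith [e1.1, e1.2, e2.1, e2.2]
    · simp only [Brick.bd, Bool.not_true, if_true, Bool.false_eq_true, if_false] at i1 ⊢
      linarith [e1.1, e1.2, e2.1, e2.2]
  have cona' : ∀ x ∈ (P.b i').set ∩ (P.b j').set, x a' = (P.b k).bd a' s' := by
    rintro x ⟨hx, hy⟩
    have e1 := hx a'
    have e2 := hy a'
    have e3 := lj a'
    cases s'
    · simp only [Brick.bd, Bool.not_false, if_true, Bool.false_eq_true, if_false] at j1 ⊢
      linarith [e1.1, e1.2, e2.1, e2.2]
    · simp only [Brick.bd, Bool.not_true, if_true, Bool.false_eq_true, if_false] at j1 ⊢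
      linarith [e1.1, e1.2, e2.1, e2.2]
  -- two points of the intersection
  have hle : ∀ y, max ((P.b i').lo y) ((P.b j').lo y) ≤ min ((P.b i').hi y) ((P.b j').hi y) := by
    intro y
    rcases hall y with rfl | rfl | rfl
    · have e1 := li y
      have e2 := lk y
      rw [max_le_iff, le_min_iff, le_min_iff]
      cases s
      · simp only [Brick.bd, Bool.not_false, if_true, Bool.false_eq_true, if_false] at i1
        refine ⟨⟨?_, ?_⟩, ?_, ?_⟩ <;> linarith
      · simp only [Brick.bd, Bool.not_true, if_true, Bool.false_eq_true, if_false] at i1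
        refine ⟨⟨?_, ?_⟩, ?_, ?_⟩ <;> linarith
    · have e1 := lj y
      have e2 := lk y
      rw [max_le_iff, le_min_iff, le_min_iff]
      cases s'
      · simp only [Brick.bd, Bool.not_false, if_true, Bool.false_eq_true, if_false] at j1
        refine ⟨⟨?_, ?_⟩, ?_, ?_⟩ <;> linarith
      · simp only [Brick.bd, Bool.not_true, if_true, Bool.false_eq_true, if_false] at j1
        refine ⟨⟨?_, ?_⟩, ?_, ?_⟩ <;> linarith
    · have e1 := lp y
      have e2 := lq y
      rw [max_le_iff, le_min_iff, le_min_iff]
      cases s''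
      · simp only [Brick.bd, Bool.not_false, if_true, Bool.false_eq_true, if_false] at p1 q1
        refine ⟨⟨?_, ?_⟩, ?_, ?_⟩ <;> linarith
      · simp only [Brick.bd, Bool.not_true, if_true, Bool.false_eq_true, if_false] at p1 q1
        refine ⟨⟨?_, ?_⟩, ?_, ?_⟩ <;> linarith
  have hlt : max ((P.b i').lo a'') ((P.b j').lo a'') < min ((P.b i').hi a'') ((P.b j').hi a'') := by
    have e1 := lp a''
    have e2 := lq a''
    rw [max_lt_iff, lt_min_iff, lt_min_iff]
    cases s''
    · simp only [Brick.bd, Bool.not_false, if_true, Bool.false_eq_true, if_false] at p1 q1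
      refine ⟨⟨?_, ?_⟩, ?_, ?_⟩ <;> linarith
    · simp only [Brick.bd, Bool.not_true, if_true, Bool.false_eq_true, if_false] at p1 q1
      refine ⟨⟨?_, ?_⟩, ?_, ?_⟩ <;> linarith
  set u : E3 := WithLp.toLp 2 fun y => max ((P.b i').lo y) ((P.b j').lo y) with hu
  set w : E3 := WithLp.toLp 2 fun y => min ((P.b i').hi y) ((P.b j').hi y) with hw
  have hu' : ∀ y, u y = max ((P.b i').lo y) ((P.b j').lo y) := fun y => rfl
  have hw' : ∀ y, w y = min ((P.b i').hi y) ((P.b j').hi y) := fun y => rfl
  have hum : u ∈ (P.b i').set ∩ (P.b j').set := by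
    refine ⟨fun y => ?_, fun y => ?_⟩
    · rw [hu']
      exact ⟨le_max_left _ _, (hle y).trans (min_le_left _ _)⟩
    · rw [hu']
      exact ⟨le_max_right _ _, (hle y).trans (min_le_right _ _)⟩
  have hwm : w ∈ (P.b i').set ∩ (P.b j').set := by
    refine ⟨fun y => ?_, fun y => ?_⟩
    · rw [hw']
      exact ⟨(le_max_left _ _).trans (hle y), min_le_left _ _⟩
    · rw [hw']
      exact ⟨(le_max_right _ _).trans (hle y), min_le_right _ _⟩
  have huw : u a'' ≠ w a'' := by
    rw [hu', hw']
    exact hlt.ne
  -- coordinates a: values at the faces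
  have bda : (P.b i').bd a (!s) = (P.b k).bd a s := by
    rw [← i1]
    cases s <;> simp only [Brick.bd, Bool.not_true, Bool.not_false, if_true, Bool.false_eq_true, if_false] <;> assumption
  have bda' : (P.b i').bd a' s' = (P.b k).bd a' s' := by
    cases s' <;> simp only [Brick.bd, if_true, Bool.false_eq_true, if_false]
    · rw [pa', ia']
    · rw [pa'u, ia'u]
  have bdqa : (P.b j').bd a s = (P.b k).bd a s := by
    cases s <;> simp only [Brick.bd, if_true, Bool.false_eq_true, if_false]
    · rw [qa, ja]
    · rw [qau, jau]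
  have bdqa' : (P.b j').bd a' (!s') = (P.b k).bd a' s' := by
    rw [← j1]
    cases s' <;> simp only [Brick.bd, Bool.not_true, Bool.not_false, if_true, Bool.false_eq_true, if_false] <;> assumption
  have bne : ∀ {b c : Bool}, b = c → (!b) ≠ c := by decide
  have hne : i' ≠ j' := by
    intro h
    have e := bdqa
    rw [← h, ← bda] at e
    exact bne rfl ((P.b i').bd_inj e).symm
  -- not adjacent
  have hnadj : ¬ P.T.Adj i' j' := by
    intro hadj
    obtain ⟨b, t, hb⟩ := P.exists_nb hadj
    -- a coordinate among a, a' different from b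
    have key : ∀ c, c ≠ b → (∃ v, ∀ x ∈ (P.b i').set ∩ (P.b j').set, x c = v) → False := by
      rintro c hc ⟨v, hv⟩
      rw [hb.2] at hv
      have z1 := hv (WithLp.toLp 2 fun y => if y = b then (P.b i').bd b t else (P.b i').lo y)
        ⟨fun y => by
          show (P.b i').lo y ≤ (if y = b then (P.b i').bd b t else (P.b i').lo y) ∧
            (if y = b then (P.b i').bd b t else (P.b i').lo y) ≤ (P.b i').hi y
          split_ifs with hy
          · subst hy
            exact ⟨(P.b i').lo_le_bd _ _, (P.b i').bd_le_hi _ _⟩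
          · exact ⟨le_rfl, (lp y).le⟩, by
          show (if b = b then (P.b i').bd b t else (P.b i').lo b) = (P.b i').bd b t
          simp⟩
      have z2 := hv (WithLp.toLp 2 fun y => if y = b then (P.b i').bd b t else (P.b i').hi y)
        ⟨fun y => by
          show (P.b i').lo y ≤ (if y = b then (P.b i').bd b t else (P.b i').hi y) ∧
            (if y = b then (P.b i').bd b t else (P.b i').hi y) ≤ (P.b i').hi y
          split_ifs with hy
          · subst hy
            exact ⟨(P.b i').lo_le_bd _ _, (P.b i').bd_le_hi _ _⟩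
          · exact ⟨(lp y).le, le_rfl⟩, by
          show (if b = b then (P.b i').bd b t else (P.b i').hi b) = (P.b i').bd b t
          simp⟩
      have z3 : (P.b i').lo c = v := by
        have : (if c = b then (P.b i').bd b t else (P.b i').lo c) = v := z1
        rwa [if_neg hc] at this
      have z4 : (P.b i').hi c = v := by
        have : (if c = b then (P.b i').bd b t else (P.b i').hi c) = v := z2
        rwa [if_neg hc] at this
      have := lp c
      rw [z3, z4] at this
      exact lt_irrefl _ this
    by_cases hba : b = a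
    · exact key a' (by rw [hba]; exact h1) ⟨_, cona'⟩
    · exact key a (Ne.symm hba) ⟨_, cona⟩
  -- the neighbour m of i'
  rcases P.nonadj i' j' hne hnadj with h0 | ⟨m, hm, b, t, hface, hb⟩
  · rw [h0] at hum
    exact hum
  · have hm' : P.Nb i' b t m := ⟨hm, hface⟩
    have hbb : (b = a ∧ t = !s) ∨ (b = a' ∧ t = s') := by
      have hxb : ∀ x ∈ (P.b i').set ∩ (P.b j').set, x b = (P.b i').bd b t := by
        intro x hx
        rcases hb with ⟨b', t', hb', he⟩ | ⟨b', t', b'', t'', hb', -, -, he⟩
        · rw [he] at hx
          exact hx.2.1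
        · rw [he] at hx
          exact hx.2.1
      rcases hall b with rfl | rfl | rfl
      · left
        refine ⟨rfl, ?_⟩
        have e : (P.b i').bd b t = (P.b i').bd b (!s) := by
          rw [bda, ← hxb u hum, cona u hum]
        exact (P.b i').bd_inj e
      · right
        refine ⟨rfl, ?_⟩
        have e : (P.b i').bd b t = (P.b i').bd b s' := by
          rw [bda', ← hxb u hum, cona' u hum]
        exact (P.b i').bd_inj e
      · exact absurd ((hxb u hum).trans (hxb w hwm).symm) huw
    rcases hbb with ⟨rfl, rfl⟩ | ⟨rfl, rfl⟩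
    · -- no_uturn
      exact P.no_uturn hi' h2.symm i3 hm'
    · -- m and j' are adjacent
      obtain ⟨m1, m2, m3⟩ := P.nb_coord hm'
      obtain ⟨ma, mau⟩ := m2 a h1.symm
      obtain ⟨mc, mcu⟩ := m2 a'' h3
      have lm := fun y => (P.b m).lt y
      have bdma : (P.b m).bd a (!s) = (P.b k).bd a s := by
        rw [← bda]
        cases s <;> simp only [Brick.bd, Bool.not_true, Bool.not_false, if_true, Bool.false_eq_true, if_false] <;> assumption
      have hmq : m ≠ j' := by
        intro h
        have e := bdqa
        rw [← h, ← bdma] at e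
        exact bne rfl ((P.b m).bd_inj e).symm
      have hadj : P.T.Adj m j' := by
        refine P.adj_of_thick hmq a ?_ ?_
        · intro y
          rcases hall y with rfl | rfl | rfl
          · have e1 := li y
            have e2 := lk y
            rw [max_le_iff, le_min_iff, le_min_iff]
            cases s
            · simp only [Brick.bd, Bool.not_false, if_true, Bool.false_eq_true, if_false] at i1
              refine ⟨⟨?_, ?_⟩, ?_, ?_⟩ <;> linarith
            · simp only [Brick.bd, Bool.not_true, if_true, Bool.false_eq_true, if_false] at i1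
              refine ⟨⟨?_, ?_⟩, ?_, ?_⟩ <;> linarith
          · have e1 := lj y
            have e2 := lm y
            rw [max_le_iff, le_min_iff, le_min_iff]
            cases t
            · simp only [Brick.bd, Bool.not_false, if_true, Bool.false_eq_true, if_false] at j1 m1
              refine ⟨⟨?_, ?_⟩, ?_, ?_⟩ <;> linarith
            · simp only [Brick.bd, Bool.not_true, if_true, Bool.false_eq_true, if_false] at j1 m1
              refine ⟨⟨?_, ?_⟩, ?_, ?_⟩ <;> linarith
          · have e1 := hle y
            rw [mc, mcu]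
            exact e1
        · intro y hy
          rcases hall y with rfl | rfl | rfl
          · exact absurd rfl hy
          · have e1 := lj y
            have e2 := lm y
            rw [max_lt_iff, lt_min_iff, lt_min_iff]
            cases t
            · simp only [Brick.bd, Bool.not_false, if_true, Bool.false_eq_true, if_false] at j1 m1
              refine ⟨⟨?_, ?_⟩, ?_, ?_⟩ <;> linarith
            · simp only [Brick.bd, Bool.not_true, if_true, Bool.false_eq_true, if_false] at j1 m1
              refine ⟨⟨?_, ?_⟩, ?_, ?_⟩ <;> linarith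
          · rw [mc, mcu]
            exact hlt
      -- distinct bricks
      have hki' : k ≠ i' := by
        intro h
        subst h
        exact h2 (P.nb_face_unique hi' i3).1
      have hkm : k ≠ m := by
        intro h
        rw [← h] at m1
        rw [bda'] at m1
        exact bne rfl ((P.b k).bd_inj m1)
      have hkj' : k ≠ j' := by
        intro h
        subst h
        exact h3 (P.nb_face_unique hj' j3).1
      have him : i ≠ m := by
        intro h
        subst h
        exact h3 (P.nb_face_unique p3 hm').1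
      have bdia' : (P.b i).bd b t = (P.b k).bd b t := by
        cases t <;> simp only [Brick.bd, if_true, Bool.false_eq_true, if_false] <;> assumption
      have hij' : i ≠ j' := by
        intro h
        have e := bdqa'
        rw [← h, ← bdia'] at e
        exact bne rfl ((P.b i).bd_inj e)
      have e1 : (SimpleGraph.Walk.cons hi.1 (SimpleGraph.Walk.cons hi'.1
          (SimpleGraph.Walk.cons hm (SimpleGraph.Walk.cons hadj SimpleGraph.Walk.nil)))).IsPath := by
        simp only [SimpleGraph.Walk.cons_isPath_iff, SimpleGraph.Walk.support_cons,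
          SimpleGraph.Walk.support_nil, List.mem_cons, List.not_mem_nil, or_false,
          SimpleGraph.Walk.IsPath.nil, true_and, not_or]
        exact ⟨⟨⟨hmq, hm.ne, hne⟩, hi'.1.ne, him, hij'⟩, hi.1.ne, hki', hkm, hkj'⟩
      have e2 : (SimpleGraph.Walk.cons hj.1 (SimpleGraph.Walk.cons hj'.1 SimpleGraph.Walk.nil)).IsPath := by
        simp only [SimpleGraph.Walk.cons_isPath_iff, SimpleGraph.Walk.support_cons,
          SimpleGraph.Walk.support_nil, List.mem_cons, List.not_mem_nil, or_false,
          SimpleGraph.Walk.IsPath.nil, true_and, not_or]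
        exact ⟨hj'.1.ne, hj.1.ne, hkj'⟩
      have e3 := P.tree.IsAcyclic.path_unique ⟨_, e1⟩ ⟨_, e2⟩
      have e4 := congrArg (fun q : P.T.Path k j' => (q : P.T.Walk k j').length) e3
      simp [SimpleGraph.Walk.length_cons] at e4

end Pool.Agent.Ortho.Orthotree
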