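import Pool.Agent.Ortho.TileDef
import Pool.Agent.Ortho.UTurn
import Pool.Agent.Ortho.VTurn

set_option autoImplicit false

/-!
# Ortho/ClsGeo: the classes behind the elements of a brick satisfy the necessary conditions

Definitions in `TileDef` (`brCls`, `tileCls`) and `Cls` (`Valid`, `out`, `Cls.Ok`). The lateral direction number `k` of a brick seen from its
face `(a₀, s₀)` is `(sAx a₀ s₀ k, sSg a₀ s₀ k)`. Finite facts, by `decide` over `(a₀, s₀, k, m)` (use `revert ...; decide`):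
for the side number `k`, i.e. `(a₁, s₁) = (sAx a₀ s₀ k, sSg a₀ s₀ k)`, `ρ₁ = sRot a₀ s₀ k`, the branch behind it is seen from `(a₁, !s₁)` in the frame
`ρ₁`, and its lateral directions `(sAx a₁ (!s₁) (m + ρ₁), sSg a₁ (!s₁) (m + ρ₁))` are: `m = 0`: `(a₀, s₀)` (the bottom), `m = 1`: lateral direction `k + 1`
of `c`, `m = 2`: `(a₀, !s₀)`, `m = 3`: lateral direction `k + 3` of `c`; for the end: `eRot a₀ s₀ = 0`, `!!s₀ = s₀` and the lateral
directions are those of `c`. Two consecutive lateral directions have different axes, opposite ones the same axis.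

Let `c` have the neighbour `p` at `(a₀, s₀)`, let `x` be the neighbour behind an element in the direction `d` and `e ⟂ d` a direction.
(A) if `x` has a neighbour in the direction `e` then `c` has none in the direction `e` (`no_uturn`).
(V) if a neighbour `y` of `x` in a direction `f` (`f ⟂ d`, `f ⟂ e`) has a neighbour in the direction `e`, then `c` has none in the direction `e`:
`no_vturn` at the brick `x` with its neighbours `y` and `c`.
(V') neighbours `x, x'` of `c` in perpendicular directions do not both have a neighbour in a direction perpendicular to both (`no_vturn` at `c`).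
`Valid`: `ok`: (A) for the child's own lateral neighbours; `side0`: (A), (V) with `e = (a₀, s₀)` (where `p` is); `side1, side2, side3, stop`: (A), (V);
`sib, sib1, sib3`: (V'). `out_sub`: unfold; `L i` is `some` iff there is a neighbour (`tileCls_some`, `tileCls_none`).
-/

namespace Pool.Agent.Ortho

/-! ### finite facts -/

theorem sAx_succ (a : Fin 3) (s : Bool) (m ρ : Fin 4) : sAx a s (m + ρ) ≠ sAx a s (m + 1 + ρ) := by
  revert a s m ρ; decide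

theorem sAx_pred (a : Fin 3) (s : Bool) (m ρ : Fin 4) : sAx a s (m + ρ) ≠ sAx a s (m + 3 + ρ) := by
  revert a s m ρ; decide

theorem lat0 (a : Fin 3) (s : Bool) (r : Fin 4) :
    sAx (sAx a s r) (!(sSg a s r)) (0 + sRot a s r) = a ∧
      sSg (sAx a s r) (!(sSg a s r)) (0 + sRot a s r) = s := by
  revert a s r; decide

theorem lat1 (a : Fin 3) (s : Bool) (r : Fin 4) :
    sAx (sAx a s r) (!(sSg a s r)) (1 + sRot a s r) = sAx a s (r + 1) ∧
      sSg (sAx a s r) (!(sSg a s r)) (1 + sRot a s r) = sSg a s (r + 1) := by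
  revert a s r; decide

theorem lat2 (a : Fin 3) (s : Bool) (r : Fin 4) :
    sAx (sAx a s r) (!(sSg a s r)) (2 + sRot a s r) = a ∧
      sSg (sAx a s r) (!(sSg a s r)) (2 + sRot a s r) = !s := by
  revert a s r; decide

theorem lat3 (a : Fin 3) (s : Bool) (r : Fin 4) :
    sAx (sAx a s r) (!(sSg a s r)) (3 + sRot a s r) = sAx a s (r + 3) ∧
      sSg (sAx a s r) (!(sSg a s r)) (3 + sRot a s r) = sSg a s (r + 3) := by
  revert a s r; decide

theorem latE (a : Fin 3) (s : Bool) (ρ m : Fin 4) :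
    sAx a (!!s) (m + (ρ + eRot a s)) = sAx a s (m + ρ) ∧
      sSg a (!!s) (m + (ρ + eRot a s)) = sSg a s (m + ρ) := by
  revert a s ρ m; decide

theorem f4_1 (k ρ : Fin 4) : k + 1 + ρ = k + ρ + 1 := by revert k ρ; decide

theorem f4_3 (k ρ : Fin 4) : k + 3 + ρ = k + ρ + 3 := by revert k ρ; decide

theorem f4_31 (k ρ : Fin 4) : k + 3 + ρ + 1 = k + ρ := by revert k ρ; decide

theorem f4_13 (k ρ : Fin 4) : k + 1 + ρ + 3 = k + ρ := by revert k ρ; decide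

namespace Orthotree

variable {n : ℕ} (P : Orthotree n)

theorem brCls_T (c : Fin n) (a : Fin 3) (s : Bool) (ρ k : Fin 4) :
    (P.brCls c a s ρ).T k = true ↔ P.HasNb c (sAx a s (k + ρ)) (sSg a s (k + ρ)) := by
  simp [brCls]

theorem brCls_B (c : Fin n) (a : Fin 3) (s : Bool) (ρ k : Fin 4) :
    (P.brCls c a s ρ).B k = true ↔ ∃ (m : Fin 4) (x : Fin n), (m = k + 1 ∨ m = k + 3) ∧
      P.Nb c (sAx a s (m + ρ)) (sSg a s (m + ρ)) x ∧
      P.HasNb x (sAx a s (k + ρ)) (sSg a s (k + ρ)) := by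
  simp [brCls]

/-- (A) -/
theorem cgA {c x : Fin n} {a a' : Fin 3} {s s' : Bool} (h : P.Nb c a s x) (ha : a' ≠ a)
    (hx : P.HasNb x a' s') (hc : P.HasNb c a' s') : False := by
  obtain ⟨j, hj⟩ := hx
  obtain ⟨i, hi⟩ := hc
  exact P.no_uturn h ha hi hj

/-- (V) -/
theorem cgV {c x y : Fin n} {a a' a'' : Fin 3} {s s' s'' : Bool} (h : P.Nb c a s x)
    (hy : P.Nb x a' s' y) (h1 : a' ≠ a) (h2 : a'' ≠ a) (h3 : a'' ≠ a')
    (hyn : P.HasNb y a'' s'') (hc : P.HasNb c a'' s'') : False := by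
  obtain ⟨j, hj⟩ := hyn
  obtain ⟨i, hi⟩ := hc
  exact P.no_vturn h1 h2 h3 (P.nb_coord h).2.2 hy hi hj

/-- (V') -/
theorem cgV' {c x y : Fin n} {a a' a'' : Fin 3} {s s' s'' : Bool} (hx : P.Nb c a s x)
    (hy : P.Nb c a' s' y) (h1 : a' ≠ a) (h2 : a'' ≠ a) (h3 : a'' ≠ a')
    (hxn : P.HasNb x a'' s'') (hyn : P.HasNb y a'' s'') : False := by
  obtain ⟨j, hj⟩ := hxn
  obtain ⟨i, hi⟩ := hyn
  exact P.no_vturn h1 h2 h3 hx hy hj hi

/-- a lateral direction used by the branch of a neighbour is free -/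
theorem cgKey {c x : Fin n} {a : Fin 3} {s : Bool} (h : P.Nb c a s x) (ρ m : Fin 4)
    (hm : (P.brCls x a (!s) ρ).T m = true ∨ (P.brCls x a (!s) ρ).B m = true)
    (hc : P.HasNb c (sAx a (!s) (m + ρ)) (sSg a (!s) (m + ρ))) : False := by
  rcases hm with hm | hm
  · rw [brCls_T] at hm
    exact P.cgA h (sAx_ne _ _ _) hm hc
  · rw [brCls_B] at hm
    obtain ⟨m', y, hmm, hy, hyn⟩ := hm
    refine P.cgV h hy (sAx_ne _ _ _) (sAx_ne _ _ _) ?_ hyn hc
    rcases hmm with rfl | rfl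
    · exact sAx_succ _ _ _ _
    · exact sAx_pred _ _ _ _

theorem tileCls_eq_some {f : Pos n} {ρ : Fin 4} {κ : Cls} (h : P.tileCls f ρ = some κ) :
    ∃ j, P.Nb f.1 f.2.1 f.2.2 j ∧ κ = P.brCls j f.2.1 (!f.2.2) ρ := by
  by_cases hj : ∃ j, P.Nb f.1 f.2.1 f.2.2 j
  · obtain ⟨j, hj⟩ := hj
    rw [P.tileCls_some hj] at h
    exact ⟨j, hj, (Option.some.inj h).symm⟩
  · rw [P.tileCls_none (fun j hj' => hj ⟨j, hj'⟩)] at h
    exact absurd h (by simp)

theorem tileCls_eq_none {f : Pos n} {ρ : Fin 4} (h : ¬ P.HasNb f.1 f.2.1 f.2.2) :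
    P.tileCls f ρ = none :=
  P.tileCls_none (fun j hj => h ⟨j, hj⟩) ρ

theorem tileCls_isSome {f : Pos n} {ρ : Fin 4} :
    (P.tileCls f ρ).isSome = true ↔ P.HasNb f.1 f.2.1 f.2.2 := by
  constructor
  · intro h
    obtain ⟨κ, hκ⟩ := Option.isSome_iff_exists.1 h
    obtain ⟨j, hj, -⟩ := P.tileCls_eq_some hκ
    exact ⟨j, hj⟩
  · rintro ⟨j, hj⟩
    rw [P.tileCls_some hj]
    rfl

theorem brCls_ok (c : Fin n) (a₀ : Fin 3) (s₀ : Bool) (ρ : Fin 4) : (P.brCls c a₀ s₀ ρ).Ok := by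
  intro k hk
  rw [brCls_B] at hk
  obtain ⟨m, x, hm, hx, hxn⟩ := hk
  refine ⟨?_, ?_⟩
  · by_contra hT
    rw [Bool.not_eq_false, brCls_T] at hT
    refine P.cgA hx ?_ hxn hT
    rcases hm with rfl | rfl
    · exact sAx_succ _ _ _ _
    · exact sAx_pred _ _ _ _
  · rcases hm with rfl | rfl
    · left
      rw [brCls_T]
      exact ⟨x, hx⟩
    · right
      rw [brCls_T]
      exact ⟨x, hx⟩

/-- the side elements -/
theorem side_some {c : Fin n} {a₀ : Fin 3} {s₀ : Bool} {ρ k : Fin 4} {κ : Cls}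
    (h : P.tileCls (sub c a₀ s₀ ρ k.castSucc) (srot a₀ s₀ ρ k.castSucc) = some κ) :
    ∃ x, P.Nb c (sAx a₀ s₀ (k + ρ)) (sSg a₀ s₀ (k + ρ)) x ∧
      κ = P.brCls x (sAx a₀ s₀ (k + ρ)) (!(sSg a₀ s₀ (k + ρ))) (sRot a₀ s₀ (k + ρ)) := by
  rw [sub_side, srot_side] at h
  exact P.tileCls_eq_some h

theorem side_none {c : Fin n} {a₀ : Fin 3} {s₀ : Bool} {ρ k : Fin 4}
    (h : ¬ P.HasNb c (sAx a₀ s₀ (k + ρ)) (sSg a₀ s₀ (k + ρ))) :
    P.tileCls (sub c a₀ s₀ ρ k.castSucc) (srot a₀ s₀ ρ k.castSucc) = none := by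
  rw [sub_side, srot_side]
  exact P.tileCls_eq_none h

theorem end_some {c : Fin n} {a₀ : Fin 3} {s₀ : Bool} {ρ : Fin 4} {κ : Cls}
    (h : P.tileCls (sub c a₀ s₀ ρ 4) (srot a₀ s₀ ρ 4) = some κ) :
    ∃ x, P.Nb c a₀ (!s₀) x ∧ κ = P.brCls x a₀ (!!s₀) (ρ + eRot a₀ s₀) := by
  rw [sub_end, srot_end] at h
  exact P.tileCls_eq_some h

theorem end_none {c : Fin n} {a₀ : Fin 3} {s₀ : Bool} {ρ : Fin 4}
    (h : ¬ P.HasNb c a₀ (!s₀)) :
    P.tileCls (sub c a₀ s₀ ρ 4) (srot a₀ s₀ ρ 4) = none := by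
  rw [sub_end, srot_end]
  exact P.tileCls_eq_none h

theorem valid_sub {c p : Fin n} {a₀ : Fin 3} {s₀ : Bool} (h : P.Nb c a₀ s₀ p) (ρ : Fin 4) :
    Valid fun i => P.tileCls (sub c a₀ s₀ ρ i) (srot a₀ s₀ ρ i) := by
  have hp : P.HasNb c a₀ s₀ := ⟨p, h⟩
  refine ⟨?_, ?_, ?_, ?_, ?_, ?_, ?_, ?_, ?_⟩
  · intro i κ hκ
    obtain ⟨j, -, rfl⟩ := P.tileCls_eq_some hκ
    exact P.brCls_ok _ _ _ _
  · intro k κ hκ
    obtain ⟨x, hx, rfl⟩ := P.side_some hκ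
    have key := P.cgKey hx (sRot a₀ s₀ (k + ρ)) 0
    rw [(lat0 a₀ s₀ (k + ρ)).1, (lat0 a₀ s₀ (k + ρ)).2] at key
    constructor
    · by_contra hT
      exact key (Or.inl (Bool.not_eq_false _ ▸ hT)) hp
    · by_contra hT
      exact key (Or.inr (Bool.not_eq_false _ ▸ hT)) hp
  · intro k κ hκ hm
    obtain ⟨x, hx, rfl⟩ := P.side_some hκ
    refine P.side_none fun hc => ?_
    have key := P.cgKey hx (sRot a₀ s₀ (k + ρ)) 1 hm
    rw [(lat1 a₀ s₀ (k + ρ)).1, (lat1 a₀ s₀ (k + ρ)).2] at key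
    rw [f4_1] at hc
    exact key hc
  · intro k κ hκ hm
    obtain ⟨x, hx, rfl⟩ := P.side_some hκ
    refine P.end_none fun hc => ?_
    have key := P.cgKey hx (sRot a₀ s₀ (k + ρ)) 2 hm
    rw [(lat2 a₀ s₀ (k + ρ)).1, (lat2 a₀ s₀ (k + ρ)).2] at key
    exact key hc
  · intro k κ hκ hm
    obtain ⟨x, hx, rfl⟩ := P.side_some hκ
    refine P.side_none fun hc => ?_
    have key := P.cgKey hx (sRot a₀ s₀ (k + ρ)) 3 hm
    rw [(lat3 a₀ s₀ (k + ρ)).1, (lat3 a₀ s₀ (k + ρ)).2] at key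
    rw [f4_3] at hc
    exact key hc
  · intro κ hκ k hm
    obtain ⟨x, hx, rfl⟩ := P.end_some hκ
    refine P.side_none fun hc => ?_
    have key := P.cgKey hx (ρ + eRot a₀ s₀) k hm
    rw [(latE a₀ s₀ ρ k).1, (latE a₀ s₀ ρ k).2] at key
    exact key hc
  · rintro k κ κ' hκ hκ' ⟨h1, h2⟩
    obtain ⟨x, hx, rfl⟩ := P.side_some hκ
    obtain ⟨y, hy, rfl⟩ := P.side_some hκ'
    rw [brCls_T, (lat2 _ _ _).1, (lat2 _ _ _).2] at h1 h2
    refine P.cgV' hx hy ?_ (sAx_ne _ _ _).symm (sAx_ne _ _ _).symm h1 h2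
    exact (sAx_succ _ _ _ _).symm
  · rintro k κ κ' hκ hκ' ⟨h1, h2⟩
    obtain ⟨x, hx, rfl⟩ := P.side_some hκ
    obtain ⟨y, hy, rfl⟩ := P.end_some hκ'
    rw [brCls_T, (lat1 _ _ _).1, (lat1 _ _ _).2] at h1
    rw [brCls_T, (latE _ _ _ _).1, (latE _ _ _ _).2, f4_1] at h2
    refine P.cgV' hx hy (sAx_ne _ _ _).symm ?_ (sAx_ne _ _ _) h1 h2
    rw [← f4_1]
    exact (sAx_succ _ _ _ _).symm
  · rintro k κ κ' hκ hκ' ⟨h1, h2⟩
    obtain ⟨x, hx, rfl⟩ := P.side_some hκ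
    obtain ⟨y, hy, rfl⟩ := P.end_some hκ'
    rw [brCls_T, (lat3 _ _ _).1, (lat3 _ _ _).2] at h1
    rw [brCls_T, (latE _ _ _ _).1, (latE _ _ _ _).2, f4_3] at h2
    refine P.cgV' hx hy (sAx_ne _ _ _).symm ?_ (sAx_ne _ _ _) h1 h2
    rw [← f4_3]
    exact (sAx_pred _ _ _ _).symm

theorem out_sub (c : Fin n) (a₀ : Fin 3) (s₀ : Bool) (ρ : Fin 4) :
    out (fun i => P.tileCls (sub c a₀ s₀ ρ i) (srot a₀ s₀ ρ i)) = P.brCls c a₀ s₀ ρ := by
  -- one lateral neighbour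
  have hany : ∀ (r m : Fin 4) (a : Fin 3) (s : Bool),
      (∀ x, (P.brCls x (sAx a₀ s₀ (r + ρ)) (!(sSg a₀ s₀ (r + ρ))) (sRot a₀ s₀ (r + ρ))).T m = true ↔
        P.HasNb x a s) →
      ((P.tileCls (sub c a₀ s₀ ρ r.castSucc) (srot a₀ s₀ ρ r.castSucc)).any (fun κ => κ.T m) = true ↔
        ∃ x, P.Nb c (sAx a₀ s₀ (r + ρ)) (sSg a₀ s₀ (r + ρ)) x ∧ P.HasNb x a s) := by
    intro r m a s hx
    rw [sub_side, srot_side]
    by_cases hc : P.HasNb c (sAx a₀ s₀ (r + ρ)) (sSg a₀ s₀ (r + ρ))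
    · obtain ⟨j, hj⟩ := hc
      rw [P.tileCls_some hj, Option.any_some]
      refine (hx j).trans ⟨fun h => ⟨j, hj, h⟩, ?_⟩
      rintro ⟨x, hx1, hx2⟩
      rwa [P.nb_unique hj hx1]
    · rw [P.tileCls_eq_none hc, Option.any_none]
      refine ⟨fun h => absurd h (by simp), ?_⟩
      rintro ⟨x, hx1, -⟩
      exact absurd ⟨x, hx1⟩ hc
  apply Cls.ext
  · funext k
    rw [Bool.eq_iff_iff, brCls_T]
    show (P.tileCls (sub c a₀ s₀ ρ k.castSucc) (srot a₀ s₀ ρ k.castSucc)).isSome = true ↔ _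
    rw [P.tileCls_isSome, sub_side]
  · rw [Bool.eq_iff_iff]
    show (P.tileCls (sub c a₀ s₀ ρ 4) (srot a₀ s₀ ρ 4)).isSome = true ↔ _
    rw [P.tileCls_isSome, sub_end]
    simp [brCls]
  · funext k
    rw [Bool.eq_iff_iff, brCls_B]
    show ((P.tileCls (sub c a₀ s₀ ρ (k + 3).castSucc) (srot a₀ s₀ ρ (k + 3).castSucc)).any
        (fun κ => κ.T 1) ||
      (P.tileCls (sub c a₀ s₀ ρ (k + 1).castSucc) (srot a₀ s₀ ρ (k + 1).castSucc)).any
        (fun κ => κ.T 3)) = true ↔ _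
    rw [Bool.or_eq_true, hany (k + 3) 1 (sAx a₀ s₀ (k + ρ)) (sSg a₀ s₀ (k + ρ)),
      hany (k + 1) 3 (sAx a₀ s₀ (k + ρ)) (sSg a₀ s₀ (k + ρ))]
    · constructor
      · rintro (⟨x, h1, h2⟩ | ⟨x, h1, h2⟩)
        · exact ⟨k + 3, x, Or.inr rfl, h1, h2⟩
        · exact ⟨k + 1, x, Or.inl rfl, h1, h2⟩
      · rintro ⟨m, x, rfl | rfl, h1, h2⟩
        · exact Or.inr ⟨x, h1, h2⟩
        · exact Or.inl ⟨x, h1, h2⟩
    · intro x
      rw [brCls_T, (lat3 _ _ _).1, (lat3 _ _ _).2, f4_13]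
    · intro x
      rw [brCls_T, (lat1 _ _ _).1, (lat1 _ _ _).2, f4_31]

end Orthotree

end Pool.Agent.Ortho
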