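import Pool.Agent.Ortho.TileGeo
import Pool.Agent.Ortho.ClsGeo

set_option autoImplicit false

/-!
# Ortho/Asm: from a certificate to nets of all orthotrees

Induction over the branches of the tree: all states of the class of a branch are realized on its faces; then the root is a leaf of the tree
(or the only brick).
-/

namespace Pool.Agent.Ortho

theorem asm_sub_fst {n : ℕ} (c : Fin n) (a₀ : Fin 3) (s₀ : Bool) (ρ : Fin 4) (i : Fin 5) :
    (sub c a₀ s₀ ρ i).1 = c := by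
  unfold sub
  split_ifs <;> rfl

theorem asm_sub_ne {n : ℕ} (c : Fin n) (a₀ : Fin 3) (s₀ : Bool) (ρ : Fin 4) (i : Fin 5) :
    ¬ ((sub c a₀ s₀ ρ i).2.1 = a₀ ∧ (sub c a₀ s₀ ρ i).2.2 = s₀) := by
  unfold sub
  split_ifs with h
  · rintro ⟨h1, -⟩
    exact sAx_ne _ _ _ h1
  · rintro ⟨-, h2⟩
    exact absurd h2 (by cases s₀ <;> simp)

namespace Orthotree

variable {n : ℕ} (P : Orthotree n) {S : Cls → Set (State (Fin 4))}

theorem realizes_face {f : Pos n} (h : P.Exposed f) (ρ : Fin 4) :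
    Realizes S P.rects (P.tileA f) (P.tileE f ρ) none := by
  obtain ⟨g, rfl, hg⟩ := P.tileA_exposed h
  intro t s hs
  rw [hg, P.tileE_exposed g ρ]
  exact real_tile P.rects g ρ t s hs

theorem realizes_branch (C : Cert S) (p c : Fin n) (hpc : P.T.Adj p c) :
    ∀ a s, P.Nb p a s c → ∀ ρ, Realizes S P.rects (P.tileA (p, a, s)) (P.tileE (p, a, s) ρ)
      (some (P.brCls c a (!s) ρ)) := by
  refine branch_induct P.tree (fun p c => ∀ a s, P.Nb p a s c → ∀ ρ,
    Realizes S P.rects (P.tileA (p, a, s)) (P.tileE (p, a, s) ρ) (some (P.brCls c a (!s) ρ)))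
    ?_ p c hpc
  clear hpc p c
  intro p c hpc IH a s hnb ρ
  have hcp : P.Nb c a (!s) p := (P.nb_coord hnb).2.2
  rw [P.tileA_sub hnb ρ, P.tileE_sub hnb ρ, ← P.out_sub c a (!s) ρ]
  refine C.comp _ (P.valid_sub hcp ρ) P.rects _ _ (P.conf_sub c a (!s) ρ) ?_
  intro i
  by_cases hE : P.Exposed (sub c a (!s) ρ i)
  · rw [P.tileCls_none hE]
    exact P.realizes_face hE _
  · unfold Exposed at hE
    push Not at hE
    obtain ⟨x, hx⟩ := hE
    rw [P.tileCls_some hx]
    obtain ⟨q, hq⟩ : ∃ q, q = sub c a (!s) ρ i := ⟨_, rfl⟩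
    have h1 : q.1 = c := by rw [hq]; exact asm_sub_fst _ _ _ _ _
    have h2 : ¬ (q.2.1 = a ∧ q.2.2 = !s) := by rw [hq]; exact asm_sub_ne _ _ _ _ _
    rw [← hq] at hx ⊢
    obtain ⟨q1, a1, s1⟩ := q
    simp only at h1 h2 hx ⊢
    subst h1
    have hxp : x ≠ p := by
      rintro rfl
      have := P.nb_face_unique hx hcp
      exact h2 this
    exact IH x hx.1 hxp a1 s1 hx _

theorem hasNet_of_cert (C : Cert S) : P.HasNet := by
  -- the root
  obtain ⟨p, a, s, κ, hκ, hcov, hA'⟩ : ∃ (p : Fin n) (a : Fin 3) (s : Bool) (κ : Option Cls),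
      (∀ c, κ = some c → c.Ok) ∧
      ((∃ c, P.Nb p a s c ∧ ∀ d, P.T.Adj p d → d = c) ∨ ∀ i, i = p) ∧
      Realizes S P.rects (P.tileA (p, a, s)) (P.tileE (p, a, s) 0) κ := by
    rcases exists_leaf P.tree with ⟨r, hr⟩ | ⟨p, c, hpc, hd⟩
    · refine ⟨r, 0, true, none, fun c hc => by simp at hc, Or.inr hr, ?_⟩
      apply P.realizes_face
      intro j hj
      have := hj.1
      rw [hr j] at this
      exact P.T.loopless.irrefl _ this
    · obtain ⟨a, s, hnb⟩ := P.exists_nb hpc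
      refine ⟨p, a, s, some (P.brCls c a (!s) 0), ?_, Or.inl ⟨c, hnb, hd⟩, ?_⟩
      · intro c' hc'
        rw [← Option.some.inj hc']
        exact P.brCls_ok _ _ _ _
      · exact P.realizes_branch C p c hpc a s hnb 0
  obtain ⟨hall, hexp, hdisj⟩ := P.root_cover hcov
  obtain ⟨ι, d, σ, N, hN, h1⟩ := C.root κ hκ P.rects _ _ _ _ (P.conf_sub p a s 0) hdisj
    (fun k => P.root_glue p a s k) (fun i => P.realizes_face (hexp i) _) hA'
  obtain ⟨g, -, -⟩ := P.tileA_exposed (hexp 4)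
  exact hasNet_of_ok P P.rects P.rects_cor ⟨g⟩ N _ hall hN
    (fun f g => h1 f (hall f) g (hall g))

end Orthotree

end Pool.Agent.Ortho
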