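import Mathlib

set_option autoImplicit false

/-!
# Ortho/Branch: branches of a tree

`branch T p c` (for adjacent `p, c`): the vertices `i` joined to `c` by a path which avoids `p`.
Use `IsTree.existsUnique_path` / `IsAcyclic.path_unique`.

* `mem_branch_rec`: a path `c, d, ..., i` avoiding `p` (`i ≠ c`): its tail is a path from `d` to `i` avoiding `c`, and `d ≠ p`. Conversely a path
  `w` from `d` to `i` avoiding `c` extends to a path from `c`; if it contained `p`, its part from `d` to `p` extended by `c` would be a path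
  `c, d, ..., p` of length at least two, but `c, p` is another path from `c` to `p`.
* `branch_disj`: `i` in both: the two paths `c, d, ..., i` and `c, d', ..., i` are different.
* `branch_cover`: take the path from `p` to `i`: it contains `c` (then its part from `c` avoids `p`) or not. If not, `i ∈ branch T c p`.
* `branch_induct`: induction on the number of elements of `branch T p c`: `branch T c d ⊂ branch T p c` (does not contain `c`).
-/

namespace Pool.Agent.Ortho

variable {n : ℕ} (T : SimpleGraph (Fin n))

open Classical in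
/-- the branch at `c` seen from `p` -/
noncomputable def branch (p c : Fin n) : Finset (Fin n) :=
  Finset.univ.filter fun i => ∃ w : T.Walk c i, w.IsPath ∧ p ∉ w.support

variable {T}

theorem mem_branch {p c i : Fin n} :
    i ∈ branch T p c ↔ ∃ w : T.Walk c i, w.IsPath ∧ p ∉ w.support := by
  simp [branch]

theorem mem_branch_rec (hT : T.IsTree) {p c : Fin n} (h : T.Adj p c) (i : Fin n) :
    i ∈ branch T p c ↔ i = c ∨ ∃ d, T.Adj c d ∧ d ≠ p ∧ i ∈ branch T c d := by
  constructor
  · intro hi
    obtain ⟨w, hw, hp⟩ := mem_branch.1 hi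
    cases w with
    | nil => exact Or.inl rfl
    | @cons _ d _ h' w' =>
      rw [SimpleGraph.Walk.cons_isPath_iff] at hw
      rw [SimpleGraph.Walk.support_cons, List.mem_cons, not_or] at hp
      refine Or.inr ⟨d, h', ?_, mem_branch.2 ⟨w', hw.1, hw.2⟩⟩
      rintro rfl
      exact hp.2 w'.start_mem_support
  · rintro (rfl | ⟨d, hd, hdp, hi⟩)
    · refine mem_branch.2 ⟨SimpleGraph.Walk.nil, SimpleGraph.Walk.IsPath.nil, ?_⟩
      rw [SimpleGraph.Walk.support_nil, List.mem_singleton]
      exact h.ne
    · obtain ⟨w, hw, hc⟩ := mem_branch.1 hi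
      refine mem_branch.2 ⟨SimpleGraph.Walk.cons hd w, ?_, ?_⟩
      · rw [SimpleGraph.Walk.cons_isPath_iff]
        exact ⟨hw, hc⟩
      · rw [SimpleGraph.Walk.support_cons, List.mem_cons, not_or]
        refine ⟨h.ne, fun hpw => ?_⟩
        have h1 : (SimpleGraph.Walk.cons hd (w.takeUntil p hpw)).IsPath := by
          rw [SimpleGraph.Walk.cons_isPath_iff]
          exact ⟨hw.takeUntil hpw, fun hcw => hc (w.support_takeUntil_subset_support hpw hcw)⟩
        have h2 : (SimpleGraph.Walk.cons h.symm (SimpleGraph.Walk.nil : T.Walk p p)).IsPath := by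
          rw [SimpleGraph.Walk.cons_isPath_iff]
          refine ⟨SimpleGraph.Walk.IsPath.nil, ?_⟩
          rw [SimpleGraph.Walk.support_nil, List.mem_singleton]
          exact h.ne'
        have h3 := hT.isAcyclic.path_unique ⟨_, h1⟩ ⟨_, h2⟩
        have h4 := congrArg (fun q : T.Path c p => q.1.support) h3
        simp only [SimpleGraph.Walk.support_cons, SimpleGraph.Walk.support_nil] at h4
        have h5 : (w.takeUntil p hpw).support = [p] := by
          simpa using h4
        have h6 := (w.takeUntil p hpw).start_mem_support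
        rw [h5, List.mem_singleton] at h6
        exact hdp h6

theorem self_not_mem_branch (c d : Fin n) : c ∉ branch T c d := by
  intro h
  obtain ⟨w, -, hw⟩ := mem_branch.1 h
  exact hw w.end_mem_support

theorem branch_disj (hT : T.IsTree) {c d d' : Fin n} (hd : T.Adj c d) (hd' : T.Adj c d')
    (hne : d ≠ d') : Disjoint (branch T c d) (branch T c d') := by
  rw [Finset.disjoint_left]
  intro i hi hi'
  obtain ⟨w, hw, hc⟩ := mem_branch.1 hi
  obtain ⟨w', hw', hc'⟩ := mem_branch.1 hi'
  have h1 : (SimpleGraph.Walk.cons hd w).IsPath := by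
    rw [SimpleGraph.Walk.cons_isPath_iff]
    exact ⟨hw, hc⟩
  have h2 : (SimpleGraph.Walk.cons hd' w').IsPath := by
    rw [SimpleGraph.Walk.cons_isPath_iff]
    exact ⟨hw', hc'⟩
  have h3 := hT.isAcyclic.path_unique ⟨_, h1⟩ ⟨_, h2⟩
  have h4 := congrArg (fun q : T.Path c i => q.1.support) h3
  simp only [SimpleGraph.Walk.support_cons] at h4
  have h5 : w.support = w'.support := by simpa using h4
  have h6 : w.support.head? = w'.support.head? := by rw [h5]
  have e1 : w.support.head? = some d := by
    cases w <;> simp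
  have e2 : w'.support.head? = some d' := by
    cases w' <;> simp
  rw [e1, e2] at h6
  exact hne (Option.some.inj h6)

theorem branch_cover (hT : T.IsTree) {p c : Fin n} (h : T.Adj p c) (i : Fin n) :
    i ∈ branch T p c ∨ i ∈ branch T c p := by
  obtain ⟨q, hq, -⟩ := hT.existsUnique_path c i
  cases q with
  | nil => exact Or.inl ((mem_branch_rec hT h _).2 (Or.inl rfl))
  | @cons _ d _ h' q' =>
    rw [SimpleGraph.Walk.cons_isPath_iff] at hq
    by_cases hdp : d = p
    · subst hdp
      exact Or.inr (mem_branch.2 ⟨q', hq.1, hq.2⟩)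
    · exact Or.inl ((mem_branch_rec hT h _).2
        (Or.inr ⟨d, h', hdp, mem_branch.2 ⟨q', hq.1, hq.2⟩⟩))

/-- a leaf and its neighbour: the rest of the tree is the branch -/
theorem branch_leaf (hT : T.IsTree) {p c : Fin n} (h : T.Adj p c) (hp : ∀ d, T.Adj p d → d = c)
    (i : Fin n) : i = p ∨ i ∈ branch T p c := by
  rcases branch_cover hT h i with hi | hi
  · exact Or.inr hi
  · rcases (mem_branch_rec hT h.symm i).1 hi with h1 | ⟨d, hd, hdc, -⟩
    · exact Or.inl h1
    · exact absurd (hp d hd) hdc

theorem branch_card_lt (hT : T.IsTree) {p c d : Fin n} (h : T.Adj p c) (hd : T.Adj c d)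
    (hdp : d ≠ p) : (branch T c d).card < (branch T p c).card := by
  apply Finset.card_lt_card
  rw [Finset.ssubset_iff_of_subset]
  · exact ⟨c, (mem_branch_rec hT h c).2 (Or.inl rfl), self_not_mem_branch c d⟩
  · intro i hi
    exact (mem_branch_rec hT h i).2 (Or.inr ⟨d, hd, hdp, hi⟩)

theorem branch_induct (hT : T.IsTree) (Φ : Fin n → Fin n → Prop)
    (step : ∀ p c, T.Adj p c → (∀ d, T.Adj c d → d ≠ p → Φ c d) → Φ p c) (p c : Fin n)
    (h : T.Adj p c) : Φ p c := by
  have key : ∀ (N : ℕ) (p c : Fin n), T.Adj p c → (branch T p c).card ≤ N → Φ p c := by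
    intro N
    induction N with
    | zero =>
      intro p c h hN
      have : c ∈ branch T p c := (mem_branch_rec hT h c).2 (Or.inl rfl)
      have := Finset.card_pos.2 ⟨c, this⟩
      omega
    | succ N ih =>
      intro p c h hN
      refine step p c h fun d hd hdp => ih c d hd ?_
      have := branch_card_lt hT h hd hdp
      omega
  exact key _ p c h le_rfl

/-- a tree has one vertex or a leaf -/
theorem exists_leaf (hT : T.IsTree) : (∃ r : Fin n, ∀ i, i = r) ∨
    ∃ p c : Fin n, T.Adj p c ∧ ∀ d, T.Adj p d → d = c := by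
  classical
  haveI : Nonempty (Fin n) := hT.connected.nonempty
  rcases subsingleton_or_nontrivial (Fin n) with hs | hn
  · left
    obtain ⟨r⟩ := this
    exact ⟨r, fun i => Subsingleton.elim _ _⟩
  · right
    obtain ⟨v, hv⟩ := hT.exists_vert_degree_one_of_nontrivial
    rw [SimpleGraph.degree_eq_one_iff_existsUnique_adj] at hv
    obtain ⟨c, hc, hu⟩ := hv
    exact ⟨v, c, hc, fun d hd => hu d hd⟩

end Pool.Agent.Ortho
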