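import Pool.Agent.Ortho.Cls

set_option autoImplicit false

/-!
# Ortho/Fam: the disjoint union of a family of discs

`famState σ`: the state on `κ × ι` of a family of states: component `(k, x)` is coded by `Nat.pair k x` (`k` = number of the member).

* `real_fam`: directly from the definition of `Real`/`Ok`, or by induction on `m` from `real_union`, `Real.comap`, `Real.equiv`:
  `Fin (m + 1) × ι` is mapped to `(Fin m × ι) ⊕ ι` by a bijection (`Fin.lastCases` / `Fin.snocEquiv`), and the state obtained from
  `State.sum` is equivalent to `famState`. The case `m = 0`: `A = ∅`, no boundary edge; a `PNet V (Fin 0 × ι)` exists (`att` on the empty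
  type), all fields of `Ok` are trivial.
-/

namespace Pool.Agent.Ortho

/-- disjoint union of a family of states -/
def famState {m : ℕ} {ι : Type} (σ : Fin m → State ι) : State (Fin m × ι) where
  lab p := (σ p.1).lab p.2
  cmp p := Nat.pair p.1 ((σ p.1).cmp p.2)
  col p := Nat.pair p.1 ((σ p.1).col p.2)
  lu p := (σ p.1).lu p.2
  ru p := (σ p.1).ru p.2

namespace FamAux

theorem real_zero {V ι : Type} (R : Rects V) (e : Fin 0 × ι → E3 × E3) (σ : State (Fin 0 × ι)) :
    Real R (∅ : Finset V) e σ := by
  refine ⟨⟨fun _ => 0, fun _ => 0, fun _ => 0, fun _ => 0, ⊥, fun p => p.1.elim0⟩, ?_, ?_⟩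
  · constructor
    · intro f g h
      exact absurd h (by simp)
    · exact SimpleGraph.isAcyclic_bot
    · intro f hf
      simp at hf
    · intro f g h
      exact absurd h (by simp)
    · intro f hf
      simp at hf
    all_goals intro i; exact i.1.elim0
  · intro f hf
    simp at hf

/-- the bijection `Fin (m + 1) × ι → (Fin m × ι) ⊕ ι` -/
def spl {m : ℕ} {ι : Type} (p : Fin (m + 1) × ι) : (Fin m × ι) ⊕ ι :=
  Fin.lastCases (motive := fun _ => (Fin m × ι) ⊕ ι) (Sum.inr p.2) (fun k => Sum.inl (k, p.2)) p.1

theorem spl_last {m : ℕ} {ι : Type} (x : ι) : spl (Fin.last m, x) = Sum.inr x := by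
  simp [spl]

theorem spl_cast {m : ℕ} {ι : Type} (k : Fin m) (x : ι) :
    spl (k.castSucc, x) = Sum.inl (k, x) := by
  simp [spl]

theorem cases_pt {m : ℕ} {ι : Type} {P : Fin (m + 1) × ι → Prop}
    (h1 : ∀ x, P (Fin.last m, x)) (h2 : ∀ (k : Fin m) x, P (k.castSucc, x)) : ∀ p, P p := by
  rintro ⟨k, x⟩
  induction k using Fin.lastCases with
  | last => exact h1 x
  | cast k => exact h2 k x

theorem spl_inj {m : ℕ} {ι : Type} : Function.Injective (spl (m := m) (ι := ι)) := by
  intro p
  revert p
  refine cases_pt ?_ ?_
  · intro x
    refine cases_pt ?_ ?_
    · intro y h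
      rw [spl_last, spl_last] at h
      rw [Sum.inr.inj h]
    · intro k y h
      rw [spl_last, spl_cast] at h
      exact absurd h (by simp)
  · intro k x
    refine cases_pt ?_ ?_
    · intro y h
      rw [spl_last, spl_cast] at h
      exact absurd h (by simp)
    · intro l y h
      rw [spl_cast, spl_cast] at h
      have h1 := Sum.inl.inj h
      rw [Prod.mk.injEq] at h1
      rw [h1.1, h1.2]

theorem spl_surj {m : ℕ} {ι : Type} (q : (Fin m × ι) ⊕ ι) : ∃ p, spl p = q := by
  rcases q with ⟨k, x⟩ | x
  · exact ⟨(k.castSucc, x), spl_cast k x⟩
  · exact ⟨(Fin.last m, x), spl_last x⟩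

end FamAux

theorem real_fam {V ι : Type} [DecidableEq V] (R : Rects V) {m : ℕ} (A : Fin m → Finset V)
    (hA : ∀ i j, i ≠ j → Disjoint (A i) (A j)) (e : Fin m → ι → E3 × E3) (σ : Fin m → State ι)
    (h : ∀ i, Real R (A i) (e i) (σ i)) :
    Real R (Finset.univ.biUnion A) (fun p : Fin m × ι => e p.1 p.2) (famState σ) := by
  induction m with
  | zero =>
    have h0 : (Finset.univ : Finset (Fin 0)).biUnion A = ∅ := by
      simp
    rw [h0]
    exact FamAux.real_zero R _ _
  | succ m ih =>
    have h1 := ih (fun i => A i.castSucc)
      (fun i j hij => hA _ _ (fun h => hij (Fin.castSucc_injective m h)))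
      (fun i => e i.castSucc) (fun i => σ i.castSucc) (fun i => h i.castSucc)
    have hd : Disjoint (Finset.univ.biUnion fun i : Fin m => A i.castSucc) (A (Fin.last m)) := by
      rw [Finset.disjoint_biUnion_left]
      intro i _
      exact hA _ _ (Fin.castSucc_lt_last i).ne
    have h2 := real_union R hd h1 (h (Fin.last m))
    have h3 := h2.comap (FamAux.spl (m := m) (ι := ι)) FamAux.spl_inj
      (fun q _ => FamAux.spl_surj q)
    have hU : (Finset.univ.biUnion fun i : Fin m => A i.castSucc) ∪ A (Fin.last m) =
        Finset.univ.biUnion A := by
      ext v
      simp only [Finset.mem_union, Finset.mem_biUnion, Finset.mem_univ, true_and]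
      constructor
      · rintro (⟨i, hi⟩ | hi)
        · exact ⟨_, hi⟩
        · exact ⟨_, hi⟩
      · rintro ⟨i, hi⟩
        induction i using Fin.lastCases with
        | last => exact Or.inr hi
        | cast i => exact Or.inl ⟨i, hi⟩
    rw [hU] at h3
    have he : (Sum.elim (fun p : Fin m × ι => e p.1.castSucc p.2) (e (Fin.last m))) ∘
        (FamAux.spl (m := m) (ι := ι)) = fun p : Fin (m + 1) × ι => e p.1 p.2 := by
      funext p
      revert p
      refine FamAux.cases_pt ?_ ?_
      · intro x
        rw [Function.comp_apply, FamAux.spl_last]
        rfl
      · intro k x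
        rw [Function.comp_apply, FamAux.spl_cast]
        rfl
    rw [he] at h3
    refine h3.equiv ?_
    constructor
    · refine FamAux.cases_pt ?_ ?_
      · intro x
        simp only [State.comap, State.sum, Function.comp_apply, FamAux.spl_last, famState,
          Sum.elim_inr]
      · intro k x
        simp only [State.comap, State.sum, Function.comp_apply, FamAux.spl_cast, famState,
          Sum.elim_inl]
    · refine FamAux.cases_pt ?_ ?_
      · intro x
        refine FamAux.cases_pt ?_ ?_
        · intro y _ _
          simp only [State.comap, State.sum, Function.comp_apply, FamAux.spl_last, famState,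
            Sum.elim_inr, Nat.pair_eq_pair, true_and]
          omega
        · intro l y _ _
          have hl := l.2
          simp only [State.comap, State.sum, Function.comp_apply, FamAux.spl_last,
            FamAux.spl_cast, famState, Sum.elim_inr, Sum.elim_inl, Nat.pair_eq_pair,
            Fin.val_last, Fin.val_castSucc]
          omega
      · intro k x
        have hk := k.2
        refine FamAux.cases_pt ?_ ?_
        · intro y _ _
          simp only [State.comap, State.sum, Function.comp_apply, FamAux.spl_last,
            FamAux.spl_cast, famState, Sum.elim_inr, Sum.elim_inl, Nat.pair_eq_pair,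
            Fin.val_last, Fin.val_castSucc]
          omega
        · intro l y _ _
          simp only [State.comap, State.sum, Function.comp_apply,
            FamAux.spl_cast, famState, Sum.elim_inl, Fin.val_castSucc]
          omega
    · refine FamAux.cases_pt ?_ ?_
      · intro x
        refine FamAux.cases_pt ?_ ?_
        · intro y _ _
          simp only [State.comap, State.sum, Function.comp_apply, FamAux.spl_last, famState,
            Sum.elim_inr, Nat.pair_eq_pair, true_and]
          omega
        · intro l y _ _
          have hl := l.2
          simp only [State.comap, State.sum, Function.comp_apply, FamAux.spl_last,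
            FamAux.spl_cast, famState, Sum.elim_inr, Sum.elim_inl, Nat.pair_eq_pair,
            Fin.val_last, Fin.val_castSucc]
          omega
      · intro k x
        have hk := k.2
        refine FamAux.cases_pt ?_ ?_
        · intro y _ _
          simp only [State.comap, State.sum, Function.comp_apply, FamAux.spl_last,
            FamAux.spl_cast, famState, Sum.elim_inr, Sum.elim_inl, Nat.pair_eq_pair,
            Fin.val_last, Fin.val_castSucc]
          omega
        · intro l y _ _
          simp only [State.comap, State.sum, Function.comp_apply,
            FamAux.spl_cast, famState, Sum.elim_inl, Fin.val_castSucc]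
          omega
    · refine FamAux.cases_pt ?_ ?_
      · intro x _
        simp only [State.comap, State.sum, Function.comp_apply, FamAux.spl_last, famState,
          Sum.elim_inr]
      · intro k x _
        simp only [State.comap, State.sum, Function.comp_apply, FamAux.spl_cast, famState,
          Sum.elim_inl]
    · refine FamAux.cases_pt ?_ ?_
      · intro x _
        simp only [State.comap, State.sum, Function.comp_apply, FamAux.spl_last, famState,
          Sum.elim_inr]
      · intro k x _
        simp only [State.comap, State.sum, Function.comp_apply, FamAux.spl_cast, famState,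
          Sum.elim_inl]

end Pool.Agent.Ortho
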