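import Pool.Agent.Ortho.Code
import Pool.Agent.Ortho.Fam

set_option autoImplicit false

/-!
# Ortho/CatSound: the coded state of five discs

* `shiftK_eq`: by induction on `l` (`force n k = k n`: cases on `n`).
* `findL (cd (k, m)) (shiftL 0 (x 0) ++ ... ++ shiftL 4 (x 4))` is `findL m (x k)` with shifted entries: the numbers `5 * i + k` determine `i` and
  `k < 5`. Hence the state coded by the concatenated list is equivalent to `famState` (components `5 * c + k` and `Nat.pair k c`: the same
  up to renaming), `real_fam` and `Real.equiv` give `real_cat`.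
* `good_cat`: the numbers in `x k` are numbers `m < 4` of boundary edges, they become the numbers `cd (k, m)`; they are distinct.
-/

namespace Pool.Agent.Ortho

/-- renumbering for the element `k` -/
def shiftE (k : ℕ) (a : Ent) : Ent := ⟨5 * a.i + k, a.lab, 5 * a.cmp + k, 5 * a.col + k, a.lu, a.ru⟩

/-- renumbering for the element `k` -/
def shiftL (k : ℕ) (l : List Ent) : List Ent := l.map (shiftE k)

/-- the coded state of five discs -/
def catL (x : Fin 5 → List Ent) : List Ent :=
  shiftL 0 (x 0) ++ (shiftL 1 (x 1) ++ (shiftL 2 (x 2) ++ (shiftL 3 (x 3) ++ (shiftL 4 (x 4) ++ []))))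

theorem force_eq (n : ℕ) (k : ℕ → Bool) : force n k = k n := by
  cases n <;> rfl

theorem shiftK_eq (k : ℕ) (l l' : List Ent) (c : List Ent → Bool) :
    shiftK k l l' c = c (shiftL k l ++ l') := by
  induction l generalizing c with
  | nil => rfl
  | cons a l ih =>
    obtain ⟨i, lab, cmp, col, lu, ru⟩ := a
    show force (Nat.add (Nat.mul 5 i) k) (fun i' =>
        force (Nat.add (Nat.mul 5 cmp) k) fun cmp' => force (Nat.add (Nat.mul 5 col) k) fun col' =>
        shiftK k l l' fun l'' => c (⟨i', lab, cmp', col', lu, ru⟩ :: l'')) = _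
    rw [force_eq, force_eq, force_eq, ih]
    rfl

namespace CatAux

theorem findL_append (n : ℕ) (l l' : List Ent) :
    findL n (l ++ l') = (findL n l).or (findL n l') := by
  induction l with
  | nil => rfl
  | cons a l ih =>
    show (if a.i = n then some a else findL n (l ++ l')) =
      ((if a.i = n then some a else findL n l).or (findL n l'))
    split
    · rfl
    · exact ih

theorem findL_shift (k m : ℕ) (l : List Ent) :
    findL (5 * m + k) (shiftL k l) = (findL m l).map (shiftE k) := by
  induction l with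
  | nil => rfl
  | cons a l ih =>
    show findL (5 * m + k) (shiftE k a :: shiftL k l) = _
    unfold findL
    by_cases h : a.i = m
    · rw [if_pos h, if_pos (show (shiftE k a).i = 5 * m + k by show 5 * a.i + k = _; rw [h])]
      rfl
    · rw [if_neg h, if_neg (show ¬ (shiftE k a).i = 5 * m + k by show ¬ 5 * a.i + k = _; omega)]
      exact ih

theorem findL_shift_ne (k k' m : ℕ) (hk : k < 5) (hk' : k' < 5) (hne : k ≠ k') (l : List Ent) :
    findL (5 * m + k') (shiftL k l) = none := by
  induction l with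
  | nil => rfl
  | cons a l ih =>
    show findL (5 * m + k') (shiftE k a :: shiftL k l) = _
    unfold findL
    rw [if_neg (show ¬ (shiftE k a).i = 5 * m + k' by show ¬ 5 * a.i + k = _; omega)]
    exact ih

theorem findL_cat (x : Fin 5 → List Ent) (k : Fin 5) (m : ℕ) :
    findL (5 * m + k) (catL x) = (findL m (x k)).map (shiftE k) := by
  unfold catL
  rw [findL_append, findL_append, findL_append, findL_append, findL_append]
  fin_cases k
  · show ((findL (5 * m + 0) (shiftL 0 (x 0))).or _) = _
    rw [findL_shift]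
    rw [findL_shift_ne 1 0 m (by norm_num) (by norm_num) (by norm_num),
      findL_shift_ne 2 0 m (by norm_num) (by norm_num) (by norm_num),
      findL_shift_ne 3 0 m (by norm_num) (by norm_num) (by norm_num),
      findL_shift_ne 4 0 m (by norm_num) (by norm_num) (by norm_num)]
    simp [findL]
  · show ((findL (5 * m + 1) (shiftL 0 (x 0))).or ((findL (5 * m + 1) (shiftL 1 (x 1))).or _)) = _
    rw [findL_shift]
    rw [findL_shift_ne 0 1 m (by norm_num) (by norm_num) (by norm_num),
      findL_shift_ne 2 1 m (by norm_num) (by norm_num) (by norm_num),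
      findL_shift_ne 3 1 m (by norm_num) (by norm_num) (by norm_num),
      findL_shift_ne 4 1 m (by norm_num) (by norm_num) (by norm_num)]
    simp [findL]
  · show ((findL (5 * m + 2) (shiftL 0 (x 0))).or ((findL (5 * m + 2) (shiftL 1 (x 1))).or
      ((findL (5 * m + 2) (shiftL 2 (x 2))).or _))) = _
    rw [findL_shift]
    rw [findL_shift_ne 0 2 m (by norm_num) (by norm_num) (by norm_num),
      findL_shift_ne 1 2 m (by norm_num) (by norm_num) (by norm_num),
      findL_shift_ne 3 2 m (by norm_num) (by norm_num) (by norm_num),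
      findL_shift_ne 4 2 m (by norm_num) (by norm_num) (by norm_num)]
    simp [findL]
  · show ((findL (5 * m + 3) (shiftL 0 (x 0))).or ((findL (5 * m + 3) (shiftL 1 (x 1))).or
      ((findL (5 * m + 3) (shiftL 2 (x 2))).or ((findL (5 * m + 3) (shiftL 3 (x 3))).or _)))) = _
    rw [findL_shift]
    rw [findL_shift_ne 0 3 m (by norm_num) (by norm_num) (by norm_num),
      findL_shift_ne 1 3 m (by norm_num) (by norm_num) (by norm_num),
      findL_shift_ne 2 3 m (by norm_num) (by norm_num) (by norm_num),
      findL_shift_ne 4 3 m (by norm_num) (by norm_num) (by norm_num)]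
    simp [findL]
  · show ((findL (5 * m + 4) (shiftL 0 (x 0))).or ((findL (5 * m + 4) (shiftL 1 (x 1))).or
      ((findL (5 * m + 4) (shiftL 2 (x 2))).or ((findL (5 * m + 4) (shiftL 3 (x 3))).or
      ((findL (5 * m + 4) (shiftL 4 (x 4))).or _))))) = _
    rw [findL_shift]
    rw [findL_shift_ne 0 4 m (by norm_num) (by norm_num) (by norm_num),
      findL_shift_ne 1 4 m (by norm_num) (by norm_num) (by norm_num),
      findL_shift_ne 2 4 m (by norm_num) (by norm_num) (by norm_num),
      findL_shift_ne 3 4 m (by norm_num) (by norm_num) (by norm_num)]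
    simp [findL]

theorem findL_cd (x : Fin 5 → List Ent) (p : Fin 5 × Fin 4) :
    findL (cd p) (catL x) = (findL (p.2 : ℕ) (x p.1)).map (shiftE p.1) :=
  findL_cat x p.1 p.2

/-- open boundary edges are found -/
theorem open_found {ι : Type} {c : ι → ℕ} {l : List Ent} {i : ι} (h : (toSt c l).Open i) :
    ∃ a, findL (c i) l = some a := by
  cases hf : findL (c i) l with
  | none =>
    exfalso
    apply h
    show (findL (c i) l).map _ = none
    rw [hf]
    rfl
  | some a => exact ⟨a, rfl⟩

theorem vert_open {ι : Type} {σ : State ι} {i : ι} (h : σ.Vert i) : σ.Open i := by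
  rcases h with h | h <;> · intro h0; rw [h0] at h; exact absurd h (by simp)

theorem key {x : Fin 5 → List Ent} {p : Fin 5 × Fin 4}
    (h : (famState fun k => toSt (Fin.val : Fin 4 → ℕ) (x k)).Open p) :
    ∃ a, findL (p.2 : ℕ) (x p.1) = some a ∧ findL (cd p) (catL x) = some (shiftE p.1 a) := by
  have h1 : (toSt (Fin.val : Fin 4 → ℕ) (x p.1)).Open p.2 := h
  obtain ⟨a, ha⟩ := open_found h1
  refine ⟨a, ha, ?_⟩
  rw [findL_cd, ha]
  rfl

theorem equiv_cat (x : Fin 5 → List Ent) :
    (famState fun k => toSt (Fin.val : Fin 4 → ℕ) (x k)).Equiv (toSt cd (catL x)) := by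
  constructor
  · intro p
    show (findL (p.2 : ℕ) (x p.1)).map (fun a => labOf a.lab) =
      (findL (cd p) (catL x)).map fun a => labOf a.lab
    rw [findL_cd, Option.map_map]
    rfl
  · intro p q hp hq
    obtain ⟨a, ha, ha'⟩ := key hp
    obtain ⟨b, hb, hb'⟩ := key hq
    show (Nat.pair p.1 (((findL (p.2 : ℕ) (x p.1)).map Ent.cmp).getD 0) =
      Nat.pair q.1 (((findL (q.2 : ℕ) (x q.1)).map Ent.cmp).getD 0)) ↔
      ((findL (cd p) (catL x)).map Ent.cmp).getD 0 = ((findL (cd q) (catL x)).map Ent.cmp).getD 0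
    rw [ha, hb, ha', hb', Nat.pair_eq_pair]
    show ((p.1 : ℕ) = q.1 ∧ a.cmp = b.cmp) ↔ 5 * a.cmp + p.1 = 5 * b.cmp + q.1
    have h1 := p.1.2
    have h2 := q.1.2
    omega
  · intro p q hp hq
    obtain ⟨a, ha, ha'⟩ := key (vert_open hp)
    obtain ⟨b, hb, hb'⟩ := key (vert_open hq)
    show (Nat.pair p.1 (((findL (p.2 : ℕ) (x p.1)).map Ent.col).getD 0) =
      Nat.pair q.1 (((findL (q.2 : ℕ) (x q.1)).map Ent.col).getD 0)) ↔
      ((findL (cd p) (catL x)).map Ent.col).getD 0 = ((findL (cd q) (catL x)).map Ent.col).getD 0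
    rw [ha, hb, ha', hb', Nat.pair_eq_pair]
    show ((p.1 : ℕ) = q.1 ∧ a.col = b.col) ↔ 5 * a.col + p.1 = 5 * b.col + q.1
    have h1 := p.1.2
    have h2 := q.1.2
    omega
  · intro p hp
    obtain ⟨a, ha, ha'⟩ := key (vert_open hp)
    show ((findL (p.2 : ℕ) (x p.1)).map Ent.lu).getD false =
      ((findL (cd p) (catL x)).map Ent.lu).getD false
    rw [ha, ha']
    rfl
  · intro p hp
    obtain ⟨a, ha, ha'⟩ := key (vert_open hp)
    show ((findL (p.2 : ℕ) (x p.1)).map Ent.ru).getD false =
      ((findL (cd p) (catL x)).map Ent.ru).getD false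
    rw [ha, ha']
    rfl

theorem mem_shiftL {k : ℕ} {l : List Ent} {a : Ent} (h : a ∈ shiftL k l) :
    ∃ b ∈ l, a = shiftE k b := by
  obtain ⟨b, hb, rfl⟩ := List.mem_map.1 h
  exact ⟨b, hb, rfl⟩

theorem nodup_shift {k : ℕ} {l : List Ent} (h : (l.map Ent.i).Nodup) :
    ((shiftL k l).map Ent.i).Nodup := by
  have h1 : (shiftL k l).map Ent.i = (l.map Ent.i).map (fun n => 5 * n + k) := by
    unfold shiftL
    rw [List.map_map, List.map_map]
    rfl
  rw [h1]
  refine h.map ?_
  intro a b hab
  have : 5 * a + k = 5 * b + k := hab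
  omega

theorem mod_shift {k : ℕ} (hk : k < 5) {l : List Ent} {n : ℕ}
    (h : n ∈ (shiftL k l).map Ent.i) : n % 5 = k := by
  obtain ⟨a, ha, rfl⟩ := List.mem_map.1 h
  obtain ⟨b, _, rfl⟩ := mem_shiftL ha
  show (5 * b.i + k) % 5 = k
  omega

/-- the numbers of a concatenated list -/
theorem nodup_step {k : ℕ} (hk : k < 5) {l l' : List Ent} (h : (l.map Ent.i).Nodup)
    (h' : (l'.map Ent.i).Nodup) (hm : ∀ n ∈ l'.map Ent.i, k < n % 5) :
    ((shiftL k l ++ l').map Ent.i).Nodup ∧ ∀ n ∈ (shiftL k l ++ l').map Ent.i, k ≤ n % 5 := by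
  rw [List.map_append]
  constructor
  · refine List.Nodup.append (nodup_shift h) h' ?_
    intro n hn hn'
    have h1 := mod_shift hk hn
    have h2 := hm n hn'
    omega
  · intro n hn
    rcases List.mem_append.1 hn with hn | hn
    · exact (mod_shift hk hn).ge
    · exact (hm n hn).le

end CatAux

open CatAux in
theorem good_cat {x : Fin 5 → List Ent} (h : ∀ k, Good (Fin.val : Fin 4 → ℕ) (x k)) :
    Good cd (catL x) := by
  constructor
  · have h4 := nodup_step (k := 4) (by norm_num) (h 4).nodup (l' := []) (by simp) (by simp)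
    have h3 := nodup_step (k := 3) (by norm_num) (h 3).nodup h4.1 (fun n hn => by
      have := h4.2 n hn; omega)
    have h2 := nodup_step (k := 2) (by norm_num) (h 2).nodup h3.1 (fun n hn => by
      have := h3.2 n hn; omega)
    have h1 := nodup_step (k := 1) (by norm_num) (h 1).nodup h2.1 (fun n hn => by
      have := h2.2 n hn; omega)
    have h0 := nodup_step (k := 0) (by norm_num) (h 0).nodup h1.1 (fun n hn => by
      have := h1.2 n hn; omega)
    exact h0.1
  · intro a ha
    have h1 : ∃ k : Fin 5, a ∈ shiftL k (x k) := by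
      unfold catL at ha
      simp only [List.mem_append, List.not_mem_nil, or_false] at ha
      rcases ha with ha | ha | ha | ha | ha
      · exact ⟨0, ha⟩
      · exact ⟨1, ha⟩
      · exact ⟨2, ha⟩
      · exact ⟨3, ha⟩
      · exact ⟨4, ha⟩
    obtain ⟨k, hk⟩ := h1
    obtain ⟨b, hb, rfl⟩ := mem_shiftL hk
    obtain ⟨⟨m, hm⟩, hl⟩ := (h k).rng b hb
    refine ⟨⟨(k, m), ?_⟩, hl⟩
    show 5 * (m : ℕ) + (k : ℕ) = 5 * b.i + k
    rw [hm]

open CatAux in
theorem real_cat {V : Type} [DecidableEq V] {R : Rects V} {A : Fin 5 → Finset V}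
    (hA : ∀ i j, i ≠ j → Disjoint (A i) (A j)) {e : Fin 5 → Fin 4 → E3 × E3} {x : Fin 5 → List Ent}
    (h : ∀ i, Real R (A i) (e i) (toSt (Fin.val : Fin 4 → ℕ) (x i))) :
    Real R (Finset.univ.biUnion A) (fun p : Fin 5 × Fin 4 => e p.1 p.2) (toSt cd (catL x)) :=
  (real_fam R A hA e (fun i => toSt (Fin.val : Fin 4 → ℕ) (x i)) h).equiv (equiv_cat x)

end Pool.Agent.Ortho
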