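import Pool.Agent.Ortho.Check

set_option autoImplicit false

/-!
# Ortho/CfgSound: soundness of the check of the configurations

Pure combinatorics of `Nat` and lists, no geometry. `force n k = k n` (cases on `n`). `bitK g n = g.testBit n`.
* `(baseM D).testBit j = true ↔ ∃ x0 ... x4, D[j]? = some (.d x0 ... x4)`; `(selM sel g D).testBit j = true ↔ ∃ x0 ... x4, D[j]? = some (.d x0 ... x4) ∧
  bitK g (sel x0 ... x4)`: induction on `D`, cases on `j` (`Nat.testBit_succ`, `Nat.succ (2 * n)`).
* `tabK ... k = true`: there is a table `t` with `k t = true` which contains, if `b = true`, the pair `(T, selM sel (gOf ct T top B) D)` for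
  every row `(T, B, top)` with `T &&& forb = 0`, `B &&& forb = 0`, and the pair `(0, base)` if `b = false`.
* `allP t p = true`: `p T M = true` for all `(T, M) ∈ t`.
* `covK N g R X acc = true` and `g.testBit n`: `acc.testBit n` or `X.testBit (n + r * N)` for some `r < R`: induction on `R`.
* `cfg_sound`: follow the definition; `Nat.land`: `Nat.testBit_land`. At the end `X.testBit (o + r * N)`, `(o + r * N) % N = o`.
-/

namespace Pool.Agent.Ortho

/-- forbidden directions for the branch behind the element `k` -/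
noncomputable def forbOf (b : Fin 5 → Bool) : Fin 5 → ℕ
  | 0 => forb (b 1) (b 4) (b 3)
  | 1 => forb (b 2) (b 4) (b 0)
  | 2 => forb (b 3) (b 4) (b 1)
  | 3 => forb (b 0) (b 4) (b 2)
  | 4 => Nat.add (cond (b 0) 1 0) (Nat.add (cond (b 1) 2 0) (Nat.add (cond (b 2) 4 0) (cond (b 3) 8 0)))

namespace Cfg

theorem force_eq (n : ℕ) (k : ℕ → Bool) : force n k = k n := by
  cases n <;> rfl

theorem bitK_eq (g n : ℕ) : bitK g n = g.testBit n := by
  rw [Nat.testBit_eq_decide_div_mod_eq]
  unfold bitK
  have h1 : Nat.land (Nat.shiftRight g n) 1 = g / 2 ^ n % 2 := by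
    change (g >>> n) &&& 1 = _
    rw [Nat.and_one_is_mod, Nat.shiftRight_eq_div_pow]
  rw [h1]
  by_cases h : g / 2 ^ n % 2 = 1
  · rw [h]; simp
  · rw [decide_eq_false h]
    cases h' : Nat.beq (g / 2 ^ n % 2) 1
    · rfl
    · exact absurd (Nat.eq_of_beq_eq_true h') h

theorem beq_true {a b : ℕ} (h : a = b) : Nat.beq a b = true := by
  rw [h]; exact Nat.beq_refl b

theorem beq_false {a b : ℕ} (h : a ≠ b) : Nat.beq a b = false := by
  cases h' : Nat.beq a b
  · rfl
  · exact absurd (Nat.eq_of_beq_eq_true h') h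

theorem testBit_double_zero (m : ℕ) : (Nat.mul 2 m).testBit 0 = false := by
  change (2 * m).testBit 0 = false
  rw [Nat.testBit_zero]
  simp

theorem testBit_double_succ (m j : ℕ) : (Nat.mul 2 m).testBit (j + 1) = m.testBit j := by
  change (2 * m).testBit (j + 1) = _
  rw [Nat.testBit_succ]
  congr 1
  omega

theorem testBit_double1_succ (m j : ℕ) : (Nat.succ (Nat.mul 2 m)).testBit (j + 1) = m.testBit j := by
  change (2 * m + 1).testBit (j + 1) = _
  rw [Nat.testBit_succ]
  congr 1
  omega

theorem base_spec (D : List DE) : ∀ j, (baseM D).testBit j = true →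
    ∃ x0 x1 x2 x3 x4, D[j]? = some (DE.d x0 x1 x2 x3 x4) := by
  induction D with
  | nil =>
    intro j h
    change (0 : ℕ).testBit j = true at h
    simp at h
  | cons a D ih =>
    intro j h
    cases a with
    | n =>
      change (Nat.mul 2 (baseM D)).testBit j = true at h
      cases j with
      | zero => rw [testBit_double_zero] at h; exact absurd h (by simp)
      | succ j =>
        rw [testBit_double_succ] at h
        simpa using ih j h
    | d x0 x1 x2 x3 x4 =>
      change (Nat.succ (Nat.mul 2 (baseM D))).testBit j = true at h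
      cases j with
      | zero => exact ⟨x0, x1, x2, x3, x4, by simp⟩
      | succ j =>
        rw [testBit_double1_succ] at h
        simpa using ih j h

theorem sel_spec (sel : ℕ → ℕ → ℕ → ℕ → ℕ → ℕ) (g : ℕ) (D : List DE) : ∀ j, (selM sel g D).testBit j = true →
    ∃ x0 x1 x2 x3 x4, D[j]? = some (DE.d x0 x1 x2 x3 x4) ∧ bitK g (sel x0 x1 x2 x3 x4) = true := by
  induction D with
  | nil =>
    intro j h
    change (0 : ℕ).testBit j = true at h
    simp at h
  | cons a D ih =>
    intro j h
    cases a with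
    | n =>
      change (Nat.mul 2 (selM sel g D)).testBit j = true at h
      cases j with
      | zero => rw [testBit_double_zero] at h; exact absurd h (by simp)
      | succ j =>
        rw [testBit_double_succ] at h
        simpa using ih j h
    | d x0 x1 x2 x3 x4 =>
      change (cond (bitK g (sel x0 x1 x2 x3 x4)) (Nat.succ (Nat.mul 2 (selM sel g D)))
        (Nat.mul 2 (selM sel g D))).testBit j = true at h
      cases hb : bitK g (sel x0 x1 x2 x3 x4) with
      | true =>
        rw [hb] at h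
        change (Nat.succ (Nat.mul 2 (selM sel g D))).testBit j = true at h
        cases j with
        | zero => exact ⟨x0, x1, x2, x3, x4, by simp, hb⟩
        | succ j =>
          rw [testBit_double1_succ] at h
          simpa using ih j h
      | false =>
        rw [hb] at h
        change (Nat.mul 2 (selM sel g D)).testBit j = true at h
        cases j with
        | zero => rw [testBit_double_zero] at h; exact absurd h (by simp)
        | succ j =>
          rw [testBit_double_succ] at h
          simpa using ih j h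

theorem tab_true (ct : List (List (ℕ × ℕ))) (forb base : ℕ) (sel : ℕ → ℕ → ℕ → ℕ → ℕ → ℕ) (D : List DE)
    (rows : List (ℕ × ℕ × Bool)) : ∀ k : List (ℕ × ℕ) → Bool, tabK ct true forb base sel D rows k = true →
    ∃ t, k t = true ∧ ∀ T B top, (T, B, top) ∈ rows → T &&& forb = 0 → B &&& forb = 0 →
      (T, selM sel (gOf ct T top B) D) ∈ t := by
  induction rows with
  | nil =>
    intro k h
    exact ⟨[], h, by simp⟩
  | cons a rows ih =>
    intro k h
    obtain ⟨T, B, top⟩ := a
    have h' : cond (Nat.beq (Nat.land T forb) 0) (cond (Nat.beq (Nat.land B forb) 0)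
          (force (selM sel (gOf ct T top B) D) fun M => tabK ct true forb base sel D rows fun t => k ((T, M) :: t))
          (tabK ct true forb base sel D rows k)) (tabK ct true forb base sel D rows k) = true := h
    by_cases hT : T &&& forb = 0
    · rw [beq_true (show Nat.land T forb = 0 from hT)] at h'
      by_cases hB : B &&& forb = 0
      · rw [beq_true (show Nat.land B forb = 0 from hB)] at h'
        rw [cond_true, cond_true, force_eq] at h'
        obtain ⟨t, ht, hm⟩ := ih _ h'
        refine ⟨_, ht, ?_⟩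
        intro T' B' top' hmem h1 h2
        rcases List.mem_cons.mp hmem with h3 | h3
        · cases h3
          exact List.mem_cons_self
        · exact List.mem_cons_of_mem _ (hm T' B' top' h3 h1 h2)
      · rw [beq_false (show Nat.land B forb ≠ 0 from hB)] at h'
        obtain ⟨t, ht, hm⟩ := ih _ h'
        refine ⟨t, ht, ?_⟩
        intro T' B' top' hmem h1 h2
        rcases List.mem_cons.mp hmem with h3 | h3
        · cases h3
          exact absurd h2 hB
        · exact hm T' B' top' h3 h1 h2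
    · rw [beq_false (show Nat.land T forb ≠ 0 from hT)] at h'
      obtain ⟨t, ht, hm⟩ := ih _ h'
      refine ⟨t, ht, ?_⟩
      intro T' B' top' hmem h1 h2
      rcases List.mem_cons.mp hmem with h3 | h3
      · cases h3
        exact absurd h1 hT
      · exact hm T' B' top' h3 h1 h2

/-- the mask of the derivations compatible with a class -/
noncomputable def maskOf (ct : List (List (ℕ × ℕ))) (b : Bool) (sel : ℕ → ℕ → ℕ → ℕ → ℕ → ℕ) (D : List DE)
    (T B : ℕ) (tp : Bool) : ℕ :=
  cond b (selM sel (gOf ct T tp B) D) (baseM D)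

theorem tab_spec {ct : List (List (ℕ × ℕ))} {b : Bool} {forb : ℕ} {sel : ℕ → ℕ → ℕ → ℕ → ℕ → ℕ} {D : List DE}
    {rows : List (ℕ × ℕ × Bool)} {k : List (ℕ × ℕ) → Bool}
    (h : tabK ct b forb (baseM D) sel D rows k = true) (T B : ℕ) (tp : Bool) (h0 : b = false → T = 0)
    (hrow : b = true → (T, B, tp) ∈ rows) (hT : b = true → T &&& forb = 0) (hB : b = true → B &&& forb = 0) :
    ∃ t, k t = true ∧ (T, maskOf ct b sel D T B tp) ∈ t := by
  cases b with
  | true =>
    obtain ⟨t, ht, hm⟩ := tab_true ct forb _ sel D rows k h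
    exact ⟨t, ht, hm T B tp (hrow rfl) (hT rfl) (hB rfl)⟩
  | false =>
    refine ⟨[(0, baseM D)], h, ?_⟩
    rw [h0 rfl]
    exact List.mem_singleton.mpr rfl

theorem mask_spec {ct : List (List (ℕ × ℕ))} {b : Bool} {sel : ℕ → ℕ → ℕ → ℕ → ℕ → ℕ} {D : List DE}
    {T B : ℕ} {tp : Bool} {j : ℕ} (h : (maskOf ct b sel D T B tp).testBit j = true) :
    ∃ x0 x1 x2 x3 x4, D[j]? = some (DE.d x0 x1 x2 x3 x4) ∧
      (b = true → bitK (gOf ct T tp B) (sel x0 x1 x2 x3 x4) = true) := by
  cases b with
  | true =>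
    obtain ⟨x0, x1, x2, x3, x4, h1, h2⟩ := sel_spec _ _ _ _ h
    exact ⟨x0, x1, x2, x3, x4, h1, fun _ => h2⟩
  | false =>
    obtain ⟨x0, x1, x2, x3, x4, h1⟩ := base_spec _ _ h
    exact ⟨x0, x1, x2, x3, x4, h1, fun h => absurd h (by simp)⟩

theorem allP_spec (t : List (ℕ × ℕ)) (p : ℕ → ℕ → Bool) (h : allP t p = true) :
    ∀ T M, (T, M) ∈ t → p T M = true := by
  induction t with
  | nil => intro T M hm; simp at hm
  | cons a t ih =>
    obtain ⟨T0, M0⟩ := a
    have h' : cond (p T0 M0) (allP t p) false = true := h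
    intro T M hm
    cases hp : p T0 M0 with
    | false => rw [hp] at h'; exact absurd h' (by simp)
    | true =>
      rw [hp] at h'
      rcases List.mem_cons.mp hm with h1 | h1
      · cases h1; exact hp
      · exact ih h' T M h1

theorem covK_spec (N g n : ℕ) (hg : g.testBit n = true) (R : ℕ) : ∀ X acc : ℕ, covK N g R X acc = true →
    acc.testBit n = true ∨ ∃ r, r < R ∧ X.testBit (n + r * N) = true := by
  induction R with
  | zero =>
    intro X acc h
    left
    have h1 : acc &&& g = g := Nat.eq_of_beq_eq_true h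
    rw [← h1, Nat.testBit_and] at hg
    exact (Bool.and_eq_true _ _ ▸ hg).1
  | succ R ih =>
    intro X acc h
    have h' : force (Nat.lor acc X) (fun acc => force (Nat.shiftRight X N) fun X => covK N g R X acc) = true := h
    rw [force_eq, force_eq] at h'
    rcases ih _ _ h' with h1 | ⟨r, hr, h1⟩
    · change (acc ||| X).testBit n = true at h1
      rw [Nat.testBit_or, Bool.or_eq_true] at h1
      rcases h1 with h1 | h1
      · exact Or.inl h1
      · exact Or.inr ⟨0, Nat.succ_pos _, by simpa using h1⟩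
    · change (X >>> N).testBit (n + r * N) = true at h1
      rw [Nat.testBit_shiftRight] at h1
      refine Or.inr ⟨r + 1, by omega, ?_⟩
      rw [← h1]
      congr 1
      ring

end Cfg

open Cfg

theorem cfg_sound {N R : ℕ} {ct : List (List (ℕ × ℕ))} {rows : List (ℕ × ℕ × Bool)} {b : Fin 5 → Bool}
    {D : List DE} (h : cfgK N R ct rows (b 0) (b 1) (b 2) (b 3) (b 4) D = true)
    (T B : Fin 5 → ℕ) (tp : Fin 5 → Bool) (h0 : ∀ k, b k = false → T k = 0)
    (hrow : ∀ k, b k = true → (T k, B k, tp k) ∈ rows)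
    (hT : ∀ k, b k = true → T k &&& forbOf b k = 0) (hB : ∀ k, b k = true → B k &&& forbOf b k = 0)
    (h01 : (T 0 &&& T 1) &&& 4 ≠ 4) (h12 : (T 1 &&& T 2) &&& 4 ≠ 4) (h23 : (T 2 &&& T 3) &&& 4 ≠ 4)
    (h30 : (T 3 &&& T 0) &&& 4 ≠ 4) (h4 : T 4 &&& outB (T 0) (T 1) (T 2) (T 3) = 0)
    {o : ℕ} (ho : o < N)
    (hg : bitK (gOf ct (forbOf b 4) (b 4) (outB (T 0) (T 1) (T 2) (T 3))) o = true) :
    ∃ (j : ℕ) (x : Fin 5 → ℕ), D[j]? = some (DE.d (x 0) (x 1) (x 2) (x 3) (x 4)) ∧ j % N = o ∧
      ∀ k, b k = true → bitK (gOf ct (T k) (tp k) (B k)) (x k) = true := by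
  unfold cfgK at h
  rw [force_eq] at h
  obtain ⟨t0, h, m0⟩ := tab_spec h (T 0) (B 0) (tp 0) (h0 0) (hrow 0) (hT 0) (hB 0)
  obtain ⟨t1, h, m1⟩ := tab_spec h (T 1) (B 1) (tp 1) (h0 1) (hrow 1) (hT 1) (hB 1)
  obtain ⟨t2, h, m2⟩ := tab_spec h (T 2) (B 2) (tp 2) (h0 2) (hrow 2) (hT 2) (hB 2)
  obtain ⟨t3, h, m3⟩ := tab_spec h (T 3) (B 3) (tp 3) (h0 3) (hrow 3) (hT 3) (hB 3)
  obtain ⟨t4, h, m4⟩ := tab_spec h (T 4) (B 4) (tp 4) (h0 4) (hrow 4) (hT 4) (hB 4)
  have h := allP_spec _ _ h _ _ m0
  have h := allP_spec _ _ h _ _ m1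
  have e01 : Nat.beq (Nat.land (Nat.land (T 0) (T 1)) 4) 4 = false := beq_false h01
  have e12 : Nat.beq (Nat.land (Nat.land (T 1) (T 2)) 4) 4 = false := beq_false h12
  have e23 : Nat.beq (Nat.land (Nat.land (T 2) (T 3)) 4) 4 = false := beq_false h23
  have e30 : Nat.beq (Nat.land (Nat.land (T 3) (T 0)) 4) 4 = false := beq_false h30
  have e4 : Nat.beq (Nat.land (T 4) (outB (T 0) (T 1) (T 2) (T 3))) 0 = true := beq_true h4
  rw [e01, cond_false, force_eq] at h
  have h := allP_spec _ _ h _ _ m2
  rw [e12, cond_false, force_eq] at h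
  have h := allP_spec _ _ h _ _ m3
  rw [e23, cond_false, e30, cond_false, force_eq, force_eq] at h
  have h := allP_spec _ _ h _ _ m4
  rw [e4, cond_true, force_eq] at h
  rw [bitK_eq] at hg
  rcases covK_spec N _ o hg R _ _ h with h1 | ⟨r, hr, h1⟩
  · simp at h1
  · have hl : ∀ a b : ℕ, Nat.land a b = a &&& b := fun _ _ => rfl
    simp only [hl, Nat.testBit_and, Bool.and_eq_true] at h1
    obtain ⟨⟨⟨⟨q0, q1⟩, q2⟩, q3⟩, q4⟩ := h1
    obtain ⟨x0, x1, x2, x3, x4, a, c0⟩ := mask_spec q0
    obtain ⟨y0, y1, y2, y3, y4, a', c1⟩ := mask_spec q1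
    rw [a] at a'; cases a'
    obtain ⟨y0, y1, y2, y3, y4, a', c2⟩ := mask_spec q2
    rw [a] at a'; cases a'
    obtain ⟨y0, y1, y2, y3, y4, a', c3⟩ := mask_spec q3
    rw [a] at a'; cases a'
    obtain ⟨y0, y1, y2, y3, y4, a', c4⟩ := mask_spec q4
    rw [a] at a'; cases a'
    refine ⟨o + r * N, ![x0, x1, x2, x3, x4], a, ?_, ?_⟩
    · rw [Nat.add_mul_mod_self_right]
      exact Nat.mod_eq_of_lt ho
    · intro k hk
      fin_cases k
      · exact c0 hk
      · exact c1 hk
      · exact c2 hk
      · exact c3 hk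
      · exact c4 hk

end Pool.Agent.Ortho
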