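import Pool.Agent.Ortho.Code

set_option autoImplicit false

/-!
# Ortho/EqvSound: soundness of `eqvK`

Plan: from `eqvK l t = true` the lists have the same length, and with `z = l.zip t` (or with an inductive relation / `List.Forall₂` and
`List.Pairwise`): for all `(a, b) ∈ z`: `a.i = b.i`, `a.lab = b.lab` and the flags agree if `a.lab ≠ 1, 3`; for two different positions
`(a, b)`, `(a₁, b₁)` of `z`: `a.cmp = a₁.cmp ↔ b.cmp = b₁.cmp`, and `a.col = a₁.col ↔ b.col = b₁.col` if `a.lab, a₁.lab ≠ 1, 3`. `findL x l` and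
`findL x t` are found at the same position. (`labOf n = 0` or `2` implies `n ≠ 1, 3`.)
`Nat.beq a b = true ↔ a = b`: `Nat.beq_eq`.
-/

namespace Pool.Agent.Ortho

namespace EqvS

theorem cond_false_iff (c x : Bool) : (cond c x false = true) ↔ (c = true ∧ x = true) := by
  cases c <;> simp

theorem cond_true_iff (c x : Bool) : (cond c true x = true) ↔ (c = true ∨ x = true) := by
  cases c <;> simp

theorem beq_iff (a b : ℕ) : (Nat.beq a b = true) ↔ a = b := by
  rw [Nat.beq_eq]

theorem beq_beq (a b c d : ℕ) :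
    (cond (Nat.beq a b) (Nat.beq c d) (cond (Nat.beq c d) false true) = true) ↔
      (a = b ↔ c = d) := by
  have h1 := beq_iff a b
  have h2 := beq_iff c d
  cases hx : Nat.beq a b <;> cases hy : Nat.beq c d <;> simp [hx, hy] at h1 h2 ⊢ <;> simp [h1, h2]

theorem flag_iff (x y : Bool) : (cond x y (cond y false true) = true) ↔ x = y := by
  cases x <;> cases y <;> simp

/-- the label is neither `1` nor `3` -/
def Vn (n : ℕ) : Prop := n ≠ 1 ∧ n ≠ 3

/-- relation between two positions -/
def Rel (p q : Ent × Ent) : Prop :=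
  (p.1.cmp = q.1.cmp ↔ p.2.cmp = q.2.cmp) ∧
    (Vn p.1.lab → Vn q.1.lab → (p.1.col = q.1.col ↔ p.2.col = q.2.col))

theorem Rel.symm' {p q : Ent × Ent} (h : Rel p q) : Rel q p := by
  obtain ⟨h1, h2⟩ := h
  exact ⟨by rw [eq_comm, h1, eq_comm], fun hq hp => by rw [eq_comm, h2 hp hq, eq_comm]⟩

instance : Std.Symm Rel := ⟨fun _ _ h => h.symm'⟩

/-- relation at one position -/
def Loc (p : Ent × Ent) : Prop :=
  p.1.i = p.2.i ∧ p.1.lab = p.2.lab ∧ (Vn p.1.lab → p.1.lu = p.2.lu ∧ p.1.ru = p.2.ru)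

theorem eqvTK_cons (cmp col cmp' col' : ℕ) (v : Bool) (i lab cmp1 col1 : ℕ) (lu ru : Bool)
    (s : List Ent) (i' lab' cmp2 col2 : ℕ) (lu' ru' : Bool) (t : List Ent) :
    eqvTK cmp col cmp' col' v (⟨i, lab, cmp1, col1, lu, ru⟩ :: s)
      (⟨i', lab', cmp2, col2, lu', ru'⟩ :: t) =
    cond (cond (Nat.beq cmp cmp1) (Nat.beq cmp' cmp2) (cond (Nat.beq cmp' cmp2) false true))
      (cond (cond v (cond (Nat.beq lab 1) true (cond (Nat.beq lab 3) true
        (cond (Nat.beq col col1) (Nat.beq col' col2) (cond (Nat.beq col' col2) false true)))) true)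
        (eqvTK cmp col cmp' col' v s t) false) false := rfl

theorem eqvK_cons (i lab cmp col : ℕ) (lu ru : Bool) (s : List Ent) (i' lab' cmp' col' : ℕ)
    (lu' ru' : Bool) (t : List Ent) :
    eqvK (⟨i, lab, cmp, col, lu, ru⟩ :: s) (⟨i', lab', cmp', col', lu', ru'⟩ :: t) =
    cond (Nat.beq i i') (cond (Nat.beq lab lab')
      (cond (cond (Nat.beq lab 1) true (cond (Nat.beq lab 3) true
        (cond (cond lu lu' (cond lu' false true)) (cond ru ru' (cond ru' false true)) false)))
        (cond (eqvTK cmp col cmp' col' (cond (Nat.beq lab 1) false (cond (Nat.beq lab 3) false true)) s t)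
          (eqvK s t) false) false) false) false := rfl

theorem vn_of {lab : ℕ} (h : Vn lab) :
    cond (Nat.beq lab 1) false (cond (Nat.beq lab 3) false true) = true := by
  have h1 : Nat.beq lab 1 = false := by
    rw [← Bool.not_eq_true, beq_iff]
    exact h.1
  have h2 : Nat.beq lab 3 = false := by
    rw [← Bool.not_eq_true, beq_iff]
    exact h.2
  rw [h1, h2]
  rfl

theorem eqvTK_rel {cmp col cmp' col' : ℕ} {v : Bool} : ∀ {s t : List Ent},
    eqvTK cmp col cmp' col' v s t = true → ∀ q ∈ s.zip t,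
      (cmp = q.1.cmp ↔ cmp' = q.2.cmp) ∧
        (v = true → Vn q.1.lab → (col = q.1.col ↔ col' = q.2.col))
  | [], _, _, q, hq => by simp at hq
  | _ :: _, [], _, q, hq => by simp at hq
  | ⟨i, lab, cmp1, col1, lu, ru⟩ :: s, ⟨i', lab', cmp2, col2, lu', ru'⟩ :: t, h, q, hq => by
    rw [eqvTK_cons, cond_false_iff, cond_false_iff, beq_beq] at h
    obtain ⟨h1, h2, h3⟩ := h
    rw [List.zip_cons_cons, List.mem_cons] at hq
    rcases hq with rfl | hq
    · refine ⟨h1, fun hv hl => ?_⟩
      rw [hv] at h2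
      simp only [cond_true] at h2
      rw [cond_true_iff, cond_true_iff, beq_iff, beq_iff, beq_beq] at h2
      rcases h2 with h2 | h2 | h2
      · exact absurd h2 hl.1
      · exact absurd h2 hl.2
      · exact h2
    · exact eqvTK_rel h3 q hq

theorem eqvK_rel : ∀ {l t : List Ent}, eqvK l t = true → l.length = t.length ∧
    (∀ p ∈ l.zip t, Loc p) ∧ (l.zip t).Pairwise Rel
  | [], [], _ => by simp
  | [], _ :: _, h => by
    exact absurd h (by simp [eqvK])
  | _ :: _, [], h => by
    exact absurd h (by simp [eqvK])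
  | ⟨i, lab, cmp, col, lu, ru⟩ :: s, ⟨i', lab', cmp', col', lu', ru'⟩ :: t, h => by
    rw [eqvK_cons, cond_false_iff, cond_false_iff, cond_false_iff, cond_false_iff, cond_true_iff,
      cond_true_iff, cond_false_iff, beq_iff, beq_iff, beq_iff, beq_iff, flag_iff,
      flag_iff] at h
    obtain ⟨h1, h2, h3, h4, h5⟩ := h
    obtain ⟨g1, g2, g3⟩ := eqvK_rel h5
    refine ⟨by simp [g1], ?_, ?_⟩
    · intro p hp
      rw [List.zip_cons_cons, List.mem_cons] at hp
      rcases hp with rfl | hp
      · refine ⟨h1, h2, fun hv => ?_⟩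
        rcases h3 with h3 | h3 | h3
        · exact absurd h3 hv.1
        · exact absurd h3 hv.2
        · exact h3
      · exact g2 p hp
    · rw [List.zip_cons_cons, List.pairwise_cons]
      refine ⟨fun q hq => ?_, g3⟩
      obtain ⟨k1, k2⟩ := eqvTK_rel h4 q hq
      exact ⟨k1, fun hp hq' => k2 (vn_of hp) hq'⟩

/-- the entries with the number `x` are found at the same position -/
theorem find_zip (x : ℕ) : ∀ {l t : List Ent}, l.length = t.length →
    (∀ p ∈ l.zip t, Loc p) →
    (findL x l = none ∧ findL x t = none) ∨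
      ∃ p ∈ l.zip t, p.1.i = x ∧ findL x l = some p.1 ∧ findL x t = some p.2
  | [], [], _, _ => Or.inl ⟨rfl, rfl⟩
  | [], _ :: _, h, _ => by simp at h
  | _ :: _, [], h, _ => by simp at h
  | a :: l, b :: t, h, hz => by
    have hl : l.length = t.length := by simpa using h
    have hab : a.i = b.i := (hz (a, b) (by simp)).1
    by_cases hx : a.i = x
    · right
      refine ⟨(a, b), by simp, hx, ?_, ?_⟩
      · simp [findL, hx]
      · simp [findL, ← hab, hx]
    · have h1 : findL x (a :: l) = findL x l := by simp [findL, hx]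
      have h2 : findL x (b :: t) = findL x t := by simp [findL, ← hab, hx]
      rw [h1, h2]
      rcases find_zip x hl (fun p hp => hz p (by
        rw [List.zip_cons_cons]
        exact List.mem_cons_of_mem _ hp)) with h3 | ⟨p, hp, h3⟩
      · exact Or.inl h3
      · refine Or.inr ⟨p, ?_, h3⟩
        rw [List.zip_cons_cons]
        exact List.mem_cons_of_mem _ hp

theorem vn_labOf {n : ℕ} (h : labOf n = 0 ∨ labOf n = 2) : Vn n := by
  constructor
  · rintro rfl
    exact absurd h (by decide)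
  · rintro rfl
    exact absurd h (by decide)

end EqvS

open EqvS in
theorem eqv_sound {ι : Type} {c : ι → ℕ} {l t : List Ent} (h : eqvK l t = true) :
    (toSt c l).Equiv (toSt c t) := by
  obtain ⟨hlen, hloc, hrel⟩ := eqvK_rel h
  have hf := fun x => find_zip x hlen hloc
  have hvn : ∀ i, (toSt c l).Vert i → ∃ p ∈ l.zip t, p.1.i = c i ∧ findL (c i) l = some p.1 ∧
      findL (c i) t = some p.2 ∧ Vn p.1.lab := by
    intro i hi
    rcases hf (c i) with ⟨h1, _⟩ | ⟨p, hp, h0, h1, h2⟩
    · simp [State.Vert, toSt, h1] at hi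
    · refine ⟨p, hp, h0, h1, h2, vn_labOf ?_⟩
      simpa [State.Vert, toSt, h1] using hi
  refine ⟨?_, ?_, ?_, ?_, ?_⟩
  · intro i
    rcases hf (c i) with ⟨h1, h2⟩ | ⟨p, hp, _, h1, h2⟩
    · simp [toSt, h1, h2]
    · simp [toSt, h1, h2, (hloc p hp).2.1]
  · intro i j hi hj
    rcases hf (c i) with ⟨h1, _⟩ | ⟨p, hp, hpi, h1, h2⟩
    · exact absurd (by simp [toSt, h1]) hi
    rcases hf (c j) with ⟨g1, _⟩ | ⟨q, hq, hqj, g1, g2⟩
    · exact absurd (by simp [toSt, g1]) hj
    by_cases hij : c i = c j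
    · simp [toSt, hij]
    · have hne : p ≠ q := by
        rintro rfl
        exact hij (hpi.symm.trans hqj)
      have := (hrel.forall hp hq hne).1
      simpa [toSt, h1, h2, g1, g2] using this
  · intro i j hi hj
    obtain ⟨p, hp, hpi, h1, h2, h3⟩ := hvn i hi
    obtain ⟨q, hq, hqj, g1, g2, g3⟩ := hvn j hj
    by_cases hij : c i = c j
    · simp [toSt, hij]
    · have hne : p ≠ q := by
        rintro rfl
        exact hij (hpi.symm.trans hqj)
      have := (hrel.forall hp hq hne).2 h3 g3
      simpa [toSt, h1, h2, g1, g2] using this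
  · intro i hi
    obtain ⟨p, hp, _, h1, h2, h3⟩ := hvn i hi
    simpa [toSt, h1, h2] using ((hloc p hp).2.2 h3).1
  · intro i hi
    obtain ⟨p, hp, _, h1, h2, h3⟩ := hvn i hi
    simpa [toSt, h1, h2] using ((hloc p hp).2.2 h3).2

end Pool.Agent.Ortho
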