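import Pool.Agent.Ortho.Sem

set_option autoImplicit false

/-!
# Ortho/LinkH: gluing a right edge to a left edge

`f = att i` (label `R`), `g = att j` (label `L`), `cp f ≠ cp g` (field `cmp`), `e j = (e i).swap`, i.e. (field `attE`)
`cor g (r g + 3) = cor f (r f + 2)`, `cor g (r g + 4) = cor g (r g) = cor f (r f + 1)`; in particular the heights are equal:
`len g (r g + 1) = len g (r g + 3) = len f (r f + 1)` (`R.opp`).

New net: translate the component of `g` by `(rt f - X g, Y f - Y g)`, i.e. `X' v = X v + (rt f - X g)` if `cp v = cp g`, else `X v`, same for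
`Y'`; `cp' v = if cp v = cp g then cp f else cp v`; `G' = G ⊔ edge f g`. Then `X' g = rt f`, `Y' g = Y f`, `tp' g = tp f`.

* `acyc`: `IsAcyclic.sup_edge_of_not_reachable` (reachable vertices have the same `cp`, field `supp`). `conn`: by cases.
* `fit`: old pairs lie in one component and are translated together; new pair: `k = r f + 1`, `l = r g + 3`.
* `sep`: `a` in the component of `f`, `b` in the component of `g`: `rt a ≤ rt f = X' g ≤ X' b` (`openR i`, `openL j`).
* `openR k`: `att k` in the component of `f` is impossible (`wfR i k`, `k ≠ i`); in the component of `g`: for `a` in the component of `f`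
  `rt a ≤ rt f = X' g ≤ X' (att k) ≤ rt' (att k)`.
* `openL k`: symmetric (component of `g` impossible by `wfL j k`).
* `openU, openD k`: elements of the two components are never in the same column: `X a < rt a ≤ rt f ≤ X' b`.
* `lu k = false`: component of `g` impossible by `wfLU j k`; component of `f`: old, and `X (att k) ≤ rt (att k) ≤ rt f ≤ X' b`.
  `ru`: symmetric. `col`: as for `openU`.
* `wfR k l`: neither is in the component of `f`, so both are in the same old component. `wfL` symmetric. `wfU`, `wfD`: `col` is not changed.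
* `wfRU k l`: `k` is not in the component of `f`; if `l` is, use `wfRU i l`; otherwise old. `wfLU` symmetric.
-/

namespace Pool.Agent.Ortho

namespace LinkHAux

/-- translate the component `b` by `(dx, dy)` and merge it into `a` -/
noncomputable def lnk {V ι : Type} (N : PNet V ι) (a b : ℕ) (dx dy : ℝ) (G' : SimpleGraph V) :
    PNet V ι where
  r := N.r
  X v := if N.cp v = b then N.X v + dx else N.X v
  Y v := if N.cp v = b then N.Y v + dy else N.Y v
  cp v := if N.cp v = b then a else N.cp v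
  G := G'
  att := N.att

section

variable {V ι : Type} (R : Rects V) (N : PNet V ι) (a b : ℕ) (dx dy : ℝ) (G' : SimpleGraph V)

theorem X_b {v : V} (h : N.cp v = b) : (lnk N a b dx dy G').X v = N.X v + dx := if_pos h
theorem X_n {v : V} (h : N.cp v ≠ b) : (lnk N a b dx dy G').X v = N.X v := if_neg h
theorem Y_b {v : V} (h : N.cp v = b) : (lnk N a b dx dy G').Y v = N.Y v + dy := if_pos h
theorem Y_n {v : V} (h : N.cp v ≠ b) : (lnk N a b dx dy G').Y v = N.Y v := if_neg h
theorem cp_b {v : V} (h : N.cp v = b) : (lnk N a b dx dy G').cp v = a := if_pos h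
theorem cp_n {v : V} (h : N.cp v ≠ b) : (lnk N a b dx dy G').cp v = N.cp v := if_neg h

theorem rt_b {v : V} (h : N.cp v = b) : (lnk N a b dx dy G').rt R v = N.rt R v + dx := by
  unfold PNet.rt
  rw [X_b N a b dx dy G' h]
  change N.X v + dx + R.len v (N.r v) = _
  ring

theorem rt_n {v : V} (h : N.cp v ≠ b) : (lnk N a b dx dy G').rt R v = N.rt R v := by
  unfold PNet.rt
  rw [X_n N a b dx dy G' h]
  rfl

theorem tp_b {v : V} (h : N.cp v = b) : (lnk N a b dx dy G').tp R v = N.tp R v + dy := by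
  unfold PNet.tp
  rw [Y_b N a b dx dy G' h]
  change N.Y v + dy + R.len v (N.r v + 1) = _
  ring

theorem tp_n {v : V} (h : N.cp v ≠ b) : (lnk N a b dx dy G').tp R v = N.tp R v := by
  unfold PNet.tp
  rw [Y_n N a b dx dy G' h]
  rfl

theorem cpos_b {v : V} (h : N.cp v = b) (d : Fin 4) :
    (lnk N a b dx dy G').cpos R v d = N.cpos R v d + (dx, dy) := by
  unfold PNet.cpos
  rw [X_b N a b dx dy G' h, Y_b N a b dx dy G' h, rt_b R N a b dx dy G' h,
    tp_b R N a b dx dy G' h]
  fin_cases d <;> rfl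

theorem cpos_n {v : V} (h : N.cp v ≠ b) (d : Fin 4) :
    (lnk N a b dx dy G').cpos R v d = N.cpos R v d := by
  unfold PNet.cpos
  rw [X_n N a b dx dy G' h, Y_n N a b dx dy G' h, rt_n R N a b dx dy G' h,
    tp_n R N a b dx dy G' h]

theorem pp_b {v : V} (h : N.cp v = b) (k : Fin 4) :
    (lnk N a b dx dy G').pp R v k = N.pp R v k + (dx, dy) := cpos_b R N a b dx dy G' h _

theorem pp_n {v : V} (h : N.cp v ≠ b) (k : Fin 4) :
    (lnk N a b dx dy G').pp R v k = N.pp R v k := cpos_n R N a b dx dy G' h _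

end

theorem X_lt_rt {V ι : Type} (R : Rects V) (N : PNet V ι) (v : V) : N.X v < N.rt R v := by
  unfold PNet.rt
  have := R.pos v (N.r v)
  unfold Rects.len
  linarith

theorem reach_cp {V ι : Type} {R : Rects V} {A : Finset V} {e : ι → E3 × E3}
    {σ : State ι} {N : PNet V ι} (h : Ok R A e σ N) {u v : V} (huv : N.G.Reachable u v) :
    N.cp u = N.cp v := by
  obtain ⟨w⟩ := huv
  induction w with
  | nil => rfl
  | cons hadj _ ih => exact (h.supp _ _ hadj).2.2.trans ih

end LinkHAux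

open LinkHAux

theorem ok_linkH {V ι : Type} [DecidableEq ι] (R : Rects V) {A : Finset V} {e : ι → E3 × E3}
    {σ : State ι} {N : PNet V ι} (h : Ok R A e σ N) (i j : ι) (hi : σ.lab i = some 1)
    (hj : σ.lab j = some 3) (hc : σ.cmp i ≠ σ.cmp j) (he : e j = (e i).swap) :
    ∃ N' : PNet V ι, Ok R A e (σ.linkH i j) N' ∧ N'.att = N.att ∧
      ∀ v, N'.cp v = if N.cp v = N.cp (N.att j) then N.cp (N.att i) else N.cp v := by
  obtain ⟨f, hf⟩ : ∃ f, f = N.att i := ⟨_, rfl⟩
  obtain ⟨g, hg⟩ : ∃ g, g = N.att j := ⟨_, rfl⟩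
  obtain ⟨a, ha⟩ : ∃ a, a = N.cp f := ⟨_, rfl⟩
  obtain ⟨b, hb⟩ : ∃ b, b = N.cp g := ⟨_, rfl⟩
  obtain ⟨dx, hdx⟩ : ∃ dx, dx = N.rt R f - N.X g := ⟨_, rfl⟩
  obtain ⟨dy, hdy⟩ : ∃ dy, dy = N.Y f - N.Y g := ⟨_, rfl⟩
  have hoi : σ.Open i := by unfold State.Open; rw [hi]; simp
  have hoj : σ.Open j := by unfold State.Open; rw [hj]; simp
  have hfA : f ∈ A := by rw [hf]; exact h.attA i hoi
  have hgA : g ∈ A := by rw [hg]; exact h.attA j hoj
  have hab : a ≠ b := by
    intro hh
    apply hc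
    rw [h.cmp i j hoi hoj, ← hf, ← hg, ← ha, ← hb, hh]
  have hfb : N.cp f ≠ b := by rw [← ha]; exact hab
  have hgb : N.cp g = b := hb.symm
  have hfg : f ≠ g := by
    intro hh
    apply hfb
    rw [hh, hgb]
  -- edges
  have hEi := h.attE i 1 hi
  have hEj := h.attE j 3 hj
  rw [← hf] at hEi
  rw [← hg] at hEj
  have hE : R.edge g (N.r g + 3) = (R.edge f (N.r f + 1)).swap := by rw [hEi, hEj, he]
  unfold Rects.edge at hE
  simp only [Prod.swap_prod_mk, Prod.mk.injEq] at hE
  obtain ⟨hE1, hE2⟩ := hE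
  have hlen : R.len g (N.r g + 1) = R.len f (N.r f + 1) := by
    have h1 := R.opp g (N.r g + 1)
    have e1 : N.r g + 1 + 2 = N.r g + 3 := by rw [add_assoc]; rfl
    have e2 : N.r g + 1 + 3 = N.r g + 3 + 1 := by rw [add_assoc, add_assoc]; rfl
    rw [e1, e2, hE1, hE2] at h1
    unfold Rects.len
    rw [← h1, dist_comm]
  obtain ⟨N', hN'⟩ : ∃ N' : PNet V ι, N' = lnk N a b dx dy (N.G ⊔ SimpleGraph.edge f g) :=
    ⟨_, rfl⟩
  have hXb : ∀ v, N.cp v = b → N'.X v = N.X v + dx := fun v hv => by rw [hN']; exact X_b _ _ _ _ _ _ hv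
  have hXn : ∀ v, N.cp v ≠ b → N'.X v = N.X v := fun v hv => by rw [hN']; exact X_n _ _ _ _ _ _ hv
  have hYb : ∀ v, N.cp v = b → N'.Y v = N.Y v + dy := fun v hv => by rw [hN']; exact Y_b _ _ _ _ _ _ hv
  have hYn : ∀ v, N.cp v ≠ b → N'.Y v = N.Y v := fun v hv => by rw [hN']; exact Y_n _ _ _ _ _ _ hv
  have hcb : ∀ v, N.cp v = b → N'.cp v = a := fun v hv => by rw [hN']; exact cp_b _ _ _ _ _ _ hv
  have hcn : ∀ v, N.cp v ≠ b → N'.cp v = N.cp v := fun v hv => by rw [hN']; exact cp_n _ _ _ _ _ _ hv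
  have hrb : ∀ v, N.cp v = b → N'.rt R v = N.rt R v + dx := fun v hv => by
    rw [hN']; exact rt_b _ _ _ _ _ _ _ hv
  have hrn : ∀ v, N.cp v ≠ b → N'.rt R v = N.rt R v := fun v hv => by
    rw [hN']; exact rt_n _ _ _ _ _ _ _ hv
  have htb : ∀ v, N.cp v = b → N'.tp R v = N.tp R v + dy := fun v hv => by
    rw [hN']; exact tp_b _ _ _ _ _ _ _ hv
  have htn : ∀ v, N.cp v ≠ b → N'.tp R v = N.tp R v := fun v hv => by
    rw [hN']; exact tp_n _ _ _ _ _ _ _ hv
  have hpb : ∀ v k, N.cp v = b → N'.pp R v k = N.pp R v k + (dx, dy) := fun v k hv => by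
    rw [hN']; exact pp_b _ _ _ _ _ _ _ hv k
  have hpn : ∀ v k, N.cp v ≠ b → N'.pp R v k = N.pp R v k := fun v k hv => by
    rw [hN']; exact pp_n _ _ _ _ _ _ _ hv k
  have hatt : N'.att = N.att := by rw [hN']; rfl
  have hr' : N'.r = N.r := by rw [hN']; rfl
  have hG : N'.G = N.G ⊔ SimpleGraph.edge f g := by rw [hN']; rfl
  -- the components of `N'`
  have key : ∀ u v, N'.cp u = N'.cp v → N.cp u = N.cp v ∨ (N.cp u = a ∧ N.cp v = b) ∨
      (N.cp u = b ∧ N.cp v = a) := by
    intro u v huv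
    by_cases hu : N.cp u = b <;> by_cases hv : N.cp v = b
    · left; rw [hu, hv]
    · right; right
      rw [hcb u hu, hcn v hv] at huv
      exact ⟨hu, huv.symm⟩
    · right; left
      rw [hcn u hu, hcb v hv] at huv
      exact ⟨huv, hv⟩
    · left
      rw [hcn u hu, hcn v hv] at huv
      exact huv
  -- components `a` and `b` are separated
  have hna : ∀ u, N.cp u = a → N.cp u ≠ b := fun u hu => by rw [hu]; exact hab
  have cross : ∀ u ∈ A, ∀ v ∈ A, N.cp u = a → N.cp v = b → N'.rt R u ≤ N'.X v := by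
    intro u hu v hv hua hvb
    rw [hrn u (hna u hua), hXb v hvb]
    have h1 := h.openR i hi u hu (by rw [hua, ha, hf])
    have h2 := h.openL j hj v hv (by rw [hvb, hb, hg])
    rw [← hf] at h1
    rw [← hg] at h2
    rw [hdx]
    linarith
  have hlt : ∀ v, N'.X v < N'.rt R v := fun v => X_lt_rt R N' v
  have hcrossX : ∀ u ∈ A, ∀ v ∈ A, N'.cp u = N'.cp v → N'.X u = N'.X v → N.cp u = N.cp v := by
    intro u hu v hv huv hX
    rcases key u v huv with h1 | ⟨h1, h2⟩ | ⟨h1, h2⟩
    · exact h1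
    · have h3 := cross u hu v hv h1 h2
      have h4 := hlt u
      rw [hX] at h4
      linarith
    · have h3 := cross v hv u hu h2 h1
      have h4 := hlt v
      rw [← hX] at h4
      linarith
  have hsame : ∀ u v, N.cp u = N.cp v → (N.cp u = b ∧ N.cp v = b) ∨ (N.cp u ≠ b ∧ N.cp v ≠ b) := by
    intro u v huv
    by_cases hu : N.cp u = b
    · left; exact ⟨hu, huv ▸ hu⟩
    · right; exact ⟨hu, huv ▸ hu⟩
  -- labels
  have hlab : ∀ k d, (σ.linkH i j).lab k = some d → k ≠ i ∧ k ≠ j ∧ σ.lab k = some d := by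
    intro k d hk
    change (if k = i ∨ k = j then none else σ.lab k) = some d at hk
    by_cases hkk : k = i ∨ k = j
    · rw [if_pos hkk] at hk
      exact absurd hk (by simp)
    · rw [if_neg hkk] at hk
      push Not at hkk
      exact ⟨hkk.1, hkk.2, hk⟩
  have hopen : ∀ k, (σ.linkH i j).Open k → σ.Open k := by
    intro k hk
    unfold State.Open at hk ⊢
    intro hn
    apply hk
    change (if k = i ∨ k = j then none else σ.lab k) = none
    rw [hn]
    simp
  have hvert : ∀ k, (σ.linkH i j).Vert k → σ.Vert k := by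
    intro k hk
    rcases hk with hk | hk
    · exact Or.inl (hlab k 0 hk).2.2
    · exact Or.inr (hlab k 2 hk).2.2
  have hvo : ∀ k, σ.Vert k → σ.Open k := by
    intro k hk
    unfold State.Open
    rcases hk with hk | hk <;> rw [hk] <;> simp
  have hlo : ∀ k d, σ.lab k = some d → σ.Open k := by
    intro k d hk
    unfold State.Open
    rw [hk]
    simp
  have hcmp : ∀ k, (σ.linkH i j).cmp k = if σ.cmp k = σ.cmp j then σ.cmp i else σ.cmp k :=
    fun k => rfl
  have hkb : ∀ k, σ.Open k → (σ.cmp k = σ.cmp j ↔ N.cp (N.att k) = b) := by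
    intro k hk
    rw [h.cmp k j hk hoj, ← hg, ← hb]
  have hka : ∀ k, σ.Open k → (σ.cmp k = σ.cmp i ↔ N.cp (N.att k) = a) := by
    intro k hk
    rw [h.cmp k i hk hoi, ← hf, ← ha]
  refine ⟨N', ?_, hatt, ?_⟩
  swap
  · intro v
    rw [← hf, ← hg, ← ha, ← hb]
    by_cases hv : N.cp v = b
    · rw [if_pos hv, hcb v hv]
    · rw [if_neg hv, hcn v hv]
  have hadj : ∀ u v, N'.G.Adj u v → N.G.Adj u v ∨ (u = f ∧ v = g) ∨ (u = g ∧ v = f) := by
    intro u v huv
    rw [hG, SimpleGraph.sup_adj, SimpleGraph.edge_adj] at huv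
    rcases huv with huv | ⟨huv, _⟩
    · exact Or.inl huv
    · rcases huv with ⟨h1, h2⟩ | ⟨h1, h2⟩
      · exact Or.inr (Or.inl ⟨h1, h2⟩)
      · exact Or.inr (Or.inr ⟨h1, h2⟩)
  have hadjfg : N'.G.Adj f g := by
    rw [hG, SimpleGraph.sup_adj, SimpleGraph.edge_adj]
    exact Or.inr ⟨Or.inl ⟨rfl, rfl⟩, hfg⟩
  have hmono : ∀ u v, N.G.Reachable u v → N'.G.Reachable u v := by
    intro u v huv
    rw [hG]
    exact huv.mono le_sup_left
  constructor
  · -- supp
    intro u v huv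
    rcases hadj u v huv with h1 | ⟨rfl, rfl⟩ | ⟨rfl, rfl⟩
    · obtain ⟨h2, h3, h4⟩ := h.supp u v h1
      refine ⟨h2, h3, ?_⟩
      rcases hsame u v h4 with ⟨h5, h6⟩ | ⟨h5, h6⟩
      · rw [hcb u h5, hcb v h6]
      · rw [hcn u h5, hcn v h6, h4]
    · exact ⟨hfA, hgA, by rw [hcn _ hfb, hcb _ hgb, ha]⟩
    · exact ⟨hgA, hfA, by rw [hcn _ hfb, hcb _ hgb, ha]⟩
  · -- acyc
    rw [hG]
    apply h.acyc.sup_edge_of_not_reachable
    intro hreach
    exact hfb (by rw [reach_cp h hreach, hgb])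
  · -- conn
    intro u hu v hv huv
    rcases key u v huv with h1 | ⟨h1, h2⟩ | ⟨h1, h2⟩
    · exact hmono u v (h.conn u hu v hv h1)
    · have h3 := hmono u f (h.conn u hu f hfA (by rw [h1, ha]))
      have h4 := hmono g v (h.conn g hgA v hv (by rw [h2, hgb]))
      exact h3.trans (hadjfg.reachable.trans h4)
    · have h3 := hmono u g (h.conn u hu g hgA (by rw [h1, hgb]))
      have h4 := hmono f v (h.conn f hfA v hv (by rw [h2, ha]))
      exact h3.trans (hadjfg.symm.reachable.trans h4)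
  · -- fit
    have e1 : N.r f + 1 - N.r f = 1 := add_sub_cancel_left _ _
    have e2 : N.r f + 1 + 1 - N.r f = 2 := by
      rw [add_assoc, add_sub_cancel_left]; rfl
    have e3 : N.r g + 3 - N.r g = 3 := add_sub_cancel_left _ _
    have e4 : N.r g + 3 + 1 - N.r g = 0 := by
      rw [add_assoc, add_sub_cancel_left]; rfl
    have p1 : N'.pp R f (N.r f + 1) = (N.rt R f, N.Y f) := by
      rw [hpn f _ hfb]
      unfold PNet.pp
      rw [e1]
      rfl
    have p2 : N'.pp R f (N.r f + 1 + 1) = (N.rt R f, N.tp R f) := by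
      rw [hpn f _ hfb]
      unfold PNet.pp
      rw [e2]
      rfl
    have p3 : N'.pp R g (N.r g + 3) = (N.rt R f, N.tp R f) := by
      rw [hpb g _ hgb]
      unfold PNet.pp
      rw [e3]
      change (N.X g + dx, N.tp R g + dy) = _
      unfold PNet.tp
      rw [hlen, hdx, hdy, Prod.mk.injEq]
      exact ⟨by ring, by ring⟩
    have p4 : N'.pp R g (N.r g + 3 + 1) = (N.rt R f, N.Y f) := by
      rw [hpb g _ hgb]
      unfold PNet.pp
      rw [e4]
      change (N.X g + dx, N.Y g + dy) = _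
      rw [hdx, hdy, Prod.mk.injEq]
      exact ⟨by ring, by ring⟩
    intro u v huv
    rcases hadj u v huv with h1 | ⟨rfl, rfl⟩ | ⟨rfl, rfl⟩
    · obtain ⟨k, l, h2, h3, h4, h5⟩ := h.fit u v h1
      refine ⟨k, l, h2, h3, ?_⟩
      rcases hsame u v (h.supp u v h1).2.2 with ⟨h6, h7⟩ | ⟨h6, h7⟩
      · rw [hpb u _ h6, hpb u _ h6, hpb v _ h7, hpb v _ h7, h4, h5]
        exact ⟨rfl, rfl⟩
      · rw [hpn u _ h6, hpn u _ h6, hpn v _ h7, hpn v _ h7]
        exact ⟨h4, h5⟩
    · exact ⟨N.r u + 1, N.r v + 3, hE2.symm, hE1.symm, p1.trans p4.symm, p2.trans p3.symm⟩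
    · exact ⟨N.r u + 3, N.r v + 1, hE1, hE2, p3.trans p2.symm, p4.trans p1.symm⟩
  · -- sep
    intro u hu v hv huv hcp
    rcases key u v hcp with h1 | ⟨h1, h2⟩ | ⟨h1, h2⟩
    · have h3 := h.sep u hu v hv huv h1
      rcases hsame u v h1 with ⟨h6, h7⟩ | ⟨h6, h7⟩
      · rw [hrb u h6, hrb v h7, hXb u h6, hXb v h7, htb u h6, htb v h7, hYb u h6, hYb v h7]
        rcases h3 with h3 | h3 | ⟨h3, h4, h5⟩
        · exact Or.inl (by linarith)
        · exact Or.inr (Or.inl (by linarith))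
        · refine Or.inr (Or.inr ⟨by rw [h3], by rw [h4], ?_⟩)
          rcases h5 with h5 | h5
          · exact Or.inl (by linarith)
          · exact Or.inr (by linarith)
      · rw [hrn u h6, hrn v h7, hXn u h6, hXn v h7, htn u h6, htn v h7, hYn u h6, hYn v h7]
        exact h3
    · exact Or.inl (cross u hu v hv h1 h2)
    · exact Or.inr (Or.inl (cross v hv u hu h2 h1))
  · -- attA
    intro k hk
    rw [hatt]
    exact h.attA k (hopen k hk)
  · -- attE
    intro k d hk
    rw [hatt, hr']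
    exact h.attE k d (hlab k d hk).2.2
  · -- cmp
    intro k l hk hl
    have hk' := hopen k hk
    have hl' := hopen l hl
    rw [hatt, hcmp, hcmp]
    by_cases h1 : σ.cmp k = σ.cmp j <;> by_cases h2 : σ.cmp l = σ.cmp j
    · rw [if_pos h1, if_pos h2, hcb _ ((hkb k hk').1 h1), hcb _ ((hkb l hl').1 h2)]
      simp
    · have h3 : N.cp (N.att l) ≠ b := fun hh => h2 ((hkb l hl').2 hh)
      rw [if_pos h1, if_neg h2, hcb _ ((hkb k hk').1 h1), hcn _ h3]
      constructor
      · intro h4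
        exact ((hka l hl').1 h4.symm).symm
      · intro h4
        exact ((hka l hl').2 h4.symm).symm
    · have h3 : N.cp (N.att k) ≠ b := fun hh => h1 ((hkb k hk').2 hh)
      rw [if_neg h1, if_pos h2, hcn _ h3, hcb _ ((hkb l hl').1 h2)]
      exact hka k hk'
    · have h3 : N.cp (N.att k) ≠ b := fun hh => h1 ((hkb k hk').2 hh)
      have h4 : N.cp (N.att l) ≠ b := fun hh => h2 ((hkb l hl').2 hh)
      rw [if_neg h1, if_neg h2, hcn _ h3, hcn _ h4]
      exact h.cmp k l hk' hl'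
  · -- openR
    intro k hk v hv hcp
    obtain ⟨hki, hkj, hk1⟩ := hlab k 1 hk
    have hok := hlo k 1 hk1
    rw [hatt] at hcp ⊢
    have hnotA : N.cp (N.att k) ≠ a := fun hh => hki (h.wfR k i hk1 hi ((hka k hok).2 hh))
    rcases key v (N.att k) hcp with h1 | ⟨h1, h2⟩ | ⟨h1, h2⟩
    · have h3 := h.openR k hk1 v hv h1
      rcases hsame v (N.att k) h1 with ⟨h6, h7⟩ | ⟨h6, h7⟩
      · rw [hrb _ h6, hrb _ h7]; linarith
      · rw [hrn _ h6, hrn _ h7]; exact h3
    · have h3 := cross v hv (N.att k) (h.attA k hok) h1 h2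
      have h4 := hlt (N.att k)
      linarith
    · exact absurd h2 hnotA
  · -- openL
    intro k hk v hv hcp
    obtain ⟨hki, hkj, hk1⟩ := hlab k 3 hk
    have hok := hlo k 3 hk1
    rw [hatt] at hcp ⊢
    have hnotB : N.cp (N.att k) ≠ b := fun hh => hkj (h.wfL k j hk1 hj ((hkb k hok).2 hh))
    rcases key v (N.att k) hcp with h1 | ⟨h1, h2⟩ | ⟨h1, h2⟩
    · have h3 := h.openL k hk1 v hv h1
      rcases hsame v (N.att k) h1 with ⟨h6, h7⟩ | ⟨h6, h7⟩
      · exact absurd h7 hnotB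
      · rw [hXn _ h6, hXn _ h7]; exact h3
    · exact absurd h2 hnotB
    · have h3 := cross (N.att k) (h.attA k hok) v hv h2 h1
      have h4 := hlt (N.att k)
      linarith
  · -- openU
    intro k hk v hv hcp hX
    obtain ⟨hki, hkj, hk1⟩ := hlab k 2 hk
    have hok := hlo k 2 hk1
    rw [hatt] at hcp hX ⊢
    have h1 := hcrossX v hv (N.att k) (h.attA k hok) hcp hX
    rcases hsame v (N.att k) h1 with ⟨h6, h7⟩ | ⟨h6, h7⟩
    · rw [hXb _ h6, hXb _ h7] at hX
      have h3 := h.openU k hk1 v hv h1 (by linarith)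
      rw [htb _ h6, htb _ h7]; linarith
    · rw [hXn _ h6, hXn _ h7] at hX
      rw [htn _ h6, htn _ h7]
      exact h.openU k hk1 v hv h1 hX
  · -- openD
    intro k hk v hv hcp hX
    obtain ⟨hki, hkj, hk1⟩ := hlab k 0 hk
    have hok := hlo k 0 hk1
    rw [hatt] at hcp hX ⊢
    have h1 := hcrossX v hv (N.att k) (h.attA k hok) hcp hX
    rcases hsame v (N.att k) h1 with ⟨h6, h7⟩ | ⟨h6, h7⟩
    · rw [hXb _ h6, hXb _ h7] at hX
      have h3 := h.openD k hk1 v hv h1 (by linarith)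
      rw [hYb _ h6, hYb _ h7]; linarith
    · rw [hXn _ h6, hXn _ h7] at hX
      rw [hYn _ h6, hYn _ h7]
      exact h.openD k hk1 v hv h1 hX
  · -- lu
    intro k hk hlu v hv hcp
    have hk1 := hvert k hk
    have hok := hvo k hk1
    change σ.lu k = false at hlu
    rw [hatt] at hcp ⊢
    have hnotB : N.cp (N.att k) ≠ b := by
      intro hh
      have h2 := h.wfLU j k hj hk1 ((hkb k hok).2 hh).symm
      rw [hlu] at h2
      exact absurd h2 (by simp)
    rcases key v (N.att k) hcp with h1 | ⟨h1, h2⟩ | ⟨h1, h2⟩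
    · have h3 := h.lu k hk1 hlu v hv h1
      rcases hsame v (N.att k) h1 with ⟨h6, h7⟩ | ⟨h6, h7⟩
      · exact absurd h7 hnotB
      · rw [hXn _ h6, hXn _ h7]; exact h3
    · exact absurd h2 hnotB
    · have h3 := cross (N.att k) (h.attA k hok) v hv h2 h1
      have h4 := hlt (N.att k)
      linarith
  · -- ru
    intro k hk hru v hv hcp
    have hk1 := hvert k hk
    have hok := hvo k hk1
    change σ.ru k = false at hru
    rw [hatt] at hcp ⊢
    have hnotA : N.cp (N.att k) ≠ a := by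
      intro hh
      have h2 := h.wfRU i k hi hk1 ((hka k hok).2 hh).symm
      rw [hru] at h2
      exact absurd h2 (by simp)
    rcases key v (N.att k) hcp with h1 | ⟨h1, h2⟩ | ⟨h1, h2⟩
    · have h3 := h.ru k hk1 hru v hv h1
      rcases hsame v (N.att k) h1 with ⟨h6, h7⟩ | ⟨h6, h7⟩
      · rw [hrb _ h6, hrb _ h7]; linarith
      · rw [hrn _ h6, hrn _ h7]; exact h3
    · have h3 := cross v hv (N.att k) (h.attA k hok) h1 h2
      have h4 := hlt (N.att k)
      linarith
    · exact absurd h2 hnotA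
  · -- col
    intro k l hk hl hcp hX
    have hk1 := hvert k hk
    have hl1 := hvert l hl
    change σ.col k = σ.col l
    rw [hatt] at hcp hX
    have h1 := hcrossX _ (h.attA k (hvo k hk1)) _ (h.attA l (hvo l hl1)) hcp hX
    rcases hsame _ _ h1 with ⟨h6, h7⟩ | ⟨h6, h7⟩
    · rw [hXb _ h6, hXb _ h7] at hX
      exact h.col k l hk1 hl1 h1 (by linarith)
    · rw [hXn _ h6, hXn _ h7] at hX
      exact h.col k l hk1 hl1 h1 hX
  · -- wfR
    intro k l hk hl hcp
    obtain ⟨hki, hkj, hk1⟩ := hlab k 1 hk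
    obtain ⟨hli, hlj, hl1⟩ := hlab l 1 hl
    have hk2 : σ.cmp k ≠ σ.cmp i := fun hh => hki (h.wfR k i hk1 hi hh)
    have hl2 : σ.cmp l ≠ σ.cmp i := fun hh => hli (h.wfR l i hl1 hi hh)
    rw [hcmp, hcmp] at hcp
    apply h.wfR k l hk1 hl1
    split_ifs at hcp with h1 h2 h2
    · rw [h1, h2]
    · exact absurd hcp.symm hl2
    · exact absurd hcp hk2
    · exact hcp
  · -- wfL
    intro k l hk hl hcp
    obtain ⟨hki, hkj, hk1⟩ := hlab k 3 hk
    obtain ⟨hli, hlj, hl1⟩ := hlab l 3 hl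
    have hk2 : σ.cmp k ≠ σ.cmp j := fun hh => hkj (h.wfL k j hk1 hj hh)
    have hl2 : σ.cmp l ≠ σ.cmp j := fun hh => hlj (h.wfL l j hl1 hj hh)
    rw [hcmp, hcmp, if_neg hk2, if_neg hl2] at hcp
    exact h.wfL k l hk1 hl1 hcp
  · -- wfU
    intro k l hk hl hcol
    exact h.wfU k l (hlab k 2 hk).2.2 (hlab l 2 hl).2.2 hcol
  · -- wfD
    intro k l hk hl hcol
    exact h.wfD k l (hlab k 0 hk).2.2 (hlab l 0 hl).2.2 hcol
  · -- wfRU
    intro k l hk hl hcp
    obtain ⟨hki, hkj, hk1⟩ := hlab k 1 hk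
    have hl1 := hvert l hl
    have hk2 : σ.cmp k ≠ σ.cmp i := fun hh => hki (h.wfR k i hk1 hi hh)
    change σ.ru l = true
    rw [hcmp, hcmp] at hcp
    split_ifs at hcp with h1 h2 h2
    · exact h.wfRU k l hk1 hl1 (by rw [h1, h2])
    · exact h.wfRU i l hi hl1 hcp
    · exact absurd hcp hk2
    · exact h.wfRU k l hk1 hl1 hcp
  · -- wfLU
    intro k l hk hl hcp
    obtain ⟨hki, hkj, hk1⟩ := hlab k 3 hk
    have hl1 := hvert l hl
    have hk2 : σ.cmp k ≠ σ.cmp j := fun hh => hkj (h.wfL k j hk1 hj hh)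
    change σ.lu l = true
    rw [hcmp, hcmp, if_neg hk2] at hcp
    split_ifs at hcp with h2
    · exact h.wfLU j l hj hl1 h2.symm
    · exact h.wfLU k l hk1 hl1 hcp

end Pool.Agent.Ortho
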