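import Pool.Agent.Ortho.Sem

set_option autoImplicit false

/-!
# Ortho/LinkV: gluing a top edge to a bottom edge

`f = att i` (label `U`), `g = att j` (label `D`), `cp f ≠ cp g` (field `cmp`), `e j = (e i).swap`, i.e. (field `attE`)
`cor g (r g) = cor f (r f + 3)`, `cor g (r g + 1) = cor f (r f + 2)`; in particular the widths are equal:
`len g (r g) = len f (r f + 2) = len f (r f)` (`R.opp`).

New net: translate the component `C_g` of `g` by `(X f - X g, tp f - Y g)`; `cp' v = if cp v = cp g then cp f else cp v`;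
`G' = G ⊔ edge f g`. Then `X' g = X f`, `rt' g = rt f`, `Y' g = tp f`. Let `C_f` be the component of `f`. By `sep` every `a ∈ C_f` is to the
left (`rt a ≤ X f`), to the right (`rt f ≤ X a`) or in the column of `f` (`X a = X f`, `rt a = rt f`), similarly in `C_g`. If some `a ∈ C_f` is to
the left of `f`, then `lu i = true` (field `lu`, `X a < rt a`), hence `lu j = false` (`hl`), hence nothing in `C_g` is to the left of `g`; and so on:
(L) not both components have elements to the left; (R) not both have elements to the right.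

* `acyc`, `conn`, `fit`: as in LinkH; new pair: `k = r f + 2`, `l = r g`.
* `sep` for `a ∈ C_f`, `b ∈ C_g`: both in the columns: `tp a ≤ tp f = Y' g ≤ Y' b` (`openU i`, `openD j`). `a` left: `b` is not left, so
  `rt a ≤ X f = X' g ≤ X' b`. `a` right, `b` left, `b` right: similar.
* `openR k`: `att k ∈ C_f`: `ru i = true` (`wfRU k i`), so `ru j = false`, so `rt' b ≤ rt' g = rt f ≤ rt (att k)`. `att k ∈ C_g`: `ru j = true`, so
  `ru i = false` and `rt a ≤ rt f = rt' g ≤ rt' (att k)`. `openL`: symmetric.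
* `openU k`, `k ≠ i`, `att k ∈ C_f`: it is not in the column of `f` (`col k i`, `wfU`); then no `b ∈ C_g` is in its column, by (L), (R). `att k ∈ C_g`: if
  it is in the column of `g`, `a` in the column of `f`: `tp a ≤ tp f = Y' g ≤ Y' (att k) ≤ tp' (att k)` (`openD j`); if not, no `a` is in its column.
  `openD k`: symmetric.
* `lu k` new flag false. If `col k = col i` or `col k = col j`: all three flags are false, nothing in `C_f`, `C_g` is to the left of `f`, `g`, and nothing
  in the component of `att k` is to the left of `att k`. Otherwise `att k` is not in the column of `f`, `g` (field `col`). `att k ∈ C_f`: `X (att k) ≤ X f`, not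
  equal, so `lu i = true`, so `lu j = false` and `X' b ≥ X' g = X f > X (att k)`. `att k ∈ C_g`: similar. `ru`: symmetric.
* `col k l` new: same old component: old. `att k ∈ C_f`, `att l ∈ C_g` in the same new column: by (L), (R) `att k` is in the column of `f` and
  `att l` in the column of `g`, so `col k = col i`, `col l = col j`, both new numbers are `col i`.
* `wfR k l`: same old component: old. `k` in `C_f`, `l` in `C_g`: `ru i = true` and `ru j = true`, against `hr`. `wfL` symmetric.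
* `wfU k l` (`k, l ∉ {i, j}`): new `col` equal: old `col` equal, or (say) `col k = col i`, then `k = i` by the old `wfU`. `wfD`: similar with `j`.
* `wfRU k l`: same old component: old. `k ∈ C_f`, `l ∈ C_g`: `ru i = true` (`wfRU k i`), so `ru j = false`; if `col l = col j` the new flag is true;
  otherwise `att l` is not in the column of `g`, not to its right (`ru j = false`), so to its left and `ru l = true` (field `ru`: otherwise
  `rt g ≤ rt (att l) ≤ X g`). `k ∈ C_g`, `l ∈ C_f`: similar. `wfLU` symmetric.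
-/

namespace Pool.Agent.Ortho

open SimpleGraph

namespace LinkVAux

theorem merge_eq {α β : Type} [DecidableEq β] (c : α → β) (p q v w : α) :
    ((if c v = c q then c p else c v) = (if c w = c q then c p else c w)) ↔
      c v = c w ∨ (c v = c p ∧ c w = c q) ∨ (c v = c q ∧ c w = c p) := by
  grind

variable {V ι : Type}

/-- horizontal translation -/
noncomputable def sX (N : PNet V ι) (i j : ι) (v : V) : ℝ :=
  if N.cp v = N.cp (N.att j) then N.X (N.att i) - N.X (N.att j) else 0

/-- vertical translation -/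
noncomputable def sY (R : Rects V) (N : PNet V ι) (i j : ι) (v : V) : ℝ :=
  if N.cp v = N.cp (N.att j) then N.tp R (N.att i) - N.Y (N.att j) else 0

/-- the new net -/
noncomputable def net (R : Rects V) (N : PNet V ι) (i j : ι) : PNet V ι where
  r := N.r
  X v := N.X v + sX N i j v
  Y v := N.Y v + sY R N i j v
  cp v := if N.cp v = N.cp (N.att j) then N.cp (N.att i) else N.cp v
  G := N.G ⊔ edge (N.att i) (N.att j)
  att := N.att

variable {R : Rects V} {N : PNet V ι} {i j : ι}

theorem X_lt (v : V) : N.X v < N.rt R v := by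
  have := R.pos v (N.r v)
  unfold PNet.rt Rects.len
  linarith

theorem Y_lt (v : V) : N.Y v < N.tp R v := by
  have := R.pos v (N.r v + 1)
  unfold PNet.tp Rects.len
  linarith

theorem net_X (v : V) : (net R N i j).X v = N.X v + sX N i j v := rfl

theorem net_Y (v : V) : (net R N i j).Y v = N.Y v + sY R N i j v := rfl

theorem net_rt (v : V) : (net R N i j).rt R v = N.rt R v + sX N i j v := by
  show N.X v + sX N i j v + R.len v (N.r v) = N.X v + R.len v (N.r v) + sX N i j v
  ring

theorem net_tp (v : V) : (net R N i j).tp R v = N.tp R v + sY R N i j v := by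
  show N.Y v + sY R N i j v + R.len v (N.r v + 1) = N.Y v + R.len v (N.r v + 1) + sY R N i j v
  ring

theorem net_cp (v w : V) : (net R N i j).cp v = (net R N i j).cp w ↔
    N.cp v = N.cp w ∨ (N.cp v = N.cp (N.att i) ∧ N.cp w = N.cp (N.att j)) ∨
      (N.cp v = N.cp (N.att j) ∧ N.cp w = N.cp (N.att i)) :=
  merge_eq N.cp (N.att i) (N.att j) v w

theorem net_cpos (v : V) (d : Fin 4) : (net R N i j).cpos R v d =
    ((N.cpos R v d).1 + sX N i j v, (N.cpos R v d).2 + sY R N i j v) := by
  have h1 := net_rt (R := R) (N := N) (i := i) (j := j) v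
  have h2 := net_tp (R := R) (N := N) (i := i) (j := j) v
  have h3 := net_X (R := R) (N := N) (i := i) (j := j) v
  have h4 := net_Y (R := R) (N := N) (i := i) (j := j) v
  fin_cases d <;> simp [PNet.cpos, h1, h2, h3, h4]

theorem net_pp (v : V) (k : Fin 4) : (net R N i j).pp R v k =
    ((N.pp R v k).1 + sX N i j v, (N.pp R v k).2 + sY R N i j v) :=
  net_cpos v (k - N.r v)

theorem sX_congr {v w : V} (hvw : N.cp v = N.cp w) : sX N i j v = sX N i j w := by
  unfold sX; rw [hvw]

theorem sY_congr {v w : V} (hvw : N.cp v = N.cp w) : sY R N i j v = sY R N i j w := by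
  unfold sY; rw [hvw]

theorem sX_g {v : V} (hv : N.cp v = N.cp (N.att j)) :
    sX N i j v = N.X (N.att i) - N.X (N.att j) := by
  unfold sX; rw [if_pos hv]

theorem sY_g {v : V} (hv : N.cp v = N.cp (N.att j)) :
    sY R N i j v = N.tp R (N.att i) - N.Y (N.att j) := by
  unfold sY; rw [if_pos hv]

theorem sX_f (hfg : N.cp (N.att i) ≠ N.cp (N.att j)) {v : V} (hv : N.cp v = N.cp (N.att i)) :
    sX N i j v = 0 := by
  unfold sX; rw [if_neg (by rw [hv]; exact hfg)]

theorem sY_f (hfg : N.cp (N.att i) ≠ N.cp (N.att j)) {v : V} (hv : N.cp v = N.cp (N.att i)) :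
    sY R N i j v = 0 := by
  unfold sY; rw [if_neg (by rw [hv]; exact hfg)]

/-- the situation of the theorem -/
structure Sit (R : Rects V) (A : Finset V) (e : ι → E3 × E3) (σ : State ι) (N : PNet V ι)
    (i j : ι) : Prop where
  ok : Ok R A e σ N
  hi : σ.lab i = some 2
  hj : σ.lab j = some 0
  hc : σ.cmp i ≠ σ.cmp j
  hl : ¬ (σ.lu i = true ∧ σ.lu j = true)
  hr : ¬ (σ.ru i = true ∧ σ.ru j = true)
  he : e j = (e i).swap

namespace Sit

variable {A : Finset V} {e : ι → E3 × E3} {σ : State ι} (S : Sit R A e σ N i j)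

include S

theorem oi : σ.Open i := by
  unfold State.Open; rw [S.hi]; simp

theorem oj : σ.Open j := by
  unfold State.Open; rw [S.hj]; simp

theorem vi : σ.Vert i := Or.inr S.hi

theorem vj : σ.Vert j := Or.inl S.hj

theorem fA : N.att i ∈ A := S.ok.attA i S.oi

theorem gA : N.att j ∈ A := S.ok.attA j S.oj

theorem fg : N.cp (N.att i) ≠ N.cp (N.att j) := fun h =>
  S.hc ((S.ok.cmp i j S.oi S.oj).2 h)

theorem ne_fg : N.att i ≠ N.att j := fun h => S.fg (by rw [h])

theorem corner : R.cor (N.att j) (N.r (N.att j)) = R.cor (N.att i) (N.r (N.att i) + 2 + 1) ∧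
    R.cor (N.att j) (N.r (N.att j) + 1) = R.cor (N.att i) (N.r (N.att i) + 2) := by
  have h1 := S.ok.attE i 2 S.hi
  have h2 := S.ok.attE j 0 S.hj
  rw [S.he, ← h1, add_zero] at h2
  unfold Rects.edge at h2
  simp only [Prod.swap_prod_mk, Prod.mk.injEq] at h2
  exact h2

theorem width : R.len (N.att j) (N.r (N.att j)) = R.len (N.att i) (N.r (N.att i)) := by
  obtain ⟨h1, h2⟩ := S.corner
  have h3 := R.opp (N.att i) (N.r (N.att i))
  unfold Rects.len
  rw [h1, h2, _root_.dist_comm, ← h3, add_assoc]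
  rfl

/-- the right side of `g` is moved to the right side of `f` -/
theorem rt_g : N.rt R (N.att j) + (N.X (N.att i) - N.X (N.att j)) = N.rt R (N.att i) := by
  have := S.width
  unfold PNet.rt
  rw [this]; ring

theorem lu_or : σ.lu i = false ∨ σ.lu j = false := by
  have := S.hl
  cases h1 : σ.lu i <;> cases h2 : σ.lu j <;> simp_all

theorem ru_or : σ.ru i = false ∨ σ.ru j = false := by
  have := S.hr
  cases h1 : σ.ru i <;> cases h2 : σ.ru j <;> simp_all

theorem tri {v w : V} (hv : v ∈ A) (hw : w ∈ A) (hvw : N.cp v = N.cp w) :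
    N.rt R v ≤ N.X w ∨ N.rt R w ≤ N.X v ∨ (N.X v = N.X w ∧ N.rt R v = N.rt R w) := by
  by_cases hne : v = w
  · subst hne; exact Or.inr (Or.inr ⟨rfl, rfl⟩)
  · rcases S.ok.sep v hv w hw hne hvw with h | h | h
    · exact Or.inl h
    · exact Or.inr (Or.inl h)
    · exact Or.inr (Or.inr ⟨h.1, h.2.1⟩)

/-- relative position of elements of the two components -/
theorem sepFG {a b : V} (ha : a ∈ A) (hb : b ∈ A) (haf : N.cp a = N.cp (N.att i))
    (hbg : N.cp b = N.cp (N.att j)) :
    N.rt R a ≤ N.X b + (N.X (N.att i) - N.X (N.att j)) ∨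
      N.rt R b + (N.X (N.att i) - N.X (N.att j)) ≤ N.X a ∨
      (N.X a = N.X (N.att i) ∧ N.rt R a = N.rt R (N.att i) ∧ N.X b = N.X (N.att j) ∧
        N.rt R b = N.rt R (N.att j) ∧ N.tp R a ≤ N.tp R (N.att i) ∧ N.Y (N.att j) ≤ N.Y b) := by
  have hw := S.rt_g
  have hXa := X_lt (R := R) (N := N) a
  have hXb := X_lt (R := R) (N := N) b
  have hXf := X_lt (R := R) (N := N) (N.att i)
  have hXg := X_lt (R := R) (N := N) (N.att j)
  rcases S.tri ha S.fA haf with h1 | h1 | h1
  · -- `a` is to the left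
    rcases S.lu_or with h2 | h2
    · have := S.ok.lu i S.vi h2 a ha haf
      exfalso; linarith
    · have := S.ok.lu j S.vj h2 b hb hbg
      left; linarith
  · rcases S.ru_or with h2 | h2
    · have := S.ok.ru i S.vi h2 a ha haf
      exfalso; linarith
    · have := S.ok.ru j S.vj h2 b hb hbg
      right; left; linarith
  · rcases S.tri hb S.gA hbg with h2 | h2 | h2
    · right; left; linarith [h1.1]
    · left; linarith [h1.2]
    · right; right
      exact ⟨h1.1, h1.2, h2.1, h2.2, S.ok.openU i S.hi a ha haf h1.1,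
        S.ok.openD j S.hj b hb hbg h2.1⟩

/-- elements of the two components in the same column -/
theorem colFG {a b : V} (ha : a ∈ A) (hb : b ∈ A) (haf : N.cp a = N.cp (N.att i))
    (hbg : N.cp b = N.cp (N.att j)) (hab : N.X a = N.X b + (N.X (N.att i) - N.X (N.att j))) :
    N.X a = N.X (N.att i) ∧ N.X b = N.X (N.att j) ∧ N.tp R a ≤ N.tp R (N.att i) ∧
      N.Y (N.att j) ≤ N.Y b := by
  have hXa := X_lt (R := R) (N := N) a
  have hXb := X_lt (R := R) (N := N) b
  rcases S.sepFG ha hb haf hbg with h | h | h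
  · exfalso; linarith
  · exfalso; linarith
  · exact ⟨h.1, h.2.2.1, h.2.2.2.2.1, h.2.2.2.2.2⟩

theorem reach_cp {v w : V} (hvw : N.G.Reachable v w) : N.cp v = N.cp w := by
  obtain ⟨p⟩ := hvw
  induction p with
  | nil => rfl
  | cons hadj _ ih => exact (S.ok.supp _ _ hadj).2.2.trans ih

theorem cmp_f {k : ι} (hk : σ.Open k) : σ.cmp k = σ.cmp i ↔ N.cp (N.att k) = N.cp (N.att i) :=
  S.ok.cmp k i hk S.oi

theorem cmp_g {k : ι} (hk : σ.Open k) : σ.cmp k = σ.cmp j ↔ N.cp (N.att k) = N.cp (N.att j) :=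
  S.ok.cmp k j hk S.oj

end Sit

theorem vert_open {σ : State ι} {k : ι} (hk : σ.Vert k) : σ.Open k := by
  unfold State.Open
  rcases hk with h | h <;> rw [h] <;> simp

section new

variable [DecidableEq ι] {σ : State ι}

theorem lab_new {k : ι} {d : Fin 4} (hk : (σ.linkV i j).lab k = some d) :
    k ≠ i ∧ k ≠ j ∧ σ.lab k = some d := by
  unfold State.linkV at hk
  simp only at hk
  split_ifs at hk with h
  push Not at h
  exact ⟨h.1, h.2, hk⟩

theorem open_new {k : ι} (hk : (σ.linkV i j).Open k) : k ≠ i ∧ k ≠ j ∧ σ.Open k := by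
  unfold State.Open State.linkV at hk
  simp only at hk
  split_ifs at hk with h
  · exact absurd rfl hk
  · push Not at h
    exact ⟨h.1, h.2, hk⟩

theorem vert_new {k : ι} (hk : (σ.linkV i j).Vert k) : k ≠ i ∧ k ≠ j ∧ σ.Vert k := by
  rcases hk with h | h
  · exact ⟨(lab_new h).1, (lab_new h).2.1, Or.inl (lab_new h).2.2⟩
  · exact ⟨(lab_new h).1, (lab_new h).2.1, Or.inr (lab_new h).2.2⟩

theorem cmp_new {k l : ι} : (σ.linkV i j).cmp k = (σ.linkV i j).cmp l ↔
    σ.cmp k = σ.cmp l ∨ (σ.cmp k = σ.cmp i ∧ σ.cmp l = σ.cmp j) ∨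
      (σ.cmp k = σ.cmp j ∧ σ.cmp l = σ.cmp i) :=
  merge_eq σ.cmp i j k l

theorem col_new {k l : ι} : (σ.linkV i j).col k = (σ.linkV i j).col l ↔
    σ.col k = σ.col l ∨ (σ.col k = σ.col i ∧ σ.col l = σ.col j) ∨
      (σ.col k = σ.col j ∧ σ.col l = σ.col i) :=
  merge_eq σ.col i j k l

theorem lu_new_false {k : ι} (hk : (σ.linkV i j).lu k = false) :
    σ.lu k = false ∧ ((σ.col k = σ.col i ∨ σ.col k = σ.col j) → σ.lu i = false ∧ σ.lu j = false) := by
  unfold State.linkV at hk
  simp only at hk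
  split_ifs at hk with h
  · simp only [Bool.or_eq_false_iff] at hk
    exact ⟨hk.1.1, fun _ => ⟨hk.1.2, hk.2⟩⟩
  · exact ⟨hk, fun h' => absurd h' h⟩

theorem ru_new_false {k : ι} (hk : (σ.linkV i j).ru k = false) :
    σ.ru k = false ∧ ((σ.col k = σ.col i ∨ σ.col k = σ.col j) → σ.ru i = false ∧ σ.ru j = false) := by
  unfold State.linkV at hk
  simp only at hk
  split_ifs at hk with h
  · simp only [Bool.or_eq_false_iff] at hk
    exact ⟨hk.1.1, fun _ => ⟨hk.1.2, hk.2⟩⟩
  · exact ⟨hk, fun h' => absurd h' h⟩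

end new

namespace Sit

variable {A : Finset V} {e : ι → E3 × E3} {σ : State ι} (S : Sit R A e σ N i j)

include S

theorem supp (a b : V) (hab : (net R N i j).G.Adj a b) :
    a ∈ A ∧ b ∈ A ∧ (net R N i j).cp a = (net R N i j).cp b := by
  change (N.G ⊔ edge (N.att i) (N.att j)).Adj a b at hab
  rw [net_cp]
  rw [SimpleGraph.sup_adj, edge_adj] at hab
  rcases hab with h | ⟨⟨h1, h2⟩ | ⟨h1, h2⟩, _⟩
  · obtain ⟨h1, h2, h3⟩ := S.ok.supp a b h
    exact ⟨h1, h2, Or.inl h3⟩
  · subst h1 h2
    exact ⟨S.fA, S.gA, Or.inr (Or.inl ⟨rfl, rfl⟩)⟩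
  · subst h1 h2
    exact ⟨S.gA, S.fA, Or.inr (Or.inr ⟨rfl, rfl⟩)⟩

theorem acyc : (net R N i j).G.IsAcyclic :=
  IsAcyclic.sup_edge_of_not_reachable (fun h => S.fg (S.reach_cp h)) S.ok.acyc

theorem conn (a : V) (ha : a ∈ A) (b : V) (hb : b ∈ A)
    (hab : (net R N i j).cp a = (net R N i j).cp b) : (net R N i j).G.Reachable a b := by
  change (N.G ⊔ edge (N.att i) (N.att j)).Reachable a b
  have hle : N.G ≤ N.G ⊔ edge (N.att i) (N.att j) := le_sup_left
  have hfg : (N.G ⊔ edge (N.att i) (N.att j)).Reachable (N.att i) (N.att j) := by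
    apply Adj.reachable
    rw [SimpleGraph.sup_adj, edge_adj]
    exact Or.inr ⟨Or.inl ⟨rfl, rfl⟩, S.ne_fg⟩
  rcases (net_cp a b).1 hab with h | ⟨h1, h2⟩ | ⟨h1, h2⟩
  · exact (S.ok.conn a ha b hb h).mono hle
  · exact ((S.ok.conn a ha _ S.fA h1).mono hle).trans
      (hfg.trans ((S.ok.conn _ S.gA b hb h2.symm).mono hle))
  · exact ((S.ok.conn a ha _ S.gA h1).mono hle).trans
      (hfg.symm.trans ((S.ok.conn _ S.fA b hb h2.symm).mono hle))

theorem pp_eq : (net R N i j).pp R (N.att i) (N.r (N.att i) + 2) =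
      (net R N i j).pp R (N.att j) (N.r (N.att j) + 1) ∧
    (net R N i j).pp R (N.att i) (N.r (N.att i) + 2 + 1) =
      (net R N i j).pp R (N.att j) (N.r (N.att j)) := by
  have e1 : ∀ a : Fin 4, a + 2 - a = 2 := by decide
  have e2 : ∀ a : Fin 4, a + 1 - a = 1 := by decide
  have e3 : ∀ a : Fin 4, a + 2 + 1 - a = 3 := by decide
  have e4 : ∀ a : Fin 4, a - a = 0 := by decide
  have hw := S.rt_g
  rw [net_pp, net_pp, net_pp, net_pp, sX_f S.fg rfl, sY_f S.fg rfl, sX_g rfl, sY_g rfl]
  unfold PNet.pp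
  rw [e1, e2, e3, e4]
  refine ⟨Prod.ext ?_ ?_, Prod.ext ?_ ?_⟩ <;> simp only [PNet.cpos] <;> linarith

theorem fit (a b : V) (hab : (net R N i j).G.Adj a b) : ∃ k l, R.cor a k = R.cor b (l + 1) ∧
    R.cor a (k + 1) = R.cor b l ∧ (net R N i j).pp R a k = (net R N i j).pp R b (l + 1) ∧
    (net R N i j).pp R a (k + 1) = (net R N i j).pp R b l := by
  change (N.G ⊔ edge (N.att i) (N.att j)).Adj a b at hab
  rw [SimpleGraph.sup_adj, edge_adj] at hab
  obtain ⟨c1, c2⟩ := S.corner
  obtain ⟨p1, p2⟩ := S.pp_eq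
  rcases hab with h | ⟨⟨h1, h2⟩ | ⟨h1, h2⟩, _⟩
  · obtain ⟨k, l, q1, q2, q3, q4⟩ := S.ok.fit a b h
    refine ⟨k, l, q1, q2, ?_, ?_⟩
    · rw [net_pp, net_pp, q3, sX_congr (S.ok.supp a b h).2.2, sY_congr (S.ok.supp a b h).2.2]
    · rw [net_pp, net_pp, q4, sX_congr (S.ok.supp a b h).2.2, sY_congr (S.ok.supp a b h).2.2]
  · subst h1 h2
    exact ⟨_, _, c2.symm, c1.symm, p1, p2⟩
  · subst h1 h2
    exact ⟨_, _, c1, c2, p2.symm, p1.symm⟩

theorem sep (a : V) (ha : a ∈ A) (b : V) (hb : b ∈ A) (hne : a ≠ b)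
    (hab : (net R N i j).cp a = (net R N i j).cp b) :
    (net R N i j).rt R a ≤ (net R N i j).X b ∨ (net R N i j).rt R b ≤ (net R N i j).X a ∨
    ((net R N i j).X a = (net R N i j).X b ∧ (net R N i j).rt R a = (net R N i j).rt R b ∧
      ((net R N i j).tp R a ≤ (net R N i j).Y b ∨ (net R N i j).tp R b ≤ (net R N i j).Y a)) := by
  have hw := S.rt_g
  simp only [net_X, net_rt, net_tp, net_Y]
  rcases (net_cp a b).1 hab with h | ⟨h1, h2⟩ | ⟨h1, h2⟩
  · have e1 := sX_congr (i := i) (j := j) h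
    have e2 := sY_congr (R := R) (i := i) (j := j) h
    rw [e1, e2]
    rcases S.ok.sep a ha b hb hne h with h | h | ⟨h3, h4, h5 | h5⟩
    · left; linarith
    · right; left; linarith
    · right; right; exact ⟨by linarith, by linarith, Or.inl (by linarith)⟩
    · right; right; exact ⟨by linarith, by linarith, Or.inr (by linarith)⟩
  · rw [sX_f S.fg h1, sY_f S.fg h1, sX_g h2, sY_g h2]
    rcases S.sepFG ha hb h1 h2 with h | h | ⟨h3, h4, h5, h6, h7, h8⟩
    · left; linarith
    · right; left; linarith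
    · right; right; exact ⟨by linarith, by linarith, Or.inl (by linarith)⟩
  · rw [sX_f S.fg h2, sY_f S.fg h2, sX_g h1, sY_g h1]
    rcases S.sepFG hb ha h2 h1 with h | h | ⟨h3, h4, h5, h6, h7, h8⟩
    · right; left; linarith
    · left; linarith
    · right; right; exact ⟨by linarith, by linarith, Or.inr (by linarith)⟩

theorem openR {k : ι} (hk : σ.lab k = some 1) (b : V) (hb : b ∈ A)
    (hab : (net R N i j).cp b = (net R N i j).cp (N.att k)) :
    (net R N i j).rt R b ≤ (net R N i j).rt R (N.att k) := by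
  have hw := S.rt_g
  have ok : σ.Open k := by unfold State.Open; rw [hk]; simp
  simp only [net_rt]
  rcases (net_cp b (N.att k)).1 hab with h | ⟨h1, h2⟩ | ⟨h1, h2⟩
  · rw [sX_congr h]
    have := S.ok.openR k hk b hb h
    linarith
  · rw [sX_f S.fg h1, sX_g h2]
    have h3 := S.ok.wfRU k j hk S.vj ((S.cmp_g ok).2 h2)
    have h4 : σ.ru i = false := by
      rcases S.ru_or with h | h
      · exact h
      · rw [h] at h3; exact absurd h3 (by simp)
    have h5 := S.ok.ru i S.vi h4 b hb h1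
    have h6 := S.ok.openR k hk _ S.gA h2.symm
    linarith
  · rw [sX_f S.fg h2, sX_g h1]
    have h3 := S.ok.wfRU k i hk S.vi ((S.cmp_f ok).2 h2)
    have h4 : σ.ru j = false := by
      rcases S.ru_or with h | h
      · rw [h] at h3; exact absurd h3 (by simp)
      · exact h
    have h5 := S.ok.ru j S.vj h4 b hb h1
    have h6 := S.ok.openR k hk _ S.fA h2.symm
    linarith

theorem openL {k : ι} (hk : σ.lab k = some 3) (b : V) (hb : b ∈ A)
    (hab : (net R N i j).cp b = (net R N i j).cp (N.att k)) :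
    (net R N i j).X (N.att k) ≤ (net R N i j).X b := by
  have hw := S.rt_g
  have ok : σ.Open k := by unfold State.Open; rw [hk]; simp
  simp only [net_X]
  rcases (net_cp b (N.att k)).1 hab with h | ⟨h1, h2⟩ | ⟨h1, h2⟩
  · rw [sX_congr h]
    have := S.ok.openL k hk b hb h
    linarith
  · rw [sX_f S.fg h1, sX_g h2]
    have h3 := S.ok.wfLU k j hk S.vj ((S.cmp_g ok).2 h2)
    have h4 : σ.lu i = false := by
      rcases S.lu_or with h | h
      · exact h
      · rw [h] at h3; exact absurd h3 (by simp)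
    have h5 := S.ok.lu i S.vi h4 b hb h1
    have h6 := S.ok.openL k hk _ S.gA h2.symm
    linarith
  · rw [sX_f S.fg h2, sX_g h1]
    have h3 := S.ok.wfLU k i hk S.vi ((S.cmp_f ok).2 h2)
    have h4 : σ.lu j = false := by
      rcases S.lu_or with h | h
      · rw [h] at h3; exact absurd h3 (by simp)
      · exact h
    have h5 := S.ok.lu j S.vj h4 b hb h1
    have h6 := S.ok.openL k hk _ S.fA h2.symm
    linarith

theorem openU {k : ι} (hki : k ≠ i) (hk : σ.lab k = some 2) (b : V) (hb : b ∈ A)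
    (hab : (net R N i j).cp b = (net R N i j).cp (N.att k))
    (hX : (net R N i j).X b = (net R N i j).X (N.att k)) :
    (net R N i j).tp R b ≤ (net R N i j).tp R (N.att k) := by
  have ok : σ.Open k := by unfold State.Open; rw [hk]; simp
  have hkA := S.ok.attA k ok
  have hY := Y_lt (R := R) (N := N) (N.att k)
  simp only [net_X] at hX
  simp only [net_tp]
  rcases (net_cp b (N.att k)).1 hab with h | ⟨h1, h2⟩ | ⟨h1, h2⟩
  · rw [sX_congr h] at hX
    rw [sY_congr h]
    have := S.ok.openU k hk b hb h (by linarith)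
    linarith
  · rw [sX_f S.fg h1, sX_g h2] at hX
    rw [sY_f S.fg h1, sY_g h2]
    obtain ⟨h3, h4, h5, h6⟩ := S.colFG hb hkA h1 h2 (by linarith)
    linarith
  · rw [sX_f S.fg h2, sX_g h1] at hX
    obtain ⟨h3, h4, h5, h6⟩ := S.colFG hkA hb h2 h1 (by linarith)
    exact absurd (S.ok.wfU k i hk S.hi (S.ok.col k i (Or.inr hk) S.vi h2 h3)) hki

theorem openD {k : ι} (hkj : k ≠ j) (hk : σ.lab k = some 0) (b : V) (hb : b ∈ A)
    (hab : (net R N i j).cp b = (net R N i j).cp (N.att k))
    (hX : (net R N i j).X b = (net R N i j).X (N.att k)) :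
    (net R N i j).Y (N.att k) ≤ (net R N i j).Y b := by
  have ok : σ.Open k := by unfold State.Open; rw [hk]; simp
  have hkA := S.ok.attA k ok
  have hY := Y_lt (R := R) (N := N) (N.att k)
  simp only [net_X] at hX
  simp only [net_Y]
  rcases (net_cp b (N.att k)).1 hab with h | ⟨h1, h2⟩ | ⟨h1, h2⟩
  · rw [sX_congr h] at hX
    rw [sY_congr h]
    have := S.ok.openD k hk b hb h (by linarith)
    linarith
  · rw [sX_f S.fg h1, sX_g h2] at hX
    obtain ⟨h3, h4, h5, h6⟩ := S.colFG hb hkA h1 h2 (by linarith)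
    exact absurd (S.ok.wfD k j hk S.hj (S.ok.col k j (Or.inl hk) S.vj h2 h4)) hkj
  · rw [sX_f S.fg h2, sX_g h1] at hX
    rw [sY_f S.fg h2, sY_g h1]
    obtain ⟨h3, h4, h5, h6⟩ := S.colFG hkA hb h2 h1 (by linarith)
    linarith

theorem lu_new {k : ι} (hk : σ.Vert k) (hlk : σ.lu k = false)
    (hlk' : (σ.col k = σ.col i ∨ σ.col k = σ.col j) → σ.lu i = false ∧ σ.lu j = false)
    (b : V) (hb : b ∈ A) (hab : (net R N i j).cp b = (net R N i j).cp (N.att k)) :
    (net R N i j).X (N.att k) ≤ (net R N i j).X b := by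
  have hkA := S.ok.attA k (vert_open hk)
  simp only [net_X]
  rcases (net_cp b (N.att k)).1 hab with h | ⟨h1, h2⟩ | ⟨h1, h2⟩
  · rw [sX_congr h]
    have := S.ok.lu k hk hlk b hb h
    linarith
  · rw [sX_f S.fg h1, sX_g h2]
    have h3 := S.ok.lu k hk hlk _ S.gA h2.symm
    have h4 : σ.lu i = false := by
      by_cases hX : N.X (N.att k) = N.X (N.att j)
      · exact (hlk' (Or.inr (S.ok.col k j hk S.vj h2 hX))).1
      · rcases S.lu_or with h | h
        · exact h
        · have := S.ok.lu j S.vj h _ hkA h2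
          exact absurd (le_antisymm h3 this) hX
    have h5 := S.ok.lu i S.vi h4 b hb h1
    linarith
  · rw [sX_f S.fg h2, sX_g h1]
    have h3 := S.ok.lu k hk hlk _ S.fA h2.symm
    have h4 : σ.lu j = false := by
      by_cases hX : N.X (N.att k) = N.X (N.att i)
      · exact (hlk' (Or.inl (S.ok.col k i hk S.vi h2 hX))).2
      · rcases S.lu_or with h | h
        · have := S.ok.lu i S.vi h _ hkA h2
          exact absurd (le_antisymm h3 this) hX
        · exact h
    have h5 := S.ok.lu j S.vj h4 b hb h1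
    linarith

theorem eqX_of_rt {v w : V} (hv : v ∈ A) (hw : w ∈ A) (hvw : N.cp v = N.cp w)
    (h : N.rt R v = N.rt R w) : N.X v = N.X w := by
  have h1 := X_lt (R := R) (N := N) v
  have h2 := X_lt (R := R) (N := N) w
  rcases S.tri hv hw hvw with h3 | h3 | h3
  · exfalso; linarith
  · exfalso; linarith
  · exact h3.1

theorem ru_new {k : ι} (hk : σ.Vert k) (hlk : σ.ru k = false)
    (hlk' : (σ.col k = σ.col i ∨ σ.col k = σ.col j) → σ.ru i = false ∧ σ.ru j = false)
    (b : V) (hb : b ∈ A) (hab : (net R N i j).cp b = (net R N i j).cp (N.att k)) :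
    (net R N i j).rt R b ≤ (net R N i j).rt R (N.att k) := by
  have hw := S.rt_g
  have hkA := S.ok.attA k (vert_open hk)
  simp only [net_rt]
  rcases (net_cp b (N.att k)).1 hab with h | ⟨h1, h2⟩ | ⟨h1, h2⟩
  · rw [sX_congr h]
    have := S.ok.ru k hk hlk b hb h
    linarith
  · rw [sX_f S.fg h1, sX_g h2]
    have h3 := S.ok.ru k hk hlk _ S.gA h2.symm
    have h4 : σ.ru i = false := by
      by_cases hX : N.X (N.att k) = N.X (N.att j)
      · exact (hlk' (Or.inr (S.ok.col k j hk S.vj h2 hX))).1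
      · rcases S.ru_or with h | h
        · exact h
        · have := S.ok.ru j S.vj h _ hkA h2
          exact absurd (S.eqX_of_rt hkA S.gA h2 (le_antisymm this h3)) hX
    have h5 := S.ok.ru i S.vi h4 b hb h1
    linarith
  · rw [sX_f S.fg h2, sX_g h1]
    have h3 := S.ok.ru k hk hlk _ S.fA h2.symm
    have h4 : σ.ru j = false := by
      by_cases hX : N.X (N.att k) = N.X (N.att i)
      · exact (hlk' (Or.inl (S.ok.col k i hk S.vi h2 hX))).2
      · rcases S.ru_or with h | h
        · have := S.ok.ru i S.vi h _ hkA h2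
          exact absurd (S.eqX_of_rt hkA S.fA h2 (le_antisymm this h3)) hX
        · exact h
    have h5 := S.ok.ru j S.vj h4 b hb h1
    linarith

theorem col {k l : ι} (hk : σ.Vert k) (hl : σ.Vert l)
    (hab : (net R N i j).cp (N.att k) = (net R N i j).cp (N.att l))
    (hX : (net R N i j).X (N.att k) = (net R N i j).X (N.att l)) :
    σ.col k = σ.col l ∨ (σ.col k = σ.col i ∧ σ.col l = σ.col j) ∨
      (σ.col k = σ.col j ∧ σ.col l = σ.col i) := by
  have hkA := S.ok.attA k (vert_open hk)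
  have hlA := S.ok.attA l (vert_open hl)
  simp only [net_X] at hX
  rcases (net_cp (N.att k) (N.att l)).1 hab with h | ⟨h1, h2⟩ | ⟨h1, h2⟩
  · rw [sX_congr h] at hX
    exact Or.inl (S.ok.col k l hk hl h (by linarith))
  · rw [sX_f S.fg h1, sX_g h2] at hX
    obtain ⟨h3, h4, h5, h6⟩ := S.colFG hkA hlA h1 h2 (by linarith)
    exact Or.inr (Or.inl ⟨S.ok.col k i hk S.vi h1 h3, S.ok.col l j hl S.vj h2 h4⟩)
  · rw [sX_f S.fg h2, sX_g h1] at hX
    obtain ⟨h3, h4, h5, h6⟩ := S.colFG hlA hkA h2 h1 (by linarith)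
    exact Or.inr (Or.inr ⟨S.ok.col k j hk S.vj h1 h4, S.ok.col l i hl S.vi h2 h3⟩)

/-- a column of the component of `g` with nothing to the right which is not the column of `g` -/
theorem ru_g {l : ι} (hl : σ.Vert l) (hcl : N.cp (N.att l) = N.cp (N.att j))
    (hne : σ.col l ≠ σ.col j) (hj : σ.ru j = false) : σ.ru l = true := by
  by_contra hf
  have hf' : σ.ru l = false := by simpa using hf
  have hlA := S.ok.attA l (vert_open hl)
  have h1 := S.ok.ru l hl hf' _ S.gA hcl.symm
  have h2 := S.ok.ru j S.vj hj _ hlA hcl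
  exact hne (S.ok.col l j hl S.vj hcl (S.eqX_of_rt hlA S.gA hcl (le_antisymm h2 h1)))

theorem ru_f {l : ι} (hl : σ.Vert l) (hcl : N.cp (N.att l) = N.cp (N.att i))
    (hne : σ.col l ≠ σ.col i) (hj : σ.ru i = false) : σ.ru l = true := by
  by_contra hf
  have hf' : σ.ru l = false := by simpa using hf
  have hlA := S.ok.attA l (vert_open hl)
  have h1 := S.ok.ru l hl hf' _ S.fA hcl.symm
  have h2 := S.ok.ru i S.vi hj _ hlA hcl
  exact hne (S.ok.col l i hl S.vi hcl (S.eqX_of_rt hlA S.fA hcl (le_antisymm h2 h1)))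

theorem lu_g {l : ι} (hl : σ.Vert l) (hcl : N.cp (N.att l) = N.cp (N.att j))
    (hne : σ.col l ≠ σ.col j) (hj : σ.lu j = false) : σ.lu l = true := by
  by_contra hf
  have hf' : σ.lu l = false := by simpa using hf
  have hlA := S.ok.attA l (vert_open hl)
  have h1 := S.ok.lu l hl hf' _ S.gA hcl.symm
  have h2 := S.ok.lu j S.vj hj _ hlA hcl
  exact hne (S.ok.col l j hl S.vj hcl (le_antisymm h1 h2))

theorem lu_f {l : ι} (hl : σ.Vert l) (hcl : N.cp (N.att l) = N.cp (N.att i))
    (hne : σ.col l ≠ σ.col i) (hj : σ.lu i = false) : σ.lu l = true := by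
  by_contra hf
  have hf' : σ.lu l = false := by simpa using hf
  have hlA := S.ok.attA l (vert_open hl)
  have h1 := S.ok.lu l hl hf' _ S.fA hcl.symm
  have h2 := S.ok.lu i S.vi hj _ hlA hcl
  exact hne (S.ok.col l i hl S.vi hcl (le_antisymm h1 h2))

variable [DecidableEq ι]

theorem wfRU {k l : ι} (hk : σ.lab k = some 1) (hl : σ.Vert l)
    (hkl : (σ.linkV i j).cmp k = (σ.linkV i j).cmp l) : (σ.linkV i j).ru l = true := by
  have ok : σ.Open k := by unfold State.Open; rw [hk]; simp
  by_contra hf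
  have hf' : (σ.linkV i j).ru l = false := by simpa using hf
  obtain ⟨h1, h2⟩ := ru_new_false hf'
  rcases cmp_new.1 hkl with h | ⟨h3, h4⟩ | ⟨h3, h4⟩
  · rw [S.ok.wfRU k l hk hl h] at h1
    exact absurd h1 (by simp)
  · have h5 := S.ok.wfRU k i hk S.vi h3
    have h6 : σ.ru j = false := by
      rcases S.ru_or with h | h
      · rw [h] at h5; exact absurd h5 (by simp)
      · exact h
    by_cases hne : σ.col l = σ.col j
    · rw [(h2 (Or.inr hne)).1] at h5
      exact absurd h5 (by simp)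
    · rw [S.ru_g hl ((S.cmp_g (vert_open hl)).1 h4) hne h6] at h1
      exact absurd h1 (by simp)
  · have h5 := S.ok.wfRU k j hk S.vj h3
    have h6 : σ.ru i = false := by
      rcases S.ru_or with h | h
      · exact h
      · rw [h] at h5; exact absurd h5 (by simp)
    by_cases hne : σ.col l = σ.col i
    · rw [(h2 (Or.inl hne)).2] at h5
      exact absurd h5 (by simp)
    · rw [S.ru_f hl ((S.cmp_f (vert_open hl)).1 h4) hne h6] at h1
      exact absurd h1 (by simp)

theorem wfLU {k l : ι} (hk : σ.lab k = some 3) (hl : σ.Vert l)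
    (hkl : (σ.linkV i j).cmp k = (σ.linkV i j).cmp l) : (σ.linkV i j).lu l = true := by
  have ok : σ.Open k := by unfold State.Open; rw [hk]; simp
  by_contra hf
  have hf' : (σ.linkV i j).lu l = false := by simpa using hf
  obtain ⟨h1, h2⟩ := lu_new_false hf'
  rcases cmp_new.1 hkl with h | ⟨h3, h4⟩ | ⟨h3, h4⟩
  · rw [S.ok.wfLU k l hk hl h] at h1
    exact absurd h1 (by simp)
  · have h5 := S.ok.wfLU k i hk S.vi h3
    have h6 : σ.lu j = false := by
      rcases S.lu_or with h | h
      · rw [h] at h5; exact absurd h5 (by simp)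
      · exact h
    by_cases hne : σ.col l = σ.col j
    · rw [(h2 (Or.inr hne)).1] at h5
      exact absurd h5 (by simp)
    · rw [S.lu_g hl ((S.cmp_g (vert_open hl)).1 h4) hne h6] at h1
      exact absurd h1 (by simp)
  · have h5 := S.ok.wfLU k j hk S.vj h3
    have h6 : σ.lu i = false := by
      rcases S.lu_or with h | h
      · exact h
      · rw [h] at h5; exact absurd h5 (by simp)
    by_cases hne : σ.col l = σ.col i
    · rw [(h2 (Or.inl hne)).2] at h5
      exact absurd h5 (by simp)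
    · rw [S.lu_f hl ((S.cmp_f (vert_open hl)).1 h4) hne h6] at h1
      exact absurd h1 (by simp)

theorem main : Ok R A e (σ.linkV i j) (net R N i j) where
  supp := S.supp
  acyc := S.acyc
  conn := S.conn
  fit := S.fit
  sep := S.sep
  attA k hk := S.ok.attA k (open_new hk).2.2
  attE k d hk := S.ok.attE k d (lab_new hk).2.2
  cmp k l hk hl := by
    have ok := (open_new hk).2.2
    have ol := (open_new hl).2.2
    show _ ↔ (net R N i j).cp (N.att k) = (net R N i j).cp (N.att l)
    rw [cmp_new, net_cp, S.ok.cmp k l ok ol, S.cmp_f ok, S.cmp_g ok, S.cmp_f ol, S.cmp_g ol]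
  openR k hk := S.openR (lab_new hk).2.2
  openL k hk := S.openL (lab_new hk).2.2
  openU k hk := S.openU (lab_new hk).1 (lab_new hk).2.2
  openD k hk := S.openD (lab_new hk).2.1 (lab_new hk).2.2
  lu k hk hf := S.lu_new (vert_new hk).2.2 (lu_new_false hf).1 (lu_new_false hf).2
  ru k hk hf := S.ru_new (vert_new hk).2.2 (ru_new_false hf).1 (ru_new_false hf).2
  col k l hk hl hab hX := col_new.2 (S.col (vert_new hk).2.2 (vert_new hl).2.2 hab hX)
  wfR k l hk hl hkl := by
    obtain ⟨-, -, hk⟩ := lab_new hk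
    obtain ⟨-, -, hl⟩ := lab_new hl
    rcases cmp_new.1 hkl with h | ⟨h1, h2⟩ | ⟨h1, h2⟩
    · exact S.ok.wfR k l hk hl h
    · exact absurd ⟨S.ok.wfRU k i hk S.vi h1, S.ok.wfRU l j hl S.vj h2⟩ S.hr
    · exact absurd ⟨S.ok.wfRU l i hl S.vi h2, S.ok.wfRU k j hk S.vj h1⟩ S.hr
  wfL k l hk hl hkl := by
    obtain ⟨-, -, hk⟩ := lab_new hk
    obtain ⟨-, -, hl⟩ := lab_new hl
    rcases cmp_new.1 hkl with h | ⟨h1, h2⟩ | ⟨h1, h2⟩
    · exact S.ok.wfL k l hk hl h
    · exact absurd ⟨S.ok.wfLU k i hk S.vi h1, S.ok.wfLU l j hl S.vj h2⟩ S.hl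
    · exact absurd ⟨S.ok.wfLU l i hl S.vi h2, S.ok.wfLU k j hk S.vj h1⟩ S.hl
  wfU k l hk hl hkl := by
    obtain ⟨hki, -, hk⟩ := lab_new hk
    obtain ⟨hli, -, hl⟩ := lab_new hl
    rcases col_new.1 hkl with h | ⟨h1, h2⟩ | ⟨h1, h2⟩
    · exact S.ok.wfU k l hk hl h
    · exact absurd (S.ok.wfU k i hk S.hi h1) hki
    · exact absurd (S.ok.wfU l i hl S.hi h2) hli
  wfD k l hk hl hkl := by
    obtain ⟨-, hkj, hk⟩ := lab_new hk
    obtain ⟨-, hlj, hl⟩ := lab_new hl
    rcases col_new.1 hkl with h | ⟨h1, h2⟩ | ⟨h1, h2⟩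
    · exact S.ok.wfD k l hk hl h
    · exact absurd (S.ok.wfD l j hl S.hj h2) hlj
    · exact absurd (S.ok.wfD k j hk S.hj h1) hkj
  wfRU k l hk hl := S.wfRU (lab_new hk).2.2 (vert_new hl).2.2
  wfLU k l hk hl := S.wfLU (lab_new hk).2.2 (vert_new hl).2.2

end Sit

end LinkVAux

theorem ok_linkV {V ι : Type} [DecidableEq ι] (R : Rects V) {A : Finset V} {e : ι → E3 × E3}
    {σ : State ι} {N : PNet V ι} (h : Ok R A e σ N) (i j : ι) (hi : σ.lab i = some 2)
    (hj : σ.lab j = some 0) (hc : σ.cmp i ≠ σ.cmp j) (hl : ¬ (σ.lu i = true ∧ σ.lu j = true))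
    (hr : ¬ (σ.ru i = true ∧ σ.ru j = true)) (he : e j = (e i).swap) :
    ∃ N' : PNet V ι, Ok R A e (σ.linkV i j) N' ∧ N'.att = N.att ∧
      ∀ v, N'.cp v = if N.cp v = N.cp (N.att j) then N.cp (N.att i) else N.cp v :=
  ⟨LinkVAux.net R N i j, LinkVAux.Sit.main ⟨h, hi, hj, hc, hl, hr, he⟩, rfl, fun _ => rfl⟩

end Pool.Agent.Ortho
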