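import Pool.Agent.Ortho.Cls
import Pool.Agent.Ortho.LinkH
import Pool.Agent.Ortho.LinkV

set_option autoImplicit false

/-!
# Ortho/RealLink: gluing boundary edges of a realized state

* `Real.linkH`, `Real.linkV`: from `ok_linkH`, `ok_linkV`. `Real` of the new state: the new component numbers are
  `N'.cp v = if N.cp v = N.cp (att j) then N.cp (att i) else N.cp v`, `N'.att = N.att`. For `f ∈ A` there is an open `l` with `N.cp f = N.cp (att l)`. If
  `l ≠ i, j` it is still open and works. If `l = i` or `l = j` (then `N'.cp f = N.cp (att i)`), use the boundary edge `k` of `hk`: it is open in the new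
  state and `N'.cp (att k) = N.cp (att i)` because `σ.cmp k = σ.cmp i` or `σ.cmp k = σ.cmp j` (field `cmp` of `Ok`).
* `Real.closeH`, `Real.closeV`: the last gluing: the only open boundary edges are `i` and `j`, so after the gluing all faces are in one
  component.
-/

namespace Pool.Agent.Ortho

namespace RealLinkAux

variable {V ι : Type} {R : Rects V} {A : Finset V} {e : ι → E3 × E3} {σ : State ι}

theorem real_aux {σ' : State ι} {N N' : PNet V ι} (h : Ok R A e σ N)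
    (ho : ∀ f ∈ A, ∃ i, σ.Open i ∧ N.cp f = N.cp (N.att i)) (i j : ι) (hi : σ.Open i)
    (hj : σ.Open j) (hatt : N'.att = N.att)
    (hcp : ∀ v, N'.cp v = if N.cp v = N.cp (N.att j) then N.cp (N.att i) else N.cp v)
    (hop : ∀ k, k ≠ i → k ≠ j → σ.Open k → σ'.Open k)
    (hk : ∃ k, k ≠ i ∧ k ≠ j ∧ σ.Open k ∧ (σ.cmp k = σ.cmp i ∨ σ.cmp k = σ.cmp j)) :
    ∀ f ∈ A, ∃ l, σ'.Open l ∧ N'.cp f = N'.cp (N'.att l) := by
  intro f hf
  obtain ⟨l, hl, hfl⟩ := ho f hf
  by_cases hli : l = i ∨ l = j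
  · obtain ⟨k, hki, hkj, hko, hkc⟩ := hk
    refine ⟨k, hop k hki hkj hko, ?_⟩
    have h1 : N'.cp f = N.cp (N.att i) := by
      rw [hcp f]
      rcases hli with rfl | rfl
      · split_ifs with h2
        · rfl
        · exact hfl
      · rw [if_pos hfl]
    have h2 : N'.cp (N.att k) = N.cp (N.att i) := by
      rw [hcp]
      rcases hkc with hkc | hkc
      · have h3 := (h.cmp k i hko hi).1 hkc
        split_ifs with h4
        · rfl
        · exact h3
      · rw [if_pos ((h.cmp k j hko hj).1 hkc)]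
    rw [hatt, h1, h2]
  · push Not at hli
    refine ⟨l, hop l hli.1 hli.2 hl, ?_⟩
    rw [hatt, hcp, hcp, hfl]

theorem close_aux {N N' : PNet V ι}
    (ho : ∀ f ∈ A, ∃ i, σ.Open i ∧ N.cp f = N.cp (N.att i)) (i j : ι)
    (hcp : ∀ v, N'.cp v = if N.cp v = N.cp (N.att j) then N.cp (N.att i) else N.cp v)
    (hk : ∀ k, σ.Open k → k = i ∨ k = j) :
    ∀ f ∈ A, ∀ g ∈ A, N'.cp f = N'.cp g := by
  have key : ∀ f ∈ A, N'.cp f = N.cp (N.att i) := by
    intro f hf
    obtain ⟨l, hl, hfl⟩ := ho f hf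
    rw [hcp f]
    rcases hk l hl with rfl | rfl
    · split_ifs with h2
      · rfl
      · exact hfl
    · rw [if_pos hfl]
  intro f hf g hg
  rw [key f hf, key g hg]

theorem open_of_lab {k : ι} {d : Fin 4} (h : σ.lab k = some d) : σ.Open k := by
  unfold State.Open; rw [h]; simp

theorem open_linkH [DecidableEq ι] (i j k : ι) (hki : k ≠ i) (hkj : k ≠ j) (hk : σ.Open k) :
    (σ.linkH i j).Open k := by
  unfold State.Open State.linkH
  simp only [hki, hkj, or_self, if_false]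
  exact hk

theorem open_linkV [DecidableEq ι] (i j k : ι) (hki : k ≠ i) (hkj : k ≠ j) (hk : σ.Open k) :
    (σ.linkV i j).Open k := by
  unfold State.Open State.linkV
  simp only [hki, hkj, or_self, if_false]
  exact hk

end RealLinkAux

open RealLinkAux

theorem Real.linkH {V ι : Type} [DecidableEq ι] {R : Rects V} {A : Finset V} {e : ι → E3 × E3}
    {σ : State ι} (h : Real R A e σ) (i j : ι) (hi : σ.lab i = some 1) (hj : σ.lab j = some 3)
    (hc : σ.cmp i ≠ σ.cmp j) (he : e j = (e i).swap)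
    (hk : ∃ k, k ≠ i ∧ k ≠ j ∧ σ.Open k ∧ (σ.cmp k = σ.cmp i ∨ σ.cmp k = σ.cmp j)) :
    Real R A e (σ.linkH i j) := by
  obtain ⟨N, hN, ho⟩ := h
  obtain ⟨N', hN', hatt, hcp⟩ := ok_linkH R hN i j hi hj hc he
  exact ⟨N', hN', real_aux hN ho i j (open_of_lab hi) (open_of_lab hj) hatt hcp
    (open_linkH i j) hk⟩

theorem Real.linkV {V ι : Type} [DecidableEq ι] {R : Rects V} {A : Finset V} {e : ι → E3 × E3}
    {σ : State ι} (h : Real R A e σ) (i j : ι) (hi : σ.lab i = some 2) (hj : σ.lab j = some 0)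
    (hc : σ.cmp i ≠ σ.cmp j) (hl : ¬ (σ.lu i = true ∧ σ.lu j = true))
    (hr : ¬ (σ.ru i = true ∧ σ.ru j = true)) (he : e j = (e i).swap)
    (hk : ∃ k, k ≠ i ∧ k ≠ j ∧ σ.Open k ∧ (σ.cmp k = σ.cmp i ∨ σ.cmp k = σ.cmp j)) :
    Real R A e (σ.linkV i j) := by
  obtain ⟨N, hN, ho⟩ := h
  obtain ⟨N', hN', hatt, hcp⟩ := ok_linkV R hN i j hi hj hc hl hr he
  exact ⟨N', hN', real_aux hN ho i j (open_of_lab hi) (open_of_lab hj) hatt hcp
    (open_linkV i j) hk⟩

theorem Real.closeH {V ι : Type} [DecidableEq ι] {R : Rects V} {A : Finset V} {e : ι → E3 × E3}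
    {σ : State ι} (h : Real R A e σ) (i j : ι) (hi : σ.lab i = some 1) (hj : σ.lab j = some 3)
    (hc : σ.cmp i ≠ σ.cmp j) (he : e j = (e i).swap) (hk : ∀ k, σ.Open k → k = i ∨ k = j) :
    ∃ N : PNet V ι, Ok R A e (σ.linkH i j) N ∧ ∀ f ∈ A, ∀ g ∈ A, N.cp f = N.cp g := by
  obtain ⟨N, hN, ho⟩ := h
  obtain ⟨N', hN', -, hcp⟩ := ok_linkH R hN i j hi hj hc he
  exact ⟨N', hN', close_aux ho i j hcp hk⟩

theorem Real.closeV {V ι : Type} [DecidableEq ι] {R : Rects V} {A : Finset V} {e : ι → E3 × E3}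
    {σ : State ι} (h : Real R A e σ) (i j : ι) (hi : σ.lab i = some 2) (hj : σ.lab j = some 0)
    (hc : σ.cmp i ≠ σ.cmp j) (hl : ¬ (σ.lu i = true ∧ σ.lu j = true))
    (hr : ¬ (σ.ru i = true ∧ σ.ru j = true)) (he : e j = (e i).swap)
    (hk : ∀ k, σ.Open k → k = i ∨ k = j) :
    ∃ N : PNet V ι, Ok R A e (σ.linkV i j) N ∧ ∀ f ∈ A, ∀ g ∈ A, N.cp f = N.cp g := by
  obtain ⟨N, hN, ho⟩ := h
  obtain ⟨N', hN', -, hcp⟩ := ok_linkV R hN i j hi hj hc hl hr he
  exact ⟨N', hN', close_aux ho i j hcp hk⟩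

end Pool.Agent.Ortho
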