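import Pool.Agent.Ortho.Code
import Pool.Agent.Ortho.RealLink

set_option autoImplicit false
set_option linter.unusedSimpArgs false

/-!
# Ortho/LinkSound: soundness of `linkK`

`findK_eq`: `findK` = case distinction on `findL`. `rel f i j l`: the entries with number `i` or `j` are deleted, `f` is applied to the others;
`relHK i j c c' l k = k (rel (renH c c') i j l)`, `relVK ... l k = k (rel (renV ...) i j l)`.
-/

namespace Pool.Agent.Ortho

namespace LinkS

theorem beq_iff (a b : ℕ) : (Nat.beq a b = true) ↔ a = b := by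
  rw [Nat.beq_eq]

theorem cond_false_iff (c x : Bool) : (cond c x false = true) ↔ (c = true ∧ x = true) := by
  cases c <;> simp

theorem cond_not_iff (c x : Bool) : (cond c false x = true) ↔ (c = false ∧ x = true) := by
  cases c <;> simp

theorem beq_false_iff (a b : ℕ) : (Nat.beq a b = false) ↔ a ≠ b := by
  rw [← Bool.not_eq_true, beq_iff]

/-- renaming of a component -/
def renH (c c' : ℕ) (a : Ent) : Ent :=
  ⟨a.i, a.lab, if a.cmp = c' then c else a.cmp, a.col, a.lu, a.ru⟩

/-- renaming of a component and a column -/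
def renV (c c' p p' : ℕ) (lu ru : Bool) (a : Ent) : Ent :=
  ⟨a.i, a.lab, if a.cmp = c' then c else a.cmp, if a.col = p' then p else a.col,
    if a.col = p ∨ a.col = p' then a.lu || lu else a.lu,
    if a.col = p ∨ a.col = p' then a.ru || ru else a.ru⟩

/-- delete the entries with the numbers `i`, `j`, apply `f` to the others -/
def rel (f : Ent → Ent) (i j : ℕ) (l : List Ent) : List Ent :=
  (l.filter fun a => decide (¬ (a.i = i ∨ a.i = j))).map f

theorem rel_cons (f : Ent → Ent) (i j : ℕ) (a : Ent) (l : List Ent) :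
    rel f i j (a :: l) = if a.i = i ∨ a.i = j then rel f i j l else f a :: rel f i j l := by
  unfold rel
  by_cases h : a.i = i ∨ a.i = j
  · rw [if_pos h, List.filter_cons_of_neg (by simp only [decide_eq_true_eq]; exact not_not.2 h)]
  · rw [if_neg h, List.filter_cons_of_pos (by simpa using h), List.map_cons]

theorem findK_eq (i : ℕ) (l : List Ent) (kn : Bool) (ks : ℕ → ℕ → ℕ → Bool → Bool → Bool) :
    findK i l kn ks = match findL i l with
      | none => kn
      | some a => ks a.lab a.cmp a.col a.lu a.ru := by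
  induction l with
  | nil => rfl
  | cons a l ih =>
    obtain ⟨i', lab, cmp, col, lu, ru⟩ := a
    have h1 : findK i (⟨i', lab, cmp, col, lu, ru⟩ :: l) kn ks =
      cond (Nat.beq i' i) (ks lab cmp col lu ru) (findK i l kn ks) := rfl
    rw [h1]
    by_cases h : i' = i
    · rw [(beq_iff _ _).2 h]
      simp [findL, h]
    · rw [(beq_false_iff _ _).2 h]
      simp only [findL, h, cond_false, if_false, ih]

theorem hasC_iff (c : ℕ) (l : List Ent) : hasC c l = true ↔ ∃ a ∈ l, a.cmp = c := by
  induction l with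
  | nil => simp [hasC]
  | cons a l ih =>
    obtain ⟨i', lab, cmp, col, lu, ru⟩ := a
    have h1 : hasC c (⟨i', lab, cmp, col, lu, ru⟩ :: l) =
      cond (Nat.beq cmp c) true (hasC c l) := rfl
    rw [h1]
    by_cases h : cmp = c
    · rw [(beq_iff _ _).2 h]
      simp [h]
    · rw [(beq_false_iff _ _).2 h]
      simp only [cond_false, ih, List.mem_cons, exists_eq_or_imp, h, false_or]

theorem relHK_eq (i j c c' : ℕ) (l : List Ent) : ∀ k : List Ent → Bool,
    relHK i j c c' l k = k (rel (renH c c') i j l) := by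
  induction l with
  | nil => intro k; rfl
  | cons a l ih =>
    intro k
    obtain ⟨i', lab, cmp, col, lu, ru⟩ := a
    have h1 : relHK i j c c' (⟨i', lab, cmp, col, lu, ru⟩ :: l) k =
      cond (Nat.beq i' i) (relHK i j c c' l k) (cond (Nat.beq i' j) (relHK i j c c' l k)
        (cond (Nat.beq cmp c') (relHK i j c c' l fun l' => k (⟨i', lab, c, col, lu, ru⟩ :: l'))
          (relHK i j c c' l fun l' => k (⟨i', lab, cmp, col, lu, ru⟩ :: l')))) := rfl
    rw [h1, rel_cons]
    simp only [ih]
    by_cases hi : i' = i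
    · rw [(beq_iff _ _).2 hi]
      simp [hi]
    · by_cases hj : i' = j
      · rw [(beq_iff _ _).2 hj]
        simp [hj]
      · rw [(beq_false_iff _ _).2 hi, (beq_false_iff _ _).2 hj]
        by_cases hc : cmp = c'
        · rw [(beq_iff _ _).2 hc]
          simp [hi, hj, hc, renH]
        · rw [(beq_false_iff _ _).2 hc]
          simp [hi, hj, hc, renH]

theorem cond_true' (a b : Bool) : cond a true b = (a || b) := by cases a <;> rfl

theorem relVK_eq (i j c c' p p' : ℕ) (lu ru : Bool) (l : List Ent) : ∀ k : List Ent → Bool,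
    relVK i j c c' p p' lu ru l k = k (rel (renV c c' p p' lu ru) i j l) := by
  induction l with
  | nil => intro k; rfl
  | cons a l ih =>
    intro k
    obtain ⟨i', lab, cmp, col, lu', ru'⟩ := a
    have h1 : relVK i j c c' p p' lu ru (⟨i', lab, cmp, col, lu', ru'⟩ :: l) k =
      cond (Nat.beq i' i) (relVK i j c c' p p' lu ru l k)
        (cond (Nat.beq i' j) (relVK i j c c' p p' lu ru l k)
        (cond (Nat.beq cmp c')
          (cond (Nat.beq col p) (relVK i j c c' p p' lu ru l fun l' =>
              k (⟨i', lab, c, p, cond lu' true lu, cond ru' true ru⟩ :: l'))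
            (cond (Nat.beq col p') (relVK i j c c' p p' lu ru l fun l' =>
                k (⟨i', lab, c, p, cond lu' true lu, cond ru' true ru⟩ :: l'))
              (relVK i j c c' p p' lu ru l fun l' => k (⟨i', lab, c, col, lu', ru'⟩ :: l'))))
          (cond (Nat.beq col p) (relVK i j c c' p p' lu ru l fun l' =>
              k (⟨i', lab, cmp, p, cond lu' true lu, cond ru' true ru⟩ :: l'))
            (cond (Nat.beq col p') (relVK i j c c' p p' lu ru l fun l' =>
                k (⟨i', lab, cmp, p, cond lu' true lu, cond ru' true ru⟩ :: l'))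
              (relVK i j c c' p p' lu ru l fun l' =>
                k (⟨i', lab, cmp, col, lu', ru'⟩ :: l')))))) := rfl
    rw [h1, rel_cons]
    simp only [ih, cond_true']
    by_cases hi : i' = i
    · rw [(beq_iff _ _).2 hi]
      simp [hi]
    · by_cases hj : i' = j
      · rw [(beq_iff _ _).2 hj]
        simp [hj]
      · rw [(beq_false_iff _ _).2 hi, (beq_false_iff _ _).2 hj]
        by_cases hc : cmp = c'
        · rw [(beq_iff _ _).2 hc]
          by_cases h2 : col = p
          · rw [(beq_iff _ _).2 h2]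
            by_cases h3 : col = p' <;> simp [hi, hj, hc, h2, renV]
          · rw [(beq_false_iff _ _).2 h2]
            by_cases h3 : col = p'
            · rw [(beq_iff _ _).2 h3]
              simp [hi, hj, hc, h3, renV]
            · rw [(beq_false_iff _ _).2 h3]
              simp [hi, hj, hc, h2, h3, renV]
        · rw [(beq_false_iff _ _).2 hc]
          by_cases h2 : col = p
          · rw [(beq_iff _ _).2 h2]
            by_cases h3 : col = p' <;> simp [hi, hj, hc, h2, renV]
          · rw [(beq_false_iff _ _).2 h2]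
            by_cases h3 : col = p'
            · rw [(beq_iff _ _).2 h3]
              simp [hi, hj, hc, h3, renV]
            · rw [(beq_false_iff _ _).2 h3]
              simp [hi, hj, hc, h2, h3, renV]

theorem findL_rel {f : Ent → Ent} (hf : ∀ a, (f a).i = a.i) (i j x : ℕ) (l : List Ent) :
    findL x (rel f i j l) = if x = i ∨ x = j then none else (findL x l).map f := by
  induction l with
  | nil => simp [rel, findL]
  | cons a l ih =>
    rw [rel_cons]
    by_cases h : a.i = i ∨ a.i = j
    · rw [if_pos h, ih]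
      by_cases hx : x = i ∨ x = j
      · simp [hx]
      · have : a.i ≠ x := by
          rintro rfl
          exact hx h
        simp [hx, findL, this]
    · rw [if_neg h]
      by_cases hx : a.i = x
      · subst hx
        simp [findL, hf, h]
      · have h1 : findL x (f a :: rel f i j l) = findL x (rel f i j l) := by
          simp [findL, hf, hx]
        have h2 : findL x (a :: l) = findL x l := by simp [findL, hx]
        rw [h1, h2, ih]

theorem findL_none {x : ℕ} {l : List Ent} (h : findL x l = none) : ∀ a ∈ l, a.i ≠ x := by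
  induction l with
  | nil => simp
  | cons a l ih =>
    by_cases hx : a.i = x
    · simp [findL, hx] at h
    · have h2 : findL x (a :: l) = findL x l := by simp [findL, hx]
      rw [h2] at h
      intro b hb
      rcases List.mem_cons.1 hb with rfl | hb
      · exact hx
      · exact ih h b hb

theorem findL_some {l : List Ent} (hl : (l.map Ent.i).Nodup) : ∀ a ∈ l, findL a.i l = some a := by
  induction l with
  | nil => simp
  | cons a l ih =>
    rw [List.map_cons, List.nodup_cons] at hl
    intro b hb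
    rcases List.mem_cons.1 hb with rfl | hb
    · simp [findL]
    · have : a.i ≠ b.i := by
        intro h
        exact hl.1 (h ▸ List.mem_map_of_mem hb)
      simp only [findL, this, if_false]
      exact ih hl.2 b hb

theorem mem_rel {f : Ent → Ent} {i j : ℕ} {l : List Ent} {a : Ent} (h : a ∈ rel f i j l) :
    ∃ b ∈ l, b.i ≠ i ∧ b.i ≠ j ∧ f b = a := by
  unfold rel at h
  obtain ⟨b, hb, rfl⟩ := List.mem_map.1 h
  rw [List.mem_filter] at hb
  obtain ⟨h1, h2⟩ := hb
  have h3 : ¬ (b.i = i ∨ b.i = j) := by simpa using h2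
  push Not at h3
  exact ⟨b, h1, h3.1, h3.2, rfl⟩

theorem good_rel {ι : Type} {c : ι → ℕ} {f : Ent → Ent} (hf : ∀ a, (f a).i = a.i)
    (hf' : ∀ a, (f a).lab = a.lab) (i j : ℕ) {l : List Ent} (hl : Good c l) :
    Good c (rel f i j l) := by
  constructor
  · unfold rel
    rw [List.map_map]
    have h1 : Ent.i ∘ f = Ent.i := by
      funext a
      exact hf a
    rw [h1]
    exact hl.nodup.sublist ((List.filter_sublist).map _)
  · intro a ha
    obtain ⟨b, hb, -, -, rfl⟩ := mem_rel ha
    obtain ⟨h1, h2⟩ := hl.rng b hb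
    rw [hf, hf']
    exact ⟨h1, h2⟩

variable {ι : Type} {c : ι → ℕ}

theorem findL_rel' (hc : Function.Injective c) {f : Ent → Ent} (hf : ∀ a, (f a).i = a.i)
    (p q k : ι) (l : List Ent) :
    (¬ (k = p ∨ k = q) ∧ findL (c k) (rel f (c p) (c q) l) = (findL (c k) l).map f) ∨
      ((k = p ∨ k = q) ∧ findL (c k) (rel f (c p) (c q) l) = none) := by
  rw [findL_rel hf]
  by_cases h : k = p ∨ k = q
  · right
    refine ⟨h, if_pos ?_⟩
    rcases h with rfl | rfl
    · exact Or.inl rfl
    · exact Or.inr rfl
  · left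
    refine ⟨h, if_neg ?_⟩
    rintro (h1 | h1)
    · exact h (Or.inl (hc h1))
    · exact h (Or.inr (hc h1))

theorem eqH [DecidableEq ι] (hc : Function.Injective c) {l : List Ent} {p q : ι} {a b : Ent}
    (ha : findL (c p) l = some a) (hb : findL (c q) l = some b) (i j : ℕ)
    (hij : (i = c p ∧ j = c q) ∨ (i = c q ∧ j = c p)) :
    ((toSt c l).linkH p q).Equiv (toSt c (rel (renH a.cmp b.cmp) i j l)) := by
  have hrel : ∀ k, (¬ (k = p ∨ k = q) ∧ findL (c k) (rel (renH a.cmp b.cmp) i j l) =
      (findL (c k) l).map (renH a.cmp b.cmp)) ∨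
      ((k = p ∨ k = q) ∧ findL (c k) (rel (renH a.cmp b.cmp) i j l) = none) := by
    intro k
    rcases hij with ⟨rfl, rfl⟩ | ⟨rfl, rfl⟩
    · exact findL_rel' hc (f := renH a.cmp b.cmp) (fun _ => rfl) p q k l
    · have := findL_rel' hc (f := renH a.cmp b.cmp) (fun _ => rfl) q p k l
      rw [or_comm (a := k = q)] at this
      exact this
  have hop : ∀ k, ((toSt c l).linkH p q).Open k → ¬ (k = p ∨ k = q) ∧ ∃ d, findL (c k) l = some d ∧
      findL (c k) (rel (renH a.cmp b.cmp) i j l) = some (renH a.cmp b.cmp d) := by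
    intro k hk
    unfold State.Open State.linkH at hk
    by_cases h : k = p ∨ k = q
    · simp [h] at hk
    · refine ⟨h, ?_⟩
      simp only [h, if_false] at hk
      rcases hrel k with ⟨-, h2⟩ | ⟨h1, -⟩
      · cases hd : findL (c k) l with
        | none => simp [toSt, hd] at hk
        | some d => exact ⟨d, rfl, by rw [h2, hd]; rfl⟩
      · exact absurd h1 h
  have hv : ∀ k, ((toSt c l).linkH p q).Vert k → ((toSt c l).linkH p q).Open k := by
    intro k hk
    rcases hk with hk | hk <;> · unfold State.Open; rw [hk]; simp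
  refine ⟨?_, ?_, ?_, ?_, ?_⟩
  · intro k
    rcases hrel k with ⟨h1, h2⟩ | ⟨h1, h2⟩
    · simp only [State.linkH, h1, if_false, toSt, h2, Option.map_map]
      rfl
    · simp only [State.linkH, h1, if_true, toSt, h2, Option.map_none]
  · intro x y hx hy
    obtain ⟨-, d, hd, hd'⟩ := hop x hx
    obtain ⟨-, d2, hd2, hd2'⟩ := hop y hy
    simp [State.linkH, toSt, hd, hd2, hd', hd2', ha, hb, renH]
  · intro x y hx hy
    obtain ⟨-, d, hd, hd'⟩ := hop x (hv x hx)
    obtain ⟨-, d2, hd2, hd2'⟩ := hop y (hv y hy)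
    simp [State.linkH, toSt, hd, hd2, hd', hd2', renH]
  · intro x hx
    obtain ⟨-, d, hd, hd'⟩ := hop x (hv x hx)
    simp [State.linkH, toSt, hd, hd', renH]
  · intro x hx
    obtain ⟨-, d, hd, hd'⟩ := hop x (hv x hx)
    simp [State.linkH, toSt, hd, hd', renH]

theorem ren_iff (A B x y : ℕ) : ((if x = A then B else x) = (if y = A then B else y)) ↔
    ((if x = B then A else x) = (if y = B then A else y)) := by
  split_ifs <;> omega

/-- `u`: renaming in the other direction -/
theorem eqV [DecidableEq ι] (hc : Function.Injective c) {l : List Ent} {p q : ι} {a b : Ent}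
    (ha : findL (c p) l = some a) (hb : findL (c q) l = some b) :
    ((toSt c l).linkV p q).Equiv (toSt c (rel (renV a.cmp b.cmp a.col b.col (a.lu || b.lu)
      (a.ru || b.ru)) (c p) (c q) l)) ∧
    ((toSt c l).linkV q p).Equiv (toSt c (rel (renV a.cmp b.cmp a.col b.col (a.lu || b.lu)
      (a.ru || b.ru)) (c p) (c q) l)) := by
  have hfi : ∀ d, (renV a.cmp b.cmp a.col b.col (a.lu || b.lu) (a.ru || b.ru) d).i = d.i :=
    fun _ => rfl
  have hfl : ∀ d, (renV a.cmp b.cmp a.col b.col (a.lu || b.lu) (a.ru || b.ru) d).lab = d.lab :=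
    fun _ => rfl
  have hf1 : ∀ d, (renV a.cmp b.cmp a.col b.col (a.lu || b.lu) (a.ru || b.ru) d).cmp =
    if d.cmp = b.cmp then a.cmp else d.cmp := fun _ => rfl
  have hf2 : ∀ d, (renV a.cmp b.cmp a.col b.col (a.lu || b.lu) (a.ru || b.ru) d).col =
    if d.col = b.col then a.col else d.col := fun _ => rfl
  have hf3 : ∀ d, (renV a.cmp b.cmp a.col b.col (a.lu || b.lu) (a.ru || b.ru) d).lu =
    if d.col = a.col ∨ d.col = b.col then d.lu || (a.lu || b.lu) else d.lu := fun _ => rfl
  have hf4 : ∀ d, (renV a.cmp b.cmp a.col b.col (a.lu || b.lu) (a.ru || b.ru) d).ru =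
    if d.col = a.col ∨ d.col = b.col then d.ru || (a.ru || b.ru) else d.ru := fun _ => rfl
  generalize renV a.cmp b.cmp a.col b.col (a.lu || b.lu) (a.ru || b.ru) = f at *
  have hrel : ∀ k, (¬ (k = p ∨ k = q) ∧ findL (c k) (rel f (c p) (c q) l) =
      (findL (c k) l).map f) ∨
      ((k = p ∨ k = q) ∧ findL (c k) (rel f (c p) (c q) l) = none) := by
    intro k
    exact findL_rel' hc hfi p q k l
  have hop : ∀ k, ¬ (k = p ∨ k = q) → (toSt c l).lab k ≠ none → ∃ d, findL (c k) l = some d ∧
      findL (c k) (rel f (c p) (c q) l) = some (f d) := by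
    intro k h hk
    rcases hrel k with ⟨-, h2⟩ | ⟨h1, -⟩
    · cases hd : findL (c k) l with
      | none => simp [toSt, hd] at hk
      | some d => exact ⟨d, rfl, by rw [h2, hd]; rfl⟩
    · exact absurd h1 h
  have hop1 : ∀ k, ((toSt c l).linkV p q).Open k → ∃ d, findL (c k) l = some d ∧
      findL (c k) (rel f (c p) (c q) l) = some (f d) := by
    intro k hk
    unfold State.Open State.linkV at hk
    by_cases h : k = p ∨ k = q
    · simp [h] at hk
    · simp only [h, if_false] at hk
      exact hop k h hk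
  have hop2 : ∀ k, ((toSt c l).linkV q p).Open k → ∃ d, findL (c k) l = some d ∧
      findL (c k) (rel f (c p) (c q) l) = some (f d) := by
    intro k hk
    unfold State.Open State.linkV at hk
    by_cases h : k = q ∨ k = p
    · simp [h] at hk
    · simp only [h, if_false] at hk
      exact hop k (fun h' => h h'.symm) hk
  have hv : ∀ (σ : State ι) (k : ι), σ.Vert k → σ.Open k := by
    intro σ k hk
    rcases hk with hk | hk <;> · unfold State.Open; rw [hk]; simp
  refine ⟨⟨?_, ?_, ?_, ?_, ?_⟩, ⟨?_, ?_, ?_, ?_, ?_⟩⟩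
  · intro k
    rcases hrel k with ⟨h1, h2⟩ | ⟨h1, h2⟩
    · simp only [State.linkV, h1, if_false, toSt, h2, Option.map_map, Function.comp_def, hfl]
    · simp only [State.linkV, h1, if_true, toSt, h2, Option.map_none]
  · intro x y hx hy
    obtain ⟨d, hd, hd'⟩ := hop1 x hx
    obtain ⟨d2, hd2, hd2'⟩ := hop1 y hy
    simp [State.linkV, toSt, hd, hd2, hd', hd2', ha, hb, hf1, hf2, hf3, hf4]
  · intro x y hx hy
    obtain ⟨d, hd, hd'⟩ := hop1 x (hv _ x hx)
    obtain ⟨d2, hd2, hd2'⟩ := hop1 y (hv _ y hy)
    simp [State.linkV, toSt, hd, hd2, hd', hd2', ha, hb, hf1, hf2, hf3, hf4]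
  · intro x hx
    obtain ⟨d, hd, hd'⟩ := hop1 x (hv _ x hx)
    simp [State.linkV, toSt, hd, hd', ha, hb, hf1, hf2, hf3, hf4, Bool.or_assoc]
  · intro x hx
    obtain ⟨d, hd, hd'⟩ := hop1 x (hv _ x hx)
    simp [State.linkV, toSt, hd, hd', ha, hb, hf1, hf2, hf3, hf4, Bool.or_assoc]
  · intro k
    rcases hrel k with ⟨h1, h2⟩ | ⟨h1, h2⟩
    · rw [or_comm] at h1
      simp only [State.linkV, h1, if_false, toSt, h2, Option.map_map, Function.comp_def, hfl]
    · rw [or_comm] at h1
      simp only [State.linkV, h1, if_true, toSt, h2, Option.map_none]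
  · intro x y hx hy
    obtain ⟨d, hd, hd'⟩ := hop2 x hx
    obtain ⟨d2, hd2, hd2'⟩ := hop2 y hy
    simp only [State.linkV, toSt, hd, hd2, hd', hd2', ha, hb, hf1, hf2, hf3, hf4, Option.map_some,
      Option.getD_some]
    exact ren_iff _ _ _ _
  · intro x y hx hy
    obtain ⟨d, hd, hd'⟩ := hop2 x (hv _ x hx)
    obtain ⟨d2, hd2, hd2'⟩ := hop2 y (hv _ y hy)
    simp only [State.linkV, toSt, hd, hd2, hd', hd2', ha, hb, hf1, hf2, hf3, hf4, Option.map_some,
      Option.getD_some]
    exact ren_iff _ _ _ _
  · intro x hx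
    obtain ⟨d, hd, hd'⟩ := hop2 x (hv _ x hx)
    simp only [State.linkV, toSt, hd, hd', ha, hb, hf1, hf2, hf3, hf4, Option.map_some,
      Option.getD_some, or_comm (a := d.col = b.col)]
    rw [Bool.or_assoc, Bool.or_comm b.lu a.lu]
  · intro x hx
    obtain ⟨d, hd, hd'⟩ := hop2 x (hv _ x hx)
    simp only [State.linkV, toSt, hd, hd', ha, hb, hf1, hf2, hf3, hf4, Option.map_some,
      Option.getD_some, or_comm (a := d.col = b.col)]
    rw [Bool.or_assoc, Bool.or_comm b.ru a.ru]

/-- the remaining open boundary edge -/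
theorem rem_edge {l : List Ent} (hl : Good c l) {f : Ent → Ent} {p q : ι} {C C' x : ℕ}
    (hcmp : ∀ d, (f d).cmp = if d.cmp = C' then C else d.cmp)
    (h : hasC x (rel f (c p) (c q) l) = true) (hx : x = C) :
    ∃ k, k ≠ p ∧ k ≠ q ∧ (toSt c l).Open k ∧
      ((toSt c l).cmp k = C ∨ (toSt c l).cmp k = C') := by
  obtain ⟨a', ha', hC⟩ := (hasC_iff _ _).1 h
  obtain ⟨b', hb', h1, h2, rfl⟩ := mem_rel ha'
  obtain ⟨⟨k, hk⟩, -⟩ := hl.rng b' hb'
  have h3 : findL (c k) l = some b' := by
    rw [hk]
    exact findL_some hl.nodup b' hb'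
  refine ⟨k, ?_, ?_, ?_, ?_⟩
  · rintro rfl
    exact h1 hk.symm
  · rintro rfl
    exact h2 hk.symm
  · simp [State.Open, toSt, h3]
  · have h4 : (toSt c l).cmp k = b'.cmp := by simp [toSt, h3]
    rw [h4]
    rw [hcmp] at hC
    split_ifs at hC with h5
    · exact Or.inr h5
    · exact Or.inl (hC.trans hx)

theorem res_rel {l : List Ent} (hl : Good c l) {f : Ent → Ent} (hf : ∀ a, (f a).i = a.i)
    (hf' : ∀ a, (f a).lab = a.lab) {p q : ι} {V : Type} {R : Rects V} {A : Finset V}
    {e : ι → E3 × E3} {k : List Ent → Bool}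
    (h : Real R A e (toSt c (rel f (c p) (c q) l))) (hk : k (rel f (c p) (c q) l) = true) :
    ∃ l', Good c l' ∧ Real R A e (toSt c l') ∧
      (∀ a ∈ l', a.i ≠ c p ∧ a.i ≠ c q ∧ ∃ b ∈ l, b.i = a.i) ∧ k l' = true := by
  refine ⟨_, good_rel hf hf' _ _ hl, h, ?_, hk⟩
  intro a ha
  obtain ⟨b, hb, h1, h2, rfl⟩ := mem_rel ha
  rw [hf]
  exact ⟨h1, h2, b, hb, rfl⟩

end LinkS

open LinkS in
theorem link_sound {V ι : Type} [DecidableEq ι] {R : Rects V} {A : Finset V} {e : ι → E3 × E3}
    {c : ι → ℕ} (hc : Function.Injective c) {l : List Ent} (hl : Good c l)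
    (h : Real R A e (toSt c l)) (p q : ι) (hpq : p ≠ q) (he : e q = (e p).swap)
    {k : List Ent → Bool} (hk : linkK (c p) (c q) l k = true) :
    ∃ l', Good c l' ∧ Real R A e (toSt c l') ∧
      (∀ a ∈ l', a.i ≠ c p ∧ a.i ≠ c q ∧ ∃ b ∈ l, b.i = a.i) ∧ k l' = true := by
  have he' : e p = (e q).swap := by rw [he, Prod.swap_swap]
  unfold linkK at hk
  simp only [findK_eq] at hk
  cases ha : findL (c p) l with
  | none =>
    rw [ha] at hk
    cases hb : findL (c q) l with
    | none =>
      rw [hb] at hk
      refine ⟨l, hl, h, ?_, hk⟩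
      intro a hal
      exact ⟨findL_none ha a hal, findL_none hb a hal, a, hal, rfl⟩
    | some b => simp [hb] at hk
  | some a =>
    rw [ha] at hk
    cases hb : findL (c q) l with
    | none => simp [hb] at hk
    | some b =>
      rw [hb] at hk
      simp only [cond_not_iff, beq_false_iff] at hk
      obtain ⟨hcmp, hk⟩ := hk
      have hla : (toSt c l).lab p = some (labOf a.lab) := by simp [toSt, ha]
      have hlb : (toSt c l).lab q = some (labOf b.lab) := by simp [toSt, hb]
      have hca : (toSt c l).cmp p = a.cmp := by simp [toSt, ha]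
      have hcb : (toSt c l).cmp q = b.cmp := by simp [toSt, hb]
      by_cases h1 : a.lab = 1
      · rw [(beq_iff _ _).2 h1, cond_true, cond_false_iff, beq_iff] at hk
        obtain ⟨h2, hk⟩ := hk
        rw [relHK_eq, cond_false_iff] at hk
        have hr := Real.linkH h p q (by rw [hla, h1]; rfl) (by rw [hlb, h2]; rfl)
          (by rw [hca, hcb]; exact hcmp) he
          (by rw [hca, hcb]; exact rem_edge hl (fun _ => rfl) hk.1 rfl)
        exact res_rel hl (f := renH a.cmp b.cmp) (fun _ => rfl) (fun _ => rfl)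
          (hr.equiv (eqH hc ha hb _ _ (Or.inl ⟨rfl, rfl⟩))) hk.2
      · rw [(beq_false_iff _ _).2 h1, cond_false] at hk
        by_cases h3 : a.lab = 3
        · rw [(beq_iff _ _).2 h3, cond_true, cond_false_iff, beq_iff] at hk
          obtain ⟨h2, hk⟩ := hk
          rw [relHK_eq, cond_false_iff] at hk
          have hr := Real.linkH h q p (by rw [hlb, h2]; rfl) (by rw [hla, h3]; rfl)
            (by rw [hca, hcb]; exact fun h' => hcmp h'.symm) he'
            (by
              rw [hca, hcb]
              obtain ⟨k, k1, k2, k3⟩ := rem_edge hl (p := p) (q := q) (fun _ => rfl) hk.1 rfl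
              exact ⟨k, k2, k1, k3⟩)
          exact res_rel hl (f := renH b.cmp a.cmp) (fun _ => rfl) (fun _ => rfl)
            (hr.equiv (eqH hc hb ha _ _ (Or.inr ⟨rfl, rfl⟩))) hk.2
        · rw [(beq_false_iff _ _).2 h3, cond_false, cond_false_iff] at hk
          obtain ⟨h4, hk⟩ := hk
          rw [cond_not_iff, cond_not_iff, relVK_eq, cond_false_iff, cond_true', cond_true'] at hk
          obtain ⟨hlu, hru, hh, hk⟩ := hk
          have hlu' : ¬ (a.lu = true ∧ b.lu = true) := by
            rintro ⟨x1, x2⟩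
            simp [x1, x2] at hlu
          have hru' : ¬ (a.ru = true ∧ b.ru = true) := by
            rintro ⟨x1, x2⟩
            simp [x1, x2] at hru
          have hlua : (toSt c l).lu p = a.lu := by simp [toSt, ha]
          have hlub : (toSt c l).lu q = b.lu := by simp [toSt, hb]
          have hrua : (toSt c l).ru p = a.ru := by simp [toSt, ha]
          have hrub : (toSt c l).ru q = b.ru := by simp [toSt, hb]
          have hrem := rem_edge hl (p := p) (q := q) (fun _ => rfl) hh rfl
          obtain ⟨e1, e2⟩ := eqV hc ha hb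
          by_cases h5 : a.lab = 2
          · rw [(beq_iff _ _).2 h5, cond_true, beq_iff] at h4
            have hr := Real.linkV h p q (by rw [hla, h5]; rfl) (by rw [hlb, h4]; rfl)
              (by rw [hca, hcb]; exact hcmp) (by rw [hlua, hlub]; exact hlu')
              (by rw [hrua, hrub]; exact hru') he (by rw [hca, hcb]; exact hrem)
            exact res_rel hl (f := renV a.cmp b.cmp a.col b.col (a.lu || b.lu) (a.ru || b.ru))
              (fun _ => rfl) (fun _ => rfl) (hr.equiv e1) hk
          · rw [(beq_false_iff _ _).2 h5, cond_false, cond_false_iff, beq_iff, beq_iff] at h4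
            have hr := Real.linkV h q p (by rw [hlb, h4.2]; rfl) (by rw [hla, h4.1]; rfl)
              (by rw [hca, hcb]; exact fun h' => hcmp h'.symm)
              (by rw [hlua, hlub]; exact fun h' => hlu' ⟨h'.2, h'.1⟩)
              (by rw [hrua, hrub]; exact fun h' => hru' ⟨h'.2, h'.1⟩) he'
              (by
                rw [hca, hcb]
                obtain ⟨k, k1, k2, k3, k4⟩ := hrem
                exact ⟨k, k2, k1, k3, k4.symm⟩)
            exact res_rel hl (f := renV a.cmp b.cmp a.col b.col (a.lu || b.lu) (a.ru || b.ru))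
              (fun _ => rfl) (fun _ => rfl) (hr.equiv e2) hk

end Pool.Agent.Ortho
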