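import Pool.Agent.Ortho.Check
import Pool.Agent.Ortho.LinkSound
import Pool.Agent.Ortho.EqvSound
import Pool.Agent.Ortho.CatSound

set_option autoImplicit false

/-!
# Ortho/DerSound: soundness of the check of a derivation

* `der_sound`: `shiftK_eq` five times: the list is `catL (fun k => elt st tl (b k) (x k))` (`Good cd` by `good_cat`, realized by `real_cat`); then
  `link_sound` eight times, for the boundary edges `cd (k, 1) = 5 + k` and `cd (k + 1, 3)`, `cd (k, 2) = 10 + k` and `cd (4, k) = 5 * k + 4` (`Conf.lat`,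
  `Conf.top`; `cd` is injective); the final list has only entries with the numbers `cd (k, 0) = k`, `k < 4` (last clause of
  `link_sound`), so `Real.comap` along `k ↦ (k.castSucc, 0)` gives `Real R _ _ (toSt Fin.val l')`, and `eqv_sound`, `Real.equiv` finish.
* `ders_sound`: induction on `D`.
-/

namespace Pool.Agent.Ortho

namespace DerAux

theorem cd_inj : Function.Injective cd := by
  rintro ⟨k, m⟩ ⟨k', m'⟩ h
  have h1 : 5 * (m : ℕ) + (k : ℕ) = 5 * (m' : ℕ) + (k' : ℕ) := h
  have h2 := k.2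
  have h3 := k'.2
  have h4 : (k : ℕ) = k' := by omega
  have h5 : (m : ℕ) = m' := by omega
  rw [Fin.ext h4, Fin.ext h5]

/-- the state reached after some gluings; `T` = numbers of the glued boundary edges -/
def Inv {V : Type} (R : Rects V) (A : Finset V) (E : Fin 5 × Fin 4 → E3 × E3) (T : List ℕ)
    (l : List Ent) : Prop :=
  Good cd l ∧ Real R A E (toSt cd l) ∧ ∀ a ∈ l, a.i ∉ T

theorem step {V : Type} {R : Rects V} {A : Finset V} {E : Fin 5 × Fin 4 → E3 × E3} {T : List ℕ}
    {l : List Ent} (hI : Inv R A E T l) (p q : Fin 5 × Fin 4) (hpq : p ≠ q)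
    (he : E q = (E p).swap) {k : List Ent → Bool} {m n : ℕ} (hm : m = cd p) (hn : n = cd q)
    (hk : linkK m n l k = true) :
    ∃ l', Inv R A E (m :: n :: T) l' ∧ k l' = true := by
  subst hm hn
  obtain ⟨hG, hR, hT⟩ := hI
  obtain ⟨l', h1, h2, h3, h4⟩ := link_sound cd_inj hG hR p q hpq he hk
  refine ⟨l', ⟨h1, h2, ?_⟩, h4⟩
  intro a ha
  obtain ⟨h5, h6, b, hb, hba⟩ := h3 a ha
  have h7 := hT b hb
  rw [hba] at h7
  rw [List.mem_cons, List.mem_cons]
  rintro (h | h | h)
  · exact h5 h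
  · exact h6 h
  · exact h7 h

theorem findL_some {n : ℕ} {l : List Ent} {a : Ent} (h : findL n l = some a) :
    a ∈ l ∧ a.i = n := by
  induction l with
  | nil => exact absurd h (by simp [findL])
  | cons b l ih =>
    unfold findL at h
    by_cases hb : b.i = n
    · rw [if_pos hb] at h
      have := Option.some.inj h
      subst this
      exact ⟨List.mem_cons_self, hb⟩
    · rw [if_neg hb] at h
      exact ⟨List.mem_cons_of_mem _ (ih h).1, (ih h).2⟩

theorem outer : ∀ p : Fin 5 × Fin 4,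
    cd p ∉ ([cd (3, 2), cd (4, 3), cd (2, 2), cd (4, 2), cd (1, 2), cd (4, 1), cd (0, 2),
      cd (4, 0), cd (3, 1), cd (0, 3), cd (2, 1), cd (3, 3), cd (1, 1), cd (2, 3), cd (0, 1),
      cd (1, 3)] : List ℕ) → (p.1 : ℕ) < 4 ∧ p.2 = 0 := by
  decide

end DerAux

open DerAux in
theorem der_sound {st tl : ℕ → List Ent} (hst : ∀ n, Good (Fin.val : Fin 4 → ℕ) (st n))
    (htl : ∀ n, Good (Fin.val : Fin 4 → ℕ) (tl n)) {b : Fin 5 → Bool} {o : ℕ} {x : Fin 5 → ℕ}
    (h : derK st tl (b 0) (b 1) (b 2) (b 3) (b 4) o (x 0) (x 1) (x 2) (x 3) (x 4) = true)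
    {V : Type} [DecidableEq V] {R : Rects V} {A : Fin 5 → Finset V} {e : Fin 5 → Fin 4 → E3 × E3}
    (hC : Conf A e)
    (hx : ∀ k, Real R (A k) (e k) (toSt (Fin.val : Fin 4 → ℕ) (elt st tl (b k) (x k)))) :
    Real R (Finset.univ.biUnion A) (fun k : Fin 4 => e k.castSucc 0)
      (toSt (Fin.val : Fin 4 → ℕ) (st o)) := by
  have hg : ∀ k, Good (Fin.val : Fin 4 → ℕ) (elt st tl (b k) (x k)) := by
    intro k
    cases hb : b k with
    | true => exact hst _
    | false => exact htl _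
  have hI : Inv R (Finset.univ.biUnion A) (fun p : Fin 5 × Fin 4 => e p.1 p.2) []
      (catL fun k => elt st tl (b k) (x k)) :=
    ⟨good_cat hg, real_cat hC.disj hx, fun a _ => List.not_mem_nil⟩
  unfold derK at h
  rw [shiftK_eq, shiftK_eq, shiftK_eq, shiftK_eq, shiftK_eq] at h
  have h0 : compK (catL fun k => elt st tl (b k) (x k)) (fun l => eqvK l (st o)) = true := h
  unfold compK at h0
  obtain ⟨l1, hI1, h1⟩ := step hI (0, 1) (1, 3) (by decide) (hC.lat 0) rfl rfl h0
  obtain ⟨l2, hI2, h2⟩ := step hI1 (1, 1) (2, 3) (by decide) (hC.lat 1) rfl rfl h1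
  obtain ⟨l3, hI3, h3⟩ := step hI2 (2, 1) (3, 3) (by decide) (hC.lat 2) rfl rfl h2
  obtain ⟨l4, hI4, h4⟩ := step hI3 (3, 1) (0, 3) (by decide) (hC.lat 3) rfl rfl h3
  obtain ⟨l5, hI5, h5⟩ := step hI4 (0, 2) (4, 0) (by decide) (hC.top 0) rfl rfl h4
  obtain ⟨l6, hI6, h6⟩ := step hI5 (1, 2) (4, 1) (by decide) (hC.top 1) rfl rfl h5
  obtain ⟨l7, hI7, h7⟩ := step hI6 (2, 2) (4, 2) (by decide) (hC.top 2) rfl rfl h6
  obtain ⟨l8, hI8, h8⟩ := step hI7 (3, 2) (4, 3) (by decide) (hC.top 3) rfl rfl h7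
  obtain ⟨hG, hR, hT⟩ := hI8
  have hf : Function.Injective (fun k : Fin 4 => ((k.castSucc, 0) : Fin 5 × Fin 4)) := by
    intro k k' hkk
    have := (Prod.mk.injEq _ _ _ _ ▸ hkk).1
    exact Fin.castSucc_injective _ this
  have hc := hR.comap (fun k : Fin 4 => ((k.castSucc, 0) : Fin 5 × Fin 4)) hf (by
    intro p hp
    obtain ⟨a, ha⟩ := CatAux.open_found hp
    obtain ⟨ha1, ha2⟩ := findL_some ha
    have h9 := hT a ha1
    rw [ha2] at h9
    have h10 := outer p h9
    exact ⟨⟨p.1, h10.1⟩, Prod.ext (Fin.ext rfl) h10.2.symm⟩)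
  have hst' : (toSt cd l8).comap (fun k : Fin 4 => ((k.castSucc, 0) : Fin 5 × Fin 4)) =
      toSt (Fin.val : Fin 4 → ℕ) l8 := by
    have h11 : cd ∘ (fun k : Fin 4 => ((k.castSucc, 0) : Fin 5 × Fin 4)) = Fin.val := by
      funext k
      show 5 * 0 + (k : ℕ) = k
      omega
    have h12 : (toSt cd l8).comap (fun k : Fin 4 => ((k.castSucc, 0) : Fin 5 × Fin 4)) =
        toSt (cd ∘ (fun k : Fin 4 => ((k.castSucc, 0) : Fin 5 × Fin 4))) l8 := rfl
    rw [h12, h11]
  rw [hst'] at hc
  exact hc.equiv (eqv_sound h8)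

theorem ders_sound {N : ℕ} {st tl : ℕ → List Ent} {b0 b1 b2 b3 b4 : Bool} {D : List DE} {s : ℕ}
    (h : dersK N st tl b0 b1 b2 b3 b4 D s = true) (j : ℕ) {x0 x1 x2 x3 x4 : ℕ}
    (hj : D[j]? = some (DE.d x0 x1 x2 x3 x4)) :
    derK st tl b0 b1 b2 b3 b4 ((s + j) % N) x0 x1 x2 x3 x4 = true := by
  induction D generalizing s j with
  | nil => exact absurd hj (by simp)
  | cons a D ih =>
    cases a with
    | n =>
      have h1 : force (Nat.succ s) (dersK N st tl b0 b1 b2 b3 b4 D) = true := h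
      rw [force_eq] at h1
      cases j with
      | zero => exact absurd hj (by simp)
      | succ j =>
        have h2 := ih h1 j (by simpa using hj)
        rwa [show s + (j + 1) = Nat.succ s + j by omega]
    | d y0 y1 y2 y3 y4 =>
      have h1 : cond (derK st tl b0 b1 b2 b3 b4 (Nat.mod s N) y0 y1 y2 y3 y4)
        (force (Nat.succ s) (dersK N st tl b0 b1 b2 b3 b4 D)) false = true := h
      rw [force_eq] at h1
      cases hd : derK st tl b0 b1 b2 b3 b4 (Nat.mod s N) y0 y1 y2 y3 y4 with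
      | false =>
        rw [hd] at h1
        exact absurd h1 (by simp)
      | true =>
        rw [hd] at h1
        cases j with
        | zero =>
          simp only [List.getElem?_cons_zero, Option.some.injEq, DE.d.injEq] at hj
          obtain ⟨rfl, rfl, rfl, rfl, rfl⟩ := hj
          exact hd
        | succ j =>
          have h2 := ih h1 j (by simpa using hj)
          rwa [show s + (j + 1) = Nat.succ s + j by omega]

end Pool.Agent.Ortho
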