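import Pool.Agent.Ortho.Code

set_option autoImplicit false

/-!
# Ortho/Check: the checks evaluated by the kernel

`st n`, `tl n`: coded state number `n` of a branch, coded state number `n = t + 4 * s` of a rectangle (`s` = mask of the uncut edges).
Pattern `b : Fin 5 → Bool` (given by `b0, ..., b4`): `b k = true` if there is a branch behind the element `k`.
`DE.d x0 x1 x2 x3 x4`: derivation, numbers of the coded states of the five elements. The list `D` of the derivations of a pattern:
the entry number `j` is a derivation of the state number `j % N` (or `DE.n`, no derivation).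
A class is given by its masks `T`, `B` and by `top`; `gOf ct T top B` = mask of the numbers of its states.
-/

namespace Pool.Agent.Ortho

/-- a derivation or nothing -/
inductive DE where
  /-- nothing -/
  | n : DE
  /-- derivation -/
  | d : ℕ → ℕ → ℕ → ℕ → ℕ → DE

/-- code of an element -/
noncomputable def elt (st tl : ℕ → List Ent) (b : Bool) (x : ℕ) : List Ent := cond b (st x) (tl x)

/-- check of a derivation of the state number `o` -/
noncomputable def derK (st tl : ℕ → List Ent) (b0 b1 b2 b3 b4 : Bool) (o x0 x1 x2 x3 x4 : ℕ) : Bool :=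
  shiftK 4 (elt st tl b4 x4) [] fun l => shiftK 3 (elt st tl b3 x3) l fun l =>
  shiftK 2 (elt st tl b2 x2) l fun l => shiftK 1 (elt st tl b1 x1) l fun l =>
  shiftK 0 (elt st tl b0 x0) l fun l => compK l fun l => eqvK l (st o)

/-- check of all derivations of a pattern; `j` = number of the first entry -/
noncomputable def dersK (N : ℕ) (st tl : ℕ → List Ent) (b0 b1 b2 b3 b4 : Bool) (D : List DE) : ℕ → Bool :=
  List.rec (motive := fun _ => ℕ → Bool) (fun _ => true)
    (fun a _ ih j => DE.rec (motive := fun _ => Bool) (force (Nat.succ j) ih)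
      (fun x0 x1 x2 x3 x4 => cond (derK st tl b0 b1 b2 b3 b4 (Nat.mod j N) x0 x1 x2 x3 x4)
        (force (Nat.succ j) ih) false) a) D

/-- bit `n` of `g` -/
noncomputable def bitK (g n : ℕ) : Bool := Nat.beq (Nat.land (Nat.shiftRight g n) 1) 1

/-- bits of the entries of `D` which are derivations -/
noncomputable def baseM (D : List DE) : ℕ :=
  List.rec (motive := fun _ => ℕ) 0
    (fun a _ ih => DE.rec (motive := fun _ => ℕ) (Nat.mul 2 ih)
      (fun _ _ _ _ _ => Nat.succ (Nat.mul 2 ih)) a) D

/-- bits of the derivations whose element `sel` is a state in `g` -/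
noncomputable def selM (sel : ℕ → ℕ → ℕ → ℕ → ℕ → ℕ) (g : ℕ) (D : List DE) : ℕ :=
  List.rec (motive := fun _ => ℕ) 0
    (fun a _ ih => DE.rec (motive := fun _ => ℕ) (Nat.mul 2 ih)
      (fun x0 x1 x2 x3 x4 => cond (bitK g (sel x0 x1 x2 x3 x4)) (Nat.succ (Nat.mul 2 ih)) (Nat.mul 2 ih)) a) D

/-- the table of the masks of the classes -/
noncomputable def gOf (ct : List (List (ℕ × ℕ))) (T : ℕ) (top : Bool) (B : ℕ) : ℕ :=
  Prod.rec (motive := fun _ => ℕ) (fun g0 g1 => cond top g1 g0) (nthK (0, 0) B (nthK [] T ct))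

/-- the classes at an element: list of the mask `T` and the bits of the possible derivations -/
noncomputable def tabK (ct : List (List (ℕ × ℕ))) (b : Bool) (forb base : ℕ)
    (sel : ℕ → ℕ → ℕ → ℕ → ℕ → ℕ) (D : List DE) (rows : List (ℕ × ℕ × Bool)) :
    (List (ℕ × ℕ) → Bool) → Bool :=
  fun k => cond b
    (List.rec (motive := fun _ => (List (ℕ × ℕ) → Bool) → Bool) (fun k => k [])
      (fun a _ ih k => Prod.rec (motive := fun _ => Bool) (fun T a' => Prod.rec (motive := fun _ => Bool)
        (fun B top => cond (Nat.beq (Nat.land T forb) 0) (cond (Nat.beq (Nat.land B forb) 0)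
          (force (selM sel (gOf ct T top B) D) fun M => ih fun t => k ((T, M) :: t)) (ih k)) (ih k)) a') a)
      rows k)
    (k [(0, base)])

/-- all entries of a table -/
noncomputable def allP (t : List (ℕ × ℕ)) (p : ℕ → ℕ → Bool) : Bool :=
  List.rec (motive := fun _ => Bool) true
    (fun a _ ih => Prod.rec (motive := fun _ => Bool) (fun T M => cond (p T M) ih false) a) t

/-- the mask `B` of the composite class -/
noncomputable def outB (T0 T1 T2 T3 : ℕ) : ℕ :=
  Nat.lor (Nat.land T0 10) (Nat.lor (Nat.lor (Nat.mul (Nat.land T1 2) 2) (Nat.shiftRight (Nat.land T1 8) 3))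
    (Nat.lor (Nat.lor (Nat.mul (Nat.land T2 2) 4) (Nat.shiftRight (Nat.land T2 8) 2))
      (Nat.shiftRight (Nat.land T3 10) 1)))

/-- the last step: all states in `g` have a derivation with a bit in `X` -/
noncomputable def covK (N g R : ℕ) : ℕ → ℕ → Bool :=
  Nat.rec (motive := fun _ => ℕ → ℕ → Bool) (fun _ acc => Nat.beq (Nat.land acc g) g)
    (fun _ ih X acc => force (Nat.lor acc X) fun acc => force (Nat.shiftRight X N) fun X => ih X acc) R

/-- number of the mask of the forbidden directions for the branch behind the element: parent or nothing, next side, end, previous side -/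
noncomputable def forb (b1 b2 b3 : Bool) : ℕ :=
  Nat.add 1 (Nat.add (cond b1 2 0) (Nat.add (cond b2 4 0) (cond b3 8 0)))

/-- check of all configurations of a pattern -/
noncomputable def cfgK (N R : ℕ) (ct : List (List (ℕ × ℕ))) (rows : List (ℕ × ℕ × Bool))
    (b0 b1 b2 b3 b4 : Bool) (D : List DE) : Bool :=
  force (baseM D) fun base =>
  tabK ct b0 (forb b1 b4 b3) base (fun x _ _ _ _ => x) D rows fun t0 =>
  tabK ct b1 (forb b2 b4 b0) base (fun _ x _ _ _ => x) D rows fun t1 =>
  tabK ct b2 (forb b3 b4 b1) base (fun _ _ x _ _ => x) D rows fun t2 =>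
  tabK ct b3 (forb b0 b4 b2) base (fun _ _ _ x _ => x) D rows fun t3 =>
  tabK ct b4 (Nat.add (cond b0 1 0) (Nat.add (cond b1 2 0) (Nat.add (cond b2 4 0) (cond b3 8 0)))) base
    (fun _ _ _ _ x => x) D rows fun t4 =>
  allP t0 fun T0 M0 => allP t1 fun T1 M1 => cond (Nat.beq (Nat.land (Nat.land T0 T1) 4) 4) true <|
  force (Nat.land M0 M1) fun X => allP t2 fun T2 M2 =>
  cond (Nat.beq (Nat.land (Nat.land T1 T2) 4) 4) true <|
  force (Nat.land X M2) fun X => allP t3 fun T3 M3 =>
  cond (Nat.beq (Nat.land (Nat.land T2 T3) 4) 4) true <|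
  cond (Nat.beq (Nat.land (Nat.land T3 T0) 4) 4) true <|
  force (Nat.land X M3) fun X => force (outB T0 T1 T2 T3) fun B => allP t4 fun T4 M4 =>
  cond (Nat.beq (Nat.land T4 B) 0)
    (force (gOf ct (Nat.add (cond b0 1 0) (Nat.add (cond b1 2 0) (Nat.add (cond b2 4 0) (cond b3 8 0)))) b4 B)
      fun g => covK N g R (Nat.land X M4) 0) true

end Pool.Agent.Ortho
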