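import Pool.Agent.Ortho.Sem

set_option autoImplicit false

/-!
# Ortho/Union: disjoint union, restriction and renaming of realized states

* `real_union`: from `N₁` on `A`, `N₂` on `B` define `r, X, Y` by cases `v ∈ A`, `cp v = 2 * cp₁ v` for `v ∈ A` and `2 * cp₂ v + 1`
  otherwise, `G = G₁ ⊔ G₂`, `att = Sum.elim att₁ att₂`. Components of `A` and `B` have different numbers (parity). `G` is acyclic: a
  disjoint union (no edge between `A` and `B`); for instance with `isAcyclic_iff_path_unique`/or: every cycle stays in `A` or in `B`;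
  or use `SimpleGraph.isAcyclic_iff_forall_isBridge`, or induct: walks starting in `A` stay in `A`. `R.len` does not depend on `N`.
* `Real.comap`: forget closed boundary edges (all uncut edges must be kept), injectivity is needed for `wfR` etc.
* `Real.equiv`: all fields of `Ok` only depend on the data in `State.Equiv`.
-/

namespace Pool.Agent.Ortho

namespace UnionAux

variable {V ι κ : Type}

theorem edges_left {G₁ G₂ : SimpleGraph V} {A B : Finset V} (hAB : Disjoint A B)
    (h₁ : ∀ f g, G₁.Adj f g → f ∈ A ∧ g ∈ A) (h₂ : ∀ f g, G₂.Adj f g → f ∈ B ∧ g ∈ B)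
    {u v : V} (p : (G₁ ⊔ G₂).Walk u v) (hu : u ∈ A) : ∀ e ∈ p.edges, e ∈ G₁.edgeSet := by
  induction p with
  | nil => intro e he; simp at he
  | @cons u w v h p ih =>
    rcases h with h | h
    · intro e he
      rw [SimpleGraph.Walk.edges_cons, List.mem_cons] at he
      rcases he with rfl | he
      · exact h
      · exact ih (h₁ _ _ h).2 e he
    · exact absurd (h₂ _ _ h).1 (Finset.disjoint_left.1 hAB hu)

theorem edges_right {G₁ G₂ : SimpleGraph V} {A B : Finset V} (hAB : Disjoint A B)
    (h₁ : ∀ f g, G₁.Adj f g → f ∈ A ∧ g ∈ A) (h₂ : ∀ f g, G₂.Adj f g → f ∈ B ∧ g ∈ B)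
    {u v : V} (p : (G₁ ⊔ G₂).Walk u v) (hu : u ∉ A) : ∀ e ∈ p.edges, e ∈ G₂.edgeSet := by
  induction p with
  | nil => intro e he; simp at he
  | @cons u w v h p ih =>
    rcases h with h | h
    · exact absurd (h₁ _ _ h).1 hu
    · intro e he
      rw [SimpleGraph.Walk.edges_cons, List.mem_cons] at he
      rcases he with rfl | he
      · exact h
      · exact ih (Finset.disjoint_right.1 hAB (h₂ _ _ h).2) e he

theorem acyclic_sup {G₁ G₂ : SimpleGraph V} {A B : Finset V} (hAB : Disjoint A B)
    (h₁ : ∀ f g, G₁.Adj f g → f ∈ A ∧ g ∈ A) (h₂ : ∀ f g, G₂.Adj f g → f ∈ B ∧ g ∈ B)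
    (a₁ : G₁.IsAcyclic) (a₂ : G₂.IsAcyclic) : (G₁ ⊔ G₂).IsAcyclic := by
  intro v c hc
  by_cases hv : v ∈ A
  · exact a₁ (c.transfer G₁ (edges_left hAB h₁ h₂ c hv)) (hc.transfer _)
  · exact a₂ (c.transfer G₂ (edges_right hAB h₁ h₂ c hv)) (hc.transfer _)

/-- union of two partial nets -/
noncomputable def un [DecidableEq V] (A : Finset V) (N : PNet V ι) (M : PNet V κ) :
    PNet V (ι ⊕ κ) where
  r v := if v ∈ A then N.r v else M.r v
  X v := if v ∈ A then N.X v else M.X v
  Y v := if v ∈ A then N.Y v else M.Y v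
  cp v := if v ∈ A then 2 * N.cp v else 2 * M.cp v + 1
  G := N.G ⊔ M.G
  att := Sum.elim N.att M.att

variable [DecidableEq V] {A : Finset V} {N : PNet V ι} {M : PNet V κ} {R : Rects V}

theorem r_l {v : V} (h : v ∈ A) : (un A N M).r v = N.r v := by simp [un, h]
theorem r_r {v : V} (h : v ∉ A) : (un A N M).r v = M.r v := by simp [un, h]
theorem X_l {v : V} (h : v ∈ A) : (un A N M).X v = N.X v := by simp [un, h]
theorem X_r {v : V} (h : v ∉ A) : (un A N M).X v = M.X v := by simp [un, h]
theorem Y_l {v : V} (h : v ∈ A) : (un A N M).Y v = N.Y v := by simp [un, h]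
theorem Y_r {v : V} (h : v ∉ A) : (un A N M).Y v = M.Y v := by simp [un, h]
theorem cp_l {v : V} (h : v ∈ A) : (un A N M).cp v = 2 * N.cp v := by simp [un, h]
theorem cp_r {v : V} (h : v ∉ A) : (un A N M).cp v = 2 * M.cp v + 1 := by simp [un, h]
theorem rt_l {v : V} (h : v ∈ A) : (un A N M).rt R v = N.rt R v := by
  simp [PNet.rt, un, h]
theorem rt_r {v : V} (h : v ∉ A) : (un A N M).rt R v = M.rt R v := by
  simp [PNet.rt, un, h]
theorem tp_l {v : V} (h : v ∈ A) : (un A N M).tp R v = N.tp R v := by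
  simp [PNet.tp, un, h]
theorem tp_r {v : V} (h : v ∉ A) : (un A N M).tp R v = M.tp R v := by
  simp [PNet.tp, un, h]
theorem pp_l {v : V} (h : v ∈ A) (k : Fin 4) : (un A N M).pp R v k = N.pp R v k := by
  simp only [PNet.pp, PNet.cpos, r_l h, X_l h, Y_l h, rt_l h, tp_l h]
theorem pp_r {v : V} (h : v ∉ A) (k : Fin 4) : (un A N M).pp R v k = M.pp R v k := by
  simp only [PNet.pp, PNet.cpos, r_r h, X_r h, Y_r h, rt_r h, tp_r h]

end UnionAux

open UnionAux in
theorem real_union {V ι κ : Type} [DecidableEq V] (R : Rects V) {A B : Finset V}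
    (hAB : Disjoint A B) {e : ι → E3 × E3} {e' : κ → E3 × E3} {σ : State ι} {τ : State κ}
    (h : Real R A e σ) (h' : Real R B e' τ) :
    Real R (A ∪ B) (Sum.elim e e') (σ.sum τ) := by
  obtain ⟨N, hN, hN'⟩ := h
  obtain ⟨M, hM, hM'⟩ := h'
  have hBA : ∀ {v}, v ∈ B → v ∉ A := fun hv => Finset.disjoint_right.1 hAB hv
  have hnB : ∀ {v}, v ∈ A ∪ B → v ∉ A → v ∈ B := fun hv hv' =>
    (Finset.mem_union.1 hv).resolve_left hv'
  have aN : ∀ {i}, σ.Open i → N.att i ∈ A := fun hi => hN.attA _ hi
  have aM : ∀ {i}, τ.Open i → M.att i ∉ A := fun hi => hBA (hM.attA _ hi)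
  have oN : ∀ {i d}, σ.lab i = some d → σ.Open i := fun hi => by simp [State.Open, hi]
  have oM : ∀ {i d}, τ.lab i = some d → τ.Open i := fun hi => by simp [State.Open, hi]
  have vN : ∀ {i}, σ.Vert i → σ.Open i := fun hi => hi.elim oN oN
  have vM : ∀ {i}, τ.Vert i → τ.Open i := fun hi => hi.elim oM oM
  -- same component as an element of A
  have cA : ∀ {g v}, v ∈ A → (un A N M).cp g = (un A N M).cp v → g ∈ A ∧ N.cp g = N.cp v := by
    intro g v hv hgv
    rw [cp_l hv] at hgv
    by_cases hg : g ∈ A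
    · rw [cp_l hg] at hgv; exact ⟨hg, by omega⟩
    · rw [cp_r hg] at hgv; omega
  have cB : ∀ {g v}, v ∉ A → (un A N M).cp g = (un A N M).cp v → g ∉ A ∧ M.cp g = M.cp v := by
    intro g v hv hgv
    rw [cp_r hv] at hgv
    by_cases hg : g ∈ A
    · rw [cp_l hg] at hgv; omega
    · rw [cp_r hg] at hgv; exact ⟨hg, by omega⟩
  refine ⟨un A N M, ?_, ?_⟩
  · constructor
    · -- supp
      intro f g hfg
      rcases hfg with hfg | hfg
      · obtain ⟨h1, h2, h3⟩ := hN.supp f g hfg
        refine ⟨Finset.mem_union_left _ h1, Finset.mem_union_left _ h2, ?_⟩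
        rw [cp_l h1, cp_l h2, h3]
      · obtain ⟨h1, h2, h3⟩ := hM.supp f g hfg
        refine ⟨Finset.mem_union_right _ h1, Finset.mem_union_right _ h2, ?_⟩
        rw [cp_r (hBA h1), cp_r (hBA h2), h3]
    · -- acyc
      exact acyclic_sup hAB (fun f g hfg => ⟨(hN.supp f g hfg).1, (hN.supp f g hfg).2.1⟩)
        (fun f g hfg => ⟨(hM.supp f g hfg).1, (hM.supp f g hfg).2.1⟩) hN.acyc hM.acyc
    · -- conn
      intro f hf g hg hfg
      by_cases hg' : g ∈ A
      · obtain ⟨hf', hc⟩ := cA hg' hfg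
        exact (hN.conn f hf' g hg' hc).mono le_sup_left
      · obtain ⟨hf', hc⟩ := cB hg' hfg
        exact (hM.conn f (hnB hf hf') g (hnB hg hg') hc).mono le_sup_right
    · -- fit
      intro f g hfg
      rcases hfg with hfg | hfg
      · obtain ⟨h1, h2, _⟩ := hN.supp f g hfg
        obtain ⟨k, l, h3, h4, h5, h6⟩ := hN.fit f g hfg
        exact ⟨k, l, h3, h4, by rw [pp_l h1, pp_l h2, h5], by rw [pp_l h1, pp_l h2, h6]⟩
      · obtain ⟨h1, h2, _⟩ := hM.supp f g hfg
        obtain ⟨k, l, h3, h4, h5, h6⟩ := hM.fit f g hfg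
        exact ⟨k, l, h3, h4, by rw [pp_r (hBA h1), pp_r (hBA h2), h5],
          by rw [pp_r (hBA h1), pp_r (hBA h2), h6]⟩
    · -- sep
      intro f hf g hg hne hfg
      by_cases hg' : g ∈ A
      · obtain ⟨hf', hc⟩ := cA hg' hfg
        rw [rt_l hf', rt_l hg', X_l hf', X_l hg', tp_l hf', tp_l hg', Y_l hf', Y_l hg']
        exact hN.sep f hf' g hg' hne hc
      · obtain ⟨hf', hc⟩ := cB hg' hfg
        rw [rt_r hf', rt_r hg', X_r hf', X_r hg', tp_r hf', tp_r hg', Y_r hf', Y_r hg']
        exact hM.sep f (hnB hf hf') g (hnB hg hg') hne hc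
    · -- attA
      rintro (i | i) hi
      · exact Finset.mem_union_left _ (hN.attA i hi)
      · exact Finset.mem_union_right _ (hM.attA i hi)
    · -- attE
      rintro (i | i) d hi
      · have h1 := aN (oN (i := i) (d := d) hi)
        have h2 := hN.attE i d hi
        show R.edge (N.att i) ((un A N M).r (N.att i) + d) = e i
        rw [r_l h1, h2]
      · have h1 := aM (oM (i := i) (d := d) hi)
        have h2 := hM.attE i d hi
        show R.edge (M.att i) ((un A N M).r (M.att i) + d) = e' i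
        rw [r_r h1, h2]
    · -- cmp
      rintro (i | i) (j | j) hi hj
      · have h1 := hN.cmp i j hi hj
        show 2 * σ.cmp i = 2 * σ.cmp j ↔ (un A N M).cp (N.att i) = (un A N M).cp (N.att j)
        rw [cp_l (aN hi), cp_l (aN hj)]
        constructor
        · intro h2; have := h1.1 (by omega); omega
        · intro h2; have := h1.2 (by omega); omega
      · show 2 * σ.cmp i = 2 * τ.cmp j + 1 ↔ (un A N M).cp (N.att i) = (un A N M).cp (M.att j)
        rw [cp_l (aN hi), cp_r (aM hj)]
        constructor <;> intro h2 <;> omega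
      · show 2 * τ.cmp i + 1 = 2 * σ.cmp j ↔ (un A N M).cp (M.att i) = (un A N M).cp (N.att j)
        rw [cp_r (aM hi), cp_l (aN hj)]
        constructor <;> intro h2 <;> omega
      · have h1 := hM.cmp i j hi hj
        show 2 * τ.cmp i + 1 = 2 * τ.cmp j + 1 ↔
          (un A N M).cp (M.att i) = (un A N M).cp (M.att j)
        rw [cp_r (aM hi), cp_r (aM hj)]
        constructor
        · intro h2; have := h1.1 (by omega); omega
        · intro h2; have := h1.2 (by omega); omega
    · -- openR
      rintro (i | i) hi g hg hc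
      · obtain ⟨hg', hc'⟩ := cA (aN (oN (i := i) (d := 1) hi)) hc
        show (un A N M).rt R g ≤ (un A N M).rt R (N.att i)
        rw [rt_l hg', rt_l (aN (oN (i := i) (d := 1) hi))]
        exact hN.openR i hi g hg' hc'
      · obtain ⟨hg', hc'⟩ := cB (aM (oM (i := i) (d := 1) hi)) hc
        show (un A N M).rt R g ≤ (un A N M).rt R (M.att i)
        rw [rt_r hg', rt_r (aM (oM (i := i) (d := 1) hi))]
        exact hM.openR i hi g (hnB hg hg') hc'
    · -- openL
      rintro (i | i) hi g hg hc
      · obtain ⟨hg', hc'⟩ := cA (aN (oN (i := i) (d := 3) hi)) hc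
        show (un A N M).X (N.att i) ≤ (un A N M).X g
        rw [X_l hg', X_l (aN (oN (i := i) (d := 3) hi))]
        exact hN.openL i hi g hg' hc'
      · obtain ⟨hg', hc'⟩ := cB (aM (oM (i := i) (d := 3) hi)) hc
        show (un A N M).X (M.att i) ≤ (un A N M).X g
        rw [X_r hg', X_r (aM (oM (i := i) (d := 3) hi))]
        exact hM.openL i hi g (hnB hg hg') hc'
    · -- openU
      rintro (i | i) hi g hg hc hX
      · obtain ⟨hg', hc'⟩ := cA (aN (oN (i := i) (d := 2) hi)) hc
        have hX' : (un A N M).X g = (un A N M).X (N.att i) := hX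
        rw [X_l hg', X_l (aN (oN (i := i) (d := 2) hi))] at hX'
        show (un A N M).tp R g ≤ (un A N M).tp R (N.att i)
        rw [tp_l hg', tp_l (aN (oN (i := i) (d := 2) hi))]
        exact hN.openU i hi g hg' hc' hX'
      · obtain ⟨hg', hc'⟩ := cB (aM (oM (i := i) (d := 2) hi)) hc
        have hX' : (un A N M).X g = (un A N M).X (M.att i) := hX
        rw [X_r hg', X_r (aM (oM (i := i) (d := 2) hi))] at hX'
        show (un A N M).tp R g ≤ (un A N M).tp R (M.att i)
        rw [tp_r hg', tp_r (aM (oM (i := i) (d := 2) hi))]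
        exact hM.openU i hi g (hnB hg hg') hc' hX'
    · -- openD
      rintro (i | i) hi g hg hc hX
      · obtain ⟨hg', hc'⟩ := cA (aN (oN (i := i) (d := 0) hi)) hc
        have hX' : (un A N M).X g = (un A N M).X (N.att i) := hX
        rw [X_l hg', X_l (aN (oN (i := i) (d := 0) hi))] at hX'
        show (un A N M).Y (N.att i) ≤ (un A N M).Y g
        rw [Y_l hg', Y_l (aN (oN (i := i) (d := 0) hi))]
        exact hN.openD i hi g hg' hc' hX'
      · obtain ⟨hg', hc'⟩ := cB (aM (oM (i := i) (d := 0) hi)) hc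
        have hX' : (un A N M).X g = (un A N M).X (M.att i) := hX
        rw [X_r hg', X_r (aM (oM (i := i) (d := 0) hi))] at hX'
        show (un A N M).Y (M.att i) ≤ (un A N M).Y g
        rw [Y_r hg', Y_r (aM (oM (i := i) (d := 0) hi))]
        exact hM.openD i hi g (hnB hg hg') hc' hX'
    · -- lu
      rintro (i | i) hi hl g hg hc
      · have hi' : σ.Vert i := hi
        obtain ⟨hg', hc'⟩ := cA (aN (vN hi')) hc
        show (un A N M).X (N.att i) ≤ (un A N M).X g
        rw [X_l hg', X_l (aN (vN hi'))]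
        exact hN.lu i hi' hl g hg' hc'
      · have hi' : τ.Vert i := hi
        obtain ⟨hg', hc'⟩ := cB (aM (vM hi')) hc
        show (un A N M).X (M.att i) ≤ (un A N M).X g
        rw [X_r hg', X_r (aM (vM hi'))]
        exact hM.lu i hi' hl g (hnB hg hg') hc'
    · -- ru
      rintro (i | i) hi hl g hg hc
      · have hi' : σ.Vert i := hi
        obtain ⟨hg', hc'⟩ := cA (aN (vN hi')) hc
        show (un A N M).rt R g ≤ (un A N M).rt R (N.att i)
        rw [rt_l hg', rt_l (aN (vN hi'))]
        exact hN.ru i hi' hl g hg' hc'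
      · have hi' : τ.Vert i := hi
        obtain ⟨hg', hc'⟩ := cB (aM (vM hi')) hc
        show (un A N M).rt R g ≤ (un A N M).rt R (M.att i)
        rw [rt_r hg', rt_r (aM (vM hi'))]
        exact hM.ru i hi' hl g (hnB hg hg') hc'
    · -- col
      rintro (i | i) (j | j) hi hj hc hX
      · have hi' : σ.Vert i := hi
        have hj' : σ.Vert j := hj
        have hc' : (un A N M).cp (N.att i) = (un A N M).cp (N.att j) := hc
        have hX' : (un A N M).X (N.att i) = (un A N M).X (N.att j) := hX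
        rw [X_l (aN (vN hi')), X_l (aN (vN hj'))] at hX'
        have h1 := hN.col i j hi' hj' (cA (aN (vN hj')) hc').2 hX'
        show 2 * σ.col i = 2 * σ.col j
        rw [h1]
      · have hi' : σ.Vert i := hi
        have hj' : τ.Vert j := hj
        have hc' : (un A N M).cp (N.att i) = (un A N M).cp (M.att j) := hc
        exact absurd (aN (vN hi')) (cB (aM (vM hj')) hc').1
      · have hi' : τ.Vert i := hi
        have hj' : σ.Vert j := hj
        have hc' : (un A N M).cp (M.att i) = (un A N M).cp (N.att j) := hc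
        exact absurd (cA (aN (vN hj')) hc').1 (aM (vM hi'))
      · have hi' : τ.Vert i := hi
        have hj' : τ.Vert j := hj
        have hc' : (un A N M).cp (M.att i) = (un A N M).cp (M.att j) := hc
        have hX' : (un A N M).X (M.att i) = (un A N M).X (M.att j) := hX
        rw [X_r (aM (vM hi')), X_r (aM (vM hj'))] at hX'
        have h1 := hM.col i j hi' hj' (cB (aM (vM hj')) hc').2 hX'
        show 2 * τ.col i + 1 = 2 * τ.col j + 1
        rw [h1]
    · -- wfR
      rintro (i | i) (j | j) hi hj hc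
      · have hc' : 2 * σ.cmp i = 2 * σ.cmp j := hc
        rw [hN.wfR i j hi hj (by omega)]
      · have hc' : 2 * σ.cmp i = 2 * τ.cmp j + 1 := hc
        omega
      · have hc' : 2 * τ.cmp i + 1 = 2 * σ.cmp j := hc
        omega
      · have hc' : 2 * τ.cmp i + 1 = 2 * τ.cmp j + 1 := hc
        rw [hM.wfR i j hi hj (by omega)]
    · -- wfL
      rintro (i | i) (j | j) hi hj hc
      · have hc' : 2 * σ.cmp i = 2 * σ.cmp j := hc
        rw [hN.wfL i j hi hj (by omega)]
      · have hc' : 2 * σ.cmp i = 2 * τ.cmp j + 1 := hc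
        omega
      · have hc' : 2 * τ.cmp i + 1 = 2 * σ.cmp j := hc
        omega
      · have hc' : 2 * τ.cmp i + 1 = 2 * τ.cmp j + 1 := hc
        rw [hM.wfL i j hi hj (by omega)]
    · -- wfU
      rintro (i | i) (j | j) hi hj hc
      · have hc' : 2 * σ.col i = 2 * σ.col j := hc
        rw [hN.wfU i j hi hj (by omega)]
      · have hc' : 2 * σ.col i = 2 * τ.col j + 1 := hc
        omega
      · have hc' : 2 * τ.col i + 1 = 2 * σ.col j := hc
        omega
      · have hc' : 2 * τ.col i + 1 = 2 * τ.col j + 1 := hc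
        rw [hM.wfU i j hi hj (by omega)]
    · -- wfD
      rintro (i | i) (j | j) hi hj hc
      · have hc' : 2 * σ.col i = 2 * σ.col j := hc
        rw [hN.wfD i j hi hj (by omega)]
      · have hc' : 2 * σ.col i = 2 * τ.col j + 1 := hc
        omega
      · have hc' : 2 * τ.col i + 1 = 2 * σ.col j := hc
        omega
      · have hc' : 2 * τ.col i + 1 = 2 * τ.col j + 1 := hc
        rw [hM.wfD i j hi hj (by omega)]
    · -- wfRU
      rintro (i | i) (j | j) hi hj hc
      · have hc' : 2 * σ.cmp i = 2 * σ.cmp j := hc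
        exact hN.wfRU i j hi hj (by omega)
      · have hc' : 2 * σ.cmp i = 2 * τ.cmp j + 1 := hc
        omega
      · have hc' : 2 * τ.cmp i + 1 = 2 * σ.cmp j := hc
        omega
      · have hc' : 2 * τ.cmp i + 1 = 2 * τ.cmp j + 1 := hc
        exact hM.wfRU i j hi hj (by omega)
    · -- wfLU
      rintro (i | i) (j | j) hi hj hc
      · have hc' : 2 * σ.cmp i = 2 * σ.cmp j := hc
        exact hN.wfLU i j hi hj (by omega)
      · have hc' : 2 * σ.cmp i = 2 * τ.cmp j + 1 := hc
        omega
      · have hc' : 2 * τ.cmp i + 1 = 2 * σ.cmp j := hc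
        omega
      · have hc' : 2 * τ.cmp i + 1 = 2 * τ.cmp j + 1 := hc
        exact hM.wfLU i j hi hj (by omega)
  · -- every component has an open boundary edge
    intro f hf
    by_cases hf' : f ∈ A
    · obtain ⟨i, hi, hc⟩ := hN' f hf'
      refine ⟨Sum.inl i, hi, ?_⟩
      show (un A N M).cp f = (un A N M).cp (N.att i)
      rw [cp_l hf', cp_l (aN hi), hc]
    · obtain ⟨i, hi, hc⟩ := hM' f (hnB hf hf')
      refine ⟨Sum.inr i, hi, ?_⟩
      show (un A N M).cp f = (un A N M).cp (M.att i)
      rw [cp_r hf', cp_r (aM hi), hc]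

theorem Real.comap {V ι κ : Type} {R : Rects V} {A : Finset V} {e : ι → E3 × E3} {σ : State ι}
    (h : Real R A e σ) (f : κ → ι) (hf : Function.Injective f)
    (hcov : ∀ i, σ.Open i → ∃ k, f k = i) : Real R A (e ∘ f) (σ.comap f) := by
  obtain ⟨N, hN, hN'⟩ := h
  refine ⟨⟨N.r, N.X, N.Y, N.cp, N.G, N.att ∘ f⟩, ?_, ?_⟩
  · constructor
    · exact hN.supp
    · exact hN.acyc
    · exact hN.conn
    · exact hN.fit
    · exact hN.sep
    · exact fun i hi => hN.attA (f i) hi
    · exact fun i d hi => hN.attE (f i) d hi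
    · exact fun i j hi hj => hN.cmp (f i) (f j) hi hj
    · exact fun i hi => hN.openR (f i) hi
    · exact fun i hi => hN.openL (f i) hi
    · exact fun i hi => hN.openU (f i) hi
    · exact fun i hi => hN.openD (f i) hi
    · exact fun i hi hl => hN.lu (f i) hi hl
    · exact fun i hi hl => hN.ru (f i) hi hl
    · exact fun i j hi hj => hN.col (f i) (f j) hi hj
    · exact fun i j hi hj hc => hf (hN.wfR (f i) (f j) hi hj hc)
    · exact fun i j hi hj hc => hf (hN.wfL (f i) (f j) hi hj hc)
    · exact fun i j hi hj hc => hf (hN.wfU (f i) (f j) hi hj hc)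
    · exact fun i j hi hj hc => hf (hN.wfD (f i) (f j) hi hj hc)
    · exact fun i j hi hj hc => hN.wfRU (f i) (f j) hi hj hc
    · exact fun i j hi hj hc => hN.wfLU (f i) (f j) hi hj hc
  · intro g hg
    obtain ⟨i, hi, hc⟩ := hN' g hg
    obtain ⟨k, rfl⟩ := hcov i hi
    exact ⟨k, hi, hc⟩

theorem Real.equiv {V ι : Type} {R : Rects V} {A : Finset V} {e : ι → E3 × E3} {σ τ : State ι}
    (h : Real R A e σ) (hst : σ.Equiv τ) : Real R A e τ := by
  obtain ⟨N, hN, hN'⟩ := h
  have l : ∀ {i d}, τ.lab i = d → σ.lab i = d := fun {i d} hi => (hst.lab i).trans hi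
  have o : ∀ {i}, τ.Open i → σ.Open i := fun {i} hi => by
    rw [State.Open, hst.lab i]; exact hi
  have v : ∀ {i}, τ.Vert i → σ.Vert i := fun {i} hi => hi.imp l l
  have ol : ∀ {i d}, τ.lab i = some d → σ.Open i := fun {i d} hi => by
    rw [State.Open, l hi]; simp
  have vo : ∀ {i}, τ.Vert i → σ.Open i := fun {i} hi => hi.elim ol ol
  refine ⟨N, ?_, ?_⟩
  · constructor
    · exact hN.supp
    · exact hN.acyc
    · exact hN.conn
    · exact hN.fit
    · exact hN.sep
    · exact fun i hi => hN.attA i (o hi)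
    · exact fun i d hi => hN.attE i d (l hi)
    · exact fun i j hi hj => (hst.cmp i j (o hi) (o hj)).symm.trans (hN.cmp i j (o hi) (o hj))
    · exact fun i hi => hN.openR i (l hi)
    · exact fun i hi => hN.openL i (l hi)
    · exact fun i hi => hN.openU i (l hi)
    · exact fun i hi => hN.openD i (l hi)
    · exact fun i hi hl => hN.lu i (v hi) ((hst.lu i (v hi)).trans hl)
    · exact fun i hi hl => hN.ru i (v hi) ((hst.ru i (v hi)).trans hl)
    · exact fun i j hi hj hc hX => (hst.col i j (v hi) (v hj)).1 (hN.col i j (v hi) (v hj) hc hX)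
    · exact fun i j hi hj hc => hN.wfR i j (l hi) (l hj) ((hst.cmp i j (ol hi) (ol hj)).2 hc)
    · exact fun i j hi hj hc => hN.wfL i j (l hi) (l hj) ((hst.cmp i j (ol hi) (ol hj)).2 hc)
    · exact fun i j hi hj hc => hN.wfU i j (l hi) (l hj)
        ((hst.col i j (Or.inr (l hi)) (Or.inr (l hj))).2 hc)
    · exact fun i j hi hj hc => hN.wfD i j (l hi) (l hj)
        ((hst.col i j (Or.inl (l hi)) (Or.inl (l hj))).2 hc)
    · exact fun i j hi hj hc => (hst.ru j (v hj)).symm.trans
        (hN.wfRU i j (l hi) (v hj) ((hst.cmp i j (ol hi) (vo hj)).2 hc))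
    · exact fun i j hi hj hc => (hst.lu j (v hj)).symm.trans
        (hN.wfLU i j (l hi) (v hj) ((hst.cmp i j (ol hi) (vo hj)).2 hc))
  · intro g hg
    obtain ⟨i, hi, hc⟩ := hN' g hg
    refine ⟨i, ?_, hc⟩
    rw [State.Open, ← hst.lab i]
    exact hi

end Pool.Agent.Ortho
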