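import Pool.Agent.Ortho.Tile
import Pool.Agent.Ortho.Union

set_option autoImplicit false

/-!
# Ortho/Cls: classes of branches, configurations, what a certificate has to provide (definitions)

* `Cls`: class of a branch with root brick `c` behind a rectangle (tile) whose edges are numbered `0, 1, 2, 3` (counterclockwise):
  `T k`: `c` has a neighbour in the lateral direction number `k` (the direction perpendicular to the edge `k` in the plane of the
  rectangle, outwards), `top`: `c` has a neighbour opposite to the rectangle, `B k`: some lateral neighbour of `c`, in a direction number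
  `k + 1` or `k + 3`, has a neighbour in the direction number `k`.
* `Conf A e`: five discs, the elements of a brick without its bottom face: `0, 1, 2, 3` = sides, `4` = end. Boundary edges of
  the side `k`: `0` = bottom edge, `1` = common edge with the side `k + 1`, `2` = common edge with the end, `3` = common edge with the
  side `k - 1`; of the end: `k` = common edge with the side `k`.
* `L : Fin 5 → Option Cls`: the classes of the branches behind the elements (`none`: the element is a face of the surface).
  `Valid L`: necessary conditions for these classes; `out L`: the class of the composite branch.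
* `Realizes S R A e κ`: all states in `S κ` are realized on `A`, and all states of a rectangle in the case `none`.
* `Cert S`: the family `S` of sets of states reproduces itself (`comp`), and a net can be closed at a root (`root`).
-/

namespace Pool.Agent.Ortho

/-- class of a branch -/
@[ext] structure Cls where
  /-- neighbours in the lateral directions -/
  T : Fin 4 → Bool
  /-- neighbour opposite to the rectangle -/
  top : Bool
  /-- a lateral neighbour in a perpendicular direction has a neighbour in this direction -/
  B : Fin 4 → Bool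

/-- necessary condition -/
def Cls.Ok (κ : Cls) : Prop :=
  ∀ k, κ.B k = true → κ.T k = false ∧ (κ.T (k + 1) = true ∨ κ.T (k + 3) = true)

/-- five discs glued as the elements of a brick without its bottom face -/
structure Conf {V : Type} (A : Fin 5 → Finset V) (e : Fin 5 → Fin 4 → E3 × E3) : Prop where
  disj : ∀ i j, i ≠ j → Disjoint (A i) (A j)
  top : ∀ k : Fin 4, e 4 k = (e k.castSucc 2).swap
  lat : ∀ k : Fin 4, e (k + 1).castSucc 3 = (e k.castSucc 1).swap

/-- necessary conditions for the classes behind the five elements of a brick -/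
structure Valid (L : Fin 5 → Option Cls) : Prop where
  ok : ∀ i κ, L i = some κ → κ.Ok
  side0 : ∀ (k : Fin 4) κ, L k.castSucc = some κ → κ.T 0 = false ∧ κ.B 0 = false
  side1 : ∀ (k : Fin 4) κ, L k.castSucc = some κ → (κ.T 1 = true ∨ κ.B 1 = true) →
    L (k + 1).castSucc = none
  side2 : ∀ (k : Fin 4) κ, L k.castSucc = some κ → (κ.T 2 = true ∨ κ.B 2 = true) → L 4 = none
  side3 : ∀ (k : Fin 4) κ, L k.castSucc = some κ → (κ.T 3 = true ∨ κ.B 3 = true) →
    L (k + 3).castSucc = none
  stop : ∀ κ, L 4 = some κ → ∀ k : Fin 4, (κ.T k = true ∨ κ.B k = true) → L k.castSucc = none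
  sib : ∀ (k : Fin 4) κ κ', L k.castSucc = some κ → L (k + 1).castSucc = some κ' →
    ¬ (κ.T 2 = true ∧ κ'.T 2 = true)
  sib1 : ∀ (k : Fin 4) κ κ', L k.castSucc = some κ → L 4 = some κ' →
    ¬ (κ.T 1 = true ∧ κ'.T (k + 1) = true)
  sib3 : ∀ (k : Fin 4) κ κ', L k.castSucc = some κ → L 4 = some κ' →
    ¬ (κ.T 3 = true ∧ κ'.T (k + 3) = true)

/-- the class of the composite branch -/
def out (L : Fin 5 → Option Cls) : Cls where
  T k := (L k.castSucc).isSome
  top := (L 4).isSome
  B k := (L (k + 3).castSucc).any (fun κ => κ.T 1) || (L (k + 1).castSucc).any (fun κ => κ.T 3)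

/-- all states belonging to the class are realized -/
def Realizes (S : Cls → Set (State (Fin 4))) {V : Type} (R : Rects V) (A : Finset V)
    (e : Fin 4 → E3 × E3) : Option Cls → Prop
  | none => ∀ (t : Fin 4) (s : Fin 4 → Bool), (∃ k, s k = true) → Real R A e (tileState t s)
  | some κ => ∀ σ ∈ S κ, Real R A e σ

/-- what the certificate provides -/
structure Cert (S : Cls → Set (State (Fin 4))) : Prop where
  comp : ∀ L : Fin 5 → Option Cls, Valid L → ∀ {V : Type} [DecidableEq V] (R : Rects V)
    (A : Fin 5 → Finset V) (e : Fin 5 → Fin 4 → E3 × E3), Conf A e →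
    (∀ i, Realizes S R (A i) (e i) (L i)) →
    Realizes S R (Finset.univ.biUnion A) (fun k : Fin 4 => e k.castSucc 0) (some (out L))
  root : ∀ κ : Option Cls, (∀ c, κ = some c → c.Ok) → ∀ {V : Type} [DecidableEq V] (R : Rects V)
    (A : Fin 5 → Finset V) (e : Fin 5 → Fin 4 → E3 × E3) (A' : Finset V) (e' : Fin 4 → E3 × E3),
    Conf A e → (∀ i, Disjoint (A i) A') → (∀ k : Fin 4, e' (3 - k) = (e k.castSucc 0).swap) →
    (∀ i, Realizes S R (A i) (e i) none) → Realizes S R A' e' κ →
    ∃ (ι : Type) (d : ι → E3 × E3) (σ : State ι) (N : PNet V ι),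
      Ok R (A' ∪ Finset.univ.biUnion A) d σ N ∧
      ∀ f ∈ A' ∪ Finset.univ.biUnion A, ∀ g ∈ A' ∪ Finset.univ.biUnion A, N.cp f = N.cp g

end Pool.Agent.Ortho
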