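import Pool.Agent.Ortho.Cls

set_option autoImplicit false

/-!
# Ortho/Code: coded interface states, evaluation by the kernel

A coded state is a list of its uncut boundary edges (`Ent`: number, label `0 = D, 1 = R, 2 = U, 3 = L`, component, column, flags).
All functions are written in continuation passing style with recursors, so that the kernel evaluates them on explicit data.

The boundary edge `m` of the element `k` (`k < 5`, `m < 4`) of a brick has the number `5 * m + k`; in particular the outer edges have
the numbers `0, 1, 2, 3`.
-/

namespace Pool.Agent.Ortho

/-- an uncut boundary edge of a coded state -/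
structure Ent where
  /-- number of the boundary edge -/
  i : ℕ
  /-- label -/
  lab : ℕ
  /-- component -/
  cmp : ℕ
  /-- column -/
  col : ℕ
  /-- left side of the column used -/
  lu : Bool
  /-- right side of the column used -/
  ru : Bool

/-! ### functions evaluated by the kernel -/

/-- look up a boundary edge -/
noncomputable def findK (i : ℕ) (l : List Ent) (kn : Bool) (ks : ℕ → ℕ → ℕ → Bool → Bool → Bool) : Bool :=
  List.rec (motive := fun _ => Bool) kn
    (fun a _ ih => Ent.rec (motive := fun _ => Bool)
      (fun i' lab cmp col lu ru => cond (Nat.beq i' i) (ks lab cmp col lu ru) ih) a) l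

/-- is there an entry with component `c`? -/
noncomputable def hasC (c : ℕ) (l : List Ent) : Bool :=
  List.rec (motive := fun _ => Bool) false
    (fun a _ ih => Ent.rec (motive := fun _ => Bool)
      (fun _ _ cmp _ _ _ => cond (Nat.beq cmp c) true ih) a) l

/-- delete `i`, `j` and rename the component `c'` to `c` -/
noncomputable def relHK (i j c c' : ℕ) (l : List Ent) : (List Ent → Bool) → Bool :=
  List.rec (motive := fun _ => (List Ent → Bool) → Bool) (fun k => k [])
    (fun a _ ih k => Ent.rec (motive := fun _ => Bool)
      (fun i' lab cmp col lu ru => cond (Nat.beq i' i) (ih k) (cond (Nat.beq i' j) (ih k)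
        (cond (Nat.beq cmp c') (ih fun l' => k (⟨i', lab, c, col, lu, ru⟩ :: l'))
          (ih fun l' => k (⟨i', lab, cmp, col, lu, ru⟩ :: l'))))) a) l

/-- delete `i`, `j`, rename the component `c'` to `c` and the column `p'` to `p`; `lu`, `ru` are added to the flags of this column -/
noncomputable def relVK (i j c c' p p' : ℕ) (lu ru : Bool) (l : List Ent) : (List Ent → Bool) → Bool :=
  List.rec (motive := fun _ => (List Ent → Bool) → Bool) (fun k => k [])
    (fun a _ ih k => Ent.rec (motive := fun _ => Bool)
      (fun i' lab cmp col lu' ru' => cond (Nat.beq i' i) (ih k) (cond (Nat.beq i' j) (ih k)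
        (cond (Nat.beq cmp c')
          (cond (Nat.beq col p) (ih fun l' => k (⟨i', lab, c, p, cond lu' true lu, cond ru' true ru⟩ :: l'))
            (cond (Nat.beq col p') (ih fun l' => k (⟨i', lab, c, p, cond lu' true lu, cond ru' true ru⟩ :: l'))
              (ih fun l' => k (⟨i', lab, c, col, lu', ru'⟩ :: l'))))
          (cond (Nat.beq col p) (ih fun l' => k (⟨i', lab, cmp, p, cond lu' true lu, cond ru' true ru⟩ :: l'))
            (cond (Nat.beq col p') (ih fun l' => k (⟨i', lab, cmp, p, cond lu' true lu, cond ru' true ru⟩ :: l'))
              (ih fun l' => k (⟨i', lab, cmp, col, lu', ru'⟩ :: l'))))))) a) l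

/-- glue the boundary edges `i` and `j` -/
noncomputable def linkK (i j : ℕ) (l : List Ent) (k : List Ent → Bool) : Bool :=
  findK i l (findK j l (k l) fun _ _ _ _ _ => false) fun lab cmp col lu ru =>
    findK j l false fun lab' cmp' col' lu' ru' =>
      cond (Nat.beq cmp cmp') false
        (cond (Nat.beq lab 1)
          (cond (Nat.beq lab' 3) (relHK i j cmp cmp' l fun l' => cond (hasC cmp l') (k l') false) false)
          (cond (Nat.beq lab 3)
            (cond (Nat.beq lab' 1) (relHK i j cmp' cmp l fun l' => cond (hasC cmp' l') (k l') false) false)
            (cond (cond (Nat.beq lab 2) (Nat.beq lab' 0) (cond (Nat.beq lab 0) (Nat.beq lab' 2) false))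
              (cond (cond lu lu' false) false (cond (cond ru ru' false) false
                (relVK i j cmp cmp' col col' (cond lu true lu') (cond ru true ru') l fun l' =>
                  cond (hasC cmp l') (k l') false)))
              false)))

/-- evaluation of a number -/
noncomputable def force (n : ℕ) (k : ℕ → Bool) : Bool :=
  Nat.rec (motive := fun _ => Bool) (k 0) (fun m _ => k (Nat.succ m)) n

/-- put the list `l` of the element `k` before the list `l'` -/
noncomputable def shiftK (k : ℕ) (l l' : List Ent) : (List Ent → Bool) → Bool :=
  List.rec (motive := fun _ => (List Ent → Bool) → Bool) (fun c => c l')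
    (fun a _ ih c => Ent.rec (motive := fun _ => Bool)
      (fun i lab cmp col lu ru => force (Nat.add (Nat.mul 5 i) k) fun i' =>
        force (Nat.add (Nat.mul 5 cmp) k) fun cmp' => force (Nat.add (Nat.mul 5 col) k) fun col' =>
        ih fun l'' => c (⟨i', lab, cmp', col', lu, ru⟩ :: l'')) a) l

/-- the eight gluings inside a brick -/
noncomputable def compK (l : List Ent) (k : List Ent → Bool) : Bool :=
  linkK 5 16 l fun l => linkK 6 17 l fun l => linkK 7 18 l fun l => linkK 8 15 l fun l =>
  linkK 10 4 l fun l => linkK 11 9 l fun l => linkK 12 14 l fun l => linkK 13 19 l k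

/-- comparison of the entry `a` with the rest of the list -/
noncomputable def eqvTK (cmp col cmp' col' : ℕ) (v : Bool) (l : List Ent) : List Ent → Bool :=
  List.rec (motive := fun _ => List Ent → Bool) (fun _ => true)
    (fun a _ ih l' => Ent.rec (motive := fun _ => Bool)
      (fun _ lab cmp1 col1 _ _ => List.rec (motive := fun _ => Bool) false
        (fun b t _ => Ent.rec (motive := fun _ => Bool)
          (fun _ _ cmp2 col2 _ _ =>
            cond (cond (Nat.beq cmp cmp1) (Nat.beq cmp' cmp2) (cond (Nat.beq cmp' cmp2) false true))
              (cond (cond v (cond (Nat.beq lab 1) true (cond (Nat.beq lab 3) true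
                  (cond (Nat.beq col col1) (Nat.beq col' col2) (cond (Nat.beq col' col2) false true)))) true)
                (ih t) false) false) b) l') a) l

/-- equality of coded states up to renaming of components and columns -/
noncomputable def eqvK (l : List Ent) : List Ent → Bool :=
  List.rec (motive := fun _ => List Ent → Bool)
    (fun l' => List.rec (motive := fun _ => Bool) true (fun _ _ _ => false) l')
    (fun a s ih l' => Ent.rec (motive := fun _ => Bool)
      (fun i lab cmp col lu ru => List.rec (motive := fun _ => Bool) false
        (fun b t _ => Ent.rec (motive := fun _ => Bool)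
          (fun i' lab' cmp' col' lu' ru' =>
            cond (Nat.beq i i') (cond (Nat.beq lab lab')
              (cond (cond (Nat.beq lab 1) true (cond (Nat.beq lab 3) true
                  (cond (cond lu lu' (cond lu' false true)) (cond ru ru' (cond ru' false true)) false)))
                (cond (eqvTK cmp col cmp' col' (cond (Nat.beq lab 1) false (cond (Nat.beq lab 3) false true)) s t)
                  (ih t) false) false) false) false) b) l') a) l

/-- element of a list -/
noncomputable def nthK {α : Type} (d : α) (n : ℕ) : List α → α :=
  Nat.rec (motive := fun _ => List α → α) (fun l => List.rec (motive := fun _ => α) d (fun a _ _ => a) l)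
    (fun _ ih l => List.rec (motive := fun _ => α) d (fun _ t _ => ih t) l) n

/-! ### specification -/

/-- look up a boundary edge -/
def findL (i : ℕ) : List Ent → Option Ent
  | [] => none
  | a :: l => if a.i = i then some a else findL i l

/-- label with the number `n` -/
def labOf (n : ℕ) : Fin 4 := Fin.ofNat 4 n

/-- the state coded by a list, `c` = numbers of the boundary edges -/
def toSt {ι : Type} (c : ι → ℕ) (l : List Ent) : State ι where
  lab k := (findL (c k) l).map fun a => labOf a.lab
  cmp k := ((findL (c k) l).map Ent.cmp).getD 0
  col k := ((findL (c k) l).map Ent.col).getD 0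
  lu k := ((findL (c k) l).map Ent.lu).getD false
  ru k := ((findL (c k) l).map Ent.ru).getD false

/-- the numbers are distinct, numbers of boundary edges; the labels are smaller than `4` -/
structure Good {ι : Type} (c : ι → ℕ) (l : List Ent) : Prop where
  nodup : (l.map Ent.i).Nodup
  rng : ∀ a ∈ l, (∃ k, c k = a.i) ∧ a.lab < 4

/-- number of the boundary edge `m` of the element `k` -/
def cd (p : Fin 5 × Fin 4) : ℕ := 5 * p.2 + p.1

end Pool.Agent.Ortho
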