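import Pool.Agent.Ortho.Def

set_option autoImplicit false

/-!
# Ortho/Sem: semantics of the interface states (MP_2db2c2_co). Definitions only, sorry-free.

A partial net on a finite set `A` of oriented rectangles, with a finite family `ι` of boundary edges (directed edges of the disc
covered by `A`). Every rectangle `v` has four corners `cor v 0, ..., cor v 3` in counterclockwise order (seen from outside), its
directed edge number `k` is `(cor v k, cor v (k+1))`. A frame is a rotation `r v : Fin 4`: the edge number `r v + d` has the label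
`d`, where `0 = D` (bottom), `1 = R` (right), `2 = U` (top), `3 = L` (left). The rectangle is placed in the plane with its lower left
corner in `(X v, Y v)`.

A partial net consists of frames, positions, a labelling `cp` of the components, and the forest `G` of glued pairs. In every
component the rectangles are placed without overlap, in vertical columns: two rectangles of a component either have separated
`x`-intervals, or equal `x`-intervals and separated `y`-intervals (`sep`).

A state `σ : State ι` records for every boundary edge: `lab` = `none` if it is cut (or closed) or the label of the edge in the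
rectangle `att i` to which it belongs; `cmp`, `col` = numbers of the component and of the column; `lu`, `ru` (only used for the labels
`U`, `D`): if `lu i = false` there is nothing to the left of the column of `att i` (and no boundary edge with label `L` in its
component), similarly `ru`.
-/

namespace Pool.Agent.Ortho

/-- a family of rectangles given by their corners in counterclockwise order -/
structure Rects (V : Type) where
  /-- corners -/
  cor : V → Fin 4 → E3
  opp : ∀ v k, dist (cor v (k + 2)) (cor v (k + 3)) = dist (cor v k) (cor v (k + 1))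
  pos : ∀ v k, 0 < dist (cor v k) (cor v (k + 1))

/-- length of the edge number `k` -/
noncomputable def Rects.len {V : Type} (R : Rects V) (v : V) (k : Fin 4) : ℝ :=
  dist (R.cor v k) (R.cor v (k + 1))

/-- directed edge number `k` -/
def Rects.edge {V : Type} (R : Rects V) (v : V) (k : Fin 4) : E3 × E3 := (R.cor v k, R.cor v (k + 1))

/-- interface state -/
structure State (ι : Type) where
  /-- label: `0 = D`, `1 = R`, `2 = U`, `3 = L`, `none` = cut -/
  lab : ι → Option (Fin 4)
  /-- number of the component -/
  cmp : ι → ℕ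
  /-- number of the column -/
  col : ι → ℕ
  /-- left side of the column used -/
  lu : ι → Bool
  /-- right side of the column used -/
  ru : ι → Bool

namespace State

variable {ι : Type} (σ : State ι)

/-- the boundary edge is crossed by a column -/
def Vert (i : ι) : Prop := σ.lab i = some 0 ∨ σ.lab i = some 2

/-- the boundary edge is not cut -/
def Open (i : ι) : Prop := σ.lab i ≠ none

/-- glue the boundary edge `i` (label `R`) to the boundary edge `j` (label `L`) -/
def linkH [DecidableEq ι] (i j : ι) : State ι where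
  lab k := if k = i ∨ k = j then none else σ.lab k
  cmp k := if σ.cmp k = σ.cmp j then σ.cmp i else σ.cmp k
  col := σ.col
  lu := σ.lu
  ru := σ.ru

/-- glue the boundary edge `i` (label `U`) to the boundary edge `j` (label `D`) -/
def linkV [DecidableEq ι] (i j : ι) : State ι where
  lab k := if k = i ∨ k = j then none else σ.lab k
  cmp k := if σ.cmp k = σ.cmp j then σ.cmp i else σ.cmp k
  col k := if σ.col k = σ.col j then σ.col i else σ.col k
  lu k := if σ.col k = σ.col i ∨ σ.col k = σ.col j then σ.lu k || σ.lu i || σ.lu j else σ.lu k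
  ru k := if σ.col k = σ.col i ∨ σ.col k = σ.col j then σ.ru k || σ.ru i || σ.ru j else σ.ru k

/-- disjoint union of states -/
def sum {κ : Type} (τ : State κ) : State (ι ⊕ κ) where
  lab := Sum.elim σ.lab τ.lab
  cmp := Sum.elim (fun i => 2 * σ.cmp i) (fun i => 2 * τ.cmp i + 1)
  col := Sum.elim (fun i => 2 * σ.col i) (fun i => 2 * τ.col i + 1)
  lu := Sum.elim σ.lu τ.lu
  ru := Sum.elim σ.ru τ.ru

/-- restriction to some of the boundary edges -/
def comap {κ : Type} (f : κ → ι) : State κ where
  lab := σ.lab ∘ f
  cmp := σ.cmp ∘ f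
  col := σ.col ∘ f
  lu := σ.lu ∘ f
  ru := σ.ru ∘ f

/-- the same state up to renaming of components and columns -/
structure Equiv (σ τ : State ι) : Prop where
  lab : ∀ i, σ.lab i = τ.lab i
  cmp : ∀ i j, σ.Open i → σ.Open j → (σ.cmp i = σ.cmp j ↔ τ.cmp i = τ.cmp j)
  col : ∀ i j, σ.Vert i → σ.Vert j → (σ.col i = σ.col j ↔ τ.col i = τ.col j)
  lu : ∀ i, σ.Vert i → σ.lu i = τ.lu i
  ru : ∀ i, σ.Vert i → σ.ru i = τ.ru i

end State

/-- data of a partial net -/
structure PNet (V ι : Type) where
  /-- frames -/
  r : V → Fin 4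
  /-- position of the left side -/
  X : V → ℝ
  /-- position of the bottom side -/
  Y : V → ℝ
  /-- component -/
  cp : V → ℕ
  /-- glued pairs -/
  G : SimpleGraph V
  /-- the rectangle to which a boundary edge belongs -/
  att : ι → V

namespace PNet

variable {V ι : Type} (N : PNet V ι) (R : Rects V)

/-- position of the right side -/
noncomputable def rt (v : V) : ℝ := N.X v + R.len v (N.r v)

/-- position of the top side -/
noncomputable def tp (v : V) : ℝ := N.Y v + R.len v (N.r v + 1)

/-- planar position of the corner with the label `d` in the frame: lower left, lower right, upper right, upper left -/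
noncomputable def cpos (v : V) (d : Fin 4) : ℝ × ℝ :=
  match d with
  | 0 => (N.X v, N.Y v)
  | 1 => (N.rt R v, N.Y v)
  | 2 => (N.rt R v, N.tp R v)
  | 3 => (N.X v, N.tp R v)

/-- planar position of the corner number `k` -/
noncomputable def pp (v : V) (k : Fin 4) : ℝ × ℝ := N.cpos R v (k - N.r v)

end PNet

open PNet in
/-- `N` is a partial net on `A` with the boundary edges `e` and the state `σ` -/
structure Ok {V ι : Type} (R : Rects V) (A : Finset V) (e : ι → E3 × E3) (σ : State ι) (N : PNet V ι) :
    Prop where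
  supp : ∀ f g, N.G.Adj f g → f ∈ A ∧ g ∈ A ∧ N.cp f = N.cp g
  acyc : N.G.IsAcyclic
  conn : ∀ f ∈ A, ∀ g ∈ A, N.cp f = N.cp g → N.G.Reachable f g
  fit : ∀ f g, N.G.Adj f g → ∃ k l, R.cor f k = R.cor g (l + 1) ∧ R.cor f (k + 1) = R.cor g l ∧
    N.pp R f k = N.pp R g (l + 1) ∧ N.pp R f (k + 1) = N.pp R g l
  sep : ∀ f ∈ A, ∀ g ∈ A, f ≠ g → N.cp f = N.cp g → N.rt R f ≤ N.X g ∨ N.rt R g ≤ N.X f ∨
    (N.X f = N.X g ∧ N.rt R f = N.rt R g ∧ (N.tp R f ≤ N.Y g ∨ N.tp R g ≤ N.Y f))
  attA : ∀ i, σ.Open i → N.att i ∈ A
  attE : ∀ i d, σ.lab i = some d → R.edge (N.att i) (N.r (N.att i) + d) = e i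
  cmp : ∀ i j, σ.Open i → σ.Open j → (σ.cmp i = σ.cmp j ↔ N.cp (N.att i) = N.cp (N.att j))
  openR : ∀ i, σ.lab i = some 1 → ∀ g ∈ A, N.cp g = N.cp (N.att i) → N.rt R g ≤ N.rt R (N.att i)
  openL : ∀ i, σ.lab i = some 3 → ∀ g ∈ A, N.cp g = N.cp (N.att i) → N.X (N.att i) ≤ N.X g
  openU : ∀ i, σ.lab i = some 2 → ∀ g ∈ A, N.cp g = N.cp (N.att i) → N.X g = N.X (N.att i) →
    N.tp R g ≤ N.tp R (N.att i)
  openD : ∀ i, σ.lab i = some 0 → ∀ g ∈ A, N.cp g = N.cp (N.att i) → N.X g = N.X (N.att i) →
    N.Y (N.att i) ≤ N.Y g
  lu : ∀ i, σ.Vert i → σ.lu i = false → ∀ g ∈ A, N.cp g = N.cp (N.att i) → N.X (N.att i) ≤ N.X g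
  ru : ∀ i, σ.Vert i → σ.ru i = false → ∀ g ∈ A, N.cp g = N.cp (N.att i) →
    N.rt R g ≤ N.rt R (N.att i)
  col : ∀ i j, σ.Vert i → σ.Vert j → N.cp (N.att i) = N.cp (N.att j) →
    N.X (N.att i) = N.X (N.att j) → σ.col i = σ.col j
  wfR : ∀ i j, σ.lab i = some 1 → σ.lab j = some 1 → σ.cmp i = σ.cmp j → i = j
  wfL : ∀ i j, σ.lab i = some 3 → σ.lab j = some 3 → σ.cmp i = σ.cmp j → i = j
  wfU : ∀ i j, σ.lab i = some 2 → σ.lab j = some 2 → σ.col i = σ.col j → i = j
  wfD : ∀ i j, σ.lab i = some 0 → σ.lab j = some 0 → σ.col i = σ.col j → i = j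
  wfRU : ∀ i j, σ.lab i = some 1 → σ.Vert j → σ.cmp i = σ.cmp j → σ.ru j = true
  wfLU : ∀ i j, σ.lab i = some 3 → σ.Vert j → σ.cmp i = σ.cmp j → σ.lu j = true

/-- the state `σ` is realized on `A` (every component has a boundary edge which is not cut) -/
def Real {V ι : Type} (R : Rects V) (A : Finset V) (e : ι → E3 × E3) (σ : State ι) : Prop :=
  ∃ N : PNet V ι, Ok R A e σ N ∧ ∀ f ∈ A, ∃ i, σ.Open i ∧ N.cp f = N.cp (N.att i)

end Pool.Agent.Ortho
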