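import Pool.Agent.Ortho.Geo
import Pool.Agent.Ortho.Sem

set_option autoImplicit false

/-!
# Ortho/Corner: corners of the faces of bricks

`cb a s k`: the corner number `k` of the face `(a, s)` of a brick, in counterclockwise order seen from outside; a corner is a choice of an
end for every axis. `pt i v`: the corner `v` of the brick `i`. `cor f k`: the corners of the face `f`.

Recursion over the tree: a brick `c` is seen from its face `(a₀, s₀)`. `qb a₀ s₀ k` are the corners of this face in the order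
counterclockwise seen from the other side, `qt a₀ s₀ k` the opposite corners. The side number `k` of the brick is the face
`(sAx, sSg)` containing `q k, q (k+1)`; its corners are `q k, q (k+1), q' (k+1), q' k` = its corners number `m + sRot`.
The end is the face `(a₀, !s₀)` with the corners `q' k` = its corners number `m + eRot`.
All these facts are finite (`decide`).
-/

namespace Pool.Agent.Ortho

/-- corner number `k` of the face `(a, s)` -/
def cb (a : Fin 3) (s : Bool) (k : Fin 4) : Fin 3 → Bool := fun x =>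
  if x = a then s
  else if x = a + 1 then (if s then (k == 1 || k == 2) else (k == 2 || k == 3))
  else (if s then (k == 2 || k == 3) else (k == 1 || k == 2))

/-- corners of the face `(a₀, s₀)` in the opposite order -/
def qb (a₀ : Fin 3) (s₀ : Bool) (k : Fin 4) : Fin 3 → Bool := cb a₀ s₀ (-k)

/-- opposite corners -/
def qt (a₀ : Fin 3) (s₀ : Bool) (k : Fin 4) : Fin 3 → Bool := fun x =>
  if x = a₀ then !s₀ else qb a₀ s₀ k x

/-- corners of the side number `k` -/
def sideC (a₀ : Fin 3) (s₀ : Bool) (k m : Fin 4) : Fin 3 → Bool :=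
  match m with
  | 0 => qb a₀ s₀ k
  | 1 => qb a₀ s₀ (k + 1)
  | 2 => qt a₀ s₀ (k + 1)
  | 3 => qt a₀ s₀ k

/-- axis of the side number `k` -/
def sAx (a₀ : Fin 3) (s₀ : Bool) (k : Fin 4) : Fin 3 :=
  if qb a₀ s₀ k (a₀ + 1) = qb a₀ s₀ (k + 1) (a₀ + 1) then a₀ + 1 else a₀ + 2

/-- side of the side number `k` -/
def sSg (a₀ : Fin 3) (s₀ : Bool) (k : Fin 4) : Bool := qb a₀ s₀ k (sAx a₀ s₀ k)

/-- rotation of the side number `k` -/
def sRot (a₀ : Fin 3) (s₀ : Bool) (k : Fin 4) : Fin 4 :=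
  if cb (sAx a₀ s₀ k) (sSg a₀ s₀ k) 0 = qb a₀ s₀ k then 0
  else if cb (sAx a₀ s₀ k) (sSg a₀ s₀ k) 1 = qb a₀ s₀ k then 1
  else if cb (sAx a₀ s₀ k) (sSg a₀ s₀ k) 2 = qb a₀ s₀ k then 2
  else 3

/-- rotation of the end -/
def eRot (a₀ : Fin 3) (s₀ : Bool) : Fin 4 :=
  if cb a₀ (!s₀) 0 = qt a₀ s₀ 0 then 0
  else if cb a₀ (!s₀) 1 = qt a₀ s₀ 0 then 1
  else if cb a₀ (!s₀) 2 = qt a₀ s₀ 0 then 2
  else 3

theorem sideC_eq (a₀ : Fin 3) (s₀ : Bool) (k m : Fin 4) :
    sideC a₀ s₀ k m = cb (sAx a₀ s₀ k) (sSg a₀ s₀ k) (m + sRot a₀ s₀ k) := by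
  revert a₀ s₀ k m; decide

theorem qt_eq (a₀ : Fin 3) (s₀ : Bool) (m : Fin 4) : qt a₀ s₀ m = cb a₀ (!s₀) (m + eRot a₀ s₀) := by
  revert a₀ s₀ m; decide

theorem sAx_ne (a₀ : Fin 3) (s₀ : Bool) (k : Fin 4) : sAx a₀ s₀ k ≠ a₀ := by
  revert a₀ s₀ k; decide

/-- the sides are the faces orthogonal to the other axes -/
theorem exists_side (a₀ : Fin 3) (s₀ : Bool) (a : Fin 3) (s : Bool) (h : a ≠ a₀) :
    ∃ k, sAx a₀ s₀ k = a ∧ sSg a₀ s₀ k = s := by
  revert a₀ s₀ a s; decide

theorem side_inj (a₀ : Fin 3) (s₀ : Bool) (k k' : Fin 4) (h : sAx a₀ s₀ k = sAx a₀ s₀ k')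
    (h' : sSg a₀ s₀ k = sSg a₀ s₀ k') : k = k' := by
  revert a₀ s₀ k k'; decide

/-- the corners of a face seen from the neighbour -/
theorem cb_flip (a : Fin 3) (s : Bool) (k : Fin 4) :
    (fun x => if x = a then s else cb a (!s) k x) = qb a s k := by
  revert a s k; decide

namespace Orthotree

variable {n : ℕ} (P : Orthotree n)

/-- the corner `v` of the brick `i` -/
noncomputable def pt (i : Fin n) (v : Fin 3 → Bool) : E3 :=
  WithLp.toLp 2 fun a => (P.b i).bd a (v a)

/-- the corners of the face `f` -/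
noncomputable def cor (f : Pos n) (k : Fin 4) : E3 := P.pt f.1 (cb f.2.1 f.2.2 k)

end Orthotree

end Pool.Agent.Ortho
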