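import Pool.Agent.Ortho.Front

set_option autoImplicit false

/-!
# Ortho/Cover: the boundary of the body is the union of the faces of the gridded surface

`frontier_eq`. Let `x` be a point of the boundary which is in no exposed face. For an octant `o : Fin 3 → Bool` the coordinate `a` is
wrong for a brick `i ∋ x` if `x a = (b i).bd a (o a)`. If `a` is wrong for `i`, then `x` is in the face `(i, a, o a)`, which is covered by a
neighbour `j ∋ x`, and `j` has the same wrong coordinates except `a`. Hence for every octant there is a brick without wrong coordinates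
(`cover_octant`), and a neighbourhood of `x` is contained in the body.
-/

namespace Pool.Agent.Ortho.Orthotree

variable {n : ℕ} (P : Orthotree n)

theorem cover_octant {x : E3} (hx : x ∈ P.body)
    (hno : ∀ f : Pos n, P.Exposed f → x ∉ P.rect f) (o : Fin 3 → Bool) :
    ∃ i, x ∈ (P.b i).set ∧ ∀ a, x a ≠ (P.b i).bd a (o a) := by
  classical
  obtain ⟨i0, hi0⟩ := Set.mem_iUnion.1 hx
  -- number of wrong coordinates
  let w : Fin n → ℕ := fun i => (Finset.univ.filter fun a => x a = (P.b i).bd a (o a)).card
  have key : ∀ m : ℕ, ∀ i, x ∈ (P.b i).set → w i = m →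
      ∃ i, x ∈ (P.b i).set ∧ ∀ a, x a ≠ (P.b i).bd a (o a) := by
    intro m
    induction m using Nat.strong_induction_on with
    | _ m ih =>
      intro i hi hm
      by_cases hall : ∀ a, x a ≠ (P.b i).bd a (o a)
      · exact ⟨i, hi, hall⟩
      · obtain ⟨a, ha⟩ := not_forall.1 hall
        have ha' : x a = (P.b i).bd a (o a) := not_not.1 ha
        have hxf : x ∈ P.rect (i, a, o a) := ⟨hi, ha'⟩
        have hnE : ¬ P.Exposed (i, a, o a) := fun hE => hno _ hE hxf
        obtain ⟨j, hj⟩ := not_forall.1 hnE
        have hnb : P.Nb i a (o a) j := not_not.1 hj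
        obtain ⟨hbd, hrest, -⟩ := P.nb_coord hnb
        have hxj : x ∈ (P.b j).set := by
          have h1 : x ∈ (P.b i).set ∩ (P.b j).set := by
            rw [hnb.2]
            exact hxf
          exact h1.2
        have hlt : w j < m := by
          rw [← hm]
          refine Finset.card_lt_card ?_
          rw [Finset.ssubset_iff_of_subset]
          · refine ⟨a, ?_, ?_⟩
            · simp only [Finset.mem_filter, Finset.mem_univ, true_and]
              exact ha'
            · simp only [Finset.mem_filter, Finset.mem_univ, true_and]
              intro h2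
              have h3 : (P.b j).bd a (!(o a)) = (P.b j).bd a (o a) := by
                rw [hbd, ← ha', h2]
              have h4 := (P.b j).bd_inj h3
              cases h5 : o a <;> rw [h5] at h4 <;> simp at h4
          · intro a' ha2
            simp only [Finset.mem_filter, Finset.mem_univ, true_and] at ha2 ⊢
            rcases eq_or_ne a' a with rfl | hne
            · exact ha'
            · rw [ha2]
              obtain ⟨e1, e2⟩ := hrest a' hne
              unfold Brick.bd
              rw [e1, e2]
        exact ih (w j) hlt j hxj rfl
  exact key (w i0) i0 hi0 rfl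

/-- the boundary of the body is the union of the faces of the gridded surface -/
theorem frontier_eq : frontier P.body = ⋃ f : P.Face, P.rect f.1 := by
  apply Set.Subset.antisymm
  · intro x hx
    have hclosed : IsClosed P.body := isClosed_iUnion_of_finite fun i => front_closed (P.b i)
    have hxb : x ∈ P.body := hclosed.frontier_subset hx
    by_contra hcon
    have hno : ∀ f : Pos n, P.Exposed f → x ∉ P.rect f := by
      intro f hE hxf
      exact hcon (Set.mem_iUnion.2 ⟨⟨f, (P.exposed_iff f).1 hE⟩, hxf⟩)
    choose I hI1 hI2 using P.cover_octant hxb hno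
    -- the neighbourhood
    have hev : ∀ᶠ y in nhds x, ∀ o : Fin 3 → Bool, ∀ a : Fin 3,
        (o a = true → y a < (P.b (I o)).hi a) ∧ (o a = false → (P.b (I o)).lo a < y a) := by
      rw [Filter.eventually_all]
      intro o
      rw [Filter.eventually_all]
      intro a
      have hc : Filter.Tendsto (fun y : E3 => y a) (nhds x) (nhds (x a)) :=
        (front_cont a).continuousAt
      have h1 := hI2 o a
      have h2 := hI1 o a
      cases ho : o a with
      | true =>
        rw [ho] at h1
        have h3 : x a ≠ (P.b (I o)).hi a := h1
        have h4 : x a < (P.b (I o)).hi a := lt_of_le_of_ne h2.2 h3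
        filter_upwards [hc.eventually (gt_mem_nhds h4)] with y hy
        exact ⟨fun _ => hy, fun h => by simp at h⟩
      | false =>
        rw [ho] at h1
        have h3 : x a ≠ (P.b (I o)).lo a := h1
        have h4 : (P.b (I o)).lo a < x a := lt_of_le_of_ne h2.1 (Ne.symm h3)
        filter_upwards [hc.eventually (lt_mem_nhds h4)] with y hy
        exact ⟨fun h => by simp at h, fun _ => hy⟩
    apply hx.2
    rw [mem_interior_iff_mem_nhds]
    filter_upwards [hev] with y hy
    let o : Fin 3 → Bool := fun a => decide (x a ≤ y a)
    refine Set.mem_iUnion.2 ⟨I o, fun a => ?_⟩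
    have h1 := hy o a
    have h2 := hI1 o a
    by_cases h : x a ≤ y a
    · have ho : o a = true := by simp [o, h]
      exact ⟨h2.1.trans h, (h1.1 ho).le⟩
    · have ho : o a = false := by simp [o, h]
      exact ⟨(h1.2 ho).le, (not_le.1 h).le.trans h2.2⟩
  · intro x hx
    obtain ⟨f, hf⟩ := Set.mem_iUnion.1 hx
    exact f.2 hf

end Pool.Agent.Ortho.Orthotree
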