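import Mathlib

set_option autoImplicit false

/-!
# Edge-unfolding gridded orthotrees (MP_2db2c2_co). Definitions.

* `Brick`: closed box with edges parallel to the axes; `Brick.face b a s` is its face orthogonal to the axis `a` (on the upper side
  if `s`), `Brick.edge b a s a' s'` the edge common to the faces `(a, s)` and `(a', s')` (`a' ≠ a`), `Brick.vertex` a vertex.
* `Orthotree n`: `n` bricks and a tree on `Fin n` as in the problem.
* `Orthotree.body`: the union of the bricks.
* `Orthotree.Face`: the faces of the gridded surface = the faces of bricks contained in the boundary of the body.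
* `Orthotree.IsSide e f`: the segment `e` is one of the four edges of the face `f`.
* `Orthotree.glue Cut`: faces attached along the edges which are not cut.
* `Orthotree.IsNet Cut φ`: cutting along the edges in `Cut` gives a single simply connected piece (a tree of rectangles), `φ f` is the
  placement of the face `f` in the plane: congruent on `f`, two faces attached along an uncut edge are placed compatibly, no overlap.
-/

namespace Pool.Agent.Ortho

/-- space -/
abbrev E3 := EuclideanSpace ℝ (Fin 3)

/-- plane -/
abbrev E2 := EuclideanSpace ℝ (Fin 2)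

/-- a closed box with edges parallel to the coordinate axes -/
structure Brick where
  /-- lower ends of the coordinate intervals -/
  lo : Fin 3 → ℝ
  /-- upper ends of the coordinate intervals -/
  hi : Fin 3 → ℝ
  lt : ∀ a, lo a < hi a

namespace Brick

/-- one end of the coordinate interval `a` (the upper end if `s`) -/
def bd (b : Brick) (a : Fin 3) (s : Bool) : ℝ := if s then b.hi a else b.lo a

/-- the box -/
def set (b : Brick) : Set E3 := {x | ∀ a, b.lo a ≤ x a ∧ x a ≤ b.hi a}

/-- the face orthogonal to the axis `a` on the side `s` -/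
def face (b : Brick) (a : Fin 3) (s : Bool) : Set E3 := {x | x ∈ b.set ∧ x a = b.bd a s}

/-- the edge of the face `(a, s)` on the side `(a', s')` (used for `a' ≠ a`) -/
def edge (b : Brick) (a : Fin 3) (s : Bool) (a' : Fin 3) (s' : Bool) : Set E3 :=
  {x | x ∈ b.set ∧ x a = b.bd a s ∧ x a' = b.bd a' s'}

/-- the vertex of the face `(a, s)` on the sides `(a', s')`, `(a'', s'')` (used for distinct `a, a', a''`) -/
def vertex (b : Brick) (a : Fin 3) (s : Bool) (a' : Fin 3) (s' : Bool) (a'' : Fin 3) (s'' : Bool) :
    Set E3 :=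
  {x | x ∈ b.set ∧ x a = b.bd a s ∧ x a' = b.bd a' s' ∧ x a'' = b.bd a'' s''}

end Brick

/-- an orthotree with `n` bricks -/
structure Orthotree (n : ℕ) where
  /-- the bricks -/
  b : Fin n → Brick
  /-- the tree -/
  T : SimpleGraph (Fin n)
  tree : T.IsTree
  /-- bricks adjacent in the tree meet in a face of both -/
  adj : ∀ i j, T.Adj i j → (∃ a s, (b i).set ∩ (b j).set = (b i).face a s) ∧
    (∃ a s, (b i).set ∩ (b j).set = (b j).face a s)
  /-- other pairs of bricks are disjoint or meet in an edge or a vertex of `b i ∩ b k` for a neighbour `k` of `i` -/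
  nonadj : ∀ i j, i ≠ j → ¬ T.Adj i j → (b i).set ∩ (b j).set = ∅ ∨
    ∃ k, T.Adj i k ∧ ∃ a s, (b i).set ∩ (b k).set = (b i).face a s ∧
      ((∃ a' s', a' ≠ a ∧ (b i).set ∩ (b j).set = (b i).edge a s a' s') ∨
        (∃ a' s' a'' s'', a' ≠ a ∧ a'' ≠ a ∧ a'' ≠ a' ∧
          (b i).set ∩ (b j).set = (b i).vertex a s a' s' a'' s''))

namespace Orthotree

variable {n : ℕ} (P : Orthotree n)

/-- the union of the bricks -/
def body : Set E3 := ⋃ i, (P.b i).set

/-- brick, axis, side -/
abbrev Pos (n : ℕ) := Fin n × Fin 3 × Bool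

/-- the rectangle -/
def rect (f : Pos n) : Set E3 := (P.b f.1).face f.2.1 f.2.2

/-- the faces of the gridded surface -/
def Face : Type := {f : Pos n // P.rect f ⊆ frontier P.body}

/-- `e` is one of the four sides of the rectangle `f` -/
def IsSide (e : Set E3) (f : Pos n) : Prop :=
  ∃ a' s', a' ≠ f.2.1 ∧ e = (P.b f.1).edge f.2.1 f.2.2 a' s'

/-- the edges of the gridded surface: edges of bricks which lie on the boundary of the body -/
def IsSurfEdge (e : Set E3) : Prop :=
  ∃ f : Pos n, P.IsSide e f ∧ e ⊆ frontier P.body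

/-- faces of the surface attached along an edge which is not cut -/
def glue (Cut : Set (Set E3)) : SimpleGraph P.Face where
  Adj f g := f ≠ g ∧ ∃ e, e ∉ Cut ∧ P.IsSide e f.1 ∧ P.IsSide e g.1
  symm := ⟨fun _ _ h => ⟨h.1.symm, h.2.imp fun _ he => ⟨he.1, he.2.2, he.2.1⟩⟩⟩
  loopless := ⟨fun _ h => h.1 rfl⟩

/-- cutting along the edges in `Cut` gives a net, which is placed in the plane by `φ` -/
structure IsNet (Cut : Set (Set E3)) (φ : P.Face → E3 → E2) : Prop where
  /-- only edges of the gridded surface are cut -/
  edges : ∀ e ∈ Cut, P.IsSurfEdge e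
  /-- the cut surface is connected and simply connected -/
  tree : (P.glue Cut).IsTree
  /-- every face is mapped congruently -/
  isom : ∀ f : P.Face, ∀ x ∈ P.rect f.1, ∀ y ∈ P.rect f.1, dist (φ f x) (φ f y) = dist x y
  /-- faces are attached along the uncut edges -/
  fit : ∀ (f g : P.Face) (e : Set E3), f ≠ g → e ∉ Cut → P.IsSide e f.1 → P.IsSide e g.1 →
    ∀ x ∈ e, φ f x = φ g x
  /-- no overlap -/
  disj : ∀ f g : P.Face, f ≠ g →
    Disjoint (interior (φ f '' P.rect f.1)) (interior (φ g '' P.rect g.1))

/-- the gridded surface has an edge unfolding to a net -/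
def HasNet : Prop := ∃ (Cut : Set (Set E3)) (φ : P.Face → E3 → E2), P.IsNet Cut φ

/-- `j` is the neighbour of `i` at the face `(a, s)` -/
def Nb (i : Fin n) (a : Fin 3) (s : Bool) (j : Fin n) : Prop :=
  P.T.Adj i j ∧ (P.b i).set ∩ (P.b j).set = (P.b i).face a s

/-- the face is not covered by a neighbour -/
def Exposed (f : Pos n) : Prop := ∀ j, ¬ P.Nb f.1 f.2.1 f.2.2 j

end Orthotree

end Pool.Agent.Ortho
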