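import Pool.Agent.Ortho.Geo

set_option autoImplicit false

/-!
# Ortho/Front: the faces contained in the boundary are the faces which are not covered by a neighbour

* `Exposed f → rect f ⊆ frontier`: let `x` be in the relative interior of the face `f = (i, a, s)` (`x a = bd a s`, the other coordinates
  strictly between `lo` and `hi`). No other brick contains `x`: for a tree neighbour `j`, `b_i ∩ b_j` is a face `(a', s') ≠ (a, s)` of `b_i`
  (`f` is exposed), where `x a' = bd a' s'` is impossible (for `a' = a`: the other end); for the other `j`, `b_i ∩ b_j` is empty or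
  is contained in an edge or a vertex of a face, and on it two coordinates are ends. All bricks are closed and there are finitely many, so near
  `x` the body is equal to `b_i`; hence `x ∈ frontier body` (points with `x a` slightly moved outwards are not in `b_i`). The frontier is
  closed and every point of the face is a limit of points of the relative interior.
* `rect f ⊆ frontier → Exposed f`: if `j` is the neighbour at `f`, the midpoint of the face is in the interior of `b_i ∪ b_j` (`nb_coord`).
-/

namespace Pool.Agent.Ortho.Orthotree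

variable {n : ℕ} (P : Orthotree n)

theorem front_cont (a : Fin 3) : Continuous (fun x : E3 => x a) := by
  fun_prop

theorem front_closed (b : Brick) : IsClosed b.set := by
  have h : b.set = ⋂ a, ({x : E3 | b.lo a ≤ x a} ∩ {x : E3 | x a ≤ b.hi a}) := by
    ext x
    simp only [Brick.set, Set.mem_ofPred_eq, Set.mem_iInter, Set.mem_inter_iff]
  rw [h]
  exact isClosed_iInter fun a => (isClosed_le continuous_const (front_cont a)).inter
    (isClosed_le (front_cont a) continuous_const)

/-- a point in the relative interior of an exposed face is in no other brick -/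
theorem front_only {i : Fin n} {a : Fin 3} {s : Bool} (hE : P.Exposed (i, a, s)) {x : E3}
    (hx : x ∈ (P.b i).set) (hxa : x a = (P.b i).bd a s)
    (hint : ∀ a', a' ≠ a → (P.b i).lo a' < x a' ∧ x a' < (P.b i).hi a') {j : Fin n}
    (hj : j ≠ i) : x ∉ (P.b j).set := by
  intro hxj
  have key : ∀ a' s', x a' = (P.b i).bd a' s' → a' = a ∧ s' = s := by
    intro a' s' h
    have haa : a' = a := by
      by_contra hne
      obtain ⟨h1, h2⟩ := hint a' hne
      cases s' with
      | true => exact absurd h (ne_of_lt h2)
      | false => exact absurd h (ne_of_gt h1)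
    subst haa
    exact ⟨rfl, (P.b i).bd_inj (h.symm.trans hxa)⟩
  by_cases hadj : P.T.Adj i j
  · obtain ⟨a', s', hs⟩ := (P.adj i j hadj).1
    have hxm : x ∈ (P.b i).face a' s' := hs ▸ ⟨hx, hxj⟩
    obtain ⟨h1, h2⟩ := key a' s' hxm.2
    subst h1
    subst h2
    exact hE j ⟨hadj, hs⟩
  · rcases P.nonadj i j (Ne.symm hj) hadj with h0 | ⟨k, _, a', s', _, h1 | h1⟩
    · have : x ∈ (∅ : Set E3) := h0 ▸ ⟨hx, hxj⟩
      exact this
    · obtain ⟨a'', s'', hne, he⟩ := h1
      have hxm : x ∈ (P.b i).edge a' s' a'' s'' := he ▸ ⟨hx, hxj⟩
      exact hne ((key a'' s'' hxm.2.2).1.trans (key a' s' hxm.2.1).1.symm)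
    · obtain ⟨a'', s'', a3, s3, hne, _, _, he⟩ := h1
      have hxm : x ∈ (P.b i).vertex a' s' a'' s'' a3 s3 := he ▸ ⟨hx, hxj⟩
      exact hne ((key a'' s'' hxm.2.2.1).1.trans (key a' s' hxm.2.1).1.symm)

/-- a point in the relative interior of an exposed face is not an interior point of the body -/
theorem front_not_interior {i : Fin n} {a : Fin 3} {s : Bool} (hE : P.Exposed (i, a, s)) {x : E3}
    (hx : x ∈ (P.b i).set) (hxa : x a = (P.b i).bd a s)
    (hint : ∀ a', a' ≠ a → (P.b i).lo a' < x a' ∧ x a' < (P.b i).hi a') :
    x ∉ interior P.body := by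
  intro hxI
  let σ : ℝ := if s then 1 else -1
  have hcont : Continuous (fun ε : ℝ => x + ε • (σ • (EuclideanSpace.single a (1 : ℝ) : E3))) := by
    fun_prop
  have h0 : (fun ε : ℝ => x + ε • (σ • (EuclideanSpace.single a (1 : ℝ) : E3))) 0 = x := by
    simp
  have h1 : ∀ᶠ ε in nhdsWithin (0 : ℝ) (Set.Ioi 0),
      x + ε • (σ • (EuclideanSpace.single a (1 : ℝ) : E3)) ∈ interior P.body := by
    have h2 := (hcont.continuousAt (x := 0)).eventually
      (isOpen_interior.mem_nhds (by rw [h0]; exact hxI))
    exact h2.filter_mono nhdsWithin_le_nhds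
  have h3 : ∀ᶠ ε in nhdsWithin (0 : ℝ) (Set.Ioi 0), ∀ j,
      x + ε • (σ • (EuclideanSpace.single a (1 : ℝ) : E3)) ∉ (P.b j).set := by
    refine Filter.eventually_all.2 fun j => ?_
    rcases eq_or_ne j i with rfl | hji
    · filter_upwards [self_mem_nhdsWithin] with ε hε hmem
      have hε' : (0 : ℝ) < ε := hε
      have h4 := hmem a
      have h5 : (x + ε • (σ • (EuclideanSpace.single a (1 : ℝ) : E3))) a = x a + ε * σ := by
        simp
      rw [h5, hxa] at h4
      cases s with
      | true =>
        have h6 : σ = 1 := rfl
        rw [h6] at h4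
        simp only [Brick.bd, if_true] at h4
        linarith [h4.2]
      | false =>
        have h6 : σ = -1 := rfl
        rw [h6] at h4
        simp only [Brick.bd, Bool.false_eq_true, if_false] at h4
        linarith [h4.1]
    · have h4 : x ∈ ((P.b j).set)ᶜ := P.front_only hE hx hxa hint hji
      have h5 := (hcont.continuousAt (x := 0)).eventually
        ((front_closed (P.b j)).isOpen_compl.mem_nhds (by rw [h0]; exact h4))
      exact h5.filter_mono nhdsWithin_le_nhds
  obtain ⟨ε, h4, h5⟩ := (h1.and h3).exists
  obtain ⟨j, hj⟩ := Set.mem_iUnion.1 (interior_subset h4)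
  exact h5 j hj

theorem exposed_iff (f : Pos n) : P.Exposed f ↔ P.rect f ⊆ frontier P.body := by
  obtain ⟨i, a, s⟩ := f
  -- the centre of the face
  let c : E3 := WithLp.toLp 2
    (Function.update (fun e => ((P.b i).lo e + (P.b i).hi e) / 2) a ((P.b i).bd a s))
  have hca : c a = (P.b i).bd a s := by
    show Function.update (fun e => ((P.b i).lo e + (P.b i).hi e) / 2) a ((P.b i).bd a s) a = _
    rw [Function.update_self]
  have hce : ∀ e, e ≠ a → c e = ((P.b i).lo e + (P.b i).hi e) / 2 := by
    intro e he
    show Function.update (fun e => ((P.b i).lo e + (P.b i).hi e) / 2) a ((P.b i).bd a s) e = _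
    rw [Function.update_of_ne he]
  have hcint : ∀ e, e ≠ a → (P.b i).lo e < c e ∧ c e < (P.b i).hi e := by
    intro e he
    rw [hce e he]
    have := (P.b i).lt e
    constructor <;> linarith
  have hcset : c ∈ (P.b i).set := by
    intro e
    rcases eq_or_ne e a with rfl | he
    · rw [hca]
      exact ⟨(P.b i).lo_le_bd e s, (P.b i).bd_le_hi e s⟩
    · exact ⟨(hcint e he).1.le, (hcint e he).2.le⟩
  constructor
  · intro hE x0 hx0
    have hx0s : x0 ∈ (P.b i).set := hx0.1
    have hx0a : x0 a = (P.b i).bd a s := hx0.2
    refine ⟨subset_closure (Set.mem_iUnion.2 ⟨i, hx0s⟩), fun hint => ?_⟩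
    have hg : Continuous (fun t : ℝ => x0 + t • (c - x0)) := by fun_prop
    have hg0 : (fun t : ℝ => x0 + t • (c - x0)) 0 = x0 := by simp
    have h1 : ∀ᶠ t in nhdsWithin (0 : ℝ) (Set.Ioi 0), x0 + t • (c - x0) ∈ interior P.body := by
      have h2 := (hg.continuousAt (x := 0)).eventually
        (isOpen_interior.mem_nhds (by rw [hg0]; exact hint))
      exact h2.filter_mono nhdsWithin_le_nhds
    obtain ⟨t, ht, ht0, ht1⟩ := (h1.and (Ioo_mem_nhdsGT (zero_lt_one (α := ℝ)))).exists
    have hcoord : ∀ e, (x0 + t • (c - x0)) e = x0 e + t * (c e - x0 e) := by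
      intro e
      simp
    have hxa : (x0 + t • (c - x0)) a = (P.b i).bd a s := by
      rw [hcoord, hx0a, hca]
      ring
    have hxint : ∀ e, e ≠ a → (P.b i).lo e < (x0 + t • (c - x0)) e ∧
        (x0 + t • (c - x0)) e < (P.b i).hi e := by
      intro e he
      rw [hcoord]
      obtain ⟨h3, h4⟩ := hx0s e
      obtain ⟨h5, h6⟩ := hcint e he
      constructor
      · nlinarith [mul_pos ht0 (sub_pos.2 h5), mul_nonneg (sub_nonneg.2 ht1.le) (sub_nonneg.2 h3)]
      · nlinarith [mul_pos ht0 (sub_pos.2 h6), mul_nonneg (sub_nonneg.2 ht1.le) (sub_nonneg.2 h4)]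
    have hxset : x0 + t • (c - x0) ∈ (P.b i).set := by
      intro e
      rcases eq_or_ne e a with rfl | he
      · rw [hxa]
        exact ⟨(P.b i).lo_le_bd e s, (P.b i).bd_le_hi e s⟩
      · exact ⟨(hxint e he).1.le, (hxint e he).2.le⟩
    exact P.front_not_interior hE hxset hxa hxint ht
  · intro hsub j hnb
    have hcf : c ∈ frontier P.body := hsub ⟨hcset, hca⟩
    apply hcf.2
    obtain ⟨hbd, hrest, -⟩ := P.nb_coord hnb
    -- the open box around the common face
    let L : ℝ := if s then (P.b i).lo a else (P.b j).lo a
    let U : ℝ := if s then (P.b j).hi a else (P.b i).hi a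
    let W : Set E3 := (⋂ e, {y : E3 | e ≠ a → (P.b i).lo e < y e ∧ y e < (P.b i).hi e}) ∩
      ({y : E3 | L < y a} ∩ {y : E3 | y a < U})
    have hWo : IsOpen W := by
      refine IsOpen.inter (isOpen_iInter_of_finite fun e => ?_)
        ((isOpen_lt continuous_const (front_cont a)).inter
          (isOpen_lt (front_cont a) continuous_const))
      by_cases he : e = a
      · have : {y : E3 | e ≠ a → (P.b i).lo e < y e ∧ y e < (P.b i).hi e} = Set.univ := by
          ext y
          simp [he]
        rw [this]
        exact isOpen_univ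
      · have : {y : E3 | e ≠ a → (P.b i).lo e < y e ∧ y e < (P.b i).hi e} =
            {y : E3 | (P.b i).lo e < y e} ∩ {y : E3 | y e < (P.b i).hi e} := by
          ext y
          simp [he]
        rw [this]
        exact (isOpen_lt continuous_const (front_cont e)).inter
          (isOpen_lt (front_cont e) continuous_const)
    have hcW : c ∈ W := by
      refine ⟨Set.mem_iInter.2 fun e he => hcint e he, ?_⟩
      have h1 := (P.b i).lt a
      have h2 := (P.b j).lt a
      cases s with
      | true =>
        simp only [Brick.bd, Bool.not_true, Bool.false_eq_true, if_false, if_true] at hbd hca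
        have hL : L = (P.b i).lo a := rfl
        have hU : U = (P.b j).hi a := rfl
        constructor
        · show L < c a
          rw [hca, hL]
          exact h1
        · show c a < U
          rw [hca, hU, ← hbd]
          exact h2
      | false =>
        simp only [Brick.bd, Bool.not_false, Bool.false_eq_true, if_false, if_true] at hbd hca
        have hL : L = (P.b j).lo a := rfl
        have hU : U = (P.b i).hi a := rfl
        constructor
        · show L < c a
          rw [hca, hL, ← hbd]
          exact h2
        · show c a < U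
          rw [hca, hU]
          exact h1
    have hWsub : W ⊆ P.body := by
      rintro y ⟨hy1, hy2, hy3⟩
      have hy : ∀ e, e ≠ a → (P.b i).lo e < y e ∧ y e < (P.b i).hi e :=
        fun e he => Set.mem_iInter.1 hy1 e he
      cases s with
      | true =>
        simp only [Brick.bd, Bool.not_true, Bool.false_eq_true, if_false, if_true] at hbd
        have hL : (P.b i).lo a < y a := hy2
        have hU : y a < (P.b j).hi a := hy3
        rcases le_total (y a) ((P.b i).hi a) with h | h
        · refine Set.mem_iUnion.2 ⟨i, fun e => ?_⟩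
          rcases eq_or_ne e a with rfl | he
          · exact ⟨hL.le, h⟩
          · exact ⟨(hy e he).1.le, (hy e he).2.le⟩
        · refine Set.mem_iUnion.2 ⟨j, fun e => ?_⟩
          rcases eq_or_ne e a with rfl | he
          · exact ⟨by rw [hbd]; exact h, hU.le⟩
          · rw [(hrest e he).1, (hrest e he).2]
            exact ⟨(hy e he).1.le, (hy e he).2.le⟩
      | false =>
        simp only [Brick.bd, Bool.not_false, Bool.false_eq_true, if_false, if_true] at hbd
        have hL : (P.b j).lo a < y a := hy2
        have hU : y a < (P.b i).hi a := hy3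
        rcases le_total (y a) ((P.b i).lo a) with h | h
        · refine Set.mem_iUnion.2 ⟨j, fun e => ?_⟩
          rcases eq_or_ne e a with rfl | he
          · exact ⟨hL.le, by rw [hbd]; exact h⟩
          · rw [(hrest e he).1, (hrest e he).2]
            exact ⟨(hy e he).1.le, (hy e he).2.le⟩
        · refine Set.mem_iUnion.2 ⟨i, fun e => ?_⟩
          rcases eq_or_ne e a with rfl | he
          · exact ⟨h, hU.le⟩
          · exact ⟨(hy e he).1.le, (hy e he).2.le⟩
    exact mem_interior.2 ⟨W, hWsub, hWo, hcW⟩

end Pool.Agent.Ortho.Orthotree
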