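import Pool.Agent.Ortho.Geo

/-!
# Ortho/Side: an edge of the surface belongs to at most two faces

Let `e` be a side of three exposed faces `f, g, h`. `e` is a segment parallel to an axis `c`; let `a, b` be the other two axes. Every brick
`i` which has `e` as an edge (`e = (b i).edge a s b s'` for a unique pair of sides `(s, s')`) lies in the quadrant of `e` given by
`(s, s')`: near `e` it consists of the points with `x a` below (`s = true`) or above (`s = false`) the value on `e`, same for `b`, and the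
coordinate interval `c` is that of `e`. It has exactly two faces with the side `e`: `(a, s)` and `(b, s')`.
(1) Different bricks having `e` as an edge lie in different quadrants: otherwise a box with non-empty interior is contained in both,
against `inter_thin`.
(2) If the quadrants of `i` and `j` are adjacent, say `(s, s')` and `(!s, s')`, then `b_i ∩ b_j` contains a part of the plane `x a = const` with
two non-constant coordinates, so `i, j` are not a pair as in `nonadj`, hence they are adjacent in the tree, `b_i ∩ b_j` is a face of both, namely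
`(a, s)` for `i` and `(a, !s)` for `j` (it contains points with non-constant coordinates `b`, `c`): these faces are not exposed.
(3) If the quadrants of `i` and `j` are opposite, then `b_i ∩ b_j` is contained in the line of `e` near... it contains `e`, so it is
not empty; two coordinates... `i, j` are not adjacent in the tree (`b_i ∩ b_j` is contained in `{x a = const, x b = const}`, which contains no face),
so by `nonadj` there is a tree neighbour `k` of `i` with `b_i ∩ b_k` a face of `b_i` containing `e = b_i ∩ b_j`: it is the face `(a, s)` or `(b, s')` of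
`b_i`; so that face is not exposed (and by `nb_coord` `e` is an edge of `b_k`, whose quadrant is adjacent to those of `i` and of `j`).
Proof of the theorem. `h ∉ {f, g}`. If two of the three faces belong to the same brick `i`, they are its two faces with side `e`, both
exposed; the third one belongs to another brick `j` (a brick has only two faces with side `e`); by (2) or (3) one of the two faces of `i` is not exposed:
contradiction. Otherwise the three bricks are different, in three different quadrants, so one of the quadrants is adjacent to both others, and by (2)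
both faces at `e` of that brick are covered: contradiction.
-/

namespace Pool.Agent.Ortho

/-- the segment of the edge of the brick `B` parallel to the axis `c`, on the sides `σ` -/
def sgm (B : Brick) (c : Fin 3) (σ : Fin 3 → Bool) : Set E3 :=
  {x | (∀ t, t ≠ c → x t = B.bd t (σ t)) ∧ B.lo c ≤ x c ∧ x c ≤ B.hi c}

theorem bd_mem (B : Brick) (t : Fin 3) (s : Bool) : B.lo t ≤ B.bd t s ∧ B.bd t s ≤ B.hi t := by
  have h := (B.lt t).le
  cases s
  · exact ⟨le_of_eq rfl, h⟩
  · exact ⟨h, le_of_eq rfl⟩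

theorem bd_inj (B : Brick) {t : Fin 3} {s s' : Bool} (h : B.bd t s = B.bd t s') : s = s' := by
  have h1 := B.lt t
  cases s <;> cases s' <;> simp only [Brick.bd, if_true] at h
  · rfl
  · exact absurd h h1.ne
  · exact absurd h h1.ne'
  · rfl

theorem third (a a' : Fin 3) (h : a' ≠ a) : ∃ c, c ≠ a ∧ c ≠ a' ∧ ∀ t, t ≠ c → t = a ∨ t = a' := by
  revert a a'
  decide

theorem others (c : Fin 3) : ∃ a b : Fin 3, a ≠ c ∧ b ≠ c ∧ a ≠ b ∧ ∀ t, t ≠ c → t = a ∨ t = b := by
  revert c
  decide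

theorem two_of (c t p q : Fin 3) (h1 : t ≠ c) (h2 : p ≠ c) (h3 : q ≠ c) (h4 : p ≠ q) :
    t = p ∨ t = q := by
  revert c t p q
  decide

theorem pig (c a1 a2 a3 : Fin 3) (h1 : c ≠ a1) (h2 : c ≠ a2) (h3 : c ≠ a3) (h4 : a1 ≠ a2)
    (h5 : a3 ≠ a1) (h6 : a3 ≠ a2) : False := by
  revert c a1 a2 a3
  decide

theorem edge_eq_sgm (B : Brick) {a a' : Fin 3} (h : a' ≠ a) (s s' : Bool) :
    ∃ (c : Fin 3) (σ : Fin 3 → Bool), c ≠ a ∧ c ≠ a' ∧ σ a = s ∧ σ a' = s' ∧
      B.edge a s a' s' = sgm B c σ := by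
  obtain ⟨c, h1, h2, h3⟩ := third a a' h
  refine ⟨c, fun t => if t = a then s else s', h1, h2, by simp, by simp [h], ?_⟩
  ext x
  constructor
  · rintro ⟨hx, hxa, hxa'⟩
    refine ⟨fun t ht => ?_, hx c⟩
    rcases h3 t ht with rfl | rfl
    · simpa using hxa
    · simpa [h] using hxa'
  · rintro ⟨hx, hxc⟩
    refine ⟨fun t => ?_, ?_, ?_⟩
    · by_cases ht : t = c
      · subst ht
        exact hxc
      · rw [hx t ht]
        exact bd_mem _ _ _
    · simpa using hx a h1.symm
    · simpa [h] using hx a' h2.symm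

theorem sgm_le {B B' : Brick} {c c' : Fin 3} {σ τ : Fin 3 → Bool} (h : sgm B c σ ⊆ sgm B' c' τ) :
    c = c' ∧ (∀ t, t ≠ c → B.bd t (σ t) = B'.bd t (τ t)) ∧ B'.lo c ≤ B.lo c ∧ B.hi c ≤ B'.hi c := by
  have h1 : (WithLp.toLp 2 (fun t => if t = c then B.lo c else B.bd t (σ t)) : E3) ∈ sgm B c σ := by
    refine ⟨fun t ht => by simp [ht], ?_, ?_⟩
    · simp
    · simpa using (B.lt c).le
  have h2 : (WithLp.toLp 2 (fun t => if t = c then B.hi c else B.bd t (σ t)) : E3) ∈ sgm B c σ := by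
    refine ⟨fun t ht => by simp [ht], ?_, ?_⟩
    · simpa using (B.lt c).le
    · simp
  have h3 := h h1
  have h4 := h h2
  have hc : c = c' := by
    by_contra hcon
    have h5 := h3.1 c hcon
    have h6 := h4.1 c hcon
    simp only [if_true] at h5 h6
    exact (B.lt c).ne (h5.trans h6.symm)
  subst hc
  refine ⟨rfl, fun t ht => ?_, ?_, ?_⟩
  · have := h3.1 t ht
    simpa [ht] using this
  · have := h3.2.1
    simpa using this
  · have := h4.2.2
    simpa using this

theorem sgm_nonempty (B : Brick) (c : Fin 3) (σ : Fin 3 → Bool) : (sgm B c σ).Nonempty := by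
  refine ⟨(WithLp.toLp 2 (fun t => if t = c then B.lo c else B.bd t (σ t)) : E3), fun t ht => by simp [ht], ?_, ?_⟩
  · simp
  · simpa using (B.lt c).le

theorem sgm_sub (B : Brick) (c : Fin 3) (σ : Fin 3 → Bool) : sgm B c σ ⊆ B.set := by
  rintro x ⟨hx, hxc⟩ t
  by_cases ht : t = c
  · subst ht
    exact hxc
  · rw [hx t ht]
    exact bd_mem _ _ _

theorem prop3 (sa sb ta tb ra rb : Bool) (A1 B1 A2 B2 A3 B3 : Prop)
    (h1 : A1 ∨ B1) (h2 : A2 ∨ B2) (h3 : A3 ∨ B3)
    (q12 : ¬ (sa = ta ∧ sb = tb)) (q12a : sa ≠ ta → sb = tb → ¬ A1 ∧ ¬ A2)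
    (q12b : sb ≠ tb → sa = ta → ¬ B1 ∧ ¬ B2)
    (q13 : ¬ (sa = ra ∧ sb = rb)) (q13a : sa ≠ ra → sb = rb → ¬ A1 ∧ ¬ A3)
    (q13b : sb ≠ rb → sa = ra → ¬ B1 ∧ ¬ B3)
    (q23 : ¬ (ta = ra ∧ tb = rb)) (q23a : ta ≠ ra → tb = rb → ¬ A2 ∧ ¬ A3)
    (q23b : tb ≠ rb → ta = ra → ¬ B2 ∧ ¬ B3) : False := by
  cases sa <;> cases sb <;> cases ta <;> cases tb <;> cases ra <;> cases rb <;>
    first | (exact q12 ⟨rfl, rfl⟩) | (exact q13 ⟨rfl, rfl⟩) | (exact q23 ⟨rfl, rfl⟩) | skip
  all_goals
    simp only [ne_eq, Bool.false_eq_true, Bool.true_eq_false, not_true_eq_false,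
      not_false_eq_true, IsEmpty.forall_iff, forall_const] at q12a q12b q13a q13b q23a q23b
  all_goals tauto

namespace Orthotree

variable {n : ℕ} (P : Orthotree n)

/-- the data of two bricks with a common edge -/
structure Two (i j : Fin n) (c : Fin 3) (σ τ : Fin 3 → Bool) : Prop where
  v : ∀ t, t ≠ c → (P.b i).bd t (σ t) = (P.b j).bd t (τ t)
  lo : (P.b i).lo c = (P.b j).lo c
  hi : (P.b i).hi c = (P.b j).hi c

variable {P}

theorem Two.symm {i j : Fin n} {c : Fin 3} {σ τ : Fin 3 → Bool} (h : P.Two i j c σ τ) :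
    P.Two j i c τ σ := ⟨fun t ht => (h.v t ht).symm, h.lo.symm, h.hi.symm⟩

theorem Two.const {i j : Fin n} {c : Fin 3} {σ τ : Fin 3 → Bool} (h : P.Two i j c σ τ) {t : Fin 3}
    (ht : t ≠ c) (hst : σ t ≠ τ t) (x : E3) (hx : x ∈ (P.b i).set ∩ (P.b j).set) :
    x t = (P.b i).bd t (σ t) := by
  have h1 := h.v t ht
  have h2 := hx.1 t
  have h3 := hx.2 t
  cases hs : σ t <;> cases hτ : τ t <;> rw [hs, hτ] at hst h1 <;>
    simp only [Brick.bd, if_true, Bool.false_eq_true, if_false] at h1 ⊢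
  · exact absurd rfl hst
  · linarith [h2.1, h3.2]
  · linarith [h2.2, h3.1]
  · exact absurd rfl hst

theorem Two.nonconst {i j : Fin n} {c : Fin 3} {σ τ : Fin 3 → Bool} (h : P.Two i j c σ τ)
    {t : Fin 3} (ht : t = c ∨ σ t = τ t) : ∃ x ∈ (P.b i).set ∩ (P.b j).set,
      ∃ y ∈ (P.b i).set ∩ (P.b j).set, x t ≠ y t := by
  obtain ⟨z, hz⟩ := sgm_nonempty (P.b i) c σ
  have hzi := sgm_sub _ _ _ hz
  have hzj : z ∈ (P.b j).set := by
    refine sgm_sub (P.b j) c τ ⟨fun t ht => ?_, ?_, ?_⟩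
    · rw [← h.v t ht]
      exact hz.1 t ht
    · rw [← h.lo]
      exact hz.2.1
    · rw [← h.hi]
      exact hz.2.2
  obtain ⟨w, hw, hwi, hwj⟩ : ∃ w, w ≠ z t ∧ ((P.b i).lo t ≤ w ∧ w ≤ (P.b i).hi t) ∧
      ((P.b j).lo t ≤ w ∧ w ≤ (P.b j).hi t) := by
    by_cases htc : t = c
    · subst htc
      by_cases hzt : z t = (P.b i).lo t
      · refine ⟨(P.b i).hi t, ?_, ⟨((P.b i).lt t).le, le_rfl⟩, ?_, ?_⟩
        · rw [hzt]
          exact ((P.b i).lt t).ne'
        · rw [← h.lo]
          exact ((P.b i).lt t).le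
        · rw [← h.hi]
      · refine ⟨(P.b i).lo t, fun h' => hzt h'.symm, ⟨le_rfl, ((P.b i).lt t).le⟩, ?_, ?_⟩
        · rw [← h.lo]
        · rw [← h.hi]
          exact ((P.b i).lt t).le
    · have hst : σ t = τ t := ht.resolve_left htc
      have hv := h.v t htc
      have hzv := hz.1 t htc
      rw [← hst] at hv
      rw [hzv]
      have hi1 := (P.b i).lt t
      have hj1 := (P.b j).lt t
      cases hs : σ t <;> rw [hs] at hv <;>
        simp only [Brick.bd, if_true, Bool.false_eq_true, if_false] at hv ⊢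
      · refine ⟨min ((P.b i).hi t) ((P.b j).hi t), ?_, ⟨?_, min_le_left _ _⟩, ?_, min_le_right _ _⟩
        · refine ne_of_gt (lt_min hi1 ?_)
          rw [hv]
          exact hj1
        · refine le_min hi1.le ?_
          rw [hv]
          exact hj1.le
        · refine le_min ?_ hj1.le
          rw [← hv]
          exact hi1.le
      · refine ⟨max ((P.b i).lo t) ((P.b j).lo t), ?_, ⟨le_max_left _ _, ?_⟩, le_max_right _ _, ?_⟩
        · refine ne_of_lt (max_lt hi1 ?_)
          rw [hv]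
          exact hj1
        · refine max_le hi1.le ?_
          rw [hv]
          exact hj1.le
        · refine max_le ?_ hj1.le
          rw [← hv]
          exact hi1.le
  refine ⟨z, ⟨hzi, hzj⟩, (WithLp.toLp 2 (Function.update z.ofLp t w) : E3), ⟨?_, ?_⟩, ?_⟩
  · intro u
    by_cases hu : u = t
    · subst hu
      simpa using hwi
    · simpa [Function.update_of_ne hu] using hzi u
  · intro u
    by_cases hu : u = t
    · subst hu
      simpa using hwj
    · simpa [Function.update_of_ne hu] using hzj u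
  · simpa using hw.symm

/-- a nonconstant coordinate of a face -/
theorem face_nonconst (B : Brick) {a t : Fin 3} (s : Bool) (h : t ≠ a) :
    ∃ x ∈ B.face a s, ∃ y ∈ B.face a s, x t ≠ y t := by
  refine ⟨(WithLp.toLp 2 (fun u => if u = t then B.lo t else B.bd u s) : E3), ⟨fun u => ?_, ?_⟩,
    (WithLp.toLp 2 (fun u => if u = t then B.hi t else B.bd u s) : E3), ⟨fun u => ?_, ?_⟩, ?_⟩
  · by_cases hu : u = t
    · subst hu
      simpa using (B.lt u).le
    · simpa [hu] using bd_mem B u s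
  · simp [h.symm]
  · by_cases hu : u = t
    · subst hu
      simpa using (B.lt u).le
    · simpa [hu] using bd_mem B u s
  · simp [h.symm]
  · simpa using (B.lt t).ne

/-- different bricks at an edge are in different quadrants -/
theorem Two.q1 {i j : Fin n} {c : Fin 3} {σ τ : Fin 3 → Bool} (h : P.Two i j c σ τ) (hij : i ≠ j) :
    ∃ a, a ≠ c ∧ σ a ≠ τ a := by
  by_contra hcon
  push Not at hcon
  obtain ⟨a, s, has⟩ := P.inter_thin hij
  obtain ⟨x, hx, y, hy, hxy⟩ := h.nonconst (t := a) (by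
    by_cases hac : a = c
    · exact Or.inl hac
    · exact Or.inr (hcon a hac))
  exact hxy ((has x hx).trans (has y hy).symm)

/-- constant coordinates of the intersection -/
theorem Two.of_const {i j : Fin n} {c : Fin 3} {σ τ : Fin 3 → Bool} (h : P.Two i j c σ τ)
    {a : Fin 3} {s : Bool} (ha : ∀ x ∈ (P.b i).set ∩ (P.b j).set, x a = (P.b i).bd a s) :
    a ≠ c ∧ σ a ≠ τ a ∧ s = σ a := by
  have h1 : ¬ (a = c ∨ σ a = τ a) := by
    intro hcon
    obtain ⟨x, hx, y, hy, hxy⟩ := h.nonconst hcon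
    exact hxy ((ha x hx).trans (ha y hy).symm)
  push Not at h1
  refine ⟨h1.1, h1.2, ?_⟩
  obtain ⟨x, hx, -⟩ := h.nonconst (t := c) (Or.inl rfl)
  exact bd_inj (P.b i) ((ha x hx).symm.trans (h.const h1.1 h1.2 x hx))

theorem Two.nadj {i j : Fin n} {c : Fin 3} {σ τ : Fin 3 → Bool} (h : P.Two i j c σ τ) (hij : i ≠ j)
    (hadj : ¬ P.T.Adj i j) : (∃ a, a ≠ c ∧ ∃ k, P.Nb i a (σ a) k) ∧ ∀ a, a ≠ c → σ a ≠ τ a := by
  obtain ⟨x, hx, -⟩ := h.nonconst (t := c) (Or.inl rfl)
  rcases P.nonadj i j hij hadj with h0 | ⟨k, hk, a, s, hface, h0⟩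
  · rw [h0] at hx
    exact absurd hx (Set.notMem_empty x)
  have h1 : ∃ a', a' ≠ a ∧ ∃ s', ∀ x ∈ (P.b i).set ∩ (P.b j).set,
      x a = (P.b i).bd a s ∧ x a' = (P.b i).bd a' s' := by
    rcases h0 with ⟨a', s', ha', he⟩ | ⟨a', s', a'', s'', ha', -, -, he⟩
    · refine ⟨a', ha', s', fun x hx => ?_⟩
      rw [he] at hx
      exact ⟨hx.2.1, hx.2.2⟩
    · refine ⟨a', ha', s', fun x hx => ?_⟩
      rw [he] at hx
      exact ⟨hx.2.1, hx.2.2.1⟩
  obtain ⟨a', ha', s', h2⟩ := h1
  have h3 := h.of_const (a := a) (s := s) fun x hx => (h2 x hx).1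
  have h4 := h.of_const (a := a') (s := s') fun x hx => (h2 x hx).2
  refine ⟨⟨a, h3.1, k, hk, ?_⟩, fun u hu => ?_⟩
  · rw [← h3.2.2]
    exact hface
  · rcases two_of c u a a' hu h3.1 h4.1 ha'.symm with rfl | rfl
    · exact h3.2.1
    · exact h4.2.1

theorem Two.adj {i j : Fin n} {c : Fin 3} {σ τ : Fin 3 → Bool} (h : P.Two i j c σ τ)
    (hadj : P.T.Adj i j) : ∃ a, a ≠ c ∧ σ a ≠ τ a ∧ P.Nb i a (σ a) j ∧
      ∀ t, t ≠ c → t ≠ a → σ t = τ t := by
  obtain ⟨a, s, hnb⟩ := P.exists_nb hadj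
  have h1 : ∀ x ∈ (P.b i).set ∩ (P.b j).set, x a = (P.b i).bd a s := by
    intro x hx
    rw [hnb.2] at hx
    exact hx.2
  have h2 := h.of_const h1
  refine ⟨a, h2.1, h2.2.1, ?_, fun t htc hta => ?_⟩
  · rw [← h2.2.2]
    exact hnb
  · by_contra hcon
    obtain ⟨x, hx, y, hy, hxy⟩ := face_nonconst (P.b i) s hta
    rw [← hnb.2] at hx hy
    exact hxy ((h.const htc hcon x hx).trans (h.const htc hcon y hy).symm)

/-- one of the two faces at the edge is covered -/
theorem Two.q3 {i j : Fin n} {c : Fin 3} {σ τ : Fin 3 → Bool} (h : P.Two i j c σ τ) (hij : i ≠ j) :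
    ∃ a, a ≠ c ∧ ∃ k, P.Nb i a (σ a) k := by
  by_cases hadj : P.T.Adj i j
  · obtain ⟨a, ha, -, hnb, -⟩ := h.adj hadj
    exact ⟨a, ha, j, hnb⟩
  · exact (h.nadj hij hadj).1

/-- bricks in adjacent quadrants are neighbours -/
theorem Two.q2 {i j : Fin n} {c : Fin 3} {σ τ : Fin 3 → Bool} (h : P.Two i j c σ τ) (hij : i ≠ j)
    {a b : Fin 3} (ha : a ≠ c) (hb : b ≠ c) (hσ : σ a ≠ τ a) (hτ : σ b = τ b) :
    ¬ P.Exposed (i, a, σ a) ∧ ¬ P.Exposed (j, a, τ a) := by
  by_cases hadj : P.T.Adj i j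
  · obtain ⟨a', ha', hs', hnb, hall⟩ := h.adj hadj
    have haa : a = a' := by
      by_contra hcon
      exact hσ (hall a ha hcon)
    subst haa
    refine ⟨fun hE => hE j hnb, fun hE => hE i ?_⟩
    have h1 := (P.nb_coord hnb).2.2
    have h2 : τ a = !(σ a) := by
      cases hs : σ a <;> cases ht : τ a <;> simp_all
    show P.Nb j a (τ a) i
    rw [h2]
    exact h1
  · exact absurd hτ ((h.nadj hij hadj).2 b hb)

variable (P)

theorem side_unique {e : Set E3} {f g h : Pos n} (hf : P.Exposed f) (hg : P.Exposed g)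
    (hh : P.Exposed h) (ef : P.IsSide e f) (eg : P.IsSide e g) (eh : P.IsSide e h) (hfg : f ≠ g) :
    h = f ∨ h = g := by
  obtain ⟨i, a1, s1⟩ := f
  obtain ⟨j, a2, s2⟩ := g
  obtain ⟨k, a3, s3⟩ := h
  obtain ⟨a1', s1', h1, e1⟩ := ef
  obtain ⟨a2', s2', h2, e2⟩ := eg
  obtain ⟨a3', s3', h3, e3⟩ := eh
  simp only at h1 h2 h3 e1 e2 e3
  obtain ⟨c, σ, c1, -, σ1, -, E1⟩ := edge_eq_sgm (P.b i) h1 s1 s1'
  obtain ⟨c', τ, c2, -, τ1, -, E2⟩ := edge_eq_sgm (P.b j) h2 s2 s2'
  obtain ⟨c'', ρ, c3, -, ρ1, -, E3'⟩ := edge_eq_sgm (P.b k) h3 s3 s3'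
  rw [E1] at e1
  rw [E2] at e2
  rw [E3'] at e3
  have key : ∀ {i j : Fin n} {c c' : Fin 3} {σ τ : Fin 3 → Bool}, e = sgm (P.b i) c σ →
      e = sgm (P.b j) c' τ → c = c' ∧ P.Two i j c σ τ := by
    intro i j c c' σ τ ha hb
    have hs1 := sgm_le (ha.symm.trans hb).subset
    have hs2 := sgm_le (hb.symm.trans ha).subset
    obtain ⟨hcc, k1, k2, k3⟩ := hs1
    subst hcc
    exact ⟨rfl, k1, le_antisymm hs2.2.2.1 k2, le_antisymm k3 hs2.2.2.2⟩
  obtain ⟨rfl, T12⟩ := key e1 e2
  obtain ⟨rfl, T13⟩ := key e1 e3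
  have T23 := (key e2 e3).2
  subst σ1 τ1 ρ1
  obtain ⟨a, b, ha, hb, hab, hall⟩ := others c
  -- two faces at the same edge of a brick
  have same : ∀ {i : Fin n} {σ τ : Fin 3 → Bool} {p q : Fin 3}, p ≠ c → q ≠ c →
      P.Two i i c σ τ → p ≠ q → P.Exposed (i, p, σ p) → P.Exposed (i, q, τ q) →
      ∀ t, t ≠ c → P.Exposed (i, t, σ t) := by
    intro i σ τ p q hp hq hT hpq hEp hEq t ht
    have hst : ∀ t, t ≠ c → σ t = τ t := fun t ht => bd_inj (P.b i) (hT.v t ht)
    rcases two_of c t p q ht hp hq hpq with rfl | rfl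
    · exact hEp
    · rw [hst t ht]
      exact hEq
  have two : ∀ {i j k : Fin n} {σ τ ρ : Fin 3 → Bool} {p q : Fin 3}, p ≠ c → q ≠ c →
      i = j → i ≠ k → P.Two i j c σ τ → P.Two i k c σ ρ → (i, p, σ p) ≠ (j, q, τ q) →
      P.Exposed (i, p, σ p) → P.Exposed (j, q, τ q) → False := by
    intro i j k σ τ ρ p q hp hq hij hik hT hT' hne hEp hEq
    subst hij
    have hst : ∀ t, t ≠ c → σ t = τ t := fun t ht => bd_inj (P.b i) (hT.v t ht)
    have hpq : p ≠ q := by
      rintro rfl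
      exact hne (by rw [hst p hp])
    obtain ⟨t, ht, l, hl⟩ := hT'.q3 hik
    exact same hp hq hT hpq hEp hEq t ht l hl
  by_contra hcon
  push Not at hcon
  obtain ⟨hhf, hhg⟩ := hcon
  by_cases hij : i = j
  · by_cases hik : i = k
    · subst hij hik
      have k1 : ∀ t, t ≠ c → σ t = τ t := fun t ht => bd_inj (P.b i) (T12.v t ht)
      have k2 : ∀ t, t ≠ c → σ t = ρ t := fun t ht => bd_inj (P.b i) (T13.v t ht)
      have n1 : a1 ≠ a2 := by
        rintro rfl
        exact hfg (by rw [k1 a1 c1.symm])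
      have n2 : a3 ≠ a1 := by
        rintro rfl
        exact hhf (by rw [k2 a3 c1.symm])
      have n3 : a3 ≠ a2 := by
        rintro rfl
        exact hhg (by rw [← k1 a3 c3.symm, k2 a3 c3.symm])
      exact pig c a1 a2 a3 c1 c2 c3 n1 n2 n3
    · exact two c1.symm c2.symm hij hik T12 T13 hfg hf hg
  · by_cases hik : i = k
    · exact two c1.symm c3.symm hik hij T13 T12 hhf.symm hf hh
    · by_cases hjk : j = k
      · exact two c2.symm c3.symm hjk (Ne.symm hij) T23 T12.symm hhg.symm hg hh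
      · have ex : ∀ {i : Fin n} {σ : Fin 3 → Bool} {p : Fin 3}, p ≠ c →
            P.Exposed (i, p, σ p) → P.Exposed (i, a, σ a) ∨ P.Exposed (i, b, σ b) := by
          intro i σ p hp hE
          rcases hall p hp with rfl | rfl
          · exact Or.inl hE
          · exact Or.inr hE
        have qq : ∀ {i j : Fin n} {σ τ : Fin 3 → Bool}, i ≠ j → P.Two i j c σ τ →
            ¬ (σ a = τ a ∧ σ b = τ b) := by
          rintro i j σ τ hne hT ⟨h1, h2⟩
          obtain ⟨t, ht, hst⟩ := hT.q1 hne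
          rcases hall t ht with rfl | rfl
          · exact hst h1
          · exact hst h2
        exact prop3 (σ a) (σ b) (τ a) (τ b) (ρ a) (ρ b) _ _ _ _ _ _
          (ex c1.symm hf) (ex c2.symm hg) (ex c3.symm hh)
          (qq hij T12) (fun u v => T12.q2 hij ha hb u v) (fun u v => T12.q2 hij hb ha u v)
          (qq hik T13) (fun u v => T13.q2 hik ha hb u v) (fun u v => T13.q2 hik hb ha u v)
          (qq hjk T23) (fun u v => T23.q2 hjk ha hb u v) (fun u v => T23.q2 hjk hb ha u v)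

end Orthotree

end Pool.Agent.Ortho
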