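import Pool.Agent.Ortho.Corner
import Pool.Agent.Ortho.Front
import Pool.Agent.Ortho.Side

set_option autoImplicit false

/-!
# Ortho/Final: a partial net with one component on all faces of the surface is a net

`R.cor f k = P.cor f.1 k` are the corners of the faces.

Placement of the face `f` (frame `r = N.r f`; `c₀ = cor f r`, `c₁ = cor f (r+1)`, `c₃ = cor f (r+3)`):
`φ f x = (X f + ⟨x - c₀, c₁ - c₀⟩ / |c₁ - c₀|, Y f + ⟨x - c₀, c₃ - c₀⟩ / |c₃ - c₀|)`.
The vectors `c₁ - c₀`, `c₃ - c₀` are parallel to the two axes different from `a`, so on the face `f` (where the coordinate `a` is constant) `φ f` is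
an isometry, it maps the corner number `k` to `N.pp R f k`, and the face onto the rectangle `[X f, rt f] x [Y f, tp f]`
(`rt f = X f + len f r`, `tp f = Y f + len f (r+1)`); the interior of the image is the open rectangle.

Uncut edges: the segments `e = segment (cor f k) (cor f (k+1))` for the glued pairs `f, g` of `N.G`, with `k, l` as in the field `fit`
(`cor f k = cor g (l+1)`, `cor f (k+1) = cor g l`, and the same for the planar positions). `Cut` = all surface edges (`IsSurfEdge`)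
which are not of this form.

* The four sides (`IsSide`) of a face are the four segments `segment (cor f k) (cor f (k+1))`; they lie in the face, so in the
  frontier, so they are surface edges.
* `glue Cut = N.G`: if `f, g` are glued in `N.G`, their common side `e` is not in `Cut`. If `f ≠ g` share a side `e ∉ Cut`, then `e` is a surface
  edge, so `e` is of the special form for a glued pair `f', g'`; by `side_unique` (all faces of the surface are exposed,
  `exposed_iff`) `{f, g} = {f', g'}`.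
* `tree`: `N.G` is acyclic (`acyc`) and connected (`conn`, one component); `Nonempty P.Face`: hypothesis.
* `fit`: as above, `φ f` and `φ g` are affine and agree at the two end points of `e`.
* `disj`: field `sep`: the open rectangles are disjoint.
-/

namespace Pool.Agent.Ortho

/-! ### axes of the sides -/

/-- axis of the direction of the side number `r` -/
def fUx (a : Fin 3) (s : Bool) (r : Fin 4) : Fin 3 :=
  if cb a s r (a + 1) = cb a s (r + 1) (a + 1) then a + 2 else a + 1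

theorem fUx_ne (a : Fin 3) (s : Bool) (r : Fin 4) : fUx a s r ≠ a := by
  revert a s r; decide

theorem fUx_ne' (a : Fin 3) (s : Bool) (r : Fin 4) : fUx a s r ≠ fUx a s (r + 1) := by
  revert a s r; decide

theorem fin_cb_u (a : Fin 3) (s : Bool) (r d : Fin 4) :
    cb a s (r + d) (fUx a s r) = xor (cb a s r (fUx a s r)) (d == 1 || d == 2) := by
  revert a s r d; decide

theorem fin_cb_v (a : Fin 3) (s : Bool) (r d : Fin 4) :
    cb a s (r + d) (fUx a s (r + 1)) = xor (cb a s r (fUx a s (r + 1))) (d == 2 || d == 3) := by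
  revert a s r d; decide

theorem fin_cb_a (a : Fin 3) (s : Bool) (r : Fin 4) : cb a s r a = s := by
  revert a s r; decide

theorem fin_sum3 {a u v : Fin 3} (h1 : u ≠ a) (h2 : v ≠ a) (h3 : u ≠ v) (F : Fin 3 → ℝ) :
    ∑ x, F x = F a + F u + F v := by
  rw [Fin.sum_univ_three]
  fin_cases a <;> fin_cases u <;> fin_cases v <;> simp_all <;> ring

theorem fin_all3 {a u v : Fin 3} (h1 : u ≠ a) (h2 : v ≠ a) (h3 : u ≠ v) {p : Fin 3 → Prop}
    (ha : p a) (hu : p u) (hv : p v) (x : Fin 3) : p x := by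
  fin_cases a <;> fin_cases u <;> fin_cases v <;> fin_cases x <;> simp_all

/-- sign of the direction from the end `s` -/
def fsg (s : Bool) : ℝ := if s then -1 else 1

theorem fsg_sq (s : Bool) (x : ℝ) : (fsg s * x) ^ 2 = x ^ 2 := by
  cases s <;> simp [fsg]

theorem fsg_mul_self (s : Bool) : fsg s * fsg s = 1 := by
  cases s <;> simp [fsg]

theorem fsg_bd (b : Brick) (u : Fin 3) (s t : Bool) :
    fsg s * (b.bd u (xor s t) - b.bd u s) = if t then b.hi u - b.lo u else 0 := by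
  cases s <;> cases t <;> simp [fsg, Brick.bd]

theorem fsg_nonneg (b : Brick) (u : Fin 3) (s : Bool) {x : ℝ} (h1 : b.lo u ≤ x) (h2 : x ≤ b.hi u) :
    0 ≤ fsg s * (x - b.bd u s) := by
  cases s <;> simp [fsg, Brick.bd] <;> linarith

theorem fsg_le (b : Brick) (u : Fin 3) (s : Bool) {x : ℝ} (h1 : b.lo u ≤ x) (h2 : x ≤ b.hi u) :
    fsg s * (x - b.bd u s) ≤ b.hi u - b.lo u := by
  cases s <;> simp [fsg, Brick.bd] <;> linarith

theorem fin_int_lt {S : Set E2} {k : Fin 2} {c : ℝ} (hS : ∀ z ∈ S, z k ≤ c) :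
    ∀ z ∈ interior S, z k < c := by
  intro z hz
  have hom : IsOpenMap (fun z : E2 => z k) := by
    have h := ContinuousLinearMap.isOpenMap (EuclideanSpace.proj k : E2 →L[ℝ] ℝ) (by
      intro y
      refine ⟨EuclideanSpace.single k y, ?_⟩
      simp)
    exact h
  have h1 : (fun z : E2 => z k) '' interior S ⊆ Set.Iic c := by
    rintro _ ⟨w, hw, rfl⟩
    exact hS w (interior_subset hw)
  have h2 : (fun z : E2 => z k) '' interior S ⊆ interior (Set.Iic c) :=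
    interior_maximal h1 (hom _ isOpen_interior)
  rw [interior_Iic] at h2
  exact h2 ⟨z, hz, rfl⟩

theorem fin_int_gt {S : Set E2} {k : Fin 2} {c : ℝ} (hS : ∀ z ∈ S, c ≤ z k) :
    ∀ z ∈ interior S, c < z k := by
  intro z hz
  have hom : IsOpenMap (fun z : E2 => z k) := by
    have h := ContinuousLinearMap.isOpenMap (EuclideanSpace.proj k : E2 →L[ℝ] ℝ) (by
      intro y
      refine ⟨EuclideanSpace.single k y, ?_⟩
      simp)
    exact h
  have h1 : (fun z : E2 => z k) '' interior S ⊆ Set.Ici c := by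
    rintro _ ⟨w, hw, rfl⟩
    exact hS w (interior_subset hw)
  have h2 : (fun z : E2 => z k) '' interior S ⊆ interior (Set.Ici c) :=
    interior_maximal h1 (hom _ isOpen_interior)
  rw [interior_Ici] at h2
  exact h2 ⟨z, hz, rfl⟩

namespace Orthotree

variable {n : ℕ} (P : Orthotree n)

theorem fin_cor_apply (f : Pos n) (k : Fin 4) (x : Fin 3) :
    P.cor f k x = (P.b f.1).bd x (cb f.2.1 f.2.2 k x) := rfl

theorem fin_cor_mem (f : Pos n) (k : Fin 4) : P.cor f k ∈ P.rect f := by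
  refine ⟨fun x => ?_, ?_⟩
  · rw [fin_cor_apply]
    exact ⟨(P.b f.1).lo_le_bd x _, (P.b f.1).bd_le_hi x _⟩
  · rw [fin_cor_apply, fin_cb_a]

/-- length of the side number `r` -/
theorem fin_len (f : Pos n) (r : Fin 4) : dist (P.cor f r) (P.cor f (r + 1)) =
    (P.b f.1).hi (fUx f.2.1 f.2.2 r) - (P.b f.1).lo (fUx f.2.1 f.2.2 r) := by
  have hlt := (P.b f.1).lt (fUx f.2.1 f.2.2 r)
  rw [EuclideanSpace.dist_eq, fin_sum3 (fUx_ne f.2.1 f.2.2 r) (fUx_ne f.2.1 f.2.2 (r + 1))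
    (fUx_ne' f.2.1 f.2.2 r)]
  simp only [fin_cor_apply]
  rw [fin_cb_a, fin_cb_a, fin_cb_u, fin_cb_v]
  have e1 : ((1 : Fin 4) == 1 || (1 : Fin 4) == 2) = true := by decide
  have e2 : ((1 : Fin 4) == 2 || (1 : Fin 4) == 3) = false := by decide
  rw [e1, e2, Bool.xor_false, dist_self, dist_self]
  have h2 : dist ((P.b f.1).bd (fUx f.2.1 f.2.2 r) (cb f.2.1 f.2.2 r (fUx f.2.1 f.2.2 r)))
      ((P.b f.1).bd (fUx f.2.1 f.2.2 r) (xor (cb f.2.1 f.2.2 r (fUx f.2.1 f.2.2 r)) true)) ^ 2 =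
      ((P.b f.1).hi (fUx f.2.1 f.2.2 r) - (P.b f.1).lo (fUx f.2.1 f.2.2 r)) ^ 2 := by
    rw [Real.dist_eq, sq_abs]
    cases cb f.2.1 f.2.2 r (fUx f.2.1 f.2.2 r) <;> simp [Brick.bd] <;> ring
  rw [h2]
  rw [show (0 : ℝ) ^ 2 + ((P.b f.1).hi (fUx f.2.1 f.2.2 r) -
    (P.b f.1).lo (fUx f.2.1 f.2.2 r)) ^ 2 + 0 ^ 2 = ((P.b f.1).hi (fUx f.2.1 f.2.2 r) -
    (P.b f.1).lo (fUx f.2.1 f.2.2 r)) ^ 2 by ring]
  exact Real.sqrt_sq (by linarith)

/-- the sides of a face are the segments between consecutive corners -/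
theorem fin_isSide (f : Pos n) (k : Fin 4) :
    P.IsSide (segment ℝ (P.cor f k) (P.cor f (k + 1))) f := by
  refine ⟨fUx f.2.1 f.2.2 (k + 1), cb f.2.1 f.2.2 k (fUx f.2.1 f.2.2 (k + 1)),
    fUx_ne _ _ _, ?_⟩
  have e1 : ((1 : Fin 4) == 1 || (1 : Fin 4) == 2) = true := by decide
  have e2 : ((1 : Fin 4) == 2 || (1 : Fin 4) == 3) = false := by decide
  have cu : cb f.2.1 f.2.2 (k + 1) (fUx f.2.1 f.2.2 k) =
      !cb f.2.1 f.2.2 k (fUx f.2.1 f.2.2 k) := by
    rw [fin_cb_u, e1, Bool.xor_true]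
  have cv : cb f.2.1 f.2.2 (k + 1) (fUx f.2.1 f.2.2 (k + 1)) =
      cb f.2.1 f.2.2 k (fUx f.2.1 f.2.2 (k + 1)) := by
    rw [fin_cb_v, e2, Bool.xor_false]
  ext x
  rw [segment_eq_image]
  constructor
  · rintro ⟨t, ⟨ht0, ht1⟩, rfl⟩
    have hx : ∀ c, ((1 - t) • P.cor f k + t • P.cor f (k + 1)) c =
        (1 - t) * (P.b f.1).bd c (cb f.2.1 f.2.2 k c) +
          t * (P.b f.1).bd c (cb f.2.1 f.2.2 (k + 1) c) := by
      intro c
      simp [fin_cor_apply]
    refine ⟨fun c => ?_, ?_, ?_⟩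
    · have h1 := (P.b f.1).lo_le_bd c (cb f.2.1 f.2.2 k c)
      have h2 := (P.b f.1).bd_le_hi c (cb f.2.1 f.2.2 k c)
      have h3 := (P.b f.1).lo_le_bd c (cb f.2.1 f.2.2 (k + 1) c)
      have h4 := (P.b f.1).bd_le_hi c (cb f.2.1 f.2.2 (k + 1) c)
      simp only [hx]
      constructor <;> nlinarith
    · simp only [hx]
      rw [fin_cb_a, fin_cb_a]
      ring
    · simp only [hx]
      rw [cv]
      ring
  · rintro ⟨hx, hxa, hxv⟩
    have hlt := (P.b f.1).lt (fUx f.2.1 f.2.2 k)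
    obtain ⟨hl, hh⟩ := hx (fUx f.2.1 f.2.2 k)
    have hne : (0 : ℝ) < (P.b f.1).hi (fUx f.2.1 f.2.2 k) - (P.b f.1).lo (fUx f.2.1 f.2.2 k) := by
      linarith
    refine ⟨fsg (cb f.2.1 f.2.2 k (fUx f.2.1 f.2.2 k)) * (x (fUx f.2.1 f.2.2 k) -
      (P.b f.1).bd (fUx f.2.1 f.2.2 k) (cb f.2.1 f.2.2 k (fUx f.2.1 f.2.2 k))) /
      ((P.b f.1).hi (fUx f.2.1 f.2.2 k) - (P.b f.1).lo (fUx f.2.1 f.2.2 k)),
      ⟨div_nonneg (fsg_nonneg _ _ _ hl hh) hne.le,
        (div_le_one hne).2 (fsg_le _ _ _ hl hh)⟩, ?_⟩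
    ext c
    show (1 - _) * P.cor f k c + _ * P.cor f (k + 1) c = x c
    revert c
    refine fin_all3 (fUx_ne f.2.1 f.2.2 k) (fUx_ne f.2.1 f.2.2 (k + 1)) (fUx_ne' f.2.1 f.2.2 k)
      ?_ ?_ ?_
    · rw [fin_cor_apply, fin_cor_apply, fin_cb_a, fin_cb_a, hxa]
      ring
    · rw [fin_cor_apply, fin_cor_apply, cu]
      generalize cb f.2.1 f.2.2 k (fUx f.2.1 f.2.2 k) = s
      cases s
      · simp only [fsg, Brick.bd, Bool.not_false, if_true, Bool.false_eq_true, if_false]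
        field_simp
        ring
      · simp only [fsg, Brick.bd, Bool.not_true, if_true, Bool.false_eq_true, if_false]
        field_simp
        ring
    · rw [fin_cor_apply, fin_cor_apply, cv, hxv]
      ring

/-- a side is contained in the face -/
theorem fin_side_sub {e : Set E3} {f : Pos n} (h : P.IsSide e f) : e ⊆ P.rect f := by
  obtain ⟨a', s', _, rfl⟩ := h
  exact fun x hx => ⟨hx.1, hx.2.1⟩

/-- the placement of a face -/
noncomputable def finPhi (f : Pos n) (r : Fin 4) (X Y : ℝ) (x : E3) : E2 :=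
  !₂[X + fsg (cb f.2.1 f.2.2 r (fUx f.2.1 f.2.2 r)) * (x (fUx f.2.1 f.2.2 r) -
      (P.b f.1).bd (fUx f.2.1 f.2.2 r) (cb f.2.1 f.2.2 r (fUx f.2.1 f.2.2 r))),
    Y + fsg (cb f.2.1 f.2.2 r (fUx f.2.1 f.2.2 (r + 1))) * (x (fUx f.2.1 f.2.2 (r + 1)) -
      (P.b f.1).bd (fUx f.2.1 f.2.2 (r + 1)) (cb f.2.1 f.2.2 r (fUx f.2.1 f.2.2 (r + 1))))]

theorem finPhi_isom (f : Pos n) (r : Fin 4) (X Y : ℝ) {x y : E3} (hx : x ∈ P.rect f)
    (hy : y ∈ P.rect f) : dist (P.finPhi f r X Y x) (P.finPhi f r X Y y) = dist x y := by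
  rw [EuclideanSpace.dist_eq, EuclideanSpace.dist_eq,
    fin_sum3 (fUx_ne f.2.1 f.2.2 r) (fUx_ne f.2.1 f.2.2 (r + 1)) (fUx_ne' f.2.1 f.2.2 r),
    Fin.sum_univ_two]
  congr 1
  have h1 : x f.2.1 = y f.2.1 := hx.2.trans hy.2.symm
  rw [h1, dist_self]
  simp only [Real.dist_eq, sq_abs, finPhi]
  simp only [PiLp.toLp_apply, Matrix.cons_val_zero, Matrix.cons_val_one]
  have h2 := fsg_mul_self (cb f.2.1 f.2.2 r (fUx f.2.1 f.2.2 r))
  have h3 := fsg_mul_self (cb f.2.1 f.2.2 r (fUx f.2.1 f.2.2 (r + 1)))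
  linear_combination (x (fUx f.2.1 f.2.2 r) - y (fUx f.2.1 f.2.2 r)) ^ 2 * h2 +
    (x (fUx f.2.1 f.2.2 (r + 1)) - y (fUx f.2.1 f.2.2 (r + 1))) ^ 2 * h3

theorem finPhi_affine (f : Pos n) (r : Fin 4) (X Y t : ℝ) (x y : E3) :
    P.finPhi f r X Y ((1 - t) • x + t • y) =
      (1 - t) • P.finPhi f r X Y x + t • P.finPhi f r X Y y := by
  ext c
  fin_cases c <;> simp [finPhi] <;> ring

theorem finPhi_cor (f : Pos n) (r d : Fin 4) (X Y : ℝ) :
    P.finPhi f r X Y (P.cor f (r + d)) =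
      !₂[X + (if (d == 1 || d == 2) then dist (P.cor f r) (P.cor f (r + 1)) else 0),
        Y + (if (d == 2 || d == 3) then dist (P.cor f (r + 1)) (P.cor f (r + 1 + 1)) else 0)] := by
  rw [fin_len, fin_len]
  unfold finPhi
  rw [fin_cor_apply, fin_cor_apply, fin_cb_u, fin_cb_v, fsg_bd, fsg_bd]

theorem finPhi_mem (f : Pos n) (r : Fin 4) (X Y : ℝ) {x : E3} (hx : x ∈ P.rect f) :
    (X ≤ P.finPhi f r X Y x 0 ∧
      P.finPhi f r X Y x 0 ≤ X + dist (P.cor f r) (P.cor f (r + 1))) ∧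
    (Y ≤ P.finPhi f r X Y x 1 ∧
      P.finPhi f r X Y x 1 ≤ Y + dist (P.cor f (r + 1)) (P.cor f (r + 1 + 1))) := by
  rw [fin_len, fin_len]
  have h1 := hx.1 (fUx f.2.1 f.2.2 r)
  have h2 := hx.1 (fUx f.2.1 f.2.2 (r + 1))
  have e0 : P.finPhi f r X Y x 0 = X + fsg (cb f.2.1 f.2.2 r (fUx f.2.1 f.2.2 r)) *
    (x (fUx f.2.1 f.2.2 r) -
      (P.b f.1).bd (fUx f.2.1 f.2.2 r) (cb f.2.1 f.2.2 r (fUx f.2.1 f.2.2 r))) := rfl
  have e1 : P.finPhi f r X Y x 1 = Y + fsg (cb f.2.1 f.2.2 r (fUx f.2.1 f.2.2 (r + 1))) *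
    (x (fUx f.2.1 f.2.2 (r + 1)) -
      (P.b f.1).bd (fUx f.2.1 f.2.2 (r + 1))
        (cb f.2.1 f.2.2 r (fUx f.2.1 f.2.2 (r + 1)))) := rfl
  rw [e0, e1]
  have g1 := fsg_nonneg (P.b f.1) _ (cb f.2.1 f.2.2 r (fUx f.2.1 f.2.2 r)) h1.1 h1.2
  have g2 := fsg_le (P.b f.1) _ (cb f.2.1 f.2.2 r (fUx f.2.1 f.2.2 r)) h1.1 h1.2
  have g3 := fsg_nonneg (P.b f.1) _ (cb f.2.1 f.2.2 r (fUx f.2.1 f.2.2 (r + 1))) h2.1 h2.2
  have g4 := fsg_le (P.b f.1) _ (cb f.2.1 f.2.2 r (fUx f.2.1 f.2.2 (r + 1))) h2.1 h2.2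
  refine ⟨⟨?_, ?_⟩, ?_, ?_⟩ <;> linarith

end Orthotree

theorem fin_fin4 (r : Fin 4) (k : Fin 4) : r + (k - r) = k := by
  revert r k; decide

theorem hasNet_of_ok {n : ℕ} (P : Orthotree n) (R : Rects P.Face)
    (hR : ∀ f k, R.cor f k = P.cor f.1 k) (hne : Nonempty P.Face) {ι : Type} {e : ι → E3 × E3}
    {σ : State ι} (N : PNet P.Face ι) (A : Finset P.Face) (hA : ∀ f, f ∈ A) (h : Ok R A e σ N)
    (h1 : ∀ f g, N.cp f = N.cp g) : P.HasNet := by
  classical
  -- placement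
  let φ : P.Face → E3 → E2 := fun f => P.finPhi f.1 (N.r f) (N.X f) (N.Y f)
  have hlen : ∀ f k, R.len f k = dist (P.cor f.1 k) (P.cor f.1 (k + 1)) := by
    intro f k
    unfold Rects.len
    rw [hR, hR]
  -- planar positions of the corners
  have hpp : ∀ f k, φ f (P.cor f.1 k) = !₂[(N.pp R f k).1, (N.pp R f k).2] := by
    intro f k
    have h1 := P.finPhi_cor f.1 (N.r f) (k - N.r f) (N.X f) (N.Y f)
    rw [fin_fin4] at h1
    show P.finPhi f.1 (N.r f) (N.X f) (N.Y f) (P.cor f.1 k) = _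
    rw [h1, ← hlen, ← hlen]
    unfold PNet.pp
    generalize k - N.r f = d
    fin_cases d
    · simp [PNet.cpos]
    · simp [PNet.cpos, PNet.rt]
    · simp [PNet.cpos, PNet.rt, PNet.tp]
    · simp [PNet.cpos, PNet.tp]
  -- special edges
  let Sp : Set E3 → P.Face → P.Face → Prop := fun e f g =>
    N.G.Adj f g ∧ ∃ k l, P.cor f.1 k = P.cor g.1 (l + 1) ∧ P.cor f.1 (k + 1) = P.cor g.1 l ∧
      N.pp R f k = N.pp R g (l + 1) ∧ N.pp R f (k + 1) = N.pp R g l ∧
      e = segment ℝ (P.cor f.1 k) (P.cor f.1 (k + 1))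
  have hSpside : ∀ e f g, Sp e f g → P.IsSide e f.1 ∧ P.IsSide e g.1 := by
    rintro e f g ⟨-, k, l, h1, h2, -, -, rfl⟩
    refine ⟨P.fin_isSide f.1 k, ?_⟩
    rw [h1, h2, segment_symm]
    exact P.fin_isSide g.1 l
  have hSpfit : ∀ e f g, Sp e f g → ∀ x ∈ e, φ f x = φ g x := by
    rintro e f g ⟨-, k, l, h1, h2, h3, h4, rfl⟩ x hx
    rw [segment_eq_image] at hx
    obtain ⟨t, -, rfl⟩ := hx
    have e1 : φ f (P.cor f.1 k) = φ g (P.cor f.1 k) := by
      rw [hpp f k, h3, h1, hpp g (l + 1)]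
    have e2 : φ f (P.cor f.1 (k + 1)) = φ g (P.cor f.1 (k + 1)) := by
      rw [hpp f (k + 1), h4, h2, hpp g l]
    show P.finPhi f.1 (N.r f) (N.X f) (N.Y f) _ = P.finPhi g.1 (N.r g) (N.X g) (N.Y g) _
    rw [P.finPhi_affine, P.finPhi_affine]
    have e1' : P.finPhi f.1 (N.r f) (N.X f) (N.Y f) (P.cor f.1 k) =
      P.finPhi g.1 (N.r g) (N.X g) (N.Y g) (P.cor f.1 k) := e1
    have e2' : P.finPhi f.1 (N.r f) (N.X f) (N.Y f) (P.cor f.1 (k + 1)) =
      P.finPhi g.1 (N.r g) (N.X g) (N.Y g) (P.cor f.1 (k + 1)) := e2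
    rw [e1', e2']
  have hexp : ∀ f : P.Face, P.Exposed f.1 := fun f => (P.exposed_iff f.1).2 f.2
  let Cut : Set (Set E3) := {e | P.IsSurfEdge e ∧ ¬ ∃ f g, Sp e f g}
  -- an uncut common side comes from the glued pair
  have hkey : ∀ (f g : P.Face) (e : Set E3), f ≠ g → e ∉ Cut → P.IsSide e f.1 → P.IsSide e g.1 →
      Sp e f g ∨ Sp e g f := by
    intro f g e hfg he hf hg
    have hsurf : P.IsSurfEdge e := ⟨f.1, hf, (P.fin_side_sub hf).trans f.2⟩
    have hex : ∃ f g, Sp e f g := by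
      by_contra hno
      exact he ⟨hsurf, hno⟩
    obtain ⟨f', g', hS⟩ := hex
    obtain ⟨hf', hg'⟩ := hSpside e f' g' hS
    have hne : f'.1 ≠ g'.1 := fun h => hS.1.ne (Subtype.ext h)
    have h1 := P.side_unique (hexp f') (hexp g') (hexp f) hf' hg' hf hne
    have h2 := P.side_unique (hexp f') (hexp g') (hexp g) hf' hg' hg hne
    rcases h1 with h1 | h1 <;> rcases h2 with h2 | h2
    · exact absurd (Subtype.ext (h1.trans h2.symm)) hfg
    · have e1 : f = f' := Subtype.ext h1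
      have e2 : g = g' := Subtype.ext h2
      subst e1
      subst e2
      exact Or.inl hS
    · have e1 : f = g' := Subtype.ext h1
      have e2 : g = f' := Subtype.ext h2
      subst e1
      subst e2
      exact Or.inr hS
    · exact absurd (Subtype.ext (h1.trans h2.symm)) hfg
  have hglue : P.glue Cut = N.G := by
    ext f g
    constructor
    · rintro ⟨hfg, e', he, hf, hg⟩
      rcases hkey f g e' hfg he hf hg with hS | hS
      · exact hS.1
      · exact hS.1.symm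
    · intro hadj
      obtain ⟨k, l, h2, h3, h4, h5⟩ := h.fit f g hadj
      rw [hR, hR] at h2 h3
      have hS : Sp (segment ℝ (P.cor f.1 k) (P.cor f.1 (k + 1))) f g :=
        ⟨hadj, k, l, h2, h3, h4, h5, rfl⟩
      exact ⟨hadj.ne, _, fun hc => hc.2 ⟨f, g, hS⟩, (hSpside _ _ _ hS).1, (hSpside _ _ _ hS).2⟩
  refine ⟨Cut, φ, ?_, ?_, ?_, ?_, ?_⟩
  · exact fun e' he => he.1
  · rw [hglue]
    refine ⟨⟨fun f g => h.conn f (hA f) g (hA g) (h1 f g)⟩, h.acyc⟩
  · exact fun f x hx y hy => P.finPhi_isom f.1 (N.r f) (N.X f) (N.Y f) hx hy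
  · intro f g e' hfg he hf hg x hx
    rcases hkey f g e' hfg he hf hg with hS | hS
    · exact hSpfit e' f g hS x hx
    · exact (hSpfit e' g f hS x hx).symm
  · intro f g hfg
    -- bounds of the images
    have hb : ∀ f : P.Face, ∀ z ∈ interior (φ f '' P.rect f.1),
        (N.X f < z 0 ∧ z 0 < N.rt R f) ∧ (N.Y f < z 1 ∧ z 1 < N.tp R f) := by
      intro f z hz
      have hm : ∀ w ∈ φ f '' P.rect f.1,
          (N.X f ≤ w 0 ∧ w 0 ≤ N.rt R f) ∧ (N.Y f ≤ w 1 ∧ w 1 ≤ N.tp R f) := by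
        rintro _ ⟨x, hx, rfl⟩
        have := P.finPhi_mem f.1 (N.r f) (N.X f) (N.Y f) hx
        rw [← hlen, ← hlen] at this
        exact this
      exact ⟨⟨fin_int_gt (fun w hw => (hm w hw).1.1) z hz,
          fin_int_lt (fun w hw => (hm w hw).1.2) z hz⟩,
        fin_int_gt (fun w hw => (hm w hw).2.1) z hz,
          fin_int_lt (fun w hw => (hm w hw).2.2) z hz⟩
    rw [Set.disjoint_left]
    intro z hzf hzg
    obtain ⟨⟨a1, a2⟩, a3, a4⟩ := hb f z hzf
    obtain ⟨⟨b1, b2⟩, b3, b4⟩ := hb g z hzg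
    rcases h.sep f (hA f) g (hA g) hfg (h1 f g) with hs | hs | ⟨-, -, hs | hs⟩
    · linarith
    · linarith
    · linarith
    · linarith

end Pool.Agent.Ortho
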