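import Pool.Agent.Ortho.Def

set_option autoImplicit false

/-!
# Ortho/Geo: coordinates of neighbouring bricks

All sets are boxes in coordinates; use witness points (for a box with `lo < hi` one can choose for every coordinate an end or the
midpoint, `WithLp.toLp 2 fun a => ...`).

* `nb_coord`. `b_i ∩ b_j = face_i a s` and (field `adj`) `= face_j a₂ s₂`. A face `{x ∈ b | x a = c}` is a box whose coordinate interval
  is a point exactly for the coordinate `a`, so `a₂ = a` (otherwise take two points of `face_i a s` with different coordinate `a₂`), and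
  the other coordinate intervals agree; `bd_j a s₂ = bd_i a s`. If `s₂ = s` (say both `true`) then the points with coordinate `a`
  slightly below `hi a` would be in both bricks, but not in the face. So `s₂ = !s`.
* `nb_unique`: two different neighbours `j, j'` at the same face have the same position and `b_j ∩ b_j'` contains a box
  `[c, c + ε] x ...` with non-empty interior; but by `adj` or `nonadj` (for `j ≠ j'`) one coordinate is constant on `b_j ∩ b_j'`.
* `exists_nb`: field `adj`. `nb_face_unique`: the faces `(a, s)` and `(a', s')` of a brick are different sets if `(a, s) ≠ (a', s')`.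
* `inter_thin`: for `i ≠ j` some coordinate is constant on `b_i ∩ b_j` (equal to `(b i).bd a s`).
-/

namespace Pool.Agent.Ortho

/-! ### boxes -/

/-- a closed box -/
def GBox (l u : Fin 3 → ℝ) : Set E3 := {x | ∀ a, l a ≤ x a ∧ x a ≤ u a}

theorem mem_gbox_toLp {l u t : Fin 3 → ℝ} :
    (WithLp.toLp 2 t : E3) ∈ GBox l u ↔ ∀ a, l a ≤ t a ∧ t a ≤ u a := Iff.rfl

theorem gbox_eq {l u l' u' : Fin 3 → ℝ} (hlu : ∀ a, l a ≤ u a) (h : GBox l u = GBox l' u') :
    l = l' ∧ u = u' := by
  have h1 : (WithLp.toLp 2 l : E3) ∈ GBox l' u' := by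
    rw [← h]; exact fun a => ⟨le_rfl, hlu a⟩
  have h2 : (WithLp.toLp 2 u : E3) ∈ GBox l' u' := by
    rw [← h]; exact fun a => ⟨hlu a, le_rfl⟩
  rw [mem_gbox_toLp] at h1 h2
  have hlu' : ∀ a, l' a ≤ u' a := fun a => (h1 a).1.trans (h1 a).2
  have h3 : (WithLp.toLp 2 l' : E3) ∈ GBox l u := by
    rw [h]; exact fun a => ⟨le_rfl, hlu' a⟩
  have h4 : (WithLp.toLp 2 u' : E3) ∈ GBox l u := by
    rw [h]; exact fun a => ⟨hlu' a, le_rfl⟩
  rw [mem_gbox_toLp] at h3 h4
  exact ⟨funext fun a => le_antisymm (h3 a).1 (h1 a).1,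
    funext fun a => le_antisymm (h2 a).2 (h4 a).2⟩

theorem Brick.lo_le_bd (b : Brick) (a : Fin 3) (s : Bool) : b.lo a ≤ b.bd a s := by
  cases s
  · exact le_rfl
  · exact (b.lt a).le

theorem Brick.bd_le_hi (b : Brick) (a : Fin 3) (s : Bool) : b.bd a s ≤ b.hi a := by
  cases s
  · exact (b.lt a).le
  · exact le_rfl

theorem Brick.bd_inj (b : Brick) {a : Fin 3} {s s' : Bool} (h : b.bd a s = b.bd a s') :
    s = s' := by
  have := b.lt a
  cases s <;> cases s' <;> simp [Brick.bd] at h ⊢ <;> linarith

theorem Brick.set_eq (b : Brick) : b.set = GBox b.lo b.hi := rfl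

theorem Brick.face_eq (b : Brick) (a : Fin 3) (s : Bool) :
    b.face a s = GBox (Function.update b.lo a (b.bd a s)) (Function.update b.hi a (b.bd a s)) := by
  ext x
  constructor
  · rintro ⟨hx, hxa⟩ a'
    rcases eq_or_ne a' a with rfl | hne
    · rw [Function.update_self, Function.update_self]
      exact ⟨hxa.ge, hxa.le⟩
    · rw [Function.update_of_ne hne, Function.update_of_ne hne]
      exact hx a'
  · intro hx
    have hxa := hx a
    rw [Function.update_self, Function.update_self] at hxa
    refine ⟨fun a' => ?_, le_antisymm hxa.2 hxa.1⟩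
    rcases eq_or_ne a' a with rfl | hne
    · exact ⟨(b.lo_le_bd a' s).trans hxa.1, hxa.2.trans (b.bd_le_hi a' s)⟩
    · have := hx a'
      rw [Function.update_of_ne hne, Function.update_of_ne hne] at this
      exact this

theorem Brick.face_le (b : Brick) (a : Fin 3) (s : Bool) (a' : Fin 3) :
    Function.update b.lo a (b.bd a s) a' ≤ Function.update b.hi a (b.bd a s) a' := by
  rcases eq_or_ne a' a with rfl | hne
  · rw [Function.update_self, Function.update_self]
  · rw [Function.update_of_ne hne, Function.update_of_ne hne]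
    exact (b.lt a').le

/-- equality of faces of two bricks -/
theorem Brick.face_inj {b c : Brick} {a a' : Fin 3} {s s' : Bool}
    (h : b.face a s = c.face a' s') :
    a = a' ∧ b.bd a s = c.bd a s' ∧
      ∀ e, e ≠ a → c.lo e = b.lo e ∧ c.hi e = b.hi e := by
  rw [Brick.face_eq, Brick.face_eq] at h
  obtain ⟨h1, h2⟩ := gbox_eq (b.face_le a s) h
  have haa : a = a' := by
    by_contra hne
    have e1 := congrFun h1 a'
    have e2 := congrFun h2 a'
    rw [Function.update_self, Function.update_of_ne (Ne.symm hne)] at e1 e2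
    have := b.lt a'
    linarith
  subst haa
  refine ⟨rfl, ?_, fun e he => ?_⟩
  · have e1 := congrFun h1 a
    rw [Function.update_self, Function.update_self] at e1
    exact e1
  · have e1 := congrFun h1 e
    have e2 := congrFun h2 e
    rw [Function.update_of_ne he, Function.update_of_ne he] at e1 e2
    exact ⟨e1.symm, e2.symm⟩

end Pool.Agent.Ortho

namespace Pool.Agent.Ortho.Orthotree

variable {n : ℕ} (P : Orthotree n)

theorem exists_nb {i j : Fin n} (h : P.T.Adj i j) : ∃ a s, P.Nb i a s j := by
  obtain ⟨a, s, hs⟩ := (P.adj i j h).1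
  exact ⟨a, s, h, hs⟩

theorem nb_coord {i j : Fin n} {a : Fin 3} {s : Bool} (h : P.Nb i a s j) :
    (P.b j).bd a (!s) = (P.b i).bd a s ∧
      (∀ a', a' ≠ a → (P.b j).lo a' = (P.b i).lo a' ∧ (P.b j).hi a' = (P.b i).hi a') ∧
      P.Nb j a (!s) i := by
  obtain ⟨hadj, hface⟩ := h
  obtain ⟨a₂, s₂, h2⟩ := (P.adj i j hadj).2
  obtain ⟨rfl, hbd, hrest⟩ := Brick.face_inj (hface.symm.trans h2)
  have hs : s₂ = !s := by
    by_contra hne
    have hss : s₂ = s := by
      cases s <;> cases s₂ <;> simp_all
    subst hss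
    have hi := (P.b i).lt a
    have hj := (P.b j).lt a
    cases s₂ with
    | true =>
      simp only [Brick.bd, if_true] at hbd
      let t : Fin 3 → ℝ := Function.update (P.b i).lo a (max ((P.b i).lo a) ((P.b j).lo a))
      have ht : (WithLp.toLp 2 t : E3) ∈ (P.b i).set ∩ (P.b j).set := by
        constructor
        · intro e
          show (P.b i).lo e ≤ t e ∧ t e ≤ (P.b i).hi e
          rcases eq_or_ne e a with rfl | he
          · simp only [t, Function.update_self]
            exact ⟨le_max_left _ _, max_le hi.le (by rw [hbd]; exact hj.le)⟩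
          · simp only [t, Function.update_of_ne he]
            exact ⟨le_rfl, ((P.b i).lt e).le⟩
        · intro e
          show (P.b j).lo e ≤ t e ∧ t e ≤ (P.b j).hi e
          rcases eq_or_ne e a with rfl | he
          · simp only [t, Function.update_self]
            exact ⟨le_max_right _ _, max_le (by rw [← hbd]; exact hi.le) hj.le⟩
          · simp only [t, Function.update_of_ne he]
            obtain ⟨e1, e2⟩ := hrest e he
            rw [e1, e2]
            exact ⟨le_rfl, ((P.b i).lt e).le⟩
      rw [hface] at ht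
      have h3 : t a = (P.b i).hi a := ht.2
      simp only [t, Function.update_self] at h3
      have : max ((P.b i).lo a) ((P.b j).lo a) < (P.b i).hi a :=
        max_lt hi (by rw [hbd]; exact hj)
      linarith
    | false =>
      simp only [Brick.bd] at hbd
      simp only [Bool.false_eq_true, if_false] at hbd
      let t : Fin 3 → ℝ := Function.update (P.b i).lo a (min ((P.b i).hi a) ((P.b j).hi a))
      have ht : (WithLp.toLp 2 t : E3) ∈ (P.b i).set ∩ (P.b j).set := by
        constructor
        · intro e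
          show (P.b i).lo e ≤ t e ∧ t e ≤ (P.b i).hi e
          rcases eq_or_ne e a with rfl | he
          · simp only [t, Function.update_self]
            exact ⟨le_min hi.le (by rw [hbd]; exact hj.le), min_le_left _ _⟩
          · simp only [t, Function.update_of_ne he]
            exact ⟨le_rfl, ((P.b i).lt e).le⟩
        · intro e
          show (P.b j).lo e ≤ t e ∧ t e ≤ (P.b j).hi e
          rcases eq_or_ne e a with rfl | he
          · simp only [t, Function.update_self]
            exact ⟨le_min (by rw [← hbd]; exact hi.le) hj.le, min_le_right _ _⟩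
          · simp only [t, Function.update_of_ne he]
            obtain ⟨e1, e2⟩ := hrest e he
            rw [e1, e2]
            exact ⟨le_rfl, ((P.b i).lt e).le⟩
      rw [hface] at ht
      have h3 : t a = (P.b i).lo a := ht.2
      simp only [t, Function.update_self] at h3
      have : (P.b i).lo a < min ((P.b i).hi a) ((P.b j).hi a) :=
        lt_min hi (by rw [hbd]; exact hj)
      linarith
  subst hs
  refine ⟨hbd.symm, hrest, hadj.symm, ?_⟩
  rw [Set.inter_comm]
  exact h2

theorem nb_face_unique {i j : Fin n} {a a' : Fin 3} {s s' : Bool} (h : P.Nb i a s j)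
    (h' : P.Nb i a' s' j) : a = a' ∧ s = s' := by
  obtain ⟨haa, hbd, _⟩ := Brick.face_inj (h.2.symm.trans h'.2)
  exact ⟨haa, (P.b i).bd_inj hbd⟩

theorem inter_thin {i j : Fin n} (h : i ≠ j) :
    ∃ a s, ∀ x ∈ (P.b i).set ∩ (P.b j).set, x a = (P.b i).bd a s := by
  by_cases hadj : P.T.Adj i j
  · obtain ⟨a, s, hs⟩ := (P.adj i j hadj).1
    refine ⟨a, s, fun x hx => ?_⟩
    rw [hs] at hx
    exact hx.2
  · rcases P.nonadj i j h hadj with h0 | ⟨k, _, a, s, _, h1 | h1⟩
    · refine ⟨0, true, fun x hx => ?_⟩
      rw [h0] at hx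
      exact absurd hx (Set.notMem_empty x)
    · obtain ⟨a', s', _, he⟩ := h1
      refine ⟨a, s, fun x hx => ?_⟩
      rw [he] at hx
      exact hx.2.1
    · obtain ⟨a', s', a'', s'', _, _, _, he⟩ := h1
      refine ⟨a, s, fun x hx => ?_⟩
      rw [he] at hx
      exact hx.2.1

theorem nb_unique {i j j' : Fin n} {a : Fin 3} {s : Bool} (h : P.Nb i a s j)
    (h' : P.Nb i a s j') : j = j' := by
  by_contra hne
  obtain ⟨hb, hr, _⟩ := P.nb_coord h
  obtain ⟨hb', hr', _⟩ := P.nb_coord h'
  obtain ⟨a₀, s₀, hthin⟩ := P.inter_thin hne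
  -- lower and upper corners of the intersection
  have hlt : ∀ e, max ((P.b j).lo e) ((P.b j').lo e) < min ((P.b j).hi e) ((P.b j').hi e) := by
    intro e
    have e1 := (P.b j).lt e
    have e2 := (P.b j').lt e
    rcases eq_or_ne e a with rfl | he
    · have hbb : (P.b j).bd e (!s) = (P.b j').bd e (!s) := hb.trans hb'.symm
      cases s with
      | true =>
        simp only [Brick.bd, Bool.not_true, Bool.false_eq_true, if_false] at hbb
        rw [max_lt_iff, lt_min_iff, lt_min_iff]
        refine ⟨⟨e1, by rw [hbb]; exact e2⟩, ⟨by rw [← hbb]; exact e1, e2⟩⟩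
      | false =>
        simp only [Brick.bd, Bool.not_false, if_true] at hbb
        rw [max_lt_iff, lt_min_iff, lt_min_iff]
        refine ⟨⟨e1, by rw [← hbb]; exact e1⟩, ⟨by rw [hbb]; exact e2, e2⟩⟩
    · obtain ⟨f1, f2⟩ := hr e he
      obtain ⟨g1, g2⟩ := hr' e he
      rw [f1, f2, g1, g2, max_self, min_self]
      exact (P.b i).lt e
  have h1 := hthin (WithLp.toLp 2 fun e => max ((P.b j).lo e) ((P.b j').lo e))
    ⟨fun e => ⟨le_max_left _ _, ((hlt e).le.trans (min_le_left _ _))⟩,
      fun e => ⟨le_max_right _ _, ((hlt e).le.trans (min_le_right _ _))⟩⟩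
  have h2 := hthin (WithLp.toLp 2 fun e => min ((P.b j).hi e) ((P.b j').hi e))
    ⟨fun e => ⟨(le_max_left _ _).trans (hlt e).le, min_le_left _ _⟩,
      fun e => ⟨(le_max_right _ _).trans (hlt e).le, min_le_right _ _⟩⟩
  have h3 := hlt a₀
  have h4 : max ((P.b j).lo a₀) ((P.b j').lo a₀) = (P.b j).bd a₀ s₀ := h1
  have h5 : min ((P.b j).hi a₀) ((P.b j').hi a₀) = (P.b j).bd a₀ s₀ := h2
  rw [h4, h5] at h3
  exact lt_irrefl _ h3

end Pool.Agent.Ortho.Orthotree
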