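import Pool.Agent.Ortho.Sem

set_option autoImplicit false

/-!
# Ortho/Tile: the states of one rectangle

One rectangle `v`, boundary edges `e k = edge v (k + ρ)`, frame `r v = ρ - t` (so the label of `e k` is `k + t`), uncut edges `S`.
`N`: `X = Y = 0`, `cp = 0`, `G = ⊥`, `att = v`. Everything is trivial because `A = {v}`; `wfRU`: if some edge has the label `1` then
`S (1 - t)`.
-/

namespace Pool.Agent.Ortho

/-- state of a single rectangle: label of the edge `k` is `k + t`, uncut edges `S` -/
def tileState (t : Fin 4) (S : Fin 4 → Bool) : State (Fin 4) where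
  lab k := if S k then some (k + t) else none
  cmp _ := 0
  col _ := 0
  lu _ := S (3 - t)
  ru _ := S (1 - t)

theorem tileState_lab {t : Fin 4} {S : Fin 4 → Bool} {i d : Fin 4}
    (h : (tileState t S).lab i = some d) : S i = true ∧ i = d - t := by
  unfold tileState at h
  simp only at h
  split_ifs at h with hS
  refine ⟨hS, ?_⟩
  rw [← Option.some.inj h, add_sub_cancel_right]

theorem tile_aux : ∀ ρ t d : Fin 4, ρ - t + d = d - t + ρ := by decide

theorem real_tile {V : Type} (R : Rects V) (v : V) (ρ t : Fin 4) (S : Fin 4 → Bool)
    (hS : ∃ k, S k = true) :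
    Real R {v} (fun k : Fin 4 => R.edge v (k + ρ)) (tileState t S) := by
  obtain ⟨k₀, hk₀⟩ := hS
  let N : PNet V (Fin 4) :=
    { r := fun _ => ρ - t
      X := fun _ => 0
      Y := fun _ => 0
      cp := fun _ => 0
      G := ⊥
      att := fun _ => v }
  refine ⟨N, ?_, ?_⟩
  · constructor
    case supp => intro f g h; exact absurd h (by simp [N])
    case acyc => exact SimpleGraph.isAcyclic_bot
    case conn =>
      intro f hf g hg _
      rw [Finset.mem_singleton] at hf hg
      subst hf; subst hg
      exact SimpleGraph.Reachable.refl _
    case fit => intro f g h; exact absurd h (by simp [N])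
    case sep =>
      intro f hf g hg hne
      rw [Finset.mem_singleton] at hf hg
      exact absurd (hf.trans hg.symm) hne
    case attA => intro i _; exact Finset.mem_singleton.2 rfl
    case attE =>
      intro i d h
      obtain ⟨-, h2⟩ := tileState_lab h
      show R.edge v (ρ - t + d) = R.edge v (i + ρ)
      congr 1
      rw [h2]
      exact tile_aux ρ t d
    case cmp => intro i j _ _; exact ⟨fun _ => rfl, fun _ => rfl⟩
    case openR => intro i _ g hg _; rw [Finset.mem_singleton.1 hg]
    case openL => intro i _ g hg _; rw [Finset.mem_singleton.1 hg]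
    case openU => intro i _ g hg _ _; rw [Finset.mem_singleton.1 hg]
    case openD => intro i _ g hg _ _; rw [Finset.mem_singleton.1 hg]
    case lu => intro i _ _ g hg _; rw [Finset.mem_singleton.1 hg]
    case ru => intro i _ _ g hg _; rw [Finset.mem_singleton.1 hg]
    case col => intro i j _ _ _ _; rfl
    case wfR => intro i j hi hj _; rw [(tileState_lab hi).2, (tileState_lab hj).2]
    case wfL => intro i j hi hj _; rw [(tileState_lab hi).2, (tileState_lab hj).2]
    case wfU => intro i j hi hj _; rw [(tileState_lab hi).2, (tileState_lab hj).2]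
    case wfD => intro i j hi hj _; rw [(tileState_lab hi).2, (tileState_lab hj).2]
    case wfRU =>
      intro i j hi _ _
      obtain ⟨h1, h2⟩ := tileState_lab hi
      show S (1 - t) = true
      rw [← h2]; exact h1
    case wfLU =>
      intro i j hi _ _
      obtain ⟨h1, h2⟩ := tileState_lab hi
      show S (3 - t) = true
      rw [← h2]; exact h1
  · intro f _
    refine ⟨k₀, ?_, rfl⟩
    show (tileState t S).lab k₀ ≠ none
    simp [tileState, hk₀]

end Pool.Agent.Ortho
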