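import Pool.Agent.Ortho.Cls
import Pool.Agent.Ortho.Corner
import Pool.Agent.Ortho.Branch
import Pool.Agent.Ortho.Front
import Pool.Agent.Ortho.Final

set_option autoImplicit false

/-!
# Ortho/TileDef: the rectangles of the bricks and the discs behind them (definitions, sorry-free)

`rects P`: the faces of the surface as oriented rectangles. For every face `f = (i, a, s)` of a brick (exposed or not), `tileA P f` is the
set of the faces of the surface `behind f`: only `f` itself if `f` is exposed, all faces of the branch of the tree behind `f` if there is a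
neighbour at `f`. `tileE P f ρ k`: the directed edge number `k + ρ` of `f`.

For a brick `c` and one of its faces `(a₀, s₀)` (the bottom face), `sub c a₀ s₀ ρ i` and `srot a₀ s₀ ρ i` are the face
and the rotation of the element number `i` (`0..3` = sides, `4` = end) in the frame `ρ` of the bottom face.

`brCls P c a₀ s₀ ρ`: the class of the branch of `c` seen from its face `(a₀, s₀)` in the frame `ρ` (the lateral direction number `k` is
`(sAx a₀ s₀ (k + ρ), sSg a₀ s₀ (k + ρ))`). `tileCls P f ρ`: the class of the branch behind the face `f`.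
-/

namespace Pool.Agent.Ortho

/-- the element number `i` of the brick `c` seen from its face `(a₀, s₀)` in the frame `ρ` -/
def sub {n : ℕ} (c : Fin n) (a₀ : Fin 3) (s₀ : Bool) (ρ : Fin 4) (i : Fin 5) : Orthotree.Pos n :=
  if h : i.1 < 4 then (c, sAx a₀ s₀ (⟨i.1, h⟩ + ρ), sSg a₀ s₀ (⟨i.1, h⟩ + ρ)) else (c, a₀, !s₀)

/-- the rotation of the element number `i` -/
def srot (a₀ : Fin 3) (s₀ : Bool) (ρ : Fin 4) (i : Fin 5) : Fin 4 :=
  if h : i.1 < 4 then sRot a₀ s₀ (⟨i.1, h⟩ + ρ) else ρ + eRot a₀ s₀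

theorem sub_side {n : ℕ} (c : Fin n) (a₀ : Fin 3) (s₀ : Bool) (ρ k : Fin 4) :
    sub c a₀ s₀ ρ k.castSucc = (c, sAx a₀ s₀ (k + ρ), sSg a₀ s₀ (k + ρ)) := by
  unfold sub
  rw [dif_pos (show (k.castSucc : Fin 5).1 < 4 from k.2)]
  rfl

theorem sub_end {n : ℕ} (c : Fin n) (a₀ : Fin 3) (s₀ : Bool) (ρ : Fin 4) :
    sub c a₀ s₀ ρ 4 = (c, a₀, !s₀) := rfl

theorem srot_side (a₀ : Fin 3) (s₀ : Bool) (ρ k : Fin 4) :
    srot a₀ s₀ ρ k.castSucc = sRot a₀ s₀ (k + ρ) := by
  unfold srot
  rw [dif_pos (show (k.castSucc : Fin 5).1 < 4 from k.2)]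
  rfl

theorem srot_end (a₀ : Fin 3) (s₀ : Bool) (ρ : Fin 4) : srot a₀ s₀ ρ 4 = ρ + eRot a₀ s₀ := rfl

namespace Orthotree

variable {n : ℕ} (P : Orthotree n)

noncomputable instance : Fintype P.Face := by
  classical exact inferInstanceAs (Fintype {f : Pos n // P.rect f ⊆ frontier P.body})

noncomputable instance : DecidableEq P.Face := Classical.decEq _

theorem fUx_add_two (a : Fin 3) (s : Bool) (r : Fin 4) : fUx a s (r + 2) = fUx a s r := by
  revert a s r; decide

theorem fin4_add_two_one (k : Fin 4) : k + 2 + 1 = k + 3 := by revert k; decide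

/-- the faces of the surface as oriented rectangles -/
noncomputable def rects : Rects P.Face where
  cor f k := P.cor f.1 k
  opp f k := by
    have h := P.fin_len f.1 (k + 2)
    rw [fUx_add_two, ← P.fin_len f.1 k, fin4_add_two_one] at h
    exact h
  pos f k := by
    show 0 < dist (P.cor f.1 k) (P.cor f.1 (k + 1))
    rw [P.fin_len f.1 k]
    have := (P.b f.1.1).lt (fUx f.1.2.1 f.1.2.2 k)
    linarith

theorem rects_cor (f : P.Face) (k : Fin 4) : P.rects.cor f k = P.cor f.1 k := rfl

open Classical in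
/-- the faces of the surface behind the face `f` of a brick -/
noncomputable def tileA (f : Pos n) : Finset P.Face :=
  Finset.univ.filter fun g => g.1 = f ∨ ∃ j, P.Nb f.1 f.2.1 f.2.2 j ∧ g.1.1 ∈ branch P.T f.1 j

/-- directed edges of a face in the frame `ρ` -/
noncomputable def tileE (f : Pos n) (ρ k : Fin 4) : E3 × E3 := (P.cor f (k + ρ), P.cor f (k + ρ + 1))

/-- the brick `i` has a neighbour at the face `(a, s)` -/
def HasNb (i : Fin n) (a : Fin 3) (s : Bool) : Prop := ∃ j, P.Nb i a s j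

open Classical in
/-- class of the branch of `c` seen from its face `(a₀, s₀)` in the frame `ρ` -/
noncomputable def brCls (c : Fin n) (a₀ : Fin 3) (s₀ : Bool) (ρ : Fin 4) : Cls where
  T k := decide (P.HasNb c (sAx a₀ s₀ (k + ρ)) (sSg a₀ s₀ (k + ρ)))
  top := decide (P.HasNb c a₀ (!s₀))
  B k := decide (∃ (m : Fin 4) (x : Fin n), (m = k + 1 ∨ m = k + 3) ∧
    P.Nb c (sAx a₀ s₀ (m + ρ)) (sSg a₀ s₀ (m + ρ)) x ∧
    P.HasNb x (sAx a₀ s₀ (k + ρ)) (sSg a₀ s₀ (k + ρ)))

open Classical in
/-- class of the branch behind the face `f` in the frame `ρ` -/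
noncomputable def tileCls (f : Pos n) (ρ : Fin 4) : Option Cls :=
  if h : ∃ j, P.Nb f.1 f.2.1 f.2.2 j then some (P.brCls h.choose f.2.1 (!f.2.2) ρ) else none

theorem tileCls_none {f : Pos n} (h : P.Exposed f) (ρ : Fin 4) : P.tileCls f ρ = none := by
  unfold tileCls
  rw [dif_neg]
  rintro ⟨j, hj⟩
  exact h j hj

theorem tileCls_some {f : Pos n} {j : Fin n} (h : P.Nb f.1 f.2.1 f.2.2 j) (ρ : Fin 4) :
    P.tileCls f ρ = some (P.brCls j f.2.1 (!f.2.2) ρ) := by
  unfold tileCls
  have h1 : ∃ j, P.Nb f.1 f.2.1 f.2.2 j := ⟨j, h⟩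
  rw [dif_pos h1, P.nb_unique h h1.choose_spec]

end Orthotree

end Pool.Agent.Ortho
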