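import Pool.Agent.Ortho.TileDef

set_option autoImplicit false

/-!
# Ortho/TileGeo: the discs behind the faces of a brick

Definitions in `TileDef` (`tileA`, `tileE`, `sub`, `srot`).

* `tileA_exposed`: `exposed_iff` gives the face `⟨f, _⟩` of the surface; `Exposed` excludes the second alternative.
* `conf_sub`: `disj`: the five faces `sub c a₀ s₀ ρ i` are different faces of `c` (`side_inj`, `sAx_ne`); `tileA` of different faces `f`, `f'` of the
  same brick are disjoint: a face `g` of the surface in both: `g.1 = f` and `g.1 = f'` impossible; `g.1 = f`, `g.1.1 = c ∈ branch c x`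
  impossible (`self_not_mem_branch`); `g.1.1 ∈ branch c x`, `∈ branch c x'`: `x ≠ x'` (`nb_face_unique`), `branch_disj`. `top`, `lat`: the corners
  `cor (sub ..) (m + srot ..)` are `sideC a₀ s₀ (k + ρ) m` for the side `k`, and `qt a₀ s₀ (m + ρ)` for the end (`sideC_eq`, `qt_eq`).
* `tileA_sub`: `c` is the neighbour of `p` at `(a, s)`: a face `g` of the surface is in `tileA P (p, a, s)` iff its brick is in `branch p c`
  (`g.1 = (p, a, s)` is impossible because `(p, a, s)` is not exposed, `exposed_iff`; `nb_unique`), iff its brick is `c` or in `branch c d` for a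
  neighbour `d ≠ p` of `c` (`mem_branch_rec`). If it is `c` then `g.1` is one of the five faces (`exists_side`; the bottom face `(a, !s)` of `c` is
  covered by `p`, `nb_coord`). A neighbour `d ≠ p` of `c` is the neighbour at one of the five faces (`exists_nb`, `nb_unique`).
* `tileE_sub`: the corner `k` of the face `(a, s)` of `p` is the corner `qb a (!s) k` of `c` (`cb_flip`, `nb_coord`).
* `root_cover`: all faces of the surface are behind one of the six faces of `p` if `p` is a leaf with the neighbour `c` at `(a, s)`, or if `p` is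
  the only brick: the brick of a face `g` is `p` or (`branch_leaf`) in the branch of `c`.
* `root_glue`: `qb a s k = cb a s (-k)`.
-/

namespace Pool.Agent.Ortho

namespace Orthotree

variable {n : ℕ} (P : Orthotree n)

theorem mem_tileA {f : Pos n} {g : P.Face} :
    g ∈ P.tileA f ↔ g.1 = f ∨ ∃ j, P.Nb f.1 f.2.1 f.2.2 j ∧ g.1.1 ∈ branch P.T f.1 j := by
  classical
  unfold tileA
  rw [Finset.mem_filter]
  exact ⟨fun h => h.2, fun h => ⟨Finset.mem_univ _, h⟩⟩

theorem tileA_exposed {f : Pos n} (h : P.Exposed f) :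
    ∃ g : P.Face, g.1 = f ∧ P.tileA f = {g} := by
  obtain ⟨g₀, hg₀⟩ : ∃ g : P.Face, g.1 = f := ⟨⟨f, (P.exposed_iff f).1 h⟩, rfl⟩
  refine ⟨g₀, hg₀, Finset.ext fun g => ?_⟩
  refine P.mem_tileA.trans (Iff.trans ?_ Finset.mem_singleton.symm)
  constructor
  · rintro (h1 | ⟨j, hj, -⟩)
    · exact Subtype.ext (h1.trans hg₀.symm)
    · exact absurd hj (h j)
  · rintro rfl
    exact Or.inl hg₀

theorem tileE_exposed (g : P.Face) (ρ : Fin 4) :
    P.tileE g.1 ρ = fun k => P.rects.edge g (k + ρ) := rfl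

/-- different faces of the same brick -/
theorem tileA_disj {f f' : Pos n} (h1 : f.1 = f'.1) (hne : f ≠ f') :
    Disjoint (P.tileA f) (P.tileA f') := by
  rw [Finset.disjoint_left]
  intro g hg hg'
  rw [mem_tileA] at hg hg'
  rcases hg with hg | ⟨x, hx, hgx⟩
  · rcases hg' with hg' | ⟨y, hy, hgy⟩
    · exact hne (hg.symm.trans hg')
    · rw [hg, h1] at hgy
      exact self_not_mem_branch _ _ hgy
  · rcases hg' with hg' | ⟨y, hy, hgy⟩
    · rw [hg', ← h1] at hgx
      exact self_not_mem_branch _ _ hgx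
    · rw [← h1] at hy hgy
      by_cases hxy : x = y
      · subst hxy
        obtain ⟨e1, e2⟩ := P.nb_face_unique hx hy
        exact hne (Prod.ext h1 (Prod.ext e1 e2))
      · exact (Finset.disjoint_left.1 (branch_disj P.tree hx.1 hy.1 hxy)) hgx hgy

theorem sub_fst (c : Fin n) (a₀ : Fin 3) (s₀ : Bool) (ρ : Fin 4) (i : Fin 5) :
    (sub c a₀ s₀ ρ i).1 = c := by
  unfold sub
  split_ifs <;> rfl

theorem sub_inj (c : Fin n) (a₀ : Fin 3) (s₀ : Bool) (ρ : Fin 4) {i j : Fin 5} (hij : i ≠ j) :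
    sub c a₀ s₀ ρ i ≠ sub c a₀ s₀ ρ j := by
  intro h
  unfold sub at h
  split_ifs at h with h1 h2 h2
  · have e := (Prod.ext_iff.1 h).2
    have e1 := (Prod.ext_iff.1 e).1
    have e2 := (Prod.ext_iff.1 e).2
    have := side_inj a₀ s₀ _ _ e1 e2
    have h3 := add_right_cancel this
    apply hij
    ext
    exact (Fin.mk.inj_iff.1 h3)
  · exact sAx_ne a₀ s₀ _ (Prod.ext_iff.1 (Prod.ext_iff.1 h).2).1
  · exact sAx_ne a₀ s₀ _ (Prod.ext_iff.1 (Prod.ext_iff.1 h).2).1.symm
  · apply hij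
    ext
    have := i.2
    have := j.2
    omega

/-- the bottom face is not among the five faces -/
theorem sub_ne (c : Fin n) (a₀ : Fin 3) (s₀ : Bool) (ρ : Fin 4) (i : Fin 5) :
    sub c a₀ s₀ ρ i ≠ (c, a₀, s₀) := by
  intro h
  unfold sub at h
  split_ifs at h with h1
  · exact sAx_ne a₀ s₀ _ (Prod.ext_iff.1 (Prod.ext_iff.1 h).2).1
  · have := (Prod.ext_iff.1 (Prod.ext_iff.1 h).2).2
    revert this
    show (!s₀) = s₀ → False
    cases s₀ <;> simp

/-- every face of the brick is the bottom face or one of the five others -/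
theorem exists_sub (c : Fin n) (a₀ : Fin 3) (s₀ : Bool) (ρ : Fin 4) (a : Fin 3) (s : Bool) :
    (a = a₀ ∧ s = s₀) ∨ ∃ i, sub c a₀ s₀ ρ i = (c, a, s) := by
  by_cases ha : a = a₀
  · subst ha
    by_cases hs : s = s₀
    · exact Or.inl ⟨rfl, hs⟩
    · right
      refine ⟨4, ?_⟩
      rw [sub_end]
      have : (!s₀) = s := by
        cases s <;> cases s₀ <;> simp_all
      rw [this]
  · right
    obtain ⟨k, h1, h2⟩ := exists_side a₀ s₀ a s ha
    refine ⟨(k - ρ).castSucc, ?_⟩
    rw [sub_side, sub_add_cancel, h1, h2]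

theorem tileE_side (c : Fin n) (a₀ : Fin 3) (s₀ : Bool) (ρ k m : Fin 4) :
    P.tileE (sub c a₀ s₀ ρ k.castSucc) (srot a₀ s₀ ρ k.castSucc) m =
      (P.pt c (sideC a₀ s₀ (k + ρ) m), P.pt c (sideC a₀ s₀ (k + ρ) (m + 1))) := by
  rw [sub_side, srot_side, sideC_eq, sideC_eq]
  unfold tileE cor
  have : m + sRot a₀ s₀ (k + ρ) + 1 = m + 1 + sRot a₀ s₀ (k + ρ) := by
    rw [add_right_comm]
  rw [this]

theorem tileE_end (c : Fin n) (a₀ : Fin 3) (s₀ : Bool) (ρ m : Fin 4) :
    P.tileE (sub c a₀ s₀ ρ 4) (srot a₀ s₀ ρ 4) m =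
      (P.pt c (qt a₀ s₀ (m + ρ)), P.pt c (qt a₀ s₀ (m + ρ + 1))) := by
  rw [sub_end, srot_end, qt_eq, qt_eq]
  unfold tileE cor
  have h1 : m + (ρ + eRot a₀ s₀) = m + ρ + eRot a₀ s₀ := (add_assoc _ _ _).symm
  have h2 : m + ρ + eRot a₀ s₀ + 1 = m + ρ + 1 + eRot a₀ s₀ := by
    rw [add_right_comm]
  rw [h1, h2]

theorem conf_sub (c : Fin n) (a₀ : Fin 3) (s₀ : Bool) (ρ : Fin 4) :
    Conf (fun i => P.tileA (sub c a₀ s₀ ρ i))
      (fun i => P.tileE (sub c a₀ s₀ ρ i) (srot a₀ s₀ ρ i)) where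
  disj i j hij := P.tileA_disj (by rw [sub_fst, sub_fst]) (sub_inj c a₀ s₀ ρ hij)
  top k := by
    show P.tileE (sub c a₀ s₀ ρ 4) (srot a₀ s₀ ρ 4) k = _
    rw [tileE_end, tileE_side]
    rfl
  lat k := by
    show P.tileE (sub c a₀ s₀ ρ (k + 1).castSucc) (srot a₀ s₀ ρ (k + 1).castSucc) 3 = _
    rw [tileE_side, tileE_side, add_right_comm k 1 ρ]
    rfl

theorem tileA_sub {p c : Fin n} {a : Fin 3} {s : Bool} (h : P.Nb p a s c) (ρ : Fin 4) :
    P.tileA (p, a, s) = Finset.univ.biUnion fun i => P.tileA (sub c a (!s) ρ i) := by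
  have hb := (P.nb_coord h).2.2
  ext g
  rw [mem_tileA, Finset.mem_biUnion]
  have hne : g.1 ≠ (p, a, s) := by
    intro hg
    have h1 := (P.exposed_iff g.1).2 g.2
    rw [hg] at h1
    exact h1 c h
  constructor
  · rintro (h1 | ⟨j, hj, hgj⟩)
    · exact absurd h1 hne
    · have hjc : j = c := P.nb_unique hj h
      subst hjc
      rcases (mem_branch_rec P.tree h.1 _).1 hgj with h2 | ⟨d, hd, hdp, hgd⟩
      · -- the brick of `g` is `c`
        rcases exists_sub j a (!s) ρ g.1.2.1 g.1.2.2 with ⟨e1, e2⟩ | ⟨i, hi⟩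
        · exfalso
          have h1 := (P.exposed_iff g.1).2 g.2 p
          apply h1
          rw [h2, e1, e2]
          exact hb
        · refine ⟨i, Finset.mem_univ _, P.mem_tileA.2 (Or.inl ?_)⟩
          rw [hi]
          exact Prod.ext h2 rfl
      · obtain ⟨a', s', hnb⟩ := P.exists_nb hd
        rcases exists_sub j a (!s) ρ a' s' with ⟨e1, e2⟩ | ⟨i, hi⟩
        · exfalso
          subst e1
          subst e2
          exact hdp (P.nb_unique hnb hb)
        · refine ⟨i, Finset.mem_univ _, P.mem_tileA.2 (Or.inr ⟨d, ?_, ?_⟩)⟩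
          · rw [hi]
            exact hnb
          · rw [hi]
            exact hgd
  · rintro ⟨i, -, hi⟩
    right
    refine ⟨c, h, ?_⟩
    rw [mem_tileA, sub_fst] at hi
    rcases hi with hi | ⟨d, hd, hgd⟩
    · refine (mem_branch_rec P.tree h.1 _).2 (Or.inl ?_)
      rw [hi, sub_fst]
    · refine (mem_branch_rec P.tree h.1 _).2 (Or.inr ⟨d, hd.1, ?_, hgd⟩)
      rintro rfl
      obtain ⟨e1, e2⟩ := P.nb_face_unique hd hb
      exact sub_ne c a (!s) ρ i (Prod.ext (sub_fst c a (!s) ρ i) (Prod.ext e1 e2))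

theorem cb_axis (a : Fin 3) (s : Bool) (k : Fin 4) : cb a s k a = s := by
  revert a s k; decide

theorem pt_flip {p c : Fin n} {a : Fin 3} {s : Bool} (h : P.Nb p a s c) (k : Fin 4) :
    P.pt c (qb a (!s) k) = P.pt p (cb a s k) := by
  obtain ⟨h1, h2, -⟩ := P.nb_coord h
  unfold pt
  congr 1
  funext x
  have h3 := congrFun (cb_flip a (!s) k) x
  rw [Bool.not_not] at h3
  rw [← h3]
  by_cases hx : x = a
  · subst hx
    rw [if_pos rfl, h1, cb_axis]
  · rw [if_neg hx]
    obtain ⟨e1, e2⟩ := h2 x hx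
    unfold Brick.bd
    rw [e1, e2]

theorem tileE_sub {p c : Fin n} {a : Fin 3} {s : Bool} (h : P.Nb p a s c) (ρ : Fin 4) :
    P.tileE (p, a, s) ρ =
      fun k : Fin 4 => P.tileE (sub c a (!s) ρ k.castSucc) (srot a (!s) ρ k.castSucc) 0 := by
  funext k
  rw [tileE_side]
  show _ = (P.pt c (qb a (!s) (k + ρ)), P.pt c (qb a (!s) (k + ρ + 1)))
  rw [P.pt_flip h, P.pt_flip h]
  rfl

/-- the six faces of a root which is a leaf or the only brick -/
theorem root_cover {p : Fin n} {a : Fin 3} {s : Bool}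
    (h : (∃ c, P.Nb p a s c ∧ ∀ d, P.T.Adj p d → d = c) ∨ ∀ i, i = p) :
    (∀ f : P.Face, f ∈ P.tileA (p, a, s) ∪
      Finset.univ.biUnion fun i => P.tileA (sub p a s 0 i)) ∧
    (∀ i, P.Exposed (sub p a s 0 i)) ∧
    (∀ i, Disjoint (P.tileA (sub p a s 0 i)) (P.tileA (p, a, s))) := by
  refine ⟨?_, ?_, fun i => P.tileA_disj (sub_fst _ _ _ _ _) (sub_ne p a s 0 i)⟩
  · intro f
    rw [Finset.mem_union, Finset.mem_biUnion]
    have key : f.1.1 = p → f ∈ P.tileA (p, a, s) ∨
        ∃ i ∈ (Finset.univ : Finset (Fin 5)), f ∈ P.tileA (sub p a s 0 i) := by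
      intro hf
      rcases exists_sub p a s 0 f.1.2.1 f.1.2.2 with ⟨e1, e2⟩ | ⟨i, hi⟩
      · left
        rw [mem_tileA]
        exact Or.inl (Prod.ext hf (Prod.ext e1 e2))
      · right
        refine ⟨i, Finset.mem_univ _, P.mem_tileA.2 (Or.inl ?_)⟩
        rw [hi]
        exact Prod.ext hf rfl
    rcases h with ⟨c, hc, hl⟩ | h
    · rcases branch_leaf P.tree hc.1 hl f.1.1 with hf | hf
      · exact key hf
      · left
        rw [mem_tileA]
        exact Or.inr ⟨c, hc, hf⟩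
    · exact key (h _)
  · intro i j hj
    rw [sub_fst] at hj
    rcases h with ⟨c, hc, hl⟩ | h
    · have hjc := hl j hj.1
      subst hjc
      obtain ⟨e1, e2⟩ := P.nb_face_unique hj hc
      exact sub_ne p a s 0 i (Prod.ext (sub_fst p a s 0 i) (Prod.ext e1 e2))
    · have h1 := hj.1
      rw [h j] at h1
      exact P.T.loopless.irrefl _ h1

theorem root_glue (p : Fin n) (a : Fin 3) (s : Bool) (k : Fin 4) :
    P.tileE (p, a, s) 0 (3 - k) =
      (P.tileE (sub p a s 0 k.castSucc) (srot a s 0 k.castSucc) 0).swap := by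
  rw [tileE_side]
  show (P.pt p (cb a s (3 - k + 0)), P.pt p (cb a s (3 - k + 0 + 1))) =
    (P.pt p (cb a s (-(k + 0 + 1))), P.pt p (cb a s (-(k + 0))))
  have h1 : (3 : Fin 4) - k + 0 = -(k + 0 + 1) := by
    revert k; decide
  have h2 : (3 : Fin 4) - k + 0 + 1 = -(k + 0) := by
    revert k; decide
  rw [h2, h1]

end Orthotree

end Pool.Agent.Ortho
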